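import Mathlib

/-!
Definitions for the problem on the limiting distribution of angles in planar point sets.
-/

set_option autoImplicit false

namespace Pool.Agent.Helper585.Acute

open scoped Classical
open Filter

/-- distinct points, no three collinear -/
def GenPos {n : ℕ} (P : Fin n → EuclideanSpace ℝ (Fin 2)) : Prop :=
  Function.Injective P ∧ ∀ i j k : Fin n, i ≠ j → j ≠ k → i ≠ k →
    ¬ Collinear ℝ {P i, P j, P k}

/-- the number of angles of a configuration whose size satisfies `R`: vertices `j` and unordered
pairs `{i, k}` -/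
noncomputable def cnt (R : ℝ → Prop) {n : ℕ} (P : Fin n → EuclideanSpace ℝ (Fin 2)) : ℕ :=
  (Finset.univ.filter fun t : Fin n × Fin n × Fin n =>
    t.1 < t.2.2 ∧ t.2.1 ≠ t.1 ∧ t.2.1 ≠ t.2.2 ∧
      R (EuclideanGeometry.angle (P t.1) (P t.2.1) (P t.2.2))).card

/-- the smallest proportion of such angles among `n` points in general position -/
noncomputable def ratio (R : ℝ → Prop) (n : ℕ) : ℝ :=
  sInf {r : ℝ | ∃ P : Fin n → EuclideanSpace ℝ (Fin 2), GenPos P ∧
    r = (cnt R P : ℝ) / (1 / 2 * n * (n - 1) * (n - 2))}

/-- `F α`: limit of the smallest proportion of angles greater than `α` -/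
noncomputable def F (α : ℝ) : ℝ := limUnder atTop (ratio fun a => α < a)

/-- `G α`: limit of the smallest proportion of angles less than `α` -/
noncomputable def G (α : ℝ) : ℝ := limUnder atTop (ratio fun a => a < α)

end Pool.Agent.Helper585.Acute
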