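import Mathlib
import Pool.Agent.Helper585.Acute.Defs2

/-!
Points in clusters on a circle.
-/

set_option autoImplicit false

namespace Pool.Agent.Helper585.Acute

open scoped Classical
open Filter

/-- a point of the unit circle -/
noncomputable def circ (x : ℝ) : EuclideanSpace ℝ (Fin 2) := !₂[Real.cos x, Real.sin x]

theorem circ_inner (x y z : ℝ) :
    inner ℝ (circ x - circ y) (circ z - circ y) =
      4 * Real.sin ((x - y) / 2) * Real.sin ((z - y) / 2) * Real.cos ((z - x) / 2) := by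
  have h1 : inner ℝ (circ x - circ y) (circ z - circ y) =
      (Real.cos z - Real.cos y) * (Real.cos x - Real.cos y) +
        (Real.sin z - Real.sin y) * (Real.sin x - Real.sin y) := by
    simp [PiLp.inner_apply, Fin.sum_univ_two, circ]
  rw [h1, Real.cos_sub_cos z y, Real.cos_sub_cos x y, Real.sin_sub_sin z y, Real.sin_sub_sin x y]
  have h2 : (z - x) / 2 = (z + y) / 2 - (x + y) / 2 := by ring
  rw [h2, Real.cos_sub]
  ring

theorem circ_norm (x y : ℝ) : ‖circ x - circ y‖ = 2 * |Real.sin ((x - y) / 2)| := by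
  have h1 := circ_inner x y x
  rw [real_inner_self_eq_norm_sq, sub_self, zero_div, Real.cos_zero, mul_one] at h1
  have h2 : ‖circ x - circ y‖ ^ 2 = (2 * |Real.sin ((x - y) / 2)|) ^ 2 := by
    rw [h1, mul_pow, sq_abs]
    ring
  have h3 : (0 : ℝ) ≤ 2 * |Real.sin ((x - y) / 2)| := by positivity
  exact (pow_left_inj₀ (norm_nonneg _) h3 (two_ne_zero)).mp h2

theorem circ_angle (x y z : ℝ) :
    EuclideanGeometry.angle (circ x) (circ y) (circ z) =
      Real.arccos ((4 * Real.sin ((x - y) / 2) * Real.sin ((z - y) / 2) *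
        Real.cos ((z - x) / 2)) /
        ((2 * |Real.sin ((x - y) / 2)|) * (2 * |Real.sin ((z - y) / 2)|))) := by
  unfold EuclideanGeometry.angle InnerProductGeometry.angle
  rw [vsub_eq_sub, vsub_eq_sub, circ_inner, circ_norm, circ_norm]

theorem circ_pos (s t c : ℝ) (h : 0 < s * t) :
    (4 * s * t * c) / ((2 * |s|) * (2 * |t|)) = c := by
  have h1 : (2 * |s|) * (2 * |t|) = 4 * (s * t) := by
    have : |s| * |t| = s * t := by rw [← abs_mul, abs_of_pos h]
    linear_combination 4 * this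
  rw [h1]
  have h2 : 4 * (s * t) ≠ 0 := by positivity
  rw [div_eq_iff h2]
  ring

theorem circ_neg (s t c : ℝ) (h : s * t < 0) :
    (4 * s * t * c) / ((2 * |s|) * (2 * |t|)) = -c := by
  have h1 : (2 * |s|) * (2 * |t|) = -4 * (s * t) := by
    have : |s| * |t| = -(s * t) := by rw [← abs_mul, abs_of_neg h]
    linear_combination 4 * this
  rw [h1]
  have h2 : -4 * (s * t) ≠ 0 := by
    have : 0 < -4 * (s * t) := by linarith
    exact this.ne'
  rw [div_eq_iff h2]
  ring

theorem circ_out (x y z : ℝ) (hx : 0 ≤ x) (hy : 0 ≤ y) (hy2 : y < 2 * Real.pi) (hxz : x < z)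
    (hz : z < 2 * Real.pi) (h : y < x ∨ z < y) :
    EuclideanGeometry.angle (circ x) (circ y) (circ z) = (z - x) / 2 := by
  have hst : 0 < Real.sin ((x - y) / 2) * Real.sin ((z - y) / 2) := by
    rcases h with h | h
    · exact mul_pos (Real.sin_pos_of_pos_of_lt_pi (by linarith) (by linarith))
        (Real.sin_pos_of_pos_of_lt_pi (by linarith) (by linarith))
    · exact mul_pos_of_neg_of_neg
        (Real.sin_neg_of_neg_of_neg_pi_lt (by linarith) (by linarith))
        (Real.sin_neg_of_neg_of_neg_pi_lt (by linarith) (by linarith))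
  rw [circ_angle, circ_pos _ _ _ hst, Real.arccos_cos (by linarith) (by linarith)]

theorem circ_in (x y z : ℝ) (hx : 0 ≤ x) (hxy : x < y) (hyz : y < z) (hz : z < 2 * Real.pi) :
    EuclideanGeometry.angle (circ x) (circ y) (circ z) = Real.pi - (z - x) / 2 := by
  have hst : Real.sin ((x - y) / 2) * Real.sin ((z - y) / 2) < 0 :=
    mul_neg_of_neg_of_pos (Real.sin_neg_of_neg_of_neg_pi_lt (by linarith) (by linarith))
      (Real.sin_pos_of_pos_of_lt_pi (by linarith) (by linarith))
  rw [circ_angle, circ_neg _ _ _ hst, Real.arccos_neg,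
    Real.arccos_cos (by linarith) (by linarith)]

theorem circ_genPos {n : ℕ} (θ : Fin n → ℝ) (hinj : Function.Injective θ)
    (h : ∀ i, 0 ≤ θ i ∧ θ i < 2 * Real.pi) : GenPos (fun i => circ (θ i)) := by
  have hc0 : ∀ x, circ x 0 = Real.cos x := fun x => by simp [circ]
  have hc1 : ∀ x, circ x 1 = Real.sin x := fun x => by simp [circ]
  have hP : Function.Injective (fun i => circ (θ i)) := by
    intro i j hij
    have hij' : circ (θ i) = circ (θ j) := hij
    have h0 : Real.cos (θ i) = Real.cos (θ j) := by rw [← hc0, ← hc0, hij']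
    have h1 : Real.sin (θ i) = Real.sin (θ j) := by rw [← hc1, ← hc1, hij']
    have h2 : Real.cos (θ i - θ j) = 1 := by
      rw [Real.cos_sub, h0, h1]
      have := Real.cos_sq_add_sin_sq (θ j)
      nlinarith
    have h3 := (Real.cos_eq_one_iff_of_lt_of_lt (by linarith [(h i).1, (h j).2])
      (by linarith [(h j).1, (h i).2])).mp h2
    exact hinj (by linarith)
  have hcos : EuclideanGeometry.Cospherical (Set.range fun i => circ (θ i)) := by
    refine ⟨0, 1, ?_⟩
    rintro _ ⟨i, rfl⟩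
    rw [dist_zero_right, EuclideanSpace.norm_eq, Fin.sum_univ_two]
    simp only [hc0, hc1, Real.norm_eq_abs, sq_abs]
    rw [Real.cos_sq_add_sin_sq, Real.sqrt_one]
  refine ⟨hP, fun i j k hij hjk hik => ?_⟩
  rw [← affineIndependent_iff_not_collinear_set]
  exact hcos.affineIndependent_of_mem_of_ne ⟨i, rfl⟩ ⟨j, rfl⟩ ⟨k, rfl⟩
    (fun h => hij (hP h)) (fun h => hik (hP h)) (fun h => hjk (hP h))

theorem cnt_aux_g (N : ℤ) (t : ℕ) :
    6 * ∑ b ∈ Finset.range t, ∑ a ∈ Finset.range b, (N - ((b : ℤ) - (a : ℤ))) =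
      (t : ℤ) * ((t : ℤ) - 1) * (3 * N - t - 1) := by
  induction t with
  | zero => simp
  | succ t ih =>
    rw [Finset.sum_range_succ, mul_add, ih]
    have h1 : ∀ n : ℕ, 2 * ∑ a ∈ Finset.range n, (N - ((t : ℤ) - (a : ℤ))) =
        2 * n * (N - t) + n * (n - 1) := by
      intro n
      induction n with
      | zero => simp
      | succ n ihn =>
        rw [Finset.sum_range_succ, mul_add, ihn]
        push_cast
        ring
    have h2 := h1 t
    have h3 : 6 * ∑ a ∈ Finset.range t, (N - ((t : ℤ) - (a : ℤ))) =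
        3 * (2 * t * (N - t) + t * (t - 1)) := by rw [← h2]; ring
    rw [h3]
    push_cast
    ring

theorem cnt_aux_fin (N : ℤ) (t : ℕ) :
    ∑ a : Fin t, ∑ b : Fin t, (if (a : ℕ) < (b : ℕ) then (N - (((b : ℕ) : ℤ) - ((a : ℕ) : ℤ))) else 0) =
      ∑ b ∈ Finset.range t, ∑ a ∈ Finset.range b, (N - ((b : ℤ) - (a : ℤ))) := by
  rw [Finset.sum_comm]
  rw [← Fin.sum_univ_eq_sum_range (fun b => ∑ a ∈ Finset.range b, (N - ((b : ℤ) - (a : ℤ)))) t]
  refine Finset.sum_congr rfl (fun b _ => ?_)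
  rw [Fin.sum_univ_eq_sum_range (fun a => if a < (b : ℕ) then (N - (((b : ℕ) : ℤ) - (a : ℤ))) else 0) t]
  have hb : (b : ℕ) ≤ t := b.2.le
  rw [← Finset.sum_subset (Finset.range_subset_range.mpr hb)]
  · refine Finset.sum_congr rfl (fun a ha => ?_)
    rw [if_pos (Finset.mem_range.mp ha)]
  · intro a _ ha
    rw [if_neg (fun h => ha (Finset.mem_range.mpr h))]

theorem cnt_aux_j (N : ℕ) (i k : Fin N) (hik : i < k) :
    (∑ j : Fin N, (if (j < i ∨ k < j) then (1 : ℤ) else 0)) ≤ (N : ℤ) - (((k : ℕ) : ℤ) - ((i : ℕ) : ℤ)) := by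
  have h1 : (∑ j : Fin N, (if (j < i ∨ k < j) then (1 : ℤ) else 0)) =
      ((Finset.univ.filter (fun j : Fin N => j < i ∨ k < j)).card : ℤ) := by
    rw [Finset.card_filter]
    push_cast
    rfl
  rw [h1]
  have h2 : (Finset.univ.filter (fun j : Fin N => j < i ∨ k < j)) = Finset.univ \ Finset.Icc i k := by
    ext j
    simp only [Finset.mem_filter, Finset.mem_univ, true_and, Finset.mem_sdiff, Finset.mem_Icc]
    constructor
    · rintro (h | h) ⟨h3, h4⟩
      · exact absurd h (not_lt.mpr h3)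
      · exact absurd h (not_lt.mpr h4)
    · intro h
      by_contra hcon
      rw [not_or, not_lt, not_lt] at hcon
      exact h hcon
  have h3 : (Finset.univ \ Finset.Icc i k).card = N - ((k : ℕ) + 1 - (i : ℕ)) := by
    rw [Finset.card_sdiff_of_subset (Finset.subset_univ _), Finset.card_univ, Fintype.card_fin, Fin.card_Icc]
  rw [h2, h3]
  have h4 : (i : ℕ) < (k : ℕ) := hik
  have h5 : (k : ℕ) < N := k.2
  omega

theorem cnt_out (m t : ℕ) (hm : 1 ≤ m) :
    6 * (Finset.univ.filter fun q : Fin (m * t) × Fin (m * t) × Fin (m * t) =>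
      q.1 < q.2.2 ∧ (q.1 : ℕ) / t = (q.2.2 : ℕ) / t ∧ (q.2.1 < q.1 ∨ q.2.2 < q.2.1)).card
      + m * t ^ 3 ≤ 3 * m ^ 2 * t ^ 3 := by
  rcases Nat.eq_zero_or_pos t with ht | ht
  · subst ht
    have : (Finset.univ.filter fun q : Fin (m * 0) × Fin (m * 0) × Fin (m * 0) =>
      q.1 < q.2.2 ∧ (q.1 : ℕ) / 0 = (q.2.2 : ℕ) / 0 ∧ (q.2.1 < q.1 ∨ q.2.2 < q.2.1)).card = 0 := by
      rw [Finset.card_eq_zero, Finset.filter_eq_empty_iff]
      rintro ⟨q, _, _⟩ _
      exact absurd q.2 (by simp)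
    rw [this]
    simp
  set N := m * t with hN
  have hcard : ((Finset.univ.filter fun q : Fin N × Fin N × Fin N =>
      q.1 < q.2.2 ∧ (q.1 : ℕ) / t = (q.2.2 : ℕ) / t ∧ (q.2.1 < q.1 ∨ q.2.2 < q.2.1)).card : ℤ) ≤
      ∑ i : Fin N, ∑ k : Fin N, (if (i < k ∧ (i : ℕ) / t = (k : ℕ) / t) then
        ((N : ℤ) - (((k : ℕ) : ℤ) - ((i : ℕ) : ℤ))) else 0) := by
    rw [Finset.card_filter]
    push_cast
    rw [Fintype.sum_prod_type]
    refine Finset.sum_le_sum (fun i _ => ?_)
    rw [Fintype.sum_prod_type, Finset.sum_comm]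
    refine Finset.sum_le_sum (fun k _ => ?_)
    dsimp only
    split_ifs with h
    · refine le_trans (le_of_eq ?_) (cnt_aux_j N i k h.1)
      refine Finset.sum_congr rfl (fun j _ => ?_)
      by_cases hj : j < i ∨ k < j
      · rw [if_pos ⟨h.1, h.2, hj⟩, if_pos hj]
      · rw [if_neg (fun hh => hj hh.2.2), if_neg hj]
    · refine le_of_eq (Finset.sum_eq_zero (fun j _ => ?_))
      rw [if_neg (fun hh => h ⟨hh.1, hh.2.1⟩)]
  have hre : ∑ i : Fin N, ∑ k : Fin N, (if (i < k ∧ (i : ℕ) / t = (k : ℕ) / t) then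
        ((N : ℤ) - (((k : ℕ) : ℤ) - ((i : ℕ) : ℤ))) else 0) =
      (m : ℤ) * ∑ a : Fin t, ∑ b : Fin t, (if (a : ℕ) < (b : ℕ) then
        ((N : ℤ) - (((b : ℕ) : ℤ) - ((a : ℕ) : ℤ))) else 0) := by
    rw [← Equiv.sum_comp (finProdFinEquiv (m := m) (n := t))]
    rw [Fintype.sum_prod_type]
    have hs : ∀ s : Fin m, ∑ a : Fin t, ∑ k : Fin (m * t),
        (if ((finProdFinEquiv (s, a)) < k ∧ ((finProdFinEquiv (s, a) : Fin (m * t)) : ℕ) / t = (k : ℕ) / t) then
        ((N : ℤ) - (((k : ℕ) : ℤ) - (((finProdFinEquiv (s, a) : Fin (m * t)) : ℕ) : ℤ))) else 0) =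
        ∑ a : Fin t, ∑ b : Fin t, (if (a : ℕ) < (b : ℕ) then
        ((N : ℤ) - (((b : ℕ) : ℤ) - ((a : ℕ) : ℤ))) else 0) := by
      intro s
      refine Finset.sum_congr rfl (fun a _ => ?_)
      rw [← Equiv.sum_comp (finProdFinEquiv (m := m) (n := t))]
      rw [Fintype.sum_prod_type]
      rw [Finset.sum_eq_single s]
      · refine Finset.sum_congr rfl (fun b _ => ?_)
        have e1 : ((finProdFinEquiv (s, a) : Fin (m * t)) : ℕ) = (a : ℕ) + t * (s : ℕ) := rfl
        have e2 : ((finProdFinEquiv (s, b) : Fin (m * t)) : ℕ) = (b : ℕ) + t * (s : ℕ) := rfl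
        have e3 : ((a : ℕ) + t * (s : ℕ)) / t = (s : ℕ) := by
          rw [Nat.add_mul_div_left _ _ ht, Nat.div_eq_of_lt a.2, zero_add]
        have e4 : ((b : ℕ) + t * (s : ℕ)) / t = (s : ℕ) := by
          rw [Nat.add_mul_div_left _ _ ht, Nat.div_eq_of_lt b.2, zero_add]
        have e5 : (finProdFinEquiv (s, a) : Fin (m * t)) < finProdFinEquiv (s, b) ↔ (a : ℕ) < (b : ℕ) := by
          rw [Fin.lt_def, e1, e2]; omega
        rw [e1, e2, e3, e4]
        by_cases hab : (a : ℕ) < (b : ℕ)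
        · rw [if_pos ⟨e5.mpr hab, rfl⟩, if_pos hab]
          push_cast
          ring
        · rw [if_neg (fun hh => hab (e5.mp hh.1)), if_neg hab]
      · intro s' _ hs'
        refine Finset.sum_eq_zero (fun b _ => ?_)
        have e1 : ((finProdFinEquiv (s, a) : Fin (m * t)) : ℕ) = (a : ℕ) + t * (s : ℕ) := rfl
        have e2 : ((finProdFinEquiv (s', b) : Fin (m * t)) : ℕ) = (b : ℕ) + t * (s' : ℕ) := rfl
        have e3 : ((a : ℕ) + t * (s : ℕ)) / t = (s : ℕ) := by
          rw [Nat.add_mul_div_left _ _ ht, Nat.div_eq_of_lt a.2, zero_add]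
        have e4 : ((b : ℕ) + t * (s' : ℕ)) / t = (s' : ℕ) := by
          rw [Nat.add_mul_div_left _ _ ht, Nat.div_eq_of_lt b.2, zero_add]
        rw [e1, e2, e3, e4, if_neg]
        rintro ⟨_, hh⟩
        exact hs' (Fin.ext hh.symm)
      · intro h
        exact absurd (Finset.mem_univ s) h
    rw [Finset.sum_congr rfl (fun s _ => hs s)]
    rw [Finset.sum_const, Finset.card_univ, Fintype.card_fin, nsmul_eq_mul]
  rw [hre, cnt_aux_fin] at hcard
  have hg := cnt_aux_g (N : ℤ) t
  set g := ∑ b ∈ Finset.range t, ∑ a ∈ Finset.range b, ((N : ℤ) - ((b : ℤ) - (a : ℤ))) with hgdef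
  set cd := (Finset.univ.filter fun q : Fin N × Fin N × Fin N =>
      q.1 < q.2.2 ∧ (q.1 : ℕ) / t = (q.2.2 : ℕ) / t ∧ (q.2.1 < q.1 ∨ q.2.2 < q.2.1)).card with hcd
  have hNc : (N : ℤ) = m * t := by rw [hN]; push_cast; ring
  have hm' : (1 : ℤ) ≤ m := by exact_mod_cast hm
  have ht' : (1 : ℤ) ≤ t := by exact_mod_cast ht
  have h6 : 6 * (cd : ℤ) ≤ m * ((t : ℤ) * ((t : ℤ) - 1) * (3 * N - t - 1)) := by
    rw [← hg]
    nlinarith [hcard]
  have hfin : 6 * (cd : ℤ) + m * t ^ 3 ≤ 3 * m ^ 2 * t ^ 3 := by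
    rw [hNc] at h6
    have h7 : (0 : ℤ) ≤ m * t * (3 * (m * t) - 1) := by
      have : (1 : ℤ) ≤ m * t := by nlinarith
      have h8 : (0 : ℤ) ≤ m * t := by linarith
      have h9 : (0 : ℤ) ≤ 3 * (m * t) - 1 := by linarith
      exact mul_nonneg h8 h9
    nlinarith [h6, h7]
  exact_mod_cast hfin

theorem cnt_in (m t : ℕ) :
    6 * (Finset.univ.filter fun q : Fin (m * t) × Fin (m * t) × Fin (m * t) =>
      q.1 < q.2.1 ∧ q.2.1 < q.2.2 ∧ (q.1 : ℕ) / t = (q.2.2 : ℕ) / t).card ≤ m * t ^ 3 := by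
  set f : Fin (m * t) → Fin (m * t) → Fin (m * t) → ℕ := fun a b c =>
    if a < b ∧ b < c ∧ (a : ℕ) / t = (c : ℕ) / t then 1 else 0 with hf
  set g : Fin (m * t) → Fin (m * t) → ℕ := fun a b =>
    if (b : ℕ) / t = (a : ℕ) / t then 1 else 0 with hg
  have hcard : (Finset.univ.filter fun q : Fin (m * t) × Fin (m * t) × Fin (m * t) =>
      q.1 < q.2.1 ∧ q.2.1 < q.2.2 ∧ (q.1 : ℕ) / t = (q.2.2 : ℕ) / t).card =
      ∑ a, ∑ b, ∑ c, f a b c := by
    rw [Finset.card_filter, Fintype.sum_prod_type]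
    refine Finset.sum_congr rfl fun a _ => ?_
    rw [Fintype.sum_prod_type]
  have hzero : ∀ a b c, ¬ (a < b ∧ b < c) → f a b c = 0 := by
    intro a b c h
    simp only [hf]
    rw [if_neg]
    intro h'
    exact h ⟨h'.1, h'.2.1⟩
  have hle : ∀ a b c, f a b c ≤ g a b * g a c := by
    intro a b c
    simp only [hf, hg]
    split_ifs with h1 h2 h3 h3 <;> simp
    · exact h3 h1.2.2.symm
    · apply h2
      have e1 : (a : ℕ) / t ≤ (b : ℕ) / t := Nat.div_le_div_right (le_of_lt h1.1)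
      have e2 : (b : ℕ) / t ≤ (c : ℕ) / t := Nat.div_le_div_right (le_of_lt h1.2.1)
      omega
    · apply h2
      have e1 : (a : ℕ) / t ≤ (b : ℕ) / t := Nat.div_le_div_right (le_of_lt h1.1)
      have e2 : (b : ℕ) / t ≤ (c : ℕ) / t := Nat.div_le_div_right (le_of_lt h1.2.1)
      omega
  have gsymm : ∀ a b, g a b = g b a := by
    intro a b
    simp only [hg, eq_comm]
  have gtrans : ∀ a b c, g a b * g a c = g b a * g b c := by
    intro a b c
    simp only [hg]
    by_cases h1 : (b : ℕ) / t = (a : ℕ) / t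
    · rw [if_pos h1, if_pos h1.symm, h1]
    · have h2 : ¬ ((a : ℕ) / t = (b : ℕ) / t) := fun h => h1 h.symm
      rw [if_neg h1, if_neg h2, zero_mul, zero_mul]
  have hpt : ∀ a b c, f a b c + f a c b + f b a c + f b c a + f c a b + f c b a ≤
      g a b * g a c := by
    intro a b c
    have l1 := hle a b c
    have l2 := hle a c b
    have l3 := hle b a c
    have l4 := hle b c a
    have l5 := hle c a b
    have l6 := hle c b a
    rw [mul_comm] at l2
    rw [← gtrans a b c] at l3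
    rw [mul_comm, ← gtrans a b c] at l4
    rw [gtrans c a b, mul_comm] at l5
    rw [mul_comm, gtrans c a b, mul_comm] at l6
    by_cases z1 : a < b ∧ b < c
    · have := hzero a c b (by omega)
      have := hzero b a c (by omega)
      have := hzero b c a (by omega)
      have := hzero c a b (by omega)
      have := hzero c b a (by omega)
      omega
    by_cases z2 : a < c ∧ c < b
    · have := hzero a b c (by omega)
      have := hzero b a c (by omega)
      have := hzero b c a (by omega)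
      have := hzero c a b (by omega)
      have := hzero c b a (by omega)
      omega
    by_cases z3 : b < a ∧ a < c
    · have := hzero a b c (by omega)
      have := hzero a c b (by omega)
      have := hzero b c a (by omega)
      have := hzero c a b (by omega)
      have := hzero c b a (by omega)
      omega
    by_cases z4 : b < c ∧ c < a
    · have := hzero a b c (by omega)
      have := hzero a c b (by omega)
      have := hzero b a c (by omega)
      have := hzero c a b (by omega)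
      have := hzero c b a (by omega)
      omega
    by_cases z5 : c < a ∧ a < b
    · have := hzero a b c (by omega)
      have := hzero a c b (by omega)
      have := hzero b a c (by omega)
      have := hzero b c a (by omega)
      have := hzero c b a (by omega)
      omega
    by_cases z6 : c < b ∧ b < a
    · have := hzero a b c (by omega)
      have := hzero a c b (by omega)
      have := hzero b a c (by omega)
      have := hzero b c a (by omega)
      have := hzero c a b (by omega)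
      omega
    have := hzero a b c z1
    have := hzero a c b z2
    have := hzero b a c z3
    have := hzero b c a z4
    have := hzero c a b z5
    have := hzero c b a z6
    omega
  have h1 : ∑ a, ∑ b, ∑ c, f a c b = ∑ a, ∑ b, ∑ c, f a b c :=
    Finset.sum_congr rfl fun a _ => Finset.sum_comm
  have h2 : ∑ a, ∑ b, ∑ c, f b a c = ∑ a, ∑ b, ∑ c, f a b c := Finset.sum_comm
  have h3 : ∑ a, ∑ b, ∑ c, f b c a = ∑ a, ∑ b, ∑ c, f a b c := by
    rw [Finset.sum_comm]
    exact Finset.sum_congr rfl fun a _ => Finset.sum_comm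
  have h4 : ∑ a, ∑ b, ∑ c, f c a b = ∑ a, ∑ b, ∑ c, f a b c := by
    rw [← h2]
    exact Finset.sum_congr rfl fun a _ => Finset.sum_comm
  have h5 : ∑ a, ∑ b, ∑ c, f c b a = ∑ a, ∑ b, ∑ c, f a b c := by
    rw [← h3]
    exact Finset.sum_congr rfl fun a _ => Finset.sum_comm
  have hsum : 6 * ∑ a, ∑ b, ∑ c, f a b c ≤ ∑ a, ∑ b, ∑ c, g a b * g a c := by
    calc 6 * ∑ a, ∑ b, ∑ c, f a b c = ∑ a, ∑ b, ∑ c,
        (f a b c + f a c b + f b a c + f b c a + f c a b + f c b a) := by
          simp only [Finset.sum_add_distrib]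
          rw [h1, h2, h3, h4, h5]
          ring
      _ ≤ _ := Finset.sum_le_sum fun a _ => Finset.sum_le_sum fun b _ =>
          Finset.sum_le_sum fun c _ => hpt a b c
  have hgs : ∀ a, ∑ b, g a b ≤ t := by
    intro a
    rcases Nat.eq_zero_or_pos t with ht | ht
    · exact absurd a.isLt (by simp [ht])
    have : ∑ b, g a b = (Finset.univ.filter fun b : Fin (m * t) =>
        (b : ℕ) / t = (a : ℕ) / t).card := by
      rw [Finset.card_filter]
    rw [this]
    refine le_trans (Finset.card_le_card_of_injOn (t := Finset.range t)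
      (fun b => (b : ℕ) % t) ?_ ?_) (Finset.card_range t).le
    · intro b _
      simp only [Finset.coe_range, Set.mem_Iio]
      exact Nat.mod_lt _ ht
    · intro b hb c hc h
      simp only [Finset.coe_filter, Finset.mem_univ, true_and, Set.mem_setOf_eq] at hb hc h
      apply Fin.ext
      rw [← Nat.div_add_mod (b : ℕ) t, ← Nat.div_add_mod (c : ℕ) t, hb, hc, h]
  rw [hcard]
  refine hsum.trans ?_
  calc ∑ a, ∑ b, ∑ c, g a b * g a c = ∑ a, (∑ b, g a b) * (∑ c, g a c) := by
        refine Finset.sum_congr rfl fun a _ => ?_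
        rw [Finset.sum_mul_sum]
    _ ≤ ∑ _a : Fin (m * t), t * t := Finset.sum_le_sum fun a _ => Nat.mul_le_mul (hgs a) (hgs a)
    _ = m * t ^ 3 := by
        simp
        ring

theorem g_circ (m t : ℕ) (hm : 1 ≤ m) (ht : 1 ≤ t) (α : ℝ) (hα : α < Real.pi / m) :
    ∃ P : Fin (m * t) → EuclideanSpace ℝ (Fin 2), GenPos P ∧
      6 * cnt (fun a => a < α) P + m * t ^ 3 ≤ 3 * m ^ 2 * t ^ 3 := by
  have hm0 : (0:ℝ) < m := by exact_mod_cast hm
  have ht0 : (0:ℝ) < t := by exact_mod_cast ht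
  have htn : 0 < t := ht
  have hp : 0 < Real.pi / m := div_pos Real.pi_pos hm0
  have hpm : Real.pi / m * m = Real.pi := div_mul_cancel₀ _ hm0.ne'
  obtain ⟨η, hη0, hη1, hη2⟩ : ∃ η : ℝ, 0 < η ∧ η * t ≤ Real.pi / m - α ∧ η * t ≤ Real.pi / m := by
    refine ⟨min (Real.pi / m - α) (Real.pi / m) / t, ?_, ?_, ?_⟩
    · apply div_pos _ ht0
      exact lt_min (by linarith) hp
    · rw [div_mul_cancel₀ _ ht0.ne']; exact min_le_left _ _
    · rw [div_mul_cancel₀ _ ht0.ne']; exact min_le_right _ _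
  let A : Fin (m * t) → ℝ := fun i => (((i:ℕ) / t : ℕ) : ℝ)
  let B : Fin (m * t) → ℝ := fun i => (((i:ℕ) % t : ℕ) : ℝ)
  let θ : Fin (m * t) → ℝ := fun i => 2 * (Real.pi / m) * A i + η * B i
  have hB0 : ∀ i, 0 ≤ B i := fun i => Nat.cast_nonneg _
  have hB1 : ∀ i, B i + 1 ≤ t := by
    intro i
    have : (i:ℕ) % t < t := Nat.mod_lt _ htn
    have h2 : ((i:ℕ) % t) + 1 ≤ t := this
    show (((i:ℕ) % t : ℕ) : ℝ) + 1 ≤ t
    exact_mod_cast h2
  have hA0 : ∀ i, 0 ≤ A i := fun i => Nat.cast_nonneg _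
  have hA1 : ∀ i, A i + 1 ≤ m := by
    intro i
    have : (i:ℕ) / t < m := (Nat.div_lt_iff_lt_mul htn).2 i.2
    have h2 : ((i:ℕ) / t) + 1 ≤ m := this
    show (((i:ℕ) / t : ℕ) : ℝ) + 1 ≤ m
    exact_mod_cast h2
  have hlow : ∀ i k : Fin (m * t), (i:ℕ) / t < (k:ℕ) / t →
      2 * (Real.pi / m) - η * t < θ k - θ i := by
    intro i k hik
    have h1 : A i + 1 ≤ A k := by
      have h2 : ((i:ℕ) / t) + 1 ≤ (k:ℕ) / t := hik
      show (((i:ℕ) / t : ℕ) : ℝ) + 1 ≤ (((k:ℕ) / t : ℕ) : ℝ)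
      exact_mod_cast h2
    have h3 : 2 * (Real.pi / m) * (A i + 1) ≤ 2 * (Real.pi / m) * A k :=
      mul_le_mul_of_nonneg_left h1 (by positivity)
    have h4 : η * (B i + 1) ≤ η * t := mul_le_mul_of_nonneg_left (hB1 i) hη0.le
    have h5 : 0 ≤ η * B k := mul_nonneg hη0.le (hB0 k)
    show 2 * (Real.pi / m) - η * t < (2 * (Real.pi / m) * A k + η * B k) - (2 * (Real.pi / m) * A i + η * B i)
    linarith
  have hhigh : ∀ i k : Fin (m * t), θ k - θ i < 2 * Real.pi - 2 * (Real.pi / m) + η * t := by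
    intro i k
    have h3 : 2 * (Real.pi / m) * (A k + 1) ≤ 2 * (Real.pi / m) * m :=
      mul_le_mul_of_nonneg_left (hA1 k) (by positivity)
    have h3' : 0 ≤ 2 * (Real.pi / m) * A i := mul_nonneg (by positivity) (hA0 i)
    have h4 : η * (B k + 1) ≤ η * t := mul_le_mul_of_nonneg_left (hB1 k) hη0.le
    have h5 : 0 ≤ η * B i := mul_nonneg hη0.le (hB0 i)
    show (2 * (Real.pi / m) * A k + η * B k) - (2 * (Real.pi / m) * A i + η * B i) < _
    nlinarith
  have hmono : ∀ i k : Fin (m * t), i < k → θ i < θ k := by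
    intro i k hik
    have hik' : (i:ℕ) < k := hik
    rcases (Nat.div_le_div_right (c := t) hik'.le).lt_or_eq with h | h
    · have := hlow i k h
      linarith
    · have h2 : (i:ℕ) % t < (k:ℕ) % t := by
        have e1 := Nat.div_add_mod (i:ℕ) t
        have e2 := Nat.div_add_mod (k:ℕ) t
        rw [← h] at e2
        omega
      have h3 : B i < B k := by
        show (((i:ℕ) % t : ℕ) : ℝ) < (((k:ℕ) % t : ℕ) : ℝ)
        exact_mod_cast h2
      have h4 : A i = A k := by
        show (((i:ℕ) / t : ℕ) : ℝ) = (((k:ℕ) / t : ℕ) : ℝ)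
        rw [h]
      have h5 : η * B i < η * B k := mul_lt_mul_of_pos_left h3 hη0
      show 2 * (Real.pi / m) * A i + η * B i < 2 * (Real.pi / m) * A k + η * B k
      rw [h4]
      linarith
  have hnn : ∀ i, 0 ≤ θ i := fun i =>
    add_nonneg (mul_nonneg (by positivity) (hA0 i)) (mul_nonneg hη0.le (hB0 i))
  have hlt : ∀ i, θ i < 2 * Real.pi := by
    intro k
    have h3 : 2 * (Real.pi / m) * (A k + 1) ≤ 2 * (Real.pi / m) * m :=
      mul_le_mul_of_nonneg_left (hA1 k) (by positivity)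
    have h4 : η * (B k + 1) ≤ η * t := mul_le_mul_of_nonneg_left (hB1 k) hη0.le
    show 2 * (Real.pi / m) * A k + η * B k < 2 * Real.pi
    nlinarith
  have hinj : Function.Injective θ := by
    intro i k hik
    rcases lt_trichotomy i k with h | h | h
    · exact absurd hik (hmono i k h).ne
    · exact h
    · exact absurd hik.symm (hmono k i h).ne
  refine ⟨fun i => circ (θ i), circ_genPos θ hinj fun i => ⟨hnn i, hlt i⟩, ?_⟩
  refine le_trans ?_ (cnt_out m t hm)
  have hcard : cnt (fun a => a < α) (fun i => circ (θ i)) ≤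
      (Finset.univ.filter fun q : Fin (m * t) × Fin (m * t) × Fin (m * t) =>
      q.1 < q.2.2 ∧ (q.1 : ℕ) / t = (q.2.2 : ℕ) / t ∧ (q.2.1 < q.1 ∨ q.2.2 < q.2.1)).card := by
    unfold cnt
    apply Finset.card_le_card
    rintro ⟨i, j, k⟩ hq
    simp only [Finset.mem_filter, Finset.mem_univ, true_and] at hq ⊢
    obtain ⟨hik, hji, hjk, hang⟩ := hq
    refine ⟨hik, ?_, ?_⟩
    · by_contra hne
      have hd : (i:ℕ) / t < (k:ℕ) / t :=
        lt_of_le_of_ne (Nat.div_le_div_right (c := t) (le_of_lt hik)) hne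
      have h1 := hlow i k hd
      by_cases hb : j < i ∨ k < j
      · rw [circ_out (θ i) (θ j) (θ k) (hnn i) (hnn j) (hlt j) (hmono i k hik) (hlt k)
          (hb.imp (hmono j i) (hmono k j))] at hang
        linarith
      · push Not at hb
        have hij : i < j := lt_of_le_of_ne hb.1 (Ne.symm hji)
        have hjk' : j < k := lt_of_le_of_ne hb.2 hjk
        rw [circ_in (θ i) (θ j) (θ k) (hnn i) (hmono i j hij) (hmono j k hjk') (hlt k)] at hang
        have := hhigh i k
        linarith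
    · by_contra hb
      push Not at hb
      have hij : i < j := lt_of_le_of_ne hb.1 (Ne.symm hji)
      have hjk' : j < k := lt_of_le_of_ne hb.2 hjk
      rw [circ_in (θ i) (θ j) (θ k) (hnn i) (hmono i j hij) (hmono j k hjk') (hlt k)] at hang
      have := hhigh i k
      linarith
  omega

theorem f_circ (m t : ℕ) (hm : 1 ≤ m) (ht : 1 ≤ t) (α : ℝ) (hα : Real.pi - Real.pi / m < α) :
    ∃ P : Fin (m * t) → EuclideanSpace ℝ (Fin 2), GenPos P ∧
      6 * cnt (fun a => α < a) P ≤ m * t ^ 3 := by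
  have hm0 : (0:ℝ) < m := by exact_mod_cast hm
  have ht0 : (0:ℝ) < t := by exact_mod_cast ht
  have hpi := Real.pi_pos
  have hpm : 0 < Real.pi / m := by positivity
  obtain ⟨c, hc⟩ : ∃ c : ℝ, c = 2 * (Real.pi / m) := ⟨_, rfl⟩
  have hc0 : 0 < c := by rw [hc]; positivity
  have hcm : c * m = 2 * Real.pi := by rw [hc]; field_simp
  obtain ⟨η, hη0, hη1, hη2⟩ : ∃ η : ℝ, 0 < η ∧ η * t < 2 * (α - (Real.pi - Real.pi / m)) ∧
      η * t < c := by
    have hδ : 0 < α - (Real.pi - Real.pi / m) := by linarith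
    refine ⟨min (α - (Real.pi - Real.pi / m)) (Real.pi / m) / t,
      div_pos (lt_min hδ hpm) ht0, ?_, ?_⟩
    · rw [div_mul_cancel₀ _ ht0.ne']
      have := min_le_left (α - (Real.pi - Real.pi / m)) (Real.pi / m)
      linarith
    · rw [div_mul_cancel₀ _ ht0.ne', hc]
      have := min_le_right (α - (Real.pi - Real.pi / m)) (Real.pi / m)
      linarith
  obtain ⟨θ, hθ⟩ : ∃ θ : Fin (m * t) → ℝ, ∀ i, θ i = c * (((i : ℕ) / t : ℕ) : ℝ) +
      η * (((i : ℕ) % t : ℕ) : ℝ) := ⟨_, fun _ => rfl⟩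
  have ha : ∀ i : Fin (m * t), (((i : ℕ) / t : ℕ) : ℝ) + 1 ≤ m := by
    intro i
    have h1 : (i : ℕ) / t < m := (Nat.div_lt_iff_lt_mul ht).2 i.2
    exact_mod_cast h1
  have ha0 : ∀ i : Fin (m * t), (0:ℝ) ≤ (((i : ℕ) / t : ℕ) : ℝ) := fun i => Nat.cast_nonneg _
  have hb0 : ∀ i : Fin (m * t), (0:ℝ) ≤ (((i : ℕ) % t : ℕ) : ℝ) := fun i => Nat.cast_nonneg _
  have hb : ∀ i : Fin (m * t), (((i : ℕ) % t : ℕ) : ℝ) ≤ t := by
    intro i
    have h1 : (i : ℕ) % t < t := Nat.mod_lt _ ht
    exact_mod_cast h1.le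
  have hηb : ∀ i : Fin (m * t), η * (((i : ℕ) % t : ℕ) : ℝ) ≤ η * t := fun i =>
    mul_le_mul_of_nonneg_left (hb i) hη0.le
  have hηb0 : ∀ i : Fin (m * t), 0 ≤ η * (((i : ℕ) % t : ℕ) : ℝ) := fun i =>
    mul_nonneg hη0.le (hb0 i)
  have hlow : ∀ i k : Fin (m * t), (i : ℕ) / t < (k : ℕ) / t → c - η * t ≤ θ k - θ i := by
    intro i k hik
    have h1 : (((i : ℕ) / t : ℕ) : ℝ) + 1 ≤ (((k : ℕ) / t : ℕ) : ℝ) := by exact_mod_cast hik
    have h2 := mul_le_mul_of_nonneg_left h1 hc0.le
    rw [hθ, hθ]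
    have h3 := hηb i
    have h4 := hηb0 k
    linarith
  have hup : ∀ i k : Fin (m * t), θ k - θ i ≤ 2 * Real.pi - c + η * t := by
    intro i k
    have h2 := mul_le_mul_of_nonneg_left (ha k) hc0.le
    have h5 := mul_nonneg hc0.le (ha0 i)
    rw [hθ, hθ]
    have h3 := hηb k
    have h4 := hηb0 i
    linarith
  have hrange : ∀ i, 0 ≤ θ i ∧ θ i < 2 * Real.pi := by
    intro i
    have h2 := mul_le_mul_of_nonneg_left (ha i) hc0.le
    have h5 := mul_nonneg hc0.le (ha0 i)
    have h3 := hηb i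
    have h4 := hηb0 i
    rw [hθ]
    constructor
    · linarith
    · linarith
  have hmono : StrictMono θ := by
    intro i k hik
    have hik' : (i : ℕ) < (k : ℕ) := hik
    rcases lt_or_eq_of_le (Nat.div_le_div_right (c := t) hik'.le) with h | h
    · have := hlow i k h
      linarith
    · have h1 : (i : ℕ) % t < (k : ℕ) % t := by
        have e1 := Nat.div_add_mod (i : ℕ) t
        have e2 := Nat.div_add_mod (k : ℕ) t
        rw [h] at e1
        omega
      have h2 : (((i : ℕ) % t : ℕ) : ℝ) < (((k : ℕ) % t : ℕ) : ℝ) := by exact_mod_cast h1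
      rw [hθ, hθ, h]
      have := mul_lt_mul_of_pos_left h2 hη0
      linarith
  refine ⟨fun i => circ (θ i), circ_genPos θ hmono.injective hrange, ?_⟩
  refine le_trans (Nat.mul_le_mul_left 6 (Finset.card_le_card ?_)) (cnt_in m t)
  rintro ⟨i, j, k⟩ hq
  simp only [Finset.mem_filter, Finset.mem_univ, true_and] at hq ⊢
  obtain ⟨hik, hji, hjk, hR⟩ := hq
  have hbound : Real.pi - Real.pi / m + η * t / 2 < α := by linarith
  have hc2 : c / 2 = Real.pi / m := by rw [hc]; ring
  rcases lt_trichotomy j i with h | h | h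
  · exfalso
    rw [circ_out (θ i) (θ j) (θ k) (hrange i).1 (hrange j).1 (hrange j).2 (hmono hik)
      (hrange k).2 (Or.inl (hmono h))] at hR
    have := hup i k
    linarith
  · exact absurd h hji
  · rcases lt_trichotomy j k with h' | h' | h'
    · refine ⟨h, h', ?_⟩
      by_contra hne
      have h1 : (i : ℕ) / t < (k : ℕ) / t :=
        lt_of_le_of_ne (Nat.div_le_div_right (le_of_lt hik)) hne
      rw [circ_in (θ i) (θ j) (θ k) (hrange i).1 (hmono h) (hmono h') (hrange k).2] at hR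
      have := hlow i k h1
      linarith
    · exact absurd h' hjk
    · exfalso
      rw [circ_out (θ i) (θ j) (θ k) (hrange i).1 (hrange j).1 (hrange j).2 (hmono hik)
        (hrange k).2 (Or.inr (hmono h'))] at hR
      have := hup i k
      linarith

end Pool.Agent.Helper585.Acute
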