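import Mathlib
import Pool.Agent.Helper585.Acute.Defs2

/-!
The limits exist.
-/

set_option autoImplicit false

namespace Pool.Agent.Helper585.Acute

open scoped Classical
open Filter

theorem exists_genPos (n : ℕ) : ∃ P : Fin n → EuclideanSpace ℝ (Fin 2), GenPos P := by
  have key : ∀ i : Fin n, ∃ p : EuclideanSpace ℝ (Fin 2), p 0 = (i : ℝ) ∧ p 1 = (i : ℝ) ^ 2 :=
    fun i => ⟨!₂[(i : ℝ), (i : ℝ) ^ 2], by simp, by simp⟩
  choose P hP0 hP1 using key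
  have hinj : Function.Injective P := by
    intro i j h
    have h1 := congrArg (fun v : EuclideanSpace ℝ (Fin 2) => v 0) h
    simp only [hP0] at h1
    exact Fin.ext (by exact_mod_cast h1)
  refine ⟨P, hinj, ?_⟩
  intro i j k hij hjk hik hcol
  have hij' : (i : ℝ) ≠ (j : ℝ) := fun h => hij (Fin.ext (by exact_mod_cast h))
  have hjk' : (j : ℝ) ≠ (k : ℝ) := fun h => hjk (Fin.ext (by exact_mod_cast h))
  have hik' : (i : ℝ) ≠ (k : ℝ) := fun h => hik (Fin.ext (by exact_mod_cast h))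
  rw [collinear_iff_exists_forall_eq_smul_vadd] at hcol
  obtain ⟨p0, v, hv⟩ := hcol
  obtain ⟨a, ha⟩ := hv (P i) (by simp)
  obtain ⟨b, hb⟩ := hv (P j) (by simp)
  obtain ⟨c, hc⟩ := hv (P k) (by simp)
  have ha0 : (i : ℝ) = a * v 0 + p0 0 := by
    rw [← hP0 i, ha]; simp
  have ha1 : (i : ℝ) ^ 2 = a * v 1 + p0 1 := by
    rw [← hP1 i, ha]; simp
  have hb0 : (j : ℝ) = b * v 0 + p0 0 := by
    rw [← hP0 j, hb]; simp
  have hb1 : (j : ℝ) ^ 2 = b * v 1 + p0 1 := by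
    rw [← hP1 j, hb]; simp
  have hc0 : (k : ℝ) = c * v 0 + p0 0 := by
    rw [← hP0 k, hc]; simp
  have hc1 : (k : ℝ) ^ 2 = c * v 1 + p0 1 := by
    rw [← hP1 k, hc]; simp
  have e : ((j : ℝ) - i) * ((k : ℝ) ^ 2 - (i : ℝ) ^ 2) - ((k : ℝ) - i) * ((j : ℝ) ^ 2 - (i : ℝ) ^ 2)
      = 0 := by
    rw [ha1, hb1, hc1, ha0, hb0, hc0]; ring
  have e2 : ((j : ℝ) - i) * ((k : ℝ) - i) * ((k : ℝ) - j) = 0 := by linear_combination e
  rcases mul_eq_zero.1 e2 with e3 | e3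
  · rcases mul_eq_zero.1 e3 with e4 | e4
    · exact hij' (sub_eq_zero.1 e4).symm
    · exact hik' (sub_eq_zero.1 e4).symm
  · exact hjk' (sub_eq_zero.1 e3).symm

theorem GenPos.del {n : ℕ} {P : Fin (n + 1) → EuclideanSpace ℝ (Fin 2)} (hP : GenPos P)
    (v : Fin (n + 1)) : GenPos (fun i => P (v.succAbove i)) := by
  refine ⟨hP.1.comp Fin.succAbove_right_injective, ?_⟩
  intro i j k hij hjk hik
  exact hP.2 _ _ _ (fun h => hij (Fin.succAbove_right_injective h))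
    (fun h => hjk (Fin.succAbove_right_injective h)) (fun h => hik (Fin.succAbove_right_injective h))

theorem cnt_del (R : ℝ → Prop) {n : ℕ} (P : Fin (n + 1) → EuclideanSpace ℝ (Fin 2))
    (v : Fin (n + 1)) :
    cnt R (fun i => P (v.succAbove i)) =
      ((Finset.univ.filter fun t : Fin (n + 1) × Fin (n + 1) × Fin (n + 1) =>
        t.1 < t.2.2 ∧ t.2.1 ≠ t.1 ∧ t.2.1 ≠ t.2.2 ∧
          R (EuclideanGeometry.angle (P t.1) (P t.2.1) (P t.2.2))).filter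
        (fun t => v ≠ t.1 ∧ v ≠ t.2.1 ∧ v ≠ t.2.2)).card := by
  have hinj : Function.Injective (fun t : Fin n × Fin n × Fin n =>
      (v.succAbove t.1, v.succAbove t.2.1, v.succAbove t.2.2)) := by
    rintro ⟨a, b, c⟩ ⟨a', b', c'⟩ h
    simp only [Prod.mk.injEq] at h
    obtain ⟨h1, h2, h3⟩ := h
    rw [Fin.succAbove_right_injective h1, Fin.succAbove_right_injective h2,
      Fin.succAbove_right_injective h3]
  unfold cnt
  rw [← Finset.card_image_of_injective _ hinj]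
  congr 1
  ext t
  obtain ⟨i, j, k⟩ := t
  simp only [Finset.mem_image, Finset.mem_filter, Finset.mem_univ, true_and, Prod.mk.injEq,
    Prod.exists]
  constructor
  · rintro ⟨a, b, c, ⟨h1, h2, h3, h4⟩, rfl, rfl, rfl⟩
    refine ⟨⟨?_, ?_, ?_, h4⟩, ?_, ?_, ?_⟩
    · exact Fin.succAbove_lt_succAbove_iff.2 h1
    · exact fun h => h2 (Fin.succAbove_right_injective h)
    · exact fun h => h3 (Fin.succAbove_right_injective h)
    · exact (Fin.succAbove_ne v a).symm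
    · exact (Fin.succAbove_ne v b).symm
    · exact (Fin.succAbove_ne v c).symm
  · rintro ⟨⟨h1, h2, h3, h4⟩, h5, h6, h7⟩
    obtain ⟨a, rfl⟩ := Fin.exists_succAbove_eq h5.symm
    obtain ⟨b, rfl⟩ := Fin.exists_succAbove_eq h6.symm
    obtain ⟨c, rfl⟩ := Fin.exists_succAbove_eq h7.symm
    refine ⟨a, b, c, ⟨?_, ?_, ?_, h4⟩, rfl, rfl, rfl⟩
    · exact Fin.succAbove_lt_succAbove_iff.1 h1
    · rintro rfl; exact h2 rfl
    · rintro rfl; exact h3 rfl

/-- double counting: deleting each point in turn -/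
theorem cnt_sum (R : ℝ → Prop) {n : ℕ} (P : Fin (n + 1) → EuclideanSpace ℝ (Fin 2)) :
    ∑ v : Fin (n + 1), cnt R (fun i => P (v.succAbove i)) = (n - 2) * cnt R P := by
  have h1 : ∀ v : Fin (n + 1), cnt R (fun i => P (v.succAbove i)) =
      ∑ t ∈ (Finset.univ.filter fun t : Fin (n + 1) × Fin (n + 1) × Fin (n + 1) =>
        t.1 < t.2.2 ∧ t.2.1 ≠ t.1 ∧ t.2.1 ≠ t.2.2 ∧
          R (EuclideanGeometry.angle (P t.1) (P t.2.1) (P t.2.2))),
        if (v ≠ t.1 ∧ v ≠ t.2.1 ∧ v ≠ t.2.2) then 1 else 0 := by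
    intro v
    rw [cnt_del, Finset.card_filter]
  rw [Finset.sum_congr rfl (fun v _ => h1 v), Finset.sum_comm]
  have h2 : ∀ t ∈ (Finset.univ.filter fun t : Fin (n + 1) × Fin (n + 1) × Fin (n + 1) =>
        t.1 < t.2.2 ∧ t.2.1 ≠ t.1 ∧ t.2.1 ≠ t.2.2 ∧
          R (EuclideanGeometry.angle (P t.1) (P t.2.1) (P t.2.2))),
      (∑ v : Fin (n + 1), if (v ≠ t.1 ∧ v ≠ t.2.1 ∧ v ≠ t.2.2) then 1 else 0) = n - 2 := by
    intro t ht
    rw [Finset.mem_filter] at ht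
    obtain ⟨-, h3, h4, h5, -⟩ := ht
    rw [← Finset.card_filter]
    have h6 : (Finset.univ.filter fun v : Fin (n + 1) => v ≠ t.1 ∧ v ≠ t.2.1 ∧ v ≠ t.2.2) =
        Finset.univ \ {t.1, t.2.1, t.2.2} := by
      ext v
      simp only [Finset.mem_filter, Finset.mem_univ, true_and, Finset.mem_sdiff,
        Finset.mem_insert, Finset.mem_singleton, not_or]
    rw [h6, Finset.card_sdiff_of_subset (Finset.subset_univ _), Finset.card_univ,
      Fintype.card_fin, Finset.card_eq_three.2 ⟨t.1, t.2.1, t.2.2, h4.symm, h3.ne, h5, rfl⟩]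
    omega
  rw [Finset.sum_congr rfl h2, Finset.sum_const, smul_eq_mul, mul_comm]
  rfl

theorem ratio_le_of (R : ℝ → Prop) {n : ℕ} (hn : 3 ≤ n) (P : Fin n → EuclideanSpace ℝ (Fin 2))
    (hP : GenPos P) :
    ratio R n ≤ (cnt R P : ℝ) / (1 / 2 * n * (n - 1) * (n - 2)) := by
  have hn' : (3 : ℝ) ≤ n := by exact_mod_cast hn
  apply csInf_le
  · refine ⟨0, ?_⟩
    rintro r ⟨Q, _, rfl⟩
    apply div_nonneg (Nat.cast_nonneg _)
    apply mul_nonneg (mul_nonneg (by linarith) (by linarith)) (by linarith)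
  · exact ⟨P, hP, rfl⟩

theorem ratio_mono (R : ℝ → Prop) (n : ℕ) (hn : 3 ≤ n) : ratio R n ≤ ratio R (n + 1) := by
  have hn' : (3 : ℝ) ≤ n := by exact_mod_cast hn
  obtain ⟨P0, hP0⟩ := exists_genPos (n + 1)
  refine le_csInf (s := {r : ℝ | ∃ P : Fin (n + 1) → EuclideanSpace ℝ (Fin 2),
    GenPos P ∧ r = (cnt R P : ℝ) / (1 / 2 * ((n + 1 : ℕ) : ℝ) * (((n + 1 : ℕ) : ℝ) - 1) *
      (((n + 1 : ℕ) : ℝ) - 2))}) ⟨_, P0, hP0, rfl⟩ ?_
  rintro r ⟨P, hP, rfl⟩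
  have h1 : ∀ v : Fin (n + 1), ratio R n ≤ (cnt R (fun i => P (v.succAbove i)) : ℝ) /
      (1 / 2 * n * (n - 1) * (n - 2)) := fun v =>
    ratio_le_of R hn _ (hP.del v)
  have h2 := Finset.sum_le_sum (fun v (_ : v ∈ (Finset.univ : Finset (Fin (n + 1)))) => h1 v)
  rw [Finset.sum_const, Finset.card_univ, Fintype.card_fin, nsmul_eq_mul, ← Finset.sum_div,
    ← Nat.cast_sum, cnt_sum] at h2
  push_cast [show 2 ≤ n by omega] at h2
  push_cast
  have hd : 0 < 1 / 2 * (n : ℝ) * (n - 1) * (n - 2) := by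
    have e1 : (0 : ℝ) < n := by linarith
    have e2 : (0 : ℝ) < (n : ℝ) - 1 := by linarith
    have e3 : (0 : ℝ) < (n : ℝ) - 2 := by linarith
    positivity
  have hd1 : 0 < 1 / 2 * ((n : ℝ) + 1) * (n + 1 - 1) * (n + 1 - 2) := by
    have e1 : (0 : ℝ) < (n : ℝ) + 1 := by linarith
    have e2 : (0 : ℝ) < (n : ℝ) + 1 - 1 := by linarith
    have e3 : (0 : ℝ) < (n : ℝ) + 1 - 2 := by linarith
    positivity
  rw [le_div_iff₀ hd1]
  rw [le_div_iff₀ hd] at h2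
  have e3 : (0 : ℝ) < (n : ℝ) - 2 := by linarith
  have h3 : (ratio R n * (1 / 2 * ((n : ℝ) + 1) * (n + 1 - 1) * (n + 1 - 2))) * ((n : ℝ) - 2) ≤
      (cnt R P : ℝ) * ((n : ℝ) - 2) := by
    have e4 : (ratio R n * (1 / 2 * ((n : ℝ) + 1) * (n + 1 - 1) * (n + 1 - 2))) * ((n : ℝ) - 2) =
      ((n : ℝ) + 1) * ratio R n * (1 / 2 * (n : ℝ) * (n - 1) * (n - 2)) := by ring
    rw [e4, mul_comm (cnt R P : ℝ)]
    exact h2
  exact le_of_mul_le_mul_right h3 e3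

theorem cnt_le (R : ℝ → Prop) (n : ℕ) : ∀ P : Fin (n + 3) → EuclideanSpace ℝ (Fin 2),
    2 * cnt R P ≤ (n + 3) * (n + 2) * (n + 1) := by
  induction n with
  | zero =>
    intro P
    have h1 : cnt R P ≤ (Finset.univ.filter fun t : Fin 3 × Fin 3 × Fin 3 =>
        t.1 < t.2.2 ∧ t.2.1 ≠ t.1 ∧ t.2.1 ≠ t.2.2).card := by
      apply Finset.card_le_card
      intro t ht
      rw [Finset.mem_filter] at ht ⊢
      exact ⟨ht.1, ht.2.1, ht.2.2.1, ht.2.2.2.1⟩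
    have h2 : (Finset.univ.filter fun t : Fin 3 × Fin 3 × Fin 3 =>
        t.1 < t.2.2 ∧ t.2.1 ≠ t.1 ∧ t.2.1 ≠ t.2.2).card = 3 := by
      decide
    omega
  | succ n ih =>
    intro P
    have h1 := cnt_sum R P
    have h2 : ∑ v : Fin (n + 3 + 1), 2 * cnt R (fun i => P (v.succAbove i)) ≤
        ∑ _v : Fin (n + 3 + 1), (n + 3) * (n + 2) * (n + 1) :=
      Finset.sum_le_sum fun v _ => ih _
    rw [← Finset.mul_sum, h1, Finset.sum_const, Finset.card_univ, Fintype.card_fin,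
      smul_eq_mul] at h2
    have h3 : n + 3 - 2 = n + 1 := by omega
    rw [h3] at h2
    have h4 : (n + 1) * (2 * cnt R P) ≤ (n + 1) * ((n + 1 + 3) * (n + 1 + 2) * (n + 1 + 1)) := by
      calc (n + 1) * (2 * cnt R P) = 2 * ((n + 1) * cnt R P) := by ring
        _ ≤ (n + 3 + 1) * ((n + 3) * (n + 2) * (n + 1)) := h2
        _ = (n + 1) * ((n + 1 + 3) * (n + 1 + 2) * (n + 1 + 1)) := by ring
    exact Nat.le_of_mul_le_mul_left h4 (Nat.succ_pos n)

theorem ratio_le_one (R : ℝ → Prop) (n : ℕ) (hn : 3 ≤ n) : ratio R n ≤ 1 := by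
  obtain ⟨P, hP⟩ := exists_genPos n
  refine (ratio_le_of R hn P hP).trans ?_
  obtain ⟨k, rfl⟩ : ∃ k, n = k + 3 := ⟨n - 3, by omega⟩
  have h1 := cnt_le R k P
  have h2 : 2 * (cnt R P : ℝ) ≤ ((k : ℝ) + 3) * (k + 2) * (k + 1) := by exact_mod_cast h1
  have hk : (0 : ℝ) ≤ k := Nat.cast_nonneg k
  push_cast
  have hd : 0 < 1 / 2 * ((k : ℝ) + 3) * (k + 3 - 1) * (k + 3 - 2) := by
    have e2 : (0 : ℝ) < (k : ℝ) + 3 - 1 := by linarith
    have e3 : (0 : ℝ) < (k : ℝ) + 3 - 2 := by linarith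
    positivity
  rw [div_le_one hd]
  nlinarith

theorem ratio_lim (R : ℝ → Prop) : ∃ L : ℝ, Tendsto (ratio R) atTop (nhds L) := by
  have h1 : Monotone (fun k : ℕ => ratio R (k + 3)) := by
    apply monotone_nat_of_le_succ
    intro k
    have h2 := ratio_mono R (k + 3) (by omega)
    exact h2
  have h2 : BddAbove (Set.range (fun k : ℕ => ratio R (k + 3))) := by
    refine ⟨1, ?_⟩
    rintro _ ⟨k, rfl⟩
    exact ratio_le_one R (k + 3) (by omega)
  exact ⟨_, (tendsto_add_atTop_iff_nat 3).mp (tendsto_atTop_ciSup h1 h2)⟩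

end Pool.Agent.Helper585.Acute
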