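import Mathlib
import Pool.Agent.Helper585.Acute.Defs2
import Pool.Agent.Helper585.Acute.RatioLim

/-!
Limits of ratios, blow-up and one-sided continuity.
-/

set_option autoImplicit false

namespace Pool.Agent.Helper585.Acute

open scoped Classical
open Filter

theorem inv_tendsto : Tendsto (fun n : ℕ => (1 : ℝ) / n) atTop (nhds 0) :=
  tendsto_one_div_atTop_nhds_zero_nat

theorem den_pos {n : ℕ} (hn : 3 ≤ n) : (0 : ℝ) < 1 / 2 * n * (n - 1) * (n - 2) := by
  have h : (3 : ℝ) ≤ n := by exact_mod_cast hn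
  have h1 : (0 : ℝ) < (n : ℝ) - 1 := by linarith
  have h2 : (0 : ℝ) < (n : ℝ) - 2 := by linarith
  have h3 : (0 : ℝ) < n := by linarith
  positivity

theorem ratio_le (R : ℝ → Prop) {n : ℕ} (hn : 3 ≤ n) (P : Fin n → EuclideanSpace ℝ (Fin 2))
    (hP : GenPos P) : ratio R n ≤ (cnt R P : ℝ) / (1 / 2 * n * (n - 1) * (n - 2)) := by
  refine csInf_le ⟨0, ?_⟩ ⟨P, hP, rfl⟩
  rintro r ⟨Q, _, rfl⟩
  exact div_nonneg (Nat.cast_nonneg _) (den_pos hn).le

theorem le_ratio (R : ℝ → Prop) {n : ℕ} (hn : 3 ≤ n) (b : ℝ)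
    (hb : ∀ P : Fin n → EuclideanSpace ℝ (Fin 2), GenPos P → b ≤ (cnt R P : ℝ)) :
    b / (1 / 2 * n * (n - 1) * (n - 2)) ≤ ratio R n := by
  obtain ⟨P, hP⟩ := exists_genPos n
  refine le_csInf ⟨_, P, hP, rfl⟩ ?_
  rintro r ⟨Q, hQ, rfl⟩
  exact div_le_div_of_nonneg_right (hb Q hQ) (den_pos hn).le

theorem lim_le (R : ℝ → Prop) (L : ℝ) (hL : Tendsto (ratio R) atTop (nhds L)) (m : ℕ) (hm : 1 ≤ m)
    (C : ℝ) (h : ∀ t : ℕ, 1 ≤ t → ∃ P : Fin (m * t) → EuclideanSpace ℝ (Fin 2), GenPos P ∧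
      6 * (cnt R P : ℝ) ≤ C * t ^ 3) : L ≤ C / (3 * m ^ 3) := by
  have hm0 : (0 : ℝ) < m := by exact_mod_cast hm
  have hsub : Tendsto (fun t : ℕ => m * t) atTop atTop :=
    tendsto_id.const_mul_atTop' hm
  have h1 : Tendsto (fun t : ℕ => ratio R (m * t)) atTop (nhds L) := hL.comp hsub
  have h2 : Tendsto (fun t : ℕ => C / (3 * m * (m - 1 / (t : ℝ)) * (m - 2 * (1 / (t : ℝ))))) atTop
      (nhds (C / (3 * m * (m - 0) * (m - 2 * 0)))) := by
    refine Tendsto.div tendsto_const_nhds ?_ ?_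
    · refine Tendsto.mul (Tendsto.mul tendsto_const_nhds ?_) ?_
      · exact tendsto_const_nhds.sub inv_tendsto
      · exact tendsto_const_nhds.sub (inv_tendsto.const_mul 2)
    · simp only [sub_zero, mul_zero]
      positivity
  have h3 : C / (3 * m * (m - 0) * (m - 2 * 0)) = C / (3 * (m : ℝ) ^ 3) := by
    congr 1; ring
  rw [h3] at h2
  refine le_of_tendsto_of_tendsto h1 h2 ?_
  filter_upwards [eventually_ge_atTop 3] with t ht
  have ht0 : (3 : ℝ) ≤ t := by exact_mod_cast ht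
  have htp : (0 : ℝ) < t := by linarith
  obtain ⟨P, hP, hc⟩ := h t (by omega)
  have hn : 3 ≤ m * t := by nlinarith
  have h4 := ratio_le R hn P hP
  refine h4.trans ?_
  have hd := den_pos hn
  push_cast at hd ⊢
  rw [div_le_iff₀ hd]
  have hm1 : (1 : ℝ) ≤ m := by exact_mod_cast hm
  have e1 : (0 : ℝ) < m * t - 1 := by nlinarith
  have e2 : (0 : ℝ) < m * t - 2 := by nlinarith
  have e3 : (m : ℝ) - 1 / t = (m * t - 1) / t := by field_simp
  have e4 : (m : ℝ) - 2 * (1 / t) = (m * t - 2) / t := by field_simp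
  rw [e3, e4]
  have e5 : C / (3 * (m : ℝ) * ((m * t - 1) / t) * ((m * t - 2) / t)) *
      (1 / 2 * (m * t) * (m * t - 1) * (m * t - 2)) = C * t ^ 3 / 6 := by
    field_simp
    ring
  rw [e5]
  linarith

theorem ge_lim (R : ℝ → Prop) (L : ℝ) (hL : Tendsto (ratio R) atTop (nhds L)) (c D : ℝ)
    (h : ∀ (n : ℕ) (P : Fin n → EuclideanSpace ℝ (Fin 2)), GenPos P →
      c * n ^ 3 - D * n ^ 2 ≤ cnt R P) : 2 * c ≤ L := by
  have h2 : Tendsto (fun n : ℕ => 2 * (c - D * (1 / (n : ℝ))) /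
      ((1 - 1 / (n : ℝ)) * (1 - 2 * (1 / (n : ℝ))))) atTop
      (nhds (2 * (c - D * 0) / ((1 - 0) * (1 - 2 * 0)))) := by
    refine Tendsto.div ?_ ?_ ?_
    · exact (tendsto_const_nhds.sub (inv_tendsto.const_mul D)).const_mul 2
    · exact (tendsto_const_nhds.sub inv_tendsto).mul
        (tendsto_const_nhds.sub (inv_tendsto.const_mul 2))
    · norm_num
  have h3 : 2 * (c - D * 0) / ((1 - 0) * (1 - 2 * 0)) = 2 * c := by norm_num
  rw [h3] at h2
  refine le_of_tendsto_of_tendsto h2 hL ?_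
  filter_upwards [eventually_ge_atTop 3] with n hn
  have hn0 : (3 : ℝ) ≤ n := by exact_mod_cast hn
  have htp : (0 : ℝ) < n := by linarith
  have h4 := le_ratio R hn (c * n ^ 3 - D * n ^ 2) (fun P hP => h n P hP)
  refine le_trans (le_of_eq ?_) h4
  have e1 : (0 : ℝ) < (n : ℝ) - 1 := by linarith
  have e2 : (0 : ℝ) < (n : ℝ) - 2 := by linarith
  have e3 : (1 : ℝ) - 1 / n = (n - 1) / n := by field_simp
  have e4 : (1 : ℝ) - 2 * (1 / n) = (n - 2) / n := by field_simp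
  have e6 : c - D * (1 / (n : ℝ)) = (c * n - D) / n := by field_simp
  rw [e3, e4, e6]
  field_simp

theorem quad_finite (A B C : ℝ) (hC : C ≠ 0) : {d : ℝ | A + B * d + C * d ^ 2 = 0}.Finite := by
  have hp : (Polynomial.C A + Polynomial.C B * Polynomial.X + Polynomial.C C * Polynomial.X ^ 2
      : Polynomial ℝ) ≠ 0 := by
    intro h
    have h2 := congrArg (fun q => Polynomial.coeff q 2) h
    simp [Polynomial.coeff_X] at h2
    exact hC h2
  refine (Polynomial.finite_setOf_isRoot hp).subset ?_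
  intro d hd
  simp only [Set.mem_setOf_eq, Polynomial.IsRoot.def] at hd ⊢
  simpa using hd

theorem lin_finite (A B : ℝ) (hB : B ≠ 0) : {d : ℝ | A + B * d = 0}.Finite := by
  refine (Set.finite_singleton (-A / B)).subset ?_
  intro d hd
  simp only [Set.mem_setOf_eq, Set.mem_singleton_iff] at hd ⊢
  field_simp
  linarith

theorem collinear_det (p q r : EuclideanSpace ℝ (Fin 2)) (h : Collinear ℝ {p, q, r}) :
    (q 0 - p 0) * (r 1 - p 1) - (r 0 - p 0) * (q 1 - p 1) = 0 := by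
  rw [collinear_iff_of_mem (p₀ := p) (by simp)] at h
  obtain ⟨v, hv⟩ := h
  obtain ⟨a, ha⟩ := hv q (by simp)
  obtain ⟨b, hb⟩ := hv r (by simp)
  rw [ha, hb]
  simp
  ring



theorem perturb_gen {n : ℕ} (P : Fin n → EuclideanSpace ℝ (Fin 2)) (ε : ℝ) (hε : 0 < ε) :
    ∃ Q : Fin n → EuclideanSpace ℝ (Fin 2), GenPos Q ∧ ∀ i, dist (Q i) (P i) < ε := by
  obtain ⟨w, hw⟩ : ∃ w : Fin n → EuclideanSpace ℝ (Fin 2),
      w = fun i : Fin n => !₂[((i : ℕ) : ℝ), ((i : ℕ) : ℝ) ^ 2] := ⟨_, rfl⟩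
  have hw0 : ∀ i, w i 0 = ((i : ℕ) : ℝ) := by intro i; rw [hw]; simp
  have hw1 : ∀ i, w i 1 = ((i : ℕ) : ℝ) ^ 2 := by intro i; rw [hw]; simp
  have hne : ∀ i j : Fin n, i ≠ j → ((i : ℕ) : ℝ) - ((j : ℕ) : ℝ) ≠ 0 := by
    intro i j hij h
    apply hij
    have : ((i : ℕ) : ℝ) = ((j : ℕ) : ℝ) := by linarith
    exact Fin.ext (by exact_mod_cast this)
  have hfin1 : (⋃ i : Fin n, ⋃ j : Fin n, {d : ℝ | i ≠ j ∧
      (P i 0 - P j 0) + (((i : ℕ) : ℝ) - ((j : ℕ) : ℝ)) * d = 0}).Finite := by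
    refine Set.finite_iUnion fun i => Set.finite_iUnion fun j => ?_
    by_cases hij : i = j
    · simp [hij]
    · refine (lin_finite (P i 0 - P j 0) _ (hne i j hij)).subset ?_
      intro d hd
      exact hd.2
  have hfin2 : (⋃ i : Fin n, ⋃ j : Fin n, ⋃ k : Fin n, {d : ℝ | (i ≠ j ∧ j ≠ k ∧ i ≠ k) ∧
      ((P j + d • w j) 0 - (P i + d • w i) 0) * ((P k + d • w k) 1 - (P i + d • w i) 1)
      - ((P k + d • w k) 0 - (P i + d • w i) 0) * ((P j + d • w j) 1 - (P i + d • w i) 1) = 0}).Finite := by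
    refine Set.finite_iUnion fun i => Set.finite_iUnion fun j => Set.finite_iUnion fun k => ?_
    by_cases h : i ≠ j ∧ j ≠ k ∧ i ≠ k
    · have hC : (((j : ℕ) : ℝ) - ((i : ℕ) : ℝ)) * (((k : ℕ) : ℝ) - ((i : ℕ) : ℝ)) *
          (((k : ℕ) : ℝ) - ((j : ℕ) : ℝ)) ≠ 0 :=
        mul_ne_zero (mul_ne_zero (hne j i h.1.symm) (hne k i h.2.2.symm)) (hne k j h.2.1.symm)
      refine (quad_finite ((P j 0 - P i 0) * (P k 1 - P i 1) - (P k 0 - P i 0) * (P j 1 - P i 1))
        ((P j 0 - P i 0) * (((k : ℕ) : ℝ) ^ 2 - ((i : ℕ) : ℝ) ^ 2)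
          + (((j : ℕ) : ℝ) - ((i : ℕ) : ℝ)) * (P k 1 - P i 1)
          - (P k 0 - P i 0) * (((j : ℕ) : ℝ) ^ 2 - ((i : ℕ) : ℝ) ^ 2)
          - (((k : ℕ) : ℝ) - ((i : ℕ) : ℝ)) * (P j 1 - P i 1)) _ hC).subset ?_
      rintro d ⟨-, hd⟩
      simp only [PiLp.add_apply, PiLp.smul_apply, hw0, hw1, smul_eq_mul] at hd
      simp only [Set.mem_setOf_eq]
      rw [← hd]
      ring
    · refine Set.finite_empty.subset ?_
      rintro d ⟨hd, -⟩
      exact h hd
  obtain ⟨M, hM⟩ : ∃ M : ℝ, M = ∑ i, ‖w i‖ := ⟨_, rfl⟩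
  have hM0 : 0 ≤ M := by rw [hM]; exact Finset.sum_nonneg fun i _ => norm_nonneg _
  have hMi : ∀ i, ‖w i‖ ≤ M := by
    intro i; rw [hM]
    exact Finset.single_le_sum (f := fun i => ‖w i‖) (fun i _ => norm_nonneg _) (Finset.mem_univ i)
  have hδ : 0 < ε / (M + 1) := by positivity
  obtain ⟨d, hd, hd'⟩ := ((Set.Ioo_infinite hδ).diff (hfin1.union hfin2)).nonempty
  refine ⟨fun i => P i + d • w i, ⟨?_, ?_⟩, ?_⟩
  · intro i j hij
    by_contra hne'
    apply hd'
    left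
    refine Set.mem_iUnion.2 ⟨i, Set.mem_iUnion.2 ⟨j, hne', ?_⟩⟩
    have h0 := congrArg (fun v : EuclideanSpace ℝ (Fin 2) => v 0) hij
    simp only [PiLp.add_apply, PiLp.smul_apply, hw0, smul_eq_mul] at h0
    linarith
  · intro i j k h1 h2 h3 hc
    apply hd'
    right
    refine Set.mem_iUnion.2 ⟨i, Set.mem_iUnion.2 ⟨j, Set.mem_iUnion.2 ⟨k, ⟨h1, h2, h3⟩, ?_⟩⟩⟩
    exact collinear_det _ _ _ hc
  · intro i
    have h4 : dist (P i + d • w i) (P i) = d * ‖w i‖ := by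
      rw [dist_eq_norm, add_sub_cancel_left, norm_smul, Real.norm_of_nonneg hd.1.le]
    show dist (P i + d • w i) (P i) < ε
    rw [h4]
    have h5 : d < ε / (M + 1) := hd.2
    have h6 : d * (M + 1) < ε := by rwa [lt_div_iff₀ (by positivity)] at h5
    have h7 : d * ‖w i‖ ≤ d * M := mul_le_mul_of_nonneg_left (hMi i) hd.1.le
    have h8 : 0 < d := hd.1
    nlinarith

theorem ang_ev_aux (R : ℝ → Prop) (p q r : EuclideanSpace ℝ (Fin 2)) (h1 : p ≠ q) (h2 : r ≠ q)
    (hR : ∀ᶠ x in nhds (EuclideanGeometry.angle p q r), ¬ R x) :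
    ∃ δ > 0, ∀ x y z : EuclideanSpace ℝ (Fin 2), dist x p < δ → dist y q < δ → dist z r < δ →
        ¬ R (EuclideanGeometry.angle x y z) := by
  have hc : ContinuousAt (fun y : EuclideanSpace ℝ (Fin 2) × EuclideanSpace ℝ (Fin 2) ×
          EuclideanSpace ℝ (Fin 2) => EuclideanGeometry.angle y.1 y.2.1 y.2.2) (p, q, r) :=
        EuclideanGeometry.continuousAt_angle h1 h2
  have hev : ∀ᶠ y in nhds ((p, q, r) : EuclideanSpace ℝ (Fin 2) × EuclideanSpace ℝ (Fin 2) ×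
          EuclideanSpace ℝ (Fin 2)), ¬ R (EuclideanGeometry.angle y.1 y.2.1 y.2.2) := hc.eventually hR
  obtain ⟨δ, hδ, hd⟩ := Metric.eventually_nhds_iff.1 hev
  refine ⟨δ, hδ, fun x y z hx hy hz => ?_⟩
  have hdist : dist (x, y, z) (p, q, r) < δ := by
    rw [Prod.dist_eq, Prod.dist_eq]
    exact max_lt hx (max_lt hy hz)
  have h := hd hdist
  exact h

/-- blow-up: every point is replaced by `t` points very near to it -/
theorem blowup (R : ℝ → Prop) {n : ℕ} (P : Fin n → EuclideanSpace ℝ (Fin 2)) (hP : GenPos P)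
    (hR : ∀ i j k : Fin n, i ≠ j → j ≠ k → i ≠ k →
      ¬ R (EuclideanGeometry.angle (P i) (P j) (P k)) →
      ∀ᶠ x in nhds (EuclideanGeometry.angle (P i) (P j) (P k)), ¬ R x) (t : ℕ) :
    ∃ Q : Fin (n * t) → EuclideanSpace ℝ (Fin 2), GenPos Q ∧
      cnt R Q ≤ (cnt R P + 3 * n ^ 2) * t ^ 3 := by
  classical
  have hprop : ∀ i j k : Fin n, ∀ᶠ ε in nhdsWithin (0 : ℝ) (Set.Ioi 0), i ≠ j → j ≠ k → i ≠ k →
      ¬ R (EuclideanGeometry.angle (P i) (P j) (P k)) →
      ∀ x y z : EuclideanSpace ℝ (Fin 2), dist x (P i) < ε → dist y (P j) < ε → dist z (P k) < ε →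
        ¬ R (EuclideanGeometry.angle x y z) := by
    intro i j k
    by_cases h : i ≠ j ∧ j ≠ k ∧ i ≠ k ∧ ¬ R (EuclideanGeometry.angle (P i) (P j) (P k))
    · obtain ⟨h1, h2, h3, h4⟩ := h
      obtain ⟨δ, hδ, hd⟩ := ang_ev_aux R (P i) (P j) (P k) (hP.1.ne h1) (hP.1.ne h2.symm)
        (hR i j k h1 h2 h3 h4)
      filter_upwards [Ioo_mem_nhdsGT hδ] with ε hε _ _ _ _ x y z hx hy hz
      exact hd x y z (hx.trans hε.2) (hy.trans hε.2) (hz.trans hε.2)
    · filter_upwards with ε h1 h2 h3 h4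
      exact absurd ⟨h1, h2, h3, h4⟩ h
  have hall : ∀ᶠ ε in nhdsWithin (0 : ℝ) (Set.Ioi 0), ∀ i j k : Fin n, i ≠ j → j ≠ k → i ≠ k →
      ¬ R (EuclideanGeometry.angle (P i) (P j) (P k)) →
      ∀ x y z : EuclideanSpace ℝ (Fin 2), dist x (P i) < ε → dist y (P j) < ε → dist z (P k) < ε →
        ¬ R (EuclideanGeometry.angle x y z) := by
    rw [Filter.eventually_all]
    intro i
    rw [Filter.eventually_all]
    intro j
    rw [Filter.eventually_all]
    intro k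
    exact hprop i j k
  obtain ⟨ε, hε, hε0⟩ := (hall.and self_mem_nhdsWithin).exists
  obtain ⟨Q, hQ, hQd⟩ := perturb_gen (fun a : Fin (n * t) => P a.divNat) ε hε0
  refine ⟨Q, hQ, ?_⟩
  let f : Fin (n * t) × Fin (n * t) × Fin (n * t) → (Fin n × Fin n × Fin n) × (Fin t × Fin t × Fin t) :=
    fun x => ((x.1.divNat, x.2.1.divNat, x.2.2.divNat), (x.1.modNat, x.2.1.modNat, x.2.2.modNat))
  have hinj1 : ∀ a b : Fin (n * t), a.divNat = b.divNat → a.modNat = b.modNat → a = b := by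
    intro a b h1 h2
    have h3 : finProdFinEquiv.symm a = finProdFinEquiv.symm b := Prod.ext h1 h2
    exact finProdFinEquiv.symm.injective h3
  have hf : Function.Injective f := by
    rintro ⟨a, b, c⟩ ⟨a', b', c'⟩ h
    simp only [f, Prod.mk.injEq] at h
    obtain ⟨⟨h1, h2, h3⟩, h4, h5, h6⟩ := h
    rw [hinj1 a a' h1 h4, hinj1 b b' h2 h5, hinj1 c c' h3 h6]
  let E : Finset (Fin n × Fin n × Fin n) :=
    ((Finset.univ : Finset (Fin n × Fin n)).image (fun p => (p.1, p.1, p.2)) ∪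
      (Finset.univ : Finset (Fin n × Fin n)).image (fun p => (p.1, p.2, p.2))) ∪
      (Finset.univ : Finset (Fin n × Fin n)).image (fun p => (p.1, p.2, p.1))
  have hcardu : (Finset.univ : Finset (Fin n × Fin n)).card = n ^ 2 := by
    rw [Finset.card_univ, Fintype.card_prod, Fintype.card_fin]
    ring
  have hE : E.card ≤ 3 * n ^ 2 := by
    refine (Finset.card_union_le _ _).trans ?_
    have h1 := Finset.card_union_le ((Finset.univ : Finset (Fin n × Fin n)).image (fun p => (p.1, p.1, p.2)))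
      ((Finset.univ : Finset (Fin n × Fin n)).image (fun p => (p.1, p.2, p.2)))
    have h2 : ((Finset.univ : Finset (Fin n × Fin n)).image (fun p => (p.1, p.1, p.2))).card ≤ n ^ 2 :=
      Finset.card_image_le.trans hcardu.le
    have h3 : ((Finset.univ : Finset (Fin n × Fin n)).image (fun p => (p.1, p.2, p.2))).card ≤ n ^ 2 :=
      Finset.card_image_le.trans hcardu.le
    have h4 : ((Finset.univ : Finset (Fin n × Fin n)).image (fun p => (p.1, p.2, p.1))).card ≤ n ^ 2 :=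
      Finset.card_image_le.trans hcardu.le
    omega
  have hmem : ∀ i j k : Fin n, (i = j ∨ j = k ∨ i = k) → (i, j, k) ∈ E := by
    intro i j k h
    rcases h with h | h | h
    · subst h
      exact Finset.mem_union_left _ (Finset.mem_union_left _
        (Finset.mem_image.2 ⟨(i, k), Finset.mem_univ _, rfl⟩))
    · subst h
      exact Finset.mem_union_left _ (Finset.mem_union_right _
        (Finset.mem_image.2 ⟨(i, j), Finset.mem_univ _, rfl⟩))
    · subst h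
      exact Finset.mem_union_right _ (Finset.mem_image.2 ⟨(i, j), Finset.mem_univ _, rfl⟩)
  let SP : Finset (Fin n × Fin n × Fin n) := Finset.univ.filter fun t : Fin n × Fin n × Fin n =>
    t.1 < t.2.2 ∧ t.2.1 ≠ t.1 ∧ t.2.1 ≠ t.2.2 ∧
      R (EuclideanGeometry.angle (P t.1) (P t.2.1) (P t.2.2))
  have hSP : SP.card = cnt R P := by
    unfold cnt
    rfl
  have hmain : cnt R Q ≤ ((SP ∪ E) ×ˢ (Finset.univ : Finset (Fin t × Fin t × Fin t))).card := by
    unfold cnt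
    apply Finset.card_le_card_of_injOn f
    · rintro ⟨a, b, c⟩ habc
      rw [Finset.mem_coe, Finset.mem_filter] at habc
      obtain ⟨_, h1, h2, h3, h4⟩ := habc
      simp only at h1 h2 h3 h4
      rw [Finset.mem_coe, Finset.mem_product]
      refine ⟨?_, Finset.mem_univ _⟩
      show (a.divNat, b.divNat, c.divNat) ∈ SP ∪ E
      by_cases hd : a.divNat = b.divNat ∨ b.divNat = c.divNat ∨ a.divNat = c.divNat
      · exact Finset.mem_union_right _ (hmem _ _ _ hd)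
      · push Not at hd
        obtain ⟨d1, d2, d3⟩ := hd
        apply Finset.mem_union_left
        rw [Finset.mem_filter]
        refine ⟨Finset.mem_univ _, ?_, d1.symm, d2, ?_⟩
        · refine lt_of_le_of_ne ?_ d3
          show a.divNat ≤ c.divNat
          rw [Fin.le_def]
          exact Nat.div_le_div_right (Fin.le_def.1 h1.le)
        · by_contra hcon
          exact hε _ _ _ d1 d2 d3 hcon (Q a) (Q b) (Q c) (hQd a) (hQd b) (hQd c) h4
    · exact hf.injOn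
  refine hmain.trans ?_
  rw [Finset.card_product]
  have hu : (Finset.univ : Finset (Fin t × Fin t × Fin t)).card = t ^ 3 := by
    rw [Finset.card_univ, Fintype.card_prod, Fintype.card_prod, Fintype.card_fin]
    ring
  rw [hu]
  apply Nat.mul_le_mul_right
  refine (Finset.card_union_le _ _).trans ?_
  rw [hSP]
  omega

theorem inner_two (u v : EuclideanSpace ℝ (Fin 2)) : (inner ℝ u v : ℝ) = u 0 * v 0 + u 1 * v 1 := by
  rw [PiLp.inner_apply, Fin.sum_univ_two]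
  simp
  ring

theorem same_ray {u v w : EuclideanSpace ℝ (Fin 2)} (hu : u ≠ 0) (hv : v ≠ 0) (hw : w ≠ 0) {α : ℝ}
    (h1 : InnerProductGeometry.angle u v = α) (h2 : InnerProductGeometry.angle u w = α)
    (hs : (0 < u 0 * v 1 - u 1 * v 0) ↔ (0 < u 0 * w 1 - u 1 * w 0)) : ‖w‖ • v = ‖v‖ • w := by
  have hv0 : 0 < ‖v‖ := norm_pos_iff.mpr hv
  have hw0 : 0 < ‖w‖ := norm_pos_iff.mpr hw
  have c1 := InnerProductGeometry.cos_angle_mul_norm_mul_norm u v
  have c2 := InnerProductGeometry.cos_angle_mul_norm_mul_norm u w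
  rw [h1, inner_two] at c1
  rw [h2, inner_two] at c2
  have nu : ‖u‖ ^ 2 = u 0 ^ 2 + u 1 ^ 2 := by
    rw [EuclideanSpace.real_norm_sq_eq, Fin.sum_univ_two]
  have nv : ‖v‖ ^ 2 = v 0 ^ 2 + v 1 ^ 2 := by
    rw [EuclideanSpace.real_norm_sq_eq, Fin.sum_univ_two]
  have nw : ‖w‖ ^ 2 = w 0 ^ 2 + w 1 ^ 2 := by
    rw [EuclideanSpace.real_norm_sq_eq, Fin.sum_univ_two]
  have nu0 : 0 < u 0 ^ 2 + u 1 ^ 2 := by
    rw [← nu]
    have := norm_pos_iff.mpr hu
    positivity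
  set a := ‖v‖ with ha
  set b := ‖w‖ with hb
  have e1 : (u 0 * v 0 + u 1 * v 1) * b = (u 0 * w 0 + u 1 * w 1) * a := by
    rw [← c1, ← c2]
    ring
  have s1 : (u 0 * v 1 - u 1 * v 0) ^ 2 = ‖u‖ ^ 2 * a ^ 2 - (u 0 * v 0 + u 1 * v 1) ^ 2 := by
    rw [nu, nv]
    ring
  have s2 : (u 0 * w 1 - u 1 * w 0) ^ 2 = ‖u‖ ^ 2 * b ^ 2 - (u 0 * w 0 + u 1 * w 1) ^ 2 := by
    rw [nu, nw]
    ring
  have e2 : ((u 0 * v 1 - u 1 * v 0) * b) ^ 2 = ((u 0 * w 1 - u 1 * w 0) * a) ^ 2 := by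
    rw [mul_pow, mul_pow, s1, s2]
    have : ((u 0 * v 0 + u 1 * v 1) * b) ^ 2 = ((u 0 * w 0 + u 1 * w 1) * a) ^ 2 := by rw [e1]
    linear_combination -this
  have e3 : (u 0 * v 1 - u 1 * v 0) * b = (u 0 * w 1 - u 1 * w 0) * a := by
    rcases sq_eq_sq_iff_eq_or_eq_neg.mp e2 with h | h
    · exact h
    · by_cases hc : 0 < u 0 * v 1 - u 1 * v 0
      · have hc2 := hs.mp hc
        have p1 := mul_pos hc hw0
        have p2 := mul_pos hc2 hv0
        linarith
      · have hc2 : ¬ (0 < u 0 * w 1 - u 1 * w 0) := fun hh => hc (hs.mpr hh)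
        push Not at hc hc2
        have p1 := mul_nonpos_of_nonpos_of_nonneg hc hw0.le
        have p2 := mul_nonpos_of_nonpos_of_nonneg hc2 hv0.le
        linarith
  have z0 : (u 0 ^ 2 + u 1 ^ 2) * (b * v 0 - a * w 0) = 0 := by
    linear_combination u 0 * e1 - u 1 * e3
  have z1 : (u 0 ^ 2 + u 1 ^ 2) * (b * v 1 - a * w 1) = 0 := by
    linear_combination u 1 * e1 + u 0 * e3
  have y0 := (mul_eq_zero.mp z0).resolve_left nu0.ne'
  have y1 := (mul_eq_zero.mp z1).resolve_left nu0.ne'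
  ext i
  fin_cases i
  · simp only [PiLp.smul_apply, smul_eq_mul]
    exact sub_eq_zero.mp y0
  · simp only [PiLp.smul_apply, smul_eq_mul]
    exact sub_eq_zero.mp y1




/-- there are at most `2 n ^ 2` angles of a given size in general position -/
theorem eq_le {n : ℕ} (P : Fin n → EuclideanSpace ℝ (Fin 2)) (hP : GenPos P) (α : ℝ) :
    cnt (fun a => a = α) P ≤ 2 * n ^ 2 := by
  unfold cnt
  have hcard : (Finset.univ : Finset (Fin n × Fin n × Prop)).card = 2 * n ^ 2 := by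
    rw [Finset.card_univ, Fintype.card_prod, Fintype.card_prod, Fintype.card_fin, Fintype.card_prop]
    ring
  rw [← hcard]
  apply Finset.card_le_card_of_injOn (fun t : Fin n × Fin n × Fin n =>
    (t.1, t.2.1, (0 < (P t.1 - P t.2.1) 0 * (P t.2.2 - P t.2.1) 1 -
      (P t.1 - P t.2.1) 1 * (P t.2.2 - P t.2.1) 0 : Prop)))
  · intro t _
    exact Finset.mem_coe.mpr (Finset.mem_univ _)
  · rintro ⟨i, j, k⟩ ht ⟨i', j', k'⟩ ht' heq
    rw [Finset.mem_coe, Finset.mem_filter] at ht ht'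
    simp only [Prod.mk.injEq] at heq
    obtain ⟨h1, h2, h3⟩ := heq
    subst h1
    subst h2
    obtain ⟨-, hik, hji, hjk, hang⟩ := ht
    obtain ⟨-, hik', hji', hjk', hang'⟩ := ht'
    simp only at hik hji hjk hang hik' hji' hjk' hang'
    by_cases hkk : k = k'
    · rw [hkk]
    · exfalso
      apply hP.2 k j k' (Ne.symm hjk) hjk' hkk
      have hray := same_ray (u := P i - P j) (v := P k - P j) (w := P k' - P j)
        (sub_ne_zero.mpr fun h => hji (hP.1 h).symm) (sub_ne_zero.mpr fun h => hjk (hP.1 h).symm)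
        (sub_ne_zero.mpr fun h => hjk' (hP.1 h).symm) hang hang' (Iff.of_eq h3)
      have hv0 : ‖P k - P j‖ ≠ 0 := norm_ne_zero_iff.mpr (sub_ne_zero.mpr fun h => hjk (hP.1 h).symm)
      rw [collinear_iff_of_mem (p₀ := P j) (by simp)]
      refine ⟨P k - P j, ?_⟩
      intro p hp
      rcases hp with rfl | rfl | rfl
      · exact ⟨1, by simp⟩
      · exact ⟨0, by simp⟩
      · refine ⟨‖P k' - P j‖ / ‖P k - P j‖, ?_⟩
        rw [div_eq_inv_mul, mul_smul, hray, smul_smul, inv_mul_cancel₀ hv0, one_smul, vadd_eq_add,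
          sub_add_cancel]

theorem approx (R : ℝ → Prop) (α L ε : ℝ) (hL : Tendsto (ratio R) atTop (nhds L)) (hε : 0 < ε) :
    ∃ T : Finset ℝ, (∀ x ∈ T, x ≠ α) ∧ ∀ R' : ℝ → Prop, R' α → (∀ x ∈ T, R' x → R x) →
      (∀ x ∈ T, ¬ R' x → ∀ᶠ y in nhds x, ¬ R' y) →
      ∀ L', Tendsto (ratio R') atTop (nhds L') → L' ≤ L + ε := by
  have h1 : ∀ᶠ n in atTop, ratio R n < L + ε / 2 := hL.eventually_lt_const (by linarith)
  have h2 : ∀ᶠ n : ℕ in atTop, 3 ≤ n := eventually_ge_atTop 3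
  have h3 : ∀ᶠ n : ℕ in atTop, (20 / ε : ℝ) ≤ (n : ℝ) :=
    (tendsto_natCast_atTop_atTop (R := ℝ)).eventually_ge_atTop _
  obtain ⟨n, hn1, hn2, hn3⟩ := (h1.and (h2.and h3)).exists
  have hn1' : sInf {r : ℝ | ∃ P : Fin n → EuclideanSpace ℝ (Fin 2), GenPos P ∧
    r = (cnt R P : ℝ) / (1 / 2 * n * (n - 1) * (n - 2))} < L + ε / 2 := hn1
  obtain ⟨P0, hP0⟩ := exists_genPos n
  have hne : ({r : ℝ | ∃ P : Fin n → EuclideanSpace ℝ (Fin 2), GenPos P ∧
    r = (cnt R P : ℝ) / (1 / 2 * n * (n - 1) * (n - 2))}).Nonempty := ⟨_, P0, hP0, rfl⟩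
  obtain ⟨r, ⟨P, hP, rfl⟩, hr⟩ := exists_lt_of_csInf_lt hne hn1'
  refine ⟨(Finset.univ.image (fun t : Fin n × Fin n × Fin n =>
    EuclideanGeometry.angle (P t.1) (P t.2.1) (P t.2.2))).filter (fun x => x ≠ α),
    fun x hx => (Finset.mem_filter.mp hx).2, ?_⟩
  intro R' hα hTR hTopen L' hL'
  have hmem : ∀ i j k : Fin n, EuclideanGeometry.angle (P i) (P j) (P k) ≠ α →
      EuclideanGeometry.angle (P i) (P j) (P k) ∈
      (Finset.univ.image (fun t : Fin n × Fin n × Fin n =>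
        EuclideanGeometry.angle (P t.1) (P t.2.1) (P t.2.2))).filter (fun x => x ≠ α) := by
    intro i j k h
    rw [Finset.mem_filter]
    exact ⟨Finset.mem_image.mpr ⟨(i, j, k), Finset.mem_univ _, rfl⟩, h⟩
  have hblow := blowup R' P hP (by
    intro i j k _ _ _ hnR
    refine hTopen _ (hmem i j k ?_) hnR
    intro h
    rw [h] at hnR
    exact hnR hα)
  have hlim := lim_le R' L' hL' n (by omega) (6 * ((cnt R' P : ℝ) + 3 * (n : ℝ) ^ 2)) (by
    intro t _
    obtain ⟨Q, hQ, hQc⟩ := hblow t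
    refine ⟨Q, hQ, ?_⟩
    have : (cnt R' Q : ℝ) ≤ ((cnt R' P : ℝ) + 3 * (n : ℝ) ^ 2) * (t : ℝ) ^ 3 := by
      exact_mod_cast hQc
    nlinarith)
  have hcnt : cnt R' P ≤ cnt R P + 2 * n ^ 2 := by
    refine le_trans ?_ (Nat.add_le_add_left (eq_le P hP α) _)
    unfold cnt
    refine le_trans (Finset.card_le_card ?_) (Finset.card_union_le _ _)
    intro t ht
    rw [Finset.mem_filter] at ht
    rw [Finset.mem_union, Finset.mem_filter, Finset.mem_filter]
    obtain ⟨_, ha, hb, hc, hR'⟩ := ht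
    by_cases h : EuclideanGeometry.angle (P t.1) (P t.2.1) (P t.2.2) = α
    · exact Or.inr ⟨Finset.mem_univ _, ha, hb, hc, h⟩
    · exact Or.inl ⟨Finset.mem_univ _, ha, hb, hc, hTR _ (hmem _ _ _ h) hR'⟩
  have hcnt' : (cnt R' P : ℝ) ≤ (cnt R P : ℝ) + 2 * (n : ℝ) ^ 2 := by exact_mod_cast hcnt
  have hn : (3 : ℝ) ≤ (n : ℝ) := by exact_mod_cast hn2
  have hnpos : (0 : ℝ) < (n : ℝ) := by linarith
  have hc0 : (0 : ℝ) ≤ (cnt R P : ℝ) := Nat.cast_nonneg _
  have hA : 6 * ((cnt R' P : ℝ) + 3 * (n : ℝ) ^ 2) / (3 * (n : ℝ) ^ 3) ≤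
      2 * (cnt R P : ℝ) / (n : ℝ) ^ 3 + 10 / (n : ℝ) := by
    rw [div_add_div _ _ (by positivity) (by positivity), div_le_div_iff₀ (by positivity) (by positivity)]
    have hmono : ((cnt R' P : ℝ) + 3 * (n : ℝ) ^ 2) * (n : ℝ) ^ 4 ≤
        ((cnt R P : ℝ) + 5 * (n : ℝ) ^ 2) * (n : ℝ) ^ 4 := by
      apply mul_le_mul_of_nonneg_right _ (by positivity)
      linarith
    nlinarith [hmono]
  have hB : 2 * (cnt R P : ℝ) / (n : ℝ) ^ 3 ≤
      (cnt R P : ℝ) / (1 / 2 * (n : ℝ) * ((n : ℝ) - 1) * ((n : ℝ) - 2)) := by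
    have hden : 0 < 1 / 2 * (n : ℝ) * ((n : ℝ) - 1) * ((n : ℝ) - 2) := by
      have e1 : 0 < (n : ℝ) - 1 := by linarith
      have e2 : 0 < (n : ℝ) - 2 := by linarith
      positivity
    have hle : 1 / 2 * (n : ℝ) * ((n : ℝ) - 1) * ((n : ℝ) - 2) ≤ (n : ℝ) ^ 3 / 2 := by
      nlinarith [mul_pos hnpos hnpos, mul_nonneg hnpos.le (by linarith : (0:ℝ) ≤ (n : ℝ) - 1)]
    calc 2 * (cnt R P : ℝ) / (n : ℝ) ^ 3 = (cnt R P : ℝ) / ((n : ℝ) ^ 3 / 2) := by
          field_simp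
      _ ≤ _ := div_le_div_of_nonneg_left hc0 hden hle
  have hC : 10 / (n : ℝ) ≤ ε / 2 := by
    rw [div_le_iff₀ hnpos]
    rw [div_le_iff₀ hε] at hn3
    linarith
  linarith

theorem ratio_mono' (R R' : ℝ → Prop) (h : ∀ a, R a → R' a) (n : ℕ) : ratio R n ≤ ratio R' n := by
  have hd : (0 : ℝ) ≤ 1 / 2 * n * (n - 1) * (n - 2) := by
    rcases n with _ | _ | n
    · simp
    · simp
    · have h1 : (1 / 2 * ((n + 1 + 1 : ℕ) : ℝ) * (((n + 1 + 1 : ℕ) : ℝ) - 1) * (((n + 1 + 1 : ℕ) : ℝ) - 2)) =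
        1 / 2 * ((n : ℝ) + 2) * ((n : ℝ) + 1) * (n : ℝ) := by
        push_cast
        ring
      rw [h1]
      positivity
  unfold ratio
  apply le_csInf
  · obtain ⟨P, hP⟩ := exists_genPos n
    exact ⟨_, P, hP, rfl⟩
  · rintro r ⟨P, hP, rfl⟩
    refine le_trans (csInf_le ?_ ⟨P, hP, rfl⟩) ?_
    · refine ⟨0, ?_⟩
      rintro r ⟨Q, hQ, rfl⟩
      exact div_nonneg (Nat.cast_nonneg _) hd
    · apply div_le_div_of_nonneg_right _ hd
      have h1 : cnt R P ≤ cnt R' P := by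
        unfold cnt
        apply Finset.card_le_card
        intro t ht
        rw [Finset.mem_filter] at ht ⊢
        exact ⟨ht.1, ht.2.1, ht.2.2.1, ht.2.2.2.1, h _ ht.2.2.2.2⟩
      exact_mod_cast h1

theorem F_tendsto (α : ℝ) : Tendsto (ratio fun a => α < a) atTop (nhds (F α)) := by
  exact tendsto_nhds_limUnder (ratio_lim _)

theorem G_tendsto (α : ℝ) : Tendsto (ratio fun a => a < α) atTop (nhds (G α)) := by
  exact tendsto_nhds_limUnder (ratio_lim _)

theorem F_anti : Antitone F := by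
  intro a b hab
  exact le_of_tendsto_of_tendsto' (F_tendsto b) (F_tendsto a)
    (fun n => ratio_mono' _ _ (fun x hx => lt_of_le_of_lt hab hx) n)

theorem G_mono : Monotone G := by
  intro a b hab
  exact le_of_tendsto_of_tendsto' (G_tendsto a) (G_tendsto b)
    (fun n => ratio_mono' _ _ (fun x hx => lt_of_lt_of_le hx hab) n)

theorem F_left (α : ℝ) : ContinuousWithinAt F (Set.Iic α) α := by
  rw [ContinuousWithinAt, Metric.tendsto_nhds]
  intro ε hε
  obtain ⟨T, hT, hT2⟩ := approx (fun a => α < a) α (F α) (ε / 2) (F_tendsto α) (by positivity)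
  have hev : ∀ᶠ a in nhds α, ∀ x ∈ T, x < α → x < a := by
    rw [Filter.eventually_all_finset]
    intro x hx
    by_cases h : x < α
    · filter_upwards [lt_mem_nhds h] with a ha _
      exact ha
    · exact Filter.Eventually.of_forall fun a h' => absurd h' h
  filter_upwards [hev.filter_mono nhdsWithin_le_nhds, self_mem_nhdsWithin] with a ha haα
  rcases eq_or_lt_of_le (show a ≤ α from haα) with h | h
  · rw [h, dist_self]
    exact hε
  · have h1 : F a ≤ F α + ε / 2 := by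
      refine hT2 (fun x => a < x) h ?_ ?_ (F a) (F_tendsto a)
      · intro x hx hax
        rcases lt_trichotomy x α with h2 | h2 | h2
        · exact absurd (ha x hx h2) (not_lt.2 (le_of_lt hax))
        · exact absurd h2 (hT x hx)
        · exact h2
      · intro x hx hax
        have h2 : x < α := lt_of_le_of_lt (not_lt.1 hax) h
        filter_upwards [gt_mem_nhds (ha x hx h2)] with y hy
        exact not_lt.2 (le_of_lt hy)
    have h2 : F α ≤ F a := F_anti (le_of_lt h)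
    rw [Real.dist_eq, abs_lt]
    constructor <;> linarith

theorem G_right (α : ℝ) : ContinuousWithinAt G (Set.Ici α) α := by
  rw [ContinuousWithinAt, Metric.tendsto_nhds]
  intro ε hε
  obtain ⟨T, hT, hT2⟩ := approx (fun a => a < α) α (G α) (ε / 2) (G_tendsto α) (by positivity)
  have hev : ∀ᶠ a in nhds α, ∀ x ∈ T, α < x → a < x := by
    rw [Filter.eventually_all_finset]
    intro x hx
    by_cases h : α < x
    · filter_upwards [gt_mem_nhds h] with a ha _
      exact ha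
    · exact Filter.Eventually.of_forall fun a h' => absurd h' h
  filter_upwards [hev.filter_mono nhdsWithin_le_nhds, self_mem_nhdsWithin] with a ha haα
  rcases eq_or_lt_of_le (show α ≤ a from haα) with h | h
  · rw [← h, dist_self]
    exact hε
  · have h1 : G a ≤ G α + ε / 2 := by
      refine hT2 (fun x => x < a) h ?_ ?_ (G a) (G_tendsto a)
      · intro x hx hax
        rcases lt_trichotomy x α with h2 | h2 | h2
        · exact h2
        · exact absurd h2 (hT x hx)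
        · exact absurd (ha x hx h2) (not_lt.2 (le_of_lt hax))
      · intro x hx hax
        have h2 : α < x := lt_of_lt_of_le h (not_lt.1 hax)
        filter_upwards [lt_mem_nhds (ha x hx h2)] with y hy
        exact not_lt.2 (le_of_lt hy)
    have h2 : G α ≤ G a := G_mono (le_of_lt h)
    rw [Real.dist_eq, abs_lt]
    constructor <;> linarith

end Pool.Agent.Helper585.Acute
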