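import Mathlib
import Pool.Agent.Helper585.Acute.Defs2
import Pool.Agent.Helper585.Acute.Circ
import Pool.Agent.Helper585.Acute.Lims

/-!
Clusters of points on short segments.
-/

set_option autoImplicit false

namespace Pool.Agent.Helper585.Acute.J

open scoped Classical
open Filter

theorem circ_ang (x y : ℝ) (h : |x - y| ≤ Real.pi) :
    InnerProductGeometry.angle (circ x) (circ y) = |x - y| := by
  have hn : ∀ z : ℝ, ‖circ z‖ = 1 := by
    intro z
    rw [EuclideanSpace.norm_eq, Fin.sum_univ_two]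
    simp only [circ, Real.norm_eq_abs, sq_abs]
    simp [Real.cos_sq_add_sin_sq]
  have hi : inner ℝ (circ x) (circ y) = Real.cos (x - y) := by
    rw [Real.cos_sub]
    simp [circ, PiLp.inner_apply, Fin.sum_univ_two]
    ring
  rw [InnerProductGeometry.angle, hn, hn, hi, mul_one, div_one, ← Real.cos_abs,
    Real.arccos_cos (abs_nonneg _) h]

/-- clusters: the points `a` with `cl a = i` lie on a short segment of direction `φ i` near `C i` -/
theorem clusters {n m : ℕ} (cl : Fin n → Fin m) (C : Fin m → EuclideanSpace ℝ (Fin 2))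
    (hC : Function.Injective C) (φ : Fin m → ℝ) (ε : ℝ) (hε : 0 < ε) :
    ∃ P : Fin n → EuclideanSpace ℝ (Fin 2), Function.Injective P ∧
      (∀ a b : Fin n, cl a ≠ cl b → ‖(P b - P a) - (C (cl b) - C (cl a))‖ < ε) ∧
      (∀ a b : Fin n, cl a = cl b → a < b → ∃ r : ℝ, 0 < r ∧ P b - P a = r • circ (φ (cl a))) := by
  have hδ : ∃ δ : ℝ, 0 < δ ∧ ∀ i j : Fin m, i ≠ j → δ ≤ ‖C i - C j‖ := by
    have h1 : ∀ᶠ δ : ℝ in nhdsWithin (0 : ℝ) (Set.Ioi 0), ∀ i j : Fin m, i ≠ j →
        δ ≤ ‖C i - C j‖ := by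
      rw [Filter.eventually_all]
      intro i
      rw [Filter.eventually_all]
      intro j
      by_cases hij : i = j
      · exact Filter.Eventually.of_forall (fun δ h => absurd hij h)
      · have hpos : 0 < ‖C i - C j‖ := by
          rw [norm_pos_iff, sub_ne_zero]
          exact fun h => hij (hC h)
        filter_upwards [Ioo_mem_nhdsGT hpos] with δ hδ _
        exact hδ.2.le
    obtain ⟨δ, h2, h3⟩ := (h1.and self_mem_nhdsWithin).exists
    exact ⟨δ, h3, h2⟩
  obtain ⟨δ, hδ0, hδ1⟩ := hδ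
  set η : ℝ := min ε δ / (2 * (n + 1)) with hη
  have hmin : 0 < min ε δ := lt_min hε hδ0
  have hn : (0 : ℝ) < 2 * (n + 1) := by positivity
  have hη0 : 0 < η := div_pos hmin hn
  have hη1 : η * (2 * (n + 1)) = min ε δ := by
    rw [hη]
    field_simp
  have hcirc : ∀ x : ℝ, ‖circ x‖ = 1 := by
    intro x
    rw [circ, EuclideanSpace.norm_eq]
    simp
  set P : Fin n → EuclideanSpace ℝ (Fin 2) :=
    fun a => C (cl a) + (η * (a : ℕ)) • circ (φ (cl a)) with hP
  have hclose : ∀ a b : Fin n, ‖(P b - P a) - (C (cl b) - C (cl a))‖ < min ε δ := by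
    intro a b
    have e1 : (P b - P a) - (C (cl b) - C (cl a)) =
        (η * (b : ℕ)) • circ (φ (cl b)) - (η * (a : ℕ)) • circ (φ (cl a)) := by
      simp only [hP]
      abel
    rw [e1]
    refine lt_of_le_of_lt (norm_sub_le _ _) ?_
    rw [norm_smul, norm_smul, hcirc, hcirc, Real.norm_eq_abs, Real.norm_eq_abs,
      abs_of_nonneg (by positivity), abs_of_nonneg (by positivity), ← hη1]
    have ha : ((a : ℕ) : ℝ) < n := by exact_mod_cast a.2
    have hb : ((b : ℕ) : ℝ) < n := by exact_mod_cast b.2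
    nlinarith
  have hsame : ∀ a b : Fin n, cl a = cl b →
      P b - P a = (η * ((b : ℕ) - (a : ℕ))) • circ (φ (cl a)) := by
    intro a b hab
    simp only [hP]
    rw [← hab, add_sub_add_left_eq_sub, ← sub_smul]
    congr 1
    ring
  refine ⟨P, ?_, fun a b _ => lt_of_lt_of_le (hclose a b) (min_le_left _ _), ?_⟩
  · intro a b hab
    by_cases hcl : cl a = cl b
    · have h1 := hsame a b hcl
      rw [hab, sub_self] at h1
      have h2 := congrArg norm h1
      rw [norm_zero, norm_smul, hcirc, mul_one, Real.norm_eq_abs] at h2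
      have h3 : η * ((b : ℕ) - (a : ℕ)) = 0 := abs_eq_zero.1 h2.symm
      have h4 : ((b : ℕ) : ℝ) - (a : ℕ) = 0 := (mul_eq_zero.1 h3).resolve_left hη0.ne'
      have h5 : ((b : ℕ) : ℝ) = (a : ℕ) := by linarith
      have h6 : (b : ℕ) = (a : ℕ) := by exact_mod_cast h5
      exact Fin.ext h6.symm
    · exfalso
      have h1 := hclose a b
      rw [hab, sub_self, zero_sub, norm_neg] at h1
      have h2 := hδ1 (cl b) (cl a) (fun h => hcl h.symm)
      have h3 := min_le_right ε δ
      linarith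
  · intro a b hcl hab
    refine ⟨η * ((b : ℕ) - (a : ℕ)), ?_, hsame a b hcl⟩
    have : ((a : ℕ) : ℝ) < ((b : ℕ) : ℝ) := by exact_mod_cast hab
    exact mul_pos hη0 (by linarith)

/-- angles less than `α` stay so under a small generic perturbation -/
theorem perturb_lt {n : ℕ} (P : Fin n → EuclideanSpace ℝ (Fin 2)) (hP : Function.Injective P)
    (α : ℝ) : ∃ Q : Fin n → EuclideanSpace ℝ (Fin 2), GenPos Q ∧ ∀ i j k : Fin n, i ≠ j → j ≠ k →
      EuclideanGeometry.angle (P i) (P j) (P k) < α →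
      EuclideanGeometry.angle (Q i) (Q j) (Q k) < α := by
  have h : ∀ᶠ Q in nhds P, ∀ i j k : Fin n, i ≠ j → j ≠ k →
      EuclideanGeometry.angle (P i) (P j) (P k) < α →
      EuclideanGeometry.angle (Q i) (Q j) (Q k) < α := by
    rw [Filter.eventually_all]
    intro i
    rw [Filter.eventually_all]
    intro j
    rw [Filter.eventually_all]
    intro k
    by_cases hc : i ≠ j ∧ j ≠ k ∧ EuclideanGeometry.angle (P i) (P j) (P k) < α
    · obtain ⟨h1, h2, h3⟩ := hc
      have h4 : ContinuousAt (fun y : EuclideanSpace ℝ (Fin 2) × EuclideanSpace ℝ (Fin 2) ×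
          EuclideanSpace ℝ (Fin 2) => EuclideanGeometry.angle y.1 y.2.1 y.2.2)
          (P i, P j, P k) :=
        EuclideanGeometry.continuousAt_angle (hP.ne h1) (hP.ne h2.symm)
      have h5 : ContinuousAt (fun Q : Fin n → EuclideanSpace ℝ (Fin 2) => (Q i, Q j, Q k)) P := by
        have h6 : Continuous (fun Q : Fin n → EuclideanSpace ℝ (Fin 2) => (Q i, Q j, Q k)) :=
          (continuous_apply i).prodMk ((continuous_apply j).prodMk (continuous_apply k))
        exact h6.continuousAt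
      have h7 : ContinuousAt (fun Q : Fin n → EuclideanSpace ℝ (Fin 2) =>
          EuclideanGeometry.angle (Q i) (Q j) (Q k)) P :=
        ContinuousAt.comp (f := fun Q : Fin n → EuclideanSpace ℝ (Fin 2) => (Q i, Q j, Q k))
          (x := P) h4 h5
      filter_upwards [h7.eventually (Iio_mem_nhds h3)] with Q hQ
      intro _ _ _
      exact hQ
    · exact Filter.Eventually.of_forall (fun Q h1 h2 h3 => absurd ⟨h1, h2, h3⟩ hc)
  rw [Metric.eventually_nhds_iff] at h
  obtain ⟨ε, hε, h⟩ := h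
  obtain ⟨Q, hQ, hd⟩ := perturb_gen P ε hε
  exact ⟨Q, hQ, h ((dist_pi_lt_iff hε).mpr hd)⟩

theorem cm_fin_pos {ι : Type*} [Finite ι] (f : ι → ℝ) (hf : ∀ i, 0 < f i) :
    ∃ ε : ℝ, 0 < ε ∧ ∀ i, ε ≤ f i := by
  rcases isEmpty_or_nonempty ι with h | h
  · exact ⟨1, one_pos, fun i => (h.false i).elim⟩
  · obtain ⟨i0, hi0⟩ := Finite.exists_min f
    exact ⟨f i0, hf i0, hi0⟩

theorem cm_circ_ne (x : ℝ) : circ x ≠ 0 := by
  intro h
  have h0 := congrFun (congrArg (fun v : EuclideanSpace ℝ (Fin 2) => (v : Fin 2 → ℝ)) h) 0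
  have h1 := congrFun (congrArg (fun v : EuclideanSpace ℝ (Fin 2) => (v : Fin 2 → ℝ)) h) 1
  simp [circ] at h0 h1
  have := Real.sin_sq_add_cos_sq x
  rw [h0, h1] at this
  norm_num at this

theorem cm_near {α : ℝ} (u v : EuclideanSpace ℝ (Fin 2)) (hu : u ≠ 0) (hv : v ≠ 0)
    (h : InnerProductGeometry.angle u v < α) :
    ∃ ε : ℝ, 0 < ε ∧ ∀ u' v' : EuclideanSpace ℝ (Fin 2), ‖u' - u‖ < ε → ‖v' - v‖ < ε →
      InnerProductGeometry.angle u' v' < α := by
  have hc := InnerProductGeometry.continuousAt_angle (x := (u, v)) hu hv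
  have he := hc.eventually_lt_const (by simpa using h)
  rw [Metric.eventually_nhds_iff] at he
  obtain ⟨ε, hε, he⟩ := he
  refine ⟨ε, hε, fun u' v' h1 h2 => ?_⟩
  have := @he (u', v') (by
    rw [Prod.dist_eq, max_lt_iff]
    exact ⟨by simpa [dist_eq_norm] using h1, by simpa [dist_eq_norm] using h2⟩)
  simpa using this

/-- clusters: angles of size at least `α` occur only inside one cluster, or with two points in a
cluster `i` (one of them the vertex) and the third in a cluster `j` with `B i j` -/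
theorem cluster_main {n m : ℕ} (cl : Fin n → Fin m) (C : Fin m → EuclideanSpace ℝ (Fin 2))
    (hC : Function.Injective C) (φ : Fin m → ℝ) (α : ℝ) (hα : Real.pi / 2 < α)
    (B : Fin m → Fin m → Prop)
    (h1 : ∀ i j k : Fin m, i ≠ j → j ≠ k → i ≠ k → EuclideanGeometry.angle (C i) (C j) (C k) < α)
    (h2 : ∀ i j : Fin m, i ≠ j → ¬ B i j →
      InnerProductGeometry.angle (circ (φ i)) (C j - C i) < α ∧
      InnerProductGeometry.angle (-circ (φ i)) (C j - C i) < α) :
    ∃ P : Fin n → EuclideanSpace ℝ (Fin 2), GenPos P ∧ ∀ a b c : Fin n, a ≠ b → b ≠ c → a ≠ c →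
      α ≤ EuclideanGeometry.angle (P a) (P b) (P c) →
      (cl a = cl b ∧ cl b = cl c) ∨ (cl a = cl b ∧ cl b ≠ cl c ∧ B (cl b) (cl c)) ∨
        (cl c = cl b ∧ cl b ≠ cl a ∧ B (cl b) (cl a)) := by
  have hα0 : 0 < α := lt_trans (by positivity) hα
  have H1 : ∀ t : Fin m × Fin m × Fin m, ∃ ε : ℝ, 0 < ε ∧ (t.1 ≠ t.2.1 → t.2.2 ≠ t.2.1 →
      ∀ u' v' : EuclideanSpace ℝ (Fin 2), ‖u' - (C t.1 - C t.2.1)‖ < ε →
        ‖v' - (C t.2.2 - C t.2.1)‖ < ε → InnerProductGeometry.angle u' v' < α) := by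
    rintro ⟨i, j, k⟩
    by_cases hij : i = j
    · exact ⟨1, one_pos, fun h => absurd hij h⟩
    by_cases hkj : k = j
    · exact ⟨1, one_pos, fun _ h => absurd hkj h⟩
    have hu : C i - C j ≠ 0 := sub_ne_zero.mpr (fun h => hij (hC h))
    have hv : C k - C j ≠ 0 := sub_ne_zero.mpr (fun h => hkj (hC h))
    have hang : InnerProductGeometry.angle (C i - C j) (C k - C j) < α := by
      by_cases hik : i = k
      · subst hik
        rw [InnerProductGeometry.angle_self hu]
        exact hα0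
      · have := h1 i j k hij (Ne.symm hkj) hik
        simpa [EuclideanGeometry.angle] using this
    obtain ⟨ε, hε, h⟩ := cm_near _ _ hu hv hang
    exact ⟨ε, hε, fun _ _ => h⟩
  have H2 : ∀ t : Fin m × Fin m, ∃ ε : ℝ, 0 < ε ∧ (t.1 ≠ t.2 → ¬ B t.1 t.2 →
      ∀ v' : EuclideanSpace ℝ (Fin 2), ‖v' - (C t.2 - C t.1)‖ < ε →
        InnerProductGeometry.angle (circ (φ t.1)) v' < α ∧
        InnerProductGeometry.angle (-circ (φ t.1)) v' < α) := by
    rintro ⟨i, j⟩
    by_cases hij : i = j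
    · exact ⟨1, one_pos, fun h => absurd hij h⟩
    by_cases hB : B i j
    · exact ⟨1, one_pos, fun _ h => absurd hB h⟩
    have hv : C j - C i ≠ 0 := sub_ne_zero.mpr (fun h => hij (hC h).symm)
    obtain ⟨ha, hb⟩ := h2 i j hij hB
    obtain ⟨ε, hε, h⟩ := cm_near _ _ (cm_circ_ne (φ i)) hv ha
    obtain ⟨ε', hε', h'⟩ := cm_near _ _ (neg_ne_zero.mpr (cm_circ_ne (φ i))) hv hb
    refine ⟨min ε ε', lt_min hε hε', fun _ _ v' hv' => ?_⟩
    exact ⟨h _ v' (by simpa using hε) (lt_of_lt_of_le hv' (min_le_left _ _)),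
      h' _ v' (by simpa using hε') (lt_of_lt_of_le hv' (min_le_right _ _))⟩
  choose f1 hf1 hf1' using H1
  choose f2 hf2 hf2' using H2
  obtain ⟨e1, he1, he1'⟩ := cm_fin_pos f1 hf1
  obtain ⟨e2, he2, he2'⟩ := cm_fin_pos f2 hf2
  obtain ⟨P, hPinj, hP1, hP2⟩ := clusters cl C hC φ (min e1 e2) (lt_min he1 he2)
  obtain ⟨Q, hQg, hQ⟩ := perturb_lt P hPinj α
  refine ⟨Q, hQg, fun a b c hab hbc hac hang => ?_⟩
  have hnot : ¬ InnerProductGeometry.angle (P a - P b) (P c - P b) < α := by
    intro h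
    have h' : EuclideanGeometry.angle (P a) (P b) (P c) < α := by
      simpa [EuclideanGeometry.angle] using h
    exact absurd (hQ a b c hab hbc h') (not_lt.mpr hang)
  -- the mixed case
  have mixed : ∀ a b c : Fin n, a ≠ b → cl a = cl b → cl b ≠ cl c → ¬ B (cl b) (cl c) →
      InnerProductGeometry.angle (P a - P b) (P c - P b) < α := by
    intro a b c hab hclab hclbc hB
    have hv := hP1 b c hclbc
    have hv2 : ‖(P c - P b) - (C (cl c) - C (cl b))‖ < f2 (cl b, cl c) :=
      lt_of_lt_of_le hv ((min_le_right _ _).trans (he2' _))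
    obtain ⟨h3, h4⟩ := hf2' (cl b, cl c) hclbc hB (P c - P b) hv2
    rcases lt_or_gt_of_ne hab with hlt | hgt
    · obtain ⟨r, hr, hr'⟩ := hP2 a b hclab hlt
      have : P a - P b = r • (-circ (φ (cl b))) := by
        rw [← hclab, smul_neg, ← hr', neg_sub]
      rw [this, InnerProductGeometry.angle_smul_left_of_pos _ _ hr]
      exact h4
    · obtain ⟨r, hr, hr'⟩ := hP2 b a hclab.symm hgt
      rw [hr', InnerProductGeometry.angle_smul_left_of_pos _ _ hr]
      exact h3
  by_cases hclab : cl a = cl b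
  · by_cases hclbc : cl b = cl c
    · exact Or.inl ⟨hclab, hclbc⟩
    · refine Or.inr (Or.inl ⟨hclab, hclbc, ?_⟩)
      by_contra hB
      exact hnot (mixed a b c hab hclab hclbc hB)
  · by_cases hclcb : cl c = cl b
    · refine Or.inr (Or.inr ⟨hclcb, fun h => hclab h.symm, ?_⟩)
      by_contra hB
      apply hnot
      rw [InnerProductGeometry.angle_comm]
      exact mixed c b a (Ne.symm hbc) hclcb (fun h => hclab h.symm) hB
    · exfalso
      apply hnot
      have hx := hP1 b a (fun h => hclab h.symm)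
      have hy := hP1 b c (fun h => hclcb h.symm)
      exact hf1' (cl a, cl b, cl c) hclab hclcb (P a - P b) (P c - P b)
        (lt_of_lt_of_le hx ((min_le_left _ _).trans (he1' _)))
        (lt_of_lt_of_le hy ((min_le_left _ _).trans (he1' _)))

theorem cnt_le_bad_two {x y z : EuclideanSpace ℝ (Fin 2)} (hxy : x ≠ y)
    (h1 : Real.pi / 2 < EuclideanGeometry.angle x y z)
    (h2 : Real.pi / 2 < EuclideanGeometry.angle y x z) : False := by
  have h3 := EuclideanGeometry.angle_add_angle_add_angle_eq_pi z hxy.symm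
  have h4 := EuclideanGeometry.angle_nonneg y z x
  rw [EuclideanGeometry.angle_comm z x y] at h3
  linarith

theorem cnt_le_bad_key {n : ℕ} (P : Fin n → EuclideanSpace ℝ (Fin 2)) (hP : Function.Injective P)
    (α : ℝ) (hα : Real.pi / 2 < α) (i j k i' j' k' : Fin n) (hik : i < k) (hji : j ≠ i)
    (hjk : j ≠ k) (h : α < EuclideanGeometry.angle (P i) (P j) (P k)) (hik' : i' < k')
    (hji' : j' ≠ i') (hjk' : j' ≠ k') (h' : α < EuclideanGeometry.angle (P i') (P j') (P k'))
    (ci : i' = i ∨ i' = j ∨ i' = k) (cj : j' = i ∨ j' = j ∨ j' = k)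
    (ck : k' = i ∨ k' = j ∨ k' = k) : i = i' ∧ j = j' ∧ k = k' := by
  have hPji : P j ≠ P i := fun e => hji (hP e)
  have hPjk : P j ≠ P k := fun e => hjk (hP e)
  have a1 : Real.pi / 2 < EuclideanGeometry.angle (P i) (P j) (P k) := hα.trans h
  have a1' : Real.pi / 2 < EuclideanGeometry.angle (P k) (P j) (P i) := by
    rw [EuclideanGeometry.angle_comm]
    exact a1
  have a2 : Real.pi / 2 < EuclideanGeometry.angle (P i') (P j') (P k') := hα.trans h'
  have a2' : Real.pi / 2 < EuclideanGeometry.angle (P k') (P j') (P i') := by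
    rw [EuclideanGeometry.angle_comm]
    exact a2
  rcases cj with rfl | rfl | rfl
  · -- j' = i
    exfalso
    rcases ci with rfl | rfl | rfl
    · exact hji' rfl
    · rcases ck with rfl | rfl | rfl
      · exact hjk' rfl
      · exact lt_irrefl _ hik'
      · exact cnt_le_bad_two hPji.symm a1 a2
    · rcases ck with rfl | rfl | rfl
      · exact hjk' rfl
      · exact cnt_le_bad_two hPji.symm a1 a2'
      · exact lt_irrefl _ hik'
  · -- j' = j
    rcases ci with rfl | rfl | rfl
    · rcases ck with rfl | rfl | rfl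
      · exact absurd hik' (lt_irrefl _)
      · exact absurd rfl hjk'
      · exact ⟨rfl, rfl, rfl⟩
    · exact absurd rfl hji'
    · rcases ck with rfl | rfl | rfl
      · exact absurd hik' (not_lt_of_gt hik)
      · exact absurd rfl hjk'
      · exact absurd hik' (lt_irrefl _)
  · -- j' = k
    exfalso
    rcases ci with rfl | rfl | rfl
    · rcases ck with rfl | rfl | rfl
      · exact lt_irrefl _ hik'
      · exact cnt_le_bad_two hPjk.symm a1' a2'
      · exact hjk' rfl
    · rcases ck with rfl | rfl | rfl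
      · exact cnt_le_bad_two hPjk.symm a1' a2
      · exact lt_irrefl _ hik'
      · exact hjk' rfl
    · exact hji' rfl

/-- the six orderings of a triple -/
noncomputable def cnt_le_bad_perms {n : ℕ} (t : Fin n × Fin n × Fin n) :
    Finset (Fin n × Fin n × Fin n) :=
  {(t.1, t.2.1, t.2.2), (t.1, t.2.2, t.2.1), (t.2.1, t.1, t.2.2), (t.2.1, t.2.2, t.1),
    (t.2.2, t.1, t.2.1), (t.2.2, t.2.1, t.1)}

theorem cnt_le_bad_card {n : ℕ} (i j k : Fin n) (hij : i ≠ j) (hjk : j ≠ k) (hik : i ≠ k) :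
    (cnt_le_bad_perms (i, j, k)).card = 6 := by
  unfold cnt_le_bad_perms
  rw [Finset.card_insert_of_notMem, Finset.card_insert_of_notMem, Finset.card_insert_of_notMem,
    Finset.card_insert_of_notMem, Finset.card_insert_of_notMem, Finset.card_singleton]
  all_goals simp [hij, hjk, hik, hij.symm, hjk.symm, hik.symm]

theorem cnt_le_bad_mem {n : ℕ} (t x : Fin n × Fin n × Fin n) (hx : x ∈ cnt_le_bad_perms t) :
    ∀ a : Fin n, (a = x.1 ∨ a = x.2.1 ∨ a = x.2.2) ↔ (a = t.1 ∨ a = t.2.1 ∨ a = t.2.2) := by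
  intro a
  unfold cnt_le_bad_perms at hx
  simp only [Finset.mem_insert, Finset.mem_singleton] at hx
  rcases hx with rfl | rfl | rfl | rfl | rfl | rfl <;> tauto

/-- every triangle has at most one angle greater than `α` -/
theorem cnt_le_bad {n : ℕ} (P : Fin n → EuclideanSpace ℝ (Fin 2)) (hP : GenPos P) (α : ℝ)
    (hα : Real.pi / 2 < α) (S : Finset (Fin n × Fin n × Fin n))
    (hS : ∀ a b c : Fin n, a ≠ b → b ≠ c → a ≠ c →
      α ≤ EuclideanGeometry.angle (P a) (P b) (P c) →
      (a, b, c) ∈ S ∧ (a, c, b) ∈ S ∧ (b, a, c) ∈ S ∧ (b, c, a) ∈ S ∧ (c, a, b) ∈ S ∧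
        (c, b, a) ∈ S) :
    6 * cnt (fun a => α < a) P ≤ S.card := by
  have hsub : (Finset.univ.filter fun t : Fin n × Fin n × Fin n =>
      t.1 < t.2.2 ∧ t.2.1 ≠ t.1 ∧ t.2.1 ≠ t.2.2 ∧
      α < EuclideanGeometry.angle (P t.1) (P t.2.1) (P t.2.2)).biUnion cnt_le_bad_perms ⊆ S := by
    intro x hx
    rw [Finset.mem_biUnion] at hx
    obtain ⟨⟨i, j, k⟩, ht, hx⟩ := hx
    rw [Finset.mem_filter] at ht
    obtain ⟨-, h1, h2, h3, h4⟩ := ht
    obtain ⟨s1, s2, s3, s4, s5, s6⟩ := hS i j k h2.symm h3 (ne_of_lt h1) h4.le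
    unfold cnt_le_bad_perms at hx
    simp only [Finset.mem_insert, Finset.mem_singleton] at hx
    rcases hx with rfl | rfl | rfl | rfl | rfl | rfl
    · exact s1
    · exact s2
    · exact s3
    · exact s4
    · exact s5
    · exact s6
  refine le_trans (le_of_eq ?_) (Finset.card_le_card hsub)
  rw [Finset.card_biUnion]
  · rw [Finset.sum_congr rfl (g := fun _ => 6)]
    · rw [Finset.sum_const, smul_eq_mul, mul_comm]
      rfl
    · rintro ⟨i, j, k⟩ ht
      rw [Finset.mem_filter] at ht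
      obtain ⟨-, h1, h2, h3, h4⟩ := ht
      exact cnt_le_bad_card i j k h2.symm h3 (ne_of_lt h1)
  · rintro ⟨i, j, k⟩ ht ⟨i', j', k'⟩ ht' hne
    rw [Function.onFun, Finset.disjoint_left]
    intro x hx hx'
    apply hne
    have ht := (Finset.mem_filter.1 (Finset.mem_coe.1 ht)).2
    have ht' := (Finset.mem_filter.1 (Finset.mem_coe.1 ht')).2
    obtain ⟨h1, h2, h3, h4⟩ := ht
    obtain ⟨h1', h2', h3', h4'⟩ := ht'
    have m1 := cnt_le_bad_mem _ x hx
    have m2 := cnt_le_bad_mem _ x hx'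
    obtain ⟨e1, e2, e3⟩ := cnt_le_bad_key P hP.1 α hα i j k i' j' k' h1 h2 h3 h4 h1' h2' h3' h4'
      ((m1 i').1 ((m2 i').2 (Or.inl rfl))) ((m1 j').1 ((m2 j').2 (Or.inr (Or.inl rfl))))
      ((m1 k').1 ((m2 k').2 (Or.inr (Or.inr rfl))))
    rw [e1, e2, e3]

theorem ff_cos : Real.cos (2 * Real.pi / 3) = -1/2 := by
  have : 2 * Real.pi / 3 = Real.pi - Real.pi / 3 := by ring
  rw [this, Real.cos_pi_sub, Real.cos_pi_div_three]; norm_num

theorem ff_sin : Real.sin (2 * Real.pi / 3) = Real.sqrt 3 / 2 := by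
  have : 2 * Real.pi / 3 = Real.pi - Real.pi / 3 := by ring
  rw [this, Real.sin_pi_sub, Real.sin_pi_div_three]

theorem ff_ang_le (x y : EuclideanSpace ℝ (Fin 2)) (hx : ‖x‖ = 1) (hy : ‖y‖ = 1)
    (h : -1/2 ≤ inner ℝ x y) : InnerProductGeometry.angle x y ≤ 2 * Real.pi / 3 := by
  unfold InnerProductGeometry.angle
  rw [hx, hy, mul_one, div_one]
  have e : 2 * Real.pi / 3 = Real.arccos (-1/2) := by
    rw [← ff_cos, Real.arccos_cos] <;> linarith [Real.pi_pos]
  rw [e]
  exact Real.arccos_le_arccos h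

/-- bits -/
noncomputable def ffb1 : Fin 4 → ℝ := ![0, 0, 1, 1]
noncomputable def ffb2 : Fin 4 → ℝ := ![0, 1, 0, 1]

/-- cluster centres -/
noncomputable def ffC (η : ℝ) (i : Fin 4) : EuclideanSpace ℝ (Fin 2) :=
  ffb1 i • circ 0 + (ffb2 i * η) • circ (Real.pi / 3)

/-- rescaled direction -/
noncomputable def ffV (η : ℝ) (i j : Fin 4) : EuclideanSpace ℝ (Fin 2) :=
  if ffb1 i - ffb1 j = 0 then (ffb2 i - ffb2 j) • circ (Real.pi / 3)
  else (ffb1 i - ffb1 j) • circ 0 + ((ffb2 i - ffb2 j) * η) • circ (Real.pi / 3)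

/-- limit direction -/
noncomputable def ffW (i j : Fin 4) : EuclideanSpace ℝ (Fin 2) :=
  if ffb1 i - ffb1 j = 0 then (ffb2 i - ffb2 j) • circ (Real.pi / 3)
  else (ffb1 i - ffb1 j) • circ 0

theorem ff_sub (η : ℝ) (i j : Fin 4) :
    ffC η i - ffC η j = if ffb1 i - ffb1 j = 0 then η • ffV η i j else ffV η i j := by
  unfold ffC ffV
  split_ifs with h
  · have h1 : ffb1 i = ffb1 j := by linarith
    rw [h1]
    ext q
    simp
    ring
  · ext q
    simp
    ring

theorem ff_ang_left (η : ℝ) (hη : 0 < η) (i j : Fin 4) (x : EuclideanSpace ℝ (Fin 2)) :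
    InnerProductGeometry.angle (ffC η i - ffC η j) x = InnerProductGeometry.angle (ffV η i j) x := by
  rw [ff_sub]
  split_ifs with h
  · exact InnerProductGeometry.angle_smul_left_of_pos _ _ hη
  · rfl

theorem ff_ang_right (η : ℝ) (hη : 0 < η) (i j : Fin 4) (x : EuclideanSpace ℝ (Fin 2)) :
    InnerProductGeometry.angle x (ffC η i - ffC η j) = InnerProductGeometry.angle x (ffV η i j) := by
  rw [ff_sub]
  split_ifs with h
  · exact InnerProductGeometry.angle_smul_right_of_pos _ _ hη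
  · rfl

theorem ff_cont (i j : Fin 4) : Continuous (fun η : ℝ => ffV η i j) := by
  unfold ffV
  split_ifs with h <;> fun_prop

theorem ff_zero (i j : Fin 4) : ffV 0 i j = ffW i j := by
  unfold ffV ffW
  split_ifs with h
  · rfl
  · simp

theorem ff_coords (a b : ℝ) : a • circ 0 + b • circ (Real.pi / 3) =
    !₂[a + b * (1/2), b * (Real.sqrt 3 / 2)] := by
  unfold circ
  rw [Real.cos_zero, Real.sin_zero, Real.cos_pi_div_three, Real.sin_pi_div_three]
  ext q
  fin_cases q <;> simp

theorem ff_W_eq (i j : Fin 4) : ffW i j = !₂[(if ffb1 i - ffb1 j = 0 then (ffb2 i - ffb2 j) * (1/2)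
      else (ffb1 i - ffb1 j)), (if ffb1 i - ffb1 j = 0 then (ffb2 i - ffb2 j) * (Real.sqrt 3 / 2) else 0)] := by
  unfold ffW
  split_ifs with h
  · have := ff_coords 0 (ffb2 i - ffb2 j)
    rw [zero_smul, zero_add, zero_add] at this
    exact this
  · have := ff_coords (ffb1 i - ffb1 j) 0
    rw [zero_smul, add_zero, zero_mul, add_zero, zero_mul] at this
    exact this

theorem ff_norm (i j : Fin 4) (hij : i ≠ j) : ‖ffW i j‖ = 1 := by
  have h3 : Real.sqrt 3 ^ 2 = 3 := Real.sq_sqrt (by norm_num)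
  rw [ff_W_eq, EuclideanSpace.norm_eq, Real.sqrt_eq_one]
  fin_cases i <;> fin_cases j <;> first | exact absurd rfl hij | (simp [ffb1, ffb2, Fin.sum_univ_two, div_pow, h3] <;> norm_num)

theorem ff_inner (i j k : Fin 4) (hij : i ≠ j) (hjk : j ≠ k) (hik : i ≠ k) :
    -1/2 ≤ inner ℝ (ffW i j) (ffW k j) := by
  have h3 : Real.sqrt 3 * Real.sqrt 3 = 3 := Real.mul_self_sqrt (by norm_num)
  rw [ff_W_eq, ff_W_eq]
  fin_cases i <;> fin_cases j <;> fin_cases k <;>
    first
    | exact absurd rfl hij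
    | exact absurd rfl hjk
    | exact absurd rfl hik
    | (simp [ffb1, ffb2, Fin.sum_univ_two, PiLp.inner_apply]; nlinarith [h3])

theorem ff_inner2 (i j : Fin 4) (hij : i ≠ j) :
    -1/2 ≤ inner ℝ (circ (2 * Real.pi / 3)) (ffW i j) ∧ -1/2 ≤ inner ℝ (-circ (2 * Real.pi / 3)) (ffW i j) := by
  have h3 : Real.sqrt 3 * Real.sqrt 3 = 3 := Real.mul_self_sqrt (by norm_num)
  rw [ff_W_eq]
  unfold circ
  rw [ff_cos, ff_sin]
  fin_cases i <;> fin_cases j <;>
    first
    | exact absurd rfl hij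
    | (constructor <;> simp [ffb1, ffb2, Fin.sum_univ_two, PiLp.inner_apply] <;> nlinarith [h3])

theorem ff_circ_norm (x : ℝ) : ‖circ x‖ = 1 := by
  unfold circ
  rw [EuclideanSpace.norm_eq, Real.sqrt_eq_one]
  simp [Fin.sum_univ_two]

theorem ff_ne (i j : Fin 4) (hij : i ≠ j) : ffW i j ≠ 0 := by
  intro h
  have := ff_norm i j hij
  rw [h, norm_zero] at this
  exact zero_ne_one this

theorem ff_inj (η : ℝ) (hη : 0 < η) : Function.Injective (ffC η) := by
  intro i j h
  unfold ffC at h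
  rw [ff_coords, ff_coords] at h
  have h1 := congrArg (fun v : EuclideanSpace ℝ (Fin 2) => v 0) h
  have h2 := congrArg (fun v : EuclideanSpace ℝ (Fin 2) => v 1) h
  simp at h1 h2
  have h3 : ffb2 i = ffb2 j := by
    rcases h2 with h2 | h2
    · exact h2
    · exact absurd h2 hη.ne'
  rw [h3] at h1
  have h4 : ffb1 i = ffb1 j := by linarith
  revert h3 h4
  fin_cases i <;> fin_cases j <;> simp [ffb1, ffb2]

theorem ff_exists (α : ℝ) (hα : 2 * Real.pi / 3 < α) : ∃ η : ℝ, 0 < η ∧
    (∀ i j k : Fin 4, i ≠ j → j ≠ k → i ≠ k →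
      EuclideanGeometry.angle (ffC η i) (ffC η j) (ffC η k) < α) ∧
    (∀ i j : Fin 4, i ≠ j → InnerProductGeometry.angle (circ (2 * Real.pi / 3)) (ffC η j - ffC η i) < α ∧
      InnerProductGeometry.angle (-circ (2 * Real.pi / 3)) (ffC η j - ffC η i) < α) := by
  have e1 : ∀ i j k : Fin 4, ∀ᶠ η in nhdsWithin (0:ℝ) (Set.Ioi 0), i ≠ j → j ≠ k → i ≠ k →
      InnerProductGeometry.angle (ffV η i j) (ffV η k j) < α := by
    intro i j k
    by_cases hh : i ≠ j ∧ j ≠ k ∧ i ≠ k
    · obtain ⟨hij, hjk, hik⟩ := hh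
      have hc : ContinuousAt (fun η : ℝ => InnerProductGeometry.angle (ffV η i j) (ffV η k j)) 0 := by
        have h1 := InnerProductGeometry.continuousAt_angle (x := (ffV 0 i j, ffV 0 k j))
          (by rw [ff_zero]; exact ff_ne i j hij) (by simp only [ff_zero]; exact ff_ne k j hjk.symm)
        exact ContinuousAt.comp (f := fun η : ℝ => (ffV η i j, ffV η k j)) (x := (0:ℝ)) h1
          (((ff_cont i j).prodMk (ff_cont k j)).continuousAt)
      have h0 : InnerProductGeometry.angle (ffV 0 i j) (ffV 0 k j) < α := by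
        rw [ff_zero, ff_zero]
        exact lt_of_le_of_lt (ff_ang_le _ _ (ff_norm i j hij) (ff_norm k j hjk.symm) (ff_inner i j k hij hjk hik)) hα
      have h2 := (hc.eventually_lt continuousAt_const h0)
      have h3 := h2.filter_mono (nhdsWithin_le_nhds (s := Set.Ioi (0:ℝ)))
      filter_upwards [h3] with η hη _ _ _
      exact hη
    · refine Eventually.of_forall fun η a b c => absurd ⟨a, b, c⟩ hh
  have e2 : ∀ i j : Fin 4, ∀ᶠ η in nhdsWithin (0:ℝ) (Set.Ioi 0), i ≠ j →
      (InnerProductGeometry.angle (circ (2 * Real.pi / 3)) (ffV η j i) < α ∧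
      InnerProductGeometry.angle (-circ (2 * Real.pi / 3)) (ffV η j i) < α) := by
    intro i j
    by_cases hij : i ≠ j
    · have hgen : ∀ w : EuclideanSpace ℝ (Fin 2), ‖w‖ = 1 → -1/2 ≤ inner ℝ w (ffW j i) →
          ∀ᶠ η in nhdsWithin (0:ℝ) (Set.Ioi 0), InnerProductGeometry.angle w (ffV η j i) < α := by
        intro w hw hin
        have hw0 : w ≠ 0 := by
          intro h; rw [h, norm_zero] at hw; exact zero_ne_one hw
        have hc : ContinuousAt (fun η : ℝ => InnerProductGeometry.angle w (ffV η j i)) 0 := by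
          have h1 := InnerProductGeometry.continuousAt_angle (x := (w, ffV 0 j i))
            hw0 (by simp only [ff_zero]; exact ff_ne j i hij.symm)
          exact ContinuousAt.comp (f := fun η : ℝ => (w, ffV η j i)) (x := (0:ℝ)) h1
            ((continuous_const.prodMk (ff_cont j i)).continuousAt)
        have h0 : InnerProductGeometry.angle w (ffV 0 j i) < α := by
          rw [ff_zero]
          exact lt_of_le_of_lt (ff_ang_le _ _ hw (ff_norm j i hij.symm) hin) hα
        have h2 := (hc.eventually_lt continuousAt_const h0)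
        exact h2.filter_mono (nhdsWithin_le_nhds (s := Set.Ioi (0:ℝ)))
      have h5 := ff_inner2 j i hij.symm
      filter_upwards [hgen _ (ff_circ_norm _) h5.1, hgen _ (by rw [norm_neg]; exact ff_circ_norm _) h5.2] with η h6 h7 _
      exact ⟨h6, h7⟩
    · exact Eventually.of_forall fun η a => absurd a hij
  have e3 : ∀ᶠ η in nhdsWithin (0:ℝ) (Set.Ioi 0), ∀ i j k : Fin 4, i ≠ j → j ≠ k → i ≠ k →
      InnerProductGeometry.angle (ffV η i j) (ffV η k j) < α :=
    eventually_all.2 fun i => eventually_all.2 fun j => eventually_all.2 fun k => e1 i j k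
  have e4 : ∀ᶠ η in nhdsWithin (0:ℝ) (Set.Ioi 0), ∀ i j : Fin 4, i ≠ j →
      (InnerProductGeometry.angle (circ (2 * Real.pi / 3)) (ffV η j i) < α ∧
      InnerProductGeometry.angle (-circ (2 * Real.pi / 3)) (ffV η j i) < α) :=
    eventually_all.2 fun i => eventually_all.2 fun j => e2 i j
  obtain ⟨η, ⟨h3, h4⟩, hη⟩ := ((e3.and e4).and self_mem_nhdsWithin).exists
  have hη0 : 0 < η := hη
  refine ⟨η, hη0, fun i j k hij hjk hik => ?_, fun i j hij => ?_⟩
  · unfold EuclideanGeometry.angle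
    rw [vsub_eq_sub, vsub_eq_sub, ff_ang_left η hη0, ff_ang_right η hη0]
    exact h3 i j k hij hjk hik
  · rw [ff_ang_right η hη0, ff_ang_right η hη0]
    exact h4 i j hij

/-- four clusters, three directions at 60 degrees -/
theorem f_four (t : ℕ) (ht : 1 ≤ t) (α : ℝ) (hα : 2 * Real.pi / 3 < α) :
    ∃ P : Fin (4 * t) → EuclideanSpace ℝ (Fin 2), GenPos P ∧
      6 * cnt (fun a => α < a) P ≤ 4 * t ^ 3 := by
  obtain ⟨η, hη, h1, h2⟩ := ff_exists α hα
  have hα2 : Real.pi / 2 < α := by linarith [Real.pi_pos]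
  obtain ⟨cl, hcl⟩ : ∃ cl : Fin (4 * t) → Fin 4, ∀ a, (cl a : ℕ) = a / t :=
    ⟨fun a => ⟨a / t, Nat.div_lt_of_lt_mul (by have := a.2; omega)⟩, fun a => rfl⟩
  obtain ⟨P, hP, hcl3⟩ := cluster_main cl (ffC η) (ff_inj η hη) (fun _ => 2 * Real.pi / 3) α hα2
    (fun _ _ => False) h1 (fun i j hij _ => h2 i j hij)
  refine ⟨P, hP, ?_⟩
  obtain ⟨S, hS⟩ : ∃ S : Finset (Fin (4 * t) × Fin (4 * t) × Fin (4 * t)), S = Finset.univ.filter
    (fun x => cl x.1 = cl x.2.1 ∧ cl x.2.1 = cl x.2.2) := ⟨_, rfl⟩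
  have hbad := cnt_le_bad P hP α hα2 S (by
    intro a b c hab hbc hac hang
    have h := hcl3 a b c hab hbc hac hang
    simp only [and_false, or_false] at h
    obtain ⟨e1, e2⟩ := h
    rw [hS]
    simp [e1, e2])
  refine hbad.trans ?_
  have hfib : ∀ i : Fin 4, (Finset.univ.filter (fun a : Fin (4 * t) => cl a = i)).card ≤ t := by
    intro i
    calc (Finset.univ.filter (fun a : Fin (4 * t) => cl a = i)).card ≤ (Finset.range t).card := by
          refine Finset.card_le_card_of_injOn (fun a => (a : ℕ) % t) ?_ ?_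
          · intro a _
            simp only [Finset.coe_range, Set.mem_Iio]
            exact Nat.mod_lt _ (by omega)
          · intro a ha b hb hab
            simp only [Finset.coe_filter, Finset.mem_univ, true_and, Set.mem_ofPred_eq] at ha hb
            have h5 : (a : ℕ) / t = (b : ℕ) / t := by
              rw [← hcl, ← hcl, ha, hb]
            have h6 : (a : ℕ) % t = (b : ℕ) % t := hab
            ext
            rw [← Nat.div_add_mod (a : ℕ) t, ← Nat.div_add_mod (b : ℕ) t, h5, h6]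
      _ = t := Finset.card_range t
  have hsub : S ⊆ Finset.univ.biUnion (fun i : Fin 4 =>
      (Finset.univ.filter (fun a : Fin (4 * t) => cl a = i)) ×ˢ
        ((Finset.univ.filter (fun a : Fin (4 * t) => cl a = i)) ×ˢ
          (Finset.univ.filter (fun a : Fin (4 * t) => cl a = i)))) := by
    intro x hx
    rw [hS] at hx
    simp only [Finset.mem_filter, Finset.mem_univ, true_and] at hx
    simp only [Finset.mem_biUnion, Finset.mem_univ, true_and, Finset.mem_product, Finset.mem_filter]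
    exact ⟨cl x.1, rfl, hx.1.symm, by rw [← hx.2, ← hx.1]⟩
  calc S.card ≤ _ := Finset.card_le_card hsub
    _ ≤ _ := Finset.card_biUnion_le
    _ ≤ ∑ _i : Fin 4, t * (t * t) := by
        refine Finset.sum_le_sum fun i _ => ?_
        rw [Finset.card_product, Finset.card_product]
        exact Nat.mul_le_mul (hfib i) (Nat.mul_le_mul (hfib i) (hfib i))
    _ = 4 * t ^ 3 := by
        simp
        ring

theorem f_three_neg (x : ℝ) : -circ x = circ (x + Real.pi) := by
  unfold circ
  ext i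
  fin_cases i
  · simp [Real.cos_add_pi]
  · simp [Real.sin_add_pi]

theorem f_three_neg' (x : ℝ) : -circ x = circ (x - Real.pi) := by
  unfold circ
  ext i
  fin_cases i
  · simp [Real.cos_sub_pi]
  · simp [Real.sin_sub_pi]

theorem f_three_ne (x : ℝ) : circ x ≠ 0 := by
  intro h
  have h0 : Real.cos x = 0 := by
    have := congrFun (congrArg (fun v : EuclideanSpace ℝ (Fin 2) => v.ofLp) h) 0
    simpa [circ] using this
  have h1 : Real.sin x = 0 := by
    have := congrFun (congrArg (fun v : EuclideanSpace ℝ (Fin 2) => v.ofLp) h) 1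
    simpa [circ] using this
  have h2 := Real.sin_sq_add_cos_sq x
  rw [h0, h1] at h2
  norm_num at h2

theorem f_three_diff : circ (Real.pi / 5) - (2 * Real.cos (Real.pi / 5)) • circ 0 =
    circ (4 * Real.pi / 5) := by
  have h : 4 * Real.pi / 5 = Real.pi - Real.pi / 5 := by ring
  rw [h]
  unfold circ
  ext i
  fin_cases i
  · simp [Real.cos_pi_sub]
    ring
  · simp [Real.sin_pi_sub]

theorem f_three_card (t : ℕ) (cl : Fin (5 * t) → Fin 3)
    (h0 : ∀ a, cl a = 0 → (a : ℕ) < 2 * t)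
    (h1 : ∀ a, cl a = 1 → 2 * t ≤ (a : ℕ) ∧ (a : ℕ) < 4 * t)
    (h2 : ∀ a, cl a = 2 → 4 * t ≤ (a : ℕ)) :
    (Finset.univ.filter fun p : Fin (5 * t) × Fin (5 * t) × Fin (5 * t) =>
      (cl p.1 = cl p.2.1 ∧ cl p.2.1 = cl p.2.2) ∨
      (cl p.1 = 2 ∧ cl p.2.1 = 2 ∧ cl p.2.2 = 1) ∨
      (cl p.1 = 2 ∧ cl p.2.1 = 1 ∧ cl p.2.2 = 2) ∨
      (cl p.1 = 1 ∧ cl p.2.1 = 2 ∧ cl p.2.2 = 2)).card ≤ 23 * t ^ 3 := by
  classical
  set K : Fin 3 → Finset (Fin (5 * t)) := fun i => Finset.univ.filter fun a => cl a = i with hK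
  have c0 : (K 0).card ≤ 2 * t := by
    have h := Finset.card_le_card_of_injOn (s := K 0) (t := Finset.Ico 0 (2 * t))
      (fun a : Fin (5 * t) => (a : ℕ)) (by
        intro a ha
        have h3 : cl a = 0 := (Finset.mem_filter.1 ha).2
        have h4 := h0 a h3
        simp only [Finset.coe_Ico, Set.mem_Ico]
        omega) (fun a _ b _ hab => Fin.ext hab)
    simpa using h
  have c1 : (K 1).card ≤ 2 * t := by
    have h := Finset.card_le_card_of_injOn (s := K 1) (t := Finset.Ico (2 * t) (4 * t))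
      (fun a : Fin (5 * t) => (a : ℕ)) (by
        intro a ha
        have h3 : cl a = 1 := (Finset.mem_filter.1 ha).2
        have h4 := h1 a h3
        simp only [Finset.coe_Ico, Set.mem_Ico]
        omega) (fun a _ b _ hab => Fin.ext hab)
    rw [Nat.card_Ico] at h
    omega
  have c2 : (K 2).card ≤ t := by
    have h := Finset.card_le_card_of_injOn (s := K 2) (t := Finset.Ico (4 * t) (5 * t))
      (fun a : Fin (5 * t) => (a : ℕ)) (by
        intro a ha
        have h3 : cl a = 2 := (Finset.mem_filter.1 ha).2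
        have h4 := h2 a h3
        have h5 := a.2
        simp only [Finset.coe_Ico, Set.mem_Ico]
        omega) (fun a _ b _ hab => Fin.ext hab)
    rw [Nat.card_Ico] at h
    omega
  have hsub : (Finset.univ.filter fun p : Fin (5 * t) × Fin (5 * t) × Fin (5 * t) =>
      (cl p.1 = cl p.2.1 ∧ cl p.2.1 = cl p.2.2) ∨
      (cl p.1 = 2 ∧ cl p.2.1 = 2 ∧ cl p.2.2 = 1) ∨
      (cl p.1 = 2 ∧ cl p.2.1 = 1 ∧ cl p.2.2 = 2) ∨
      (cl p.1 = 1 ∧ cl p.2.1 = 2 ∧ cl p.2.2 = 2)) ⊆
      (K 0 ×ˢ K 0 ×ˢ K 0) ∪ ((K 1 ×ˢ K 1 ×ˢ K 1) ∪ ((K 2 ×ˢ K 2 ×ˢ K 2) ∪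
        ((K 2 ×ˢ K 2 ×ˢ K 1) ∪ ((K 2 ×ˢ K 1 ×ˢ K 2) ∪ (K 1 ×ˢ K 2 ×ˢ K 2))))) := by
    rintro ⟨a, b, c⟩ hp
    have hp' := (Finset.mem_filter.1 hp).2
    have hm : ∀ (i : Fin 3) (x : Fin (5 * t)), x ∈ K i ↔ cl x = i := by
      intro i x
      simp [hK]
    simp only [Finset.mem_union, Finset.mem_product, hm]
    have h3 : ∀ i : Fin 3, i = 0 ∨ i = 1 ∨ i = 2 := by decide
    simp only at hp'
    rcases hp' with ⟨e1, e2⟩ | ⟨e1, e2, e3⟩ | ⟨e1, e2, e3⟩ | ⟨e1, e2, e3⟩
    · rcases h3 (cl c) with e | e | e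
      · exact Or.inl ⟨by rw [e1, e2, e], by rw [e2, e], e⟩
      · exact Or.inr (Or.inl ⟨by rw [e1, e2, e], by rw [e2, e], e⟩)
      · exact Or.inr (Or.inr (Or.inl ⟨by rw [e1, e2, e], by rw [e2, e], e⟩))
    · exact Or.inr (Or.inr (Or.inr (Or.inl ⟨e1, e2, e3⟩)))
    · exact Or.inr (Or.inr (Or.inr (Or.inr (Or.inl ⟨e1, e2, e3⟩))))
    · exact Or.inr (Or.inr (Or.inr (Or.inr (Or.inr ⟨e1, e2, e3⟩))))
  refine (Finset.card_le_card hsub).trans ?_
  have hprod : ∀ i j k : Fin 3, ∀ x y z : ℕ, (K i).card ≤ x → (K j).card ≤ y → (K k).card ≤ z →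
      (K i ×ˢ K j ×ˢ K k).card ≤ x * (y * z) := by
    intro i j k x y z hx hy hz
    rw [Finset.card_product, Finset.card_product]
    exact Nat.mul_le_mul hx (Nat.mul_le_mul hy hz)
  refine (Finset.card_union_le _ _).trans ?_
  refine (Nat.add_le_add (hprod 0 0 0 _ _ _ c0 c0 c0) (Finset.card_union_le _ _)).trans ?_
  refine (Nat.add_le_add le_rfl (Nat.add_le_add (hprod 1 1 1 _ _ _ c1 c1 c1)
    (Finset.card_union_le _ _))).trans ?_
  refine (Nat.add_le_add le_rfl (Nat.add_le_add le_rfl (Nat.add_le_add (hprod 2 2 2 _ _ _ c2 c2 c2)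
    (Finset.card_union_le _ _)))).trans ?_
  refine (Nat.add_le_add le_rfl (Nat.add_le_add le_rfl (Nat.add_le_add le_rfl
    (Nat.add_le_add (hprod 2 2 1 _ _ _ c2 c2 c1) (Finset.card_union_le _ _))))).trans ?_
  refine (Nat.add_le_add le_rfl (Nat.add_le_add le_rfl (Nat.add_le_add le_rfl
    (Nat.add_le_add le_rfl (Nat.add_le_add (hprod 2 1 2 _ _ _ c2 c1 c2)
      (hprod 1 2 2 _ _ _ c1 c2 c2)))))).trans ?_
  apply le_of_eq
  ring

/-- three clusters at the vertices of a triangle with angles 36, 36 and 108 degrees -/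
theorem f_three (t : ℕ) (ht : 1 ≤ t) (α : ℝ) (hα : 3 * Real.pi / 5 < α) :
    ∃ P : Fin (5 * t) → EuclideanSpace ℝ (Fin 2), GenPos P ∧
      6 * cnt (fun a => α < a) P ≤ 23 * t ^ 3 := by
  classical
  have hpi := Real.pi_pos
  have hr : 0 < 2 * Real.cos (Real.pi / 5) := by
    have h := Real.cos_pos_of_mem_Ioo (x := Real.pi / 5) ⟨by linarith, by linarith⟩
    linarith
  set C : Fin 3 → EuclideanSpace ℝ (Fin 2) :=
    ![0, (2 * Real.cos (Real.pi / 5)) • circ 0, circ (Real.pi / 5)] with hC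
  set φ : Fin 3 → ℝ := ![3 * Real.pi / 5, 2 * Real.pi / 5, 7 * Real.pi / 10] with hφ
  have C0 : C 0 = 0 := rfl
  have C1 : C 1 = (2 * Real.cos (Real.pi / 5)) • circ 0 := rfl
  have C2 : C 2 = circ (Real.pi / 5) := rfl
  have P0 : φ 0 = 3 * Real.pi / 5 := rfl
  have P1 : φ 1 = 2 * Real.pi / 5 := rfl
  have P2 : φ 2 = 7 * Real.pi / 10 := rfl
  have E10 : C 1 - C 0 = (2 * Real.cos (Real.pi / 5)) • circ 0 := by rw [C0, C1, sub_zero]
  have E20 : C 2 - C 0 = circ (Real.pi / 5) := by rw [C0, C2, sub_zero]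
  have E01 : C 0 - C 1 = (2 * Real.cos (Real.pi / 5)) • circ Real.pi := by
    have h := f_three_neg 0
    rw [zero_add] at h
    rw [C0, C1, zero_sub, ← smul_neg, h]
  have E21 : C 2 - C 1 = circ (4 * Real.pi / 5) := by rw [C1, C2, f_three_diff]
  have E12 : C 1 - C 2 = circ (-(Real.pi / 5)) := by
    have h : C 1 - C 2 = -(C 2 - C 1) := (neg_sub _ _).symm
    rw [h, E21, f_three_neg']
    congr 1
    ring
  have E02a : C 0 - C 2 = circ (-(4 * Real.pi / 5)) := by
    rw [C0, C2, zero_sub, f_three_neg']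
    congr 1
    ring
  have E02b : C 0 - C 2 = circ (6 * Real.pi / 5) := by
    rw [C0, C2, zero_sub, f_three_neg]
    congr 1
    ring
  have h3 : ∀ i : Fin 3, i = 0 ∨ i = 1 ∨ i = 2 := by decide
  have hinj : Function.Injective C := by
    have hne : ∀ i j : Fin 3, C i - C j ≠ 0 → C i ≠ C j := fun i j h h' => h (sub_eq_zero.2 h')
    have n10 : C 1 ≠ C 0 := hne _ _ (by rw [E10]; exact smul_ne_zero hr.ne' (f_three_ne _))
    have n20 : C 2 ≠ C 0 := hne _ _ (by rw [E20]; exact f_three_ne _)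
    have n21 : C 2 ≠ C 1 := hne _ _ (by rw [E21]; exact f_three_ne _)
    intro i j hij
    rcases h3 i with rfl | rfl | rfl <;> rcases h3 j with rfl | rfl | rfl
    · rfl
    · exact absurd hij.symm n10
    · exact absurd hij.symm n20
    · exact absurd hij n10
    · rfl
    · exact absurd hij.symm n21
    · exact absurd hij n20
    · exact absurd hij n21
    · rfl
  have A0 : InnerProductGeometry.angle (C 1 - C 0) (C 2 - C 0) < α := by
    rw [E10, E20, InnerProductGeometry.angle_smul_left_of_pos _ _ hr, circ_ang]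
    · rw [abs_lt]; constructor <;> linarith
    · rw [abs_le]; constructor <;> linarith
  have A1 : InnerProductGeometry.angle (C 0 - C 1) (C 2 - C 1) < α := by
    rw [E01, E21, InnerProductGeometry.angle_smul_left_of_pos _ _ hr, circ_ang]
    · rw [abs_lt]; constructor <;> linarith
    · rw [abs_le]; constructor <;> linarith
  have A2 : InnerProductGeometry.angle (C 0 - C 2) (C 1 - C 2) < α := by
    rw [E02a, E12, circ_ang]
    · rw [abs_lt]; constructor <;> linarith
    · rw [abs_le]; constructor <;> linarith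
  have hA : ∀ x y : ℝ, |x - y| ≤ Real.pi → |x - y| < α →
      InnerProductGeometry.angle (circ x) (circ y) < α := by
    intro x y hxy hxy'
    rw [circ_ang x y hxy]
    exact hxy'
  obtain ⟨P, hP, hP'⟩ := cluster_main (n := 5 * t)
    (fun a => if (a : ℕ) < 2 * t then 0 else if (a : ℕ) < 4 * t then 1 else 2) C hinj φ α
    (by linarith) (fun i j => i = 2 ∧ j = 1) (by
      intro i j k hij hjk hik
      show InnerProductGeometry.angle (C i -ᵥ C j) (C k -ᵥ C j) < α
      rw [vsub_eq_sub, vsub_eq_sub]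
      rcases h3 i with rfl | rfl | rfl <;> rcases h3 j with rfl | rfl | rfl <;>
        rcases h3 k with rfl | rfl | rfl <;>
      first
        | exact absurd rfl hij
        | exact absurd rfl hjk
        | exact absurd rfl hik
        | exact A0
        | exact A1
        | exact A2
        | (rw [InnerProductGeometry.angle_comm]; exact A0)
        | (rw [InnerProductGeometry.angle_comm]; exact A1)
        | (rw [InnerProductGeometry.angle_comm]; exact A2)) (by
      intro i j hij hB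
      rcases h3 i with rfl | rfl | rfl <;> rcases h3 j with rfl | rfl | rfl
      · exact absurd rfl hij
      · rw [P0, E10, InnerProductGeometry.angle_smul_right_of_pos _ _ hr,
          InnerProductGeometry.angle_smul_right_of_pos _ _ hr, f_three_neg']
        constructor <;> apply hA
        · rw [abs_le]; constructor <;> linarith
        · rw [abs_lt]; constructor <;> linarith
        · rw [abs_le]; constructor <;> linarith
        · rw [abs_lt]; constructor <;> linarith
      · rw [P0, E20, f_three_neg']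
        constructor <;> apply hA
        · rw [abs_le]; constructor <;> linarith
        · rw [abs_lt]; constructor <;> linarith
        · rw [abs_le]; constructor <;> linarith
        · rw [abs_lt]; constructor <;> linarith
      · rw [P1, E01, InnerProductGeometry.angle_smul_right_of_pos _ _ hr,
          InnerProductGeometry.angle_smul_right_of_pos _ _ hr, f_three_neg]
        constructor <;> apply hA
        · rw [abs_le]; constructor <;> linarith
        · rw [abs_lt]; constructor <;> linarith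
        · rw [abs_le]; constructor <;> linarith
        · rw [abs_lt]; constructor <;> linarith
      · exact absurd rfl hij
      · rw [P1, E21, f_three_neg]
        constructor <;> apply hA
        · rw [abs_le]; constructor <;> linarith
        · rw [abs_lt]; constructor <;> linarith
        · rw [abs_le]; constructor <;> linarith
        · rw [abs_lt]; constructor <;> linarith
      · rw [P2, E02b, f_three_neg]
        constructor <;> apply hA
        · rw [abs_le]; constructor <;> linarith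
        · rw [abs_lt]; constructor <;> linarith
        · rw [abs_le]; constructor <;> linarith
        · rw [abs_lt]; constructor <;> linarith
      · exact absurd ⟨rfl, rfl⟩ hB
      · exact absurd rfl hij)
  refine ⟨P, hP, ?_⟩
  set cl : Fin (5 * t) → Fin 3 :=
    fun a => if (a : ℕ) < 2 * t then 0 else if (a : ℕ) < 4 * t then 1 else 2 with hcl
  have hcl0 : ∀ a, cl a = 0 → (a : ℕ) < 2 * t := by
    intro a ha
    by_contra hcon
    simp only [hcl] at ha
    rw [if_neg hcon] at ha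
    split_ifs at ha
    · exact absurd ha (by decide)
    · exact absurd ha (by decide)
  have hcl1 : ∀ a, cl a = 1 → 2 * t ≤ (a : ℕ) ∧ (a : ℕ) < 4 * t := by
    intro a ha
    simp only [hcl] at ha
    split_ifs at ha with g1 g2
    · exact absurd ha (by decide)
    · exact ⟨by omega, g2⟩
    · exact absurd ha (by decide)
  have hcl2 : ∀ a, cl a = 2 → 4 * t ≤ (a : ℕ) := by
    intro a ha
    simp only [hcl] at ha
    split_ifs at ha with g1 g2
    · exact absurd ha (by decide)
    · exact absurd ha (by decide)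
    · omega
  refine le_trans (cnt_le_bad P hP α (by linarith)
    (Finset.univ.filter fun p : Fin (5 * t) × Fin (5 * t) × Fin (5 * t) =>
      (cl p.1 = cl p.2.1 ∧ cl p.2.1 = cl p.2.2) ∨
      (cl p.1 = 2 ∧ cl p.2.1 = 2 ∧ cl p.2.2 = 1) ∨
      (cl p.1 = 2 ∧ cl p.2.1 = 1 ∧ cl p.2.2 = 2) ∨
      (cl p.1 = 1 ∧ cl p.2.1 = 2 ∧ cl p.2.2 = 2)) ?_) (f_three_card t cl hcl0 hcl1 hcl2)
  intro a b c hab hbc hac hang
  have h : (cl a = cl b ∧ cl b = cl c) ∨ (cl a = cl b ∧ cl b ≠ cl c ∧ cl b = 2 ∧ cl c = 1) ∨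
      (cl c = cl b ∧ cl b ≠ cl a ∧ cl b = 2 ∧ cl a = 1) := hP' a b c hab hbc hac hang
  simp only [Finset.mem_filter, Finset.mem_univ, true_and]
  rcases h with ⟨e1, e2⟩ | ⟨e1, e2, e3, e4⟩ | ⟨e1, e2, e3, e4⟩
  · rw [e1, e2]
    simp
  · rw [e1, e3, e4]
    simp
  · rw [e1, e3, e4]
    simp

end Pool.Agent.Helper585.Acute.J
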