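import Mathlib

/-!
De Caen inequality for systems of triples without six points spanning all triples.
-/

set_option autoImplicit false

namespace Pool.Agent.Helper585.Acute.J

open scoped Classical
open Filter

open Classical in
/-- all triples of distinct indices are related -/
def Cm541 {n m : ℕ} (χ : Fin n → Fin n → Fin n → Bool) (A : Fin m → Fin n) : Prop :=
  ∀ i j l, i ≠ j → j ≠ l → i ≠ l → χ (A i) (A j) (A l) = true

def Ex541 {n m : ℕ} (χ : Fin n → Fin n → Fin n → Bool) (x : Fin n) (A : Fin m → Fin n) : Prop :=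
  ∀ i j, i ≠ j → χ x (A i) (A j) = true

open Classical in
noncomputable def g541 {n m : ℕ} (χ : Fin n → Fin n → Fin n → Bool) (A : Fin m → Fin n) : ℤ :=
  if Cm541 χ A then 1 else 0

open Classical in
noncomputable def ex541 {n m : ℕ} (χ : Fin n → Fin n → Fin n → Bool) (x : Fin n)
    (A : Fin m → Fin n) : ℤ := if Ex541 χ x A then 1 else 0

noncomputable def D541 {n m : ℕ} (χ : Fin n → Fin n → Fin n → Bool) (A : Fin m → Fin n) : ℤ :=
  ∑ x, ex541 χ x A

noncomputable def T541 {n : ℕ} (χ : Fin n → Fin n → Fin n → Bool) (m : ℕ) : ℤ :=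
  ∑ A : Fin m → Fin n, g541 χ A

noncomputable def S541 {n : ℕ} (χ : Fin n → Fin n → Fin n → Bool) (m : ℕ) : ℤ :=
  ∑ A : Fin m → Fin n, g541 χ A * D541 χ A ^ 2

section
variable {n : ℕ} {χ : Fin n → Fin n → Fin n → Bool}

theorem sum_insert541 {m : ℕ} (p : Fin (m + 1)) (F : (Fin (m + 1) → Fin n) → ℤ) :
    ∑ A : Fin (m + 1) → Fin n, F A =
      ∑ x : Fin n, ∑ C : Fin m → Fin n, F (p.insertNth (α := fun _ => Fin n) x C) := by
  rw [← Fintype.sum_prod_type' (f := fun (x : Fin n) (C : Fin m → Fin n) =>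
    F (p.insertNth (α := fun _ => Fin n) x C))]
  exact ((Fin.insertNthEquiv (fun _ : Fin (m + 1) => Fin n) p).sum_comp F).symm

theorem comp_insert541 (s1 : ∀ a b c, χ a b c = χ b a c) (s2 : ∀ a b c, χ a b c = χ a c b)
    {m : ℕ} (p : Fin (m + 1)) (x : Fin n) (C : Fin m → Fin n) :
    Cm541 χ (p.insertNth (α := fun _ => Fin n) x C) ↔ Cm541 χ C ∧ Ex541 χ x C := by
  constructor
  · intro h
    constructor
    · intro i j l hij hjl hil
      have := h (p.succAbove i) (p.succAbove j) (p.succAbove l)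
        (fun e => hij (Fin.succAbove_right_injective e)) (fun e => hjl (Fin.succAbove_right_injective e))
        (fun e => hil (Fin.succAbove_right_injective e))
      simpa [Fin.insertNth_apply_succAbove] using this
    · intro i j hij
      have := h p (p.succAbove i) (p.succAbove j) (Fin.ne_succAbove p i)
        (fun e => hij (Fin.succAbove_right_injective e)) (Fin.ne_succAbove p j)
      simpa [Fin.insertNth_apply_succAbove, Fin.insertNth_apply_same] using this
  · rintro ⟨h1, h2⟩ i j l hij hjl hil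
    rcases Fin.eq_self_or_eq_succAbove p i with rfl | ⟨i', rfl⟩
    · rcases Fin.eq_self_or_eq_succAbove i j with rfl | ⟨j', rfl⟩
      · exact absurd rfl hij
      · rcases Fin.eq_self_or_eq_succAbove i l with rfl | ⟨l', rfl⟩
        · exact absurd rfl hil
        · rw [Fin.insertNth_apply_same, Fin.insertNth_apply_succAbove, Fin.insertNth_apply_succAbove]
          exact h2 _ _ (fun e => hjl (by rw [e]))
    · rcases Fin.eq_self_or_eq_succAbove p j with rfl | ⟨j', rfl⟩
      · rcases Fin.eq_self_or_eq_succAbove j l with rfl | ⟨l', rfl⟩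
        · exact absurd rfl hjl
        · rw [Fin.insertNth_apply_same, Fin.insertNth_apply_succAbove, Fin.insertNth_apply_succAbove,
            s1]
          exact h2 _ _ (fun e => hil (by rw [e]))
      · rcases Fin.eq_self_or_eq_succAbove p l with rfl | ⟨l', rfl⟩
        · rw [Fin.insertNth_apply_same, Fin.insertNth_apply_succAbove, Fin.insertNth_apply_succAbove,
            s2, s1]
          exact h2 _ _ (fun e => hij (by rw [e]))
        · rw [Fin.insertNth_apply_succAbove, Fin.insertNth_apply_succAbove,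
            Fin.insertNth_apply_succAbove]
          exact h1 _ _ _ (fun e => hij (by rw [e])) (fun e => hjl (by rw [e]))
            (fun e => hil (by rw [e]))

theorem g_insert541 (s1 : ∀ a b c, χ a b c = χ b a c) (s2 : ∀ a b c, χ a b c = χ a c b)
    {m : ℕ} (p : Fin (m + 1)) (x : Fin n) (C : Fin m → Fin n) :
    g541 χ (p.insertNth (α := fun _ => Fin n) x C) = g541 χ C * ex541 χ x C := by
  unfold g541 ex541
  have := comp_insert541 s1 s2 p x C
  by_cases h1 : Cm541 χ C
  · by_cases h2 : Ex541 χ x C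
    · rw [if_pos (this.2 ⟨h1, h2⟩), if_pos h1, if_pos h2]; rfl
    · rw [if_neg (fun h => h2 (this.1 h).2), if_pos h1, if_neg h2]; rfl
  · rw [if_neg (fun h => h1 (this.1 h).1), if_neg h1, zero_mul]

theorem g_nonneg541 {m : ℕ} (A : Fin m → Fin n) : 0 ≤ g541 χ A := by
  unfold g541; split_ifs <;> simp

theorem g_sq541 {m : ℕ} (A : Fin m → Fin n) : g541 χ A * g541 χ A = g541 χ A := by
  unfold g541; split_ifs <;> simp

theorem ex_01 {m : ℕ} (x : Fin n) (A : Fin m → Fin n) : 0 ≤ ex541 χ x A ∧ ex541 χ x A ≤ 1 := by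
  unfold ex541; split_ifs <;> simp

theorem T_succ541 (s1 : ∀ a b c, χ a b c = χ b a c) (s2 : ∀ a b c, χ a b c = χ a c b) (m : ℕ) :
    T541 χ (m + 1) = ∑ C : Fin m → Fin n, g541 χ C * D541 χ C := by
  unfold T541 D541
  rw [sum_insert541 0]
  simp only [g_insert541 s1 s2]
  rw [Finset.sum_comm]
  exact Finset.sum_congr rfl (fun C _ => by rw [Finset.mul_sum])

theorem CS541 (s1 : ∀ a b c, χ a b c = χ b a c) (s2 : ∀ a b c, χ a b c = χ a c b) (m : ℕ) :
    T541 χ (m + 1) ^ 2 ≤ T541 χ m * S541 χ m := by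
  rw [T_succ541 s1 s2]
  have h := Finset.sum_mul_sq_le_sq_mul_sq (Finset.univ : Finset (Fin m → Fin n))
    (fun C => g541 χ C) (fun C => g541 χ C * D541 χ C)
  have e1 : ∀ C : Fin m → Fin n, g541 χ C * (g541 χ C * D541 χ C) = g541 χ C * D541 χ C := by
    intro C; rw [← mul_assoc, g_sq541]
  have e2 : ∀ C : Fin m → Fin n, (g541 χ C) ^ 2 = g541 χ C := by
    intro C; rw [sq, g_sq541]
  have e3 : ∀ C : Fin m → Fin n, (g541 χ C * D541 χ C) ^ 2 = g541 χ C * D541 χ C ^ 2 := by
    intro C; rw [mul_pow, e2]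
  simp only [e1, e2, e3] at h
  exact h

/-- the pointwise inequality -/
theorem point541 {m : ℕ} (A : Fin (m + 1) → Fin n) (y : Fin n) :
    ((m : ℤ) - 1) * (1 - ex541 χ y A) ≤
      ∑ i : Fin (m + 1), (1 - ex541 χ y (fun j => A (i.succAbove j))) := by
  classical
  by_cases h : Ex541 χ y A
  · have : ex541 χ y A = 1 := by unfold ex541; rw [if_pos h]
    rw [this, sub_self, mul_zero]
    exact Finset.sum_nonneg (fun i _ => by linarith [(ex_01 (χ := χ) y (fun j => A (i.succAbove j))).2])
  · have h0 : ex541 χ y A = 0 := by unfold ex541; rw [if_neg h]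
    rw [h0, sub_zero, mul_one]
    unfold Ex541 at h
    push Not at h
    obtain ⟨a, b, hab, hχ⟩ := h
    have hz : ∀ i : Fin (m + 1), i ∉ ({a, b} : Finset (Fin (m + 1))) →
        ex541 χ y (fun j => A (i.succAbove j)) = 0 := by
      intro i hi
      rw [Finset.mem_insert, Finset.mem_singleton] at hi
      push Not at hi
      unfold ex541
      rw [if_neg]
      intro hE
      rcases Fin.eq_self_or_eq_succAbove i a with h1 | ⟨a', ha'⟩
      · exact hi.1 h1.symm
      rcases Fin.eq_self_or_eq_succAbove i b with h1 | ⟨b', hb'⟩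
      · exact hi.2 h1.symm
      have this2 : χ y (A (i.succAbove a')) (A (i.succAbove b')) = true :=
        hE a' b' (fun e => hab (by rw [ha', hb', e]))
      rw [← ha', ← hb'] at this2
      exact hχ this2
    have hcard : ((Finset.univ \ ({a, b} : Finset (Fin (m + 1)))).card : ℤ) = (m : ℤ) - 1 := by
      rw [Finset.card_sdiff_of_subset (Finset.subset_univ _), Finset.card_pair hab,
        Finset.card_univ, Fintype.card_fin]
      have : 2 ≤ m + 1 := by
        have := Finset.card_le_univ ({a, b} : Finset (Fin (m + 1)))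
        rw [Finset.card_pair hab, Fintype.card_fin] at this
        exact this
      omega
    rw [← hcard]
    calc ((Finset.univ \ ({a, b} : Finset (Fin (m + 1)))).card : ℤ)
        = ∑ i ∈ Finset.univ \ ({a, b} : Finset (Fin (m + 1))), (1 : ℤ) := by simp
      _ = ∑ i ∈ Finset.univ \ ({a, b} : Finset (Fin (m + 1))),
            (1 - ex541 χ y (fun j => A (i.succAbove j))) := by
          refine Finset.sum_congr rfl (fun i hi => ?_)
          rw [hz i (Finset.mem_sdiff.1 hi).2, sub_zero]
      _ ≤ _ := Finset.sum_le_sum_of_subset_of_nonneg (Finset.subset_univ _)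
          (fun i _ _ => by linarith [(ex_01 (χ := χ) y (fun j => A (i.succAbove j))).2])

theorem main541 (s1 : ∀ a b c, χ a b c = χ b a c) (s2 : ∀ a b c, χ a b c = χ a c b) (m : ℕ) :
    ((m : ℤ) - 1) * ((n : ℤ) * T541 χ (m + 1) - T541 χ (m + 2)) ≤
      ((m : ℤ) + 1) * ((n : ℤ) * T541 χ (m + 1) - S541 χ m) := by
  have h1 : ∑ A : Fin (m + 1) → Fin n, ∑ y : Fin n,
      g541 χ A * (((m : ℤ) - 1) * (1 - ex541 χ y A)) ≤
      ∑ A : Fin (m + 1) → Fin n, ∑ y : Fin n,
      g541 χ A * ∑ i : Fin (m + 1), (1 - ex541 χ y (fun j => A (i.succAbove j))) :=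
    Finset.sum_le_sum (fun A _ => Finset.sum_le_sum (fun y _ =>
      mul_le_mul_of_nonneg_left (point541 A y) (g_nonneg541 A)))
  have h2 : ∑ A : Fin (m + 1) → Fin n, ∑ y : Fin n,
      g541 χ A * (((m : ℤ) - 1) * (1 - ex541 χ y A)) =
      ((m : ℤ) - 1) * ((n : ℤ) * T541 χ (m + 1) - T541 χ (m + 2)) := by
    rw [T_succ541 s1 s2 (m + 1)]
    unfold T541 D541
    rw [Finset.mul_sum, ← Finset.sum_sub_distrib, Finset.mul_sum]
    refine Finset.sum_congr rfl (fun A _ => ?_)
    rw [← Finset.mul_sum, ← Finset.mul_sum, Finset.sum_sub_distrib, Finset.sum_const,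
      Finset.card_univ, Fintype.card_fin, nsmul_eq_mul]
    ring
  have h3 : ∑ A : Fin (m + 1) → Fin n, ∑ y : Fin n,
      g541 χ A * ∑ i : Fin (m + 1), (1 - ex541 χ y (fun j => A (i.succAbove j))) =
      ((m : ℤ) + 1) * ((n : ℤ) * T541 χ (m + 1) - S541 χ m) := by
    have e1 : ∀ i : Fin (m + 1), ∑ A : Fin (m + 1) → Fin n, ∑ y : Fin n,
        g541 χ A * ex541 χ y (fun j => A (i.succAbove j)) = S541 χ m := by
      intro i
      rw [sum_insert541 i]
      unfold S541
      rw [Finset.sum_comm]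
      refine Finset.sum_congr rfl (fun C _ => ?_)
      have e2 : ∀ x : Fin n, (fun j => (i.insertNth (α := fun _ => Fin n) x C) (i.succAbove j)) = C := by
        intro x; funext j; rw [Fin.insertNth_apply_succAbove]
      simp only [g_insert541 s1 s2, e2]
      unfold D541
      simp only [← Finset.mul_sum]
      rw [← Finset.sum_mul, ← Finset.mul_sum]
      ring
    have e3 : ∀ i : Fin (m + 1), ∑ A : Fin (m + 1) → Fin n, ∑ y : Fin n,
        g541 χ A * (1 - ex541 χ y (fun j => A (i.succAbove j))) =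
        (n : ℤ) * T541 χ (m + 1) - S541 χ m := by
      intro i
      rw [← e1 i]
      unfold T541
      rw [Finset.mul_sum, ← Finset.sum_sub_distrib]
      refine Finset.sum_congr rfl (fun A _ => ?_)
      rw [← Finset.mul_sum, Finset.sum_sub_distrib, Finset.sum_const,
        Finset.card_univ, Fintype.card_fin, nsmul_eq_mul, ← Finset.mul_sum]
      ring
    have e4 : ∑ A : Fin (m + 1) → Fin n, ∑ y : Fin n,
        g541 χ A * ∑ i : Fin (m + 1), (1 - ex541 χ y (fun j => A (i.succAbove j))) =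
        ∑ i : Fin (m + 1), ∑ A : Fin (m + 1) → Fin n, ∑ y : Fin n,
          g541 χ A * (1 - ex541 χ y (fun j => A (i.succAbove j))) := by
      simp only [Finset.mul_sum]
      rw [Finset.sum_comm (s := (Finset.univ : Finset (Fin (m + 1))))]
      refine Finset.sum_congr rfl (fun A _ => ?_)
      rw [Finset.sum_comm]
    rw [e4]
    simp only [e3]
    rw [Finset.sum_const, Finset.card_univ, Fintype.card_fin, nsmul_eq_mul]
    push_cast
    ring
  rw [h2, h3] at h1
  exact h1

theorem T2_541 : T541 χ 2 = (n : ℤ) ^ 2 := by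
  have h : ∀ A : Fin 2 → Fin n, g541 χ A = 1 := by
    intro A
    unfold g541
    rw [if_pos]
    intro i j l h1 h2 h3
    exfalso
    omega
  unfold T541
  simp only [h]
  rw [Finset.sum_const, Finset.card_univ, Fintype.card_fun, Fintype.card_fin, Fintype.card_fin]
  simp

theorem T3_541 (s1 : ∀ a b c, χ a b c = χ b a c) (s2 : ∀ a b c, χ a b c = χ a c b) :
    T541 χ 3 = ∑ a, ∑ b, ∑ c, ((χ a b c).toNat : ℤ) := by
  have h : ∀ A : Fin 2 → Fin n, g541 χ A = 1 := by
    intro A
    unfold g541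
    rw [if_pos]
    intro i j l h1 h2 h3
    exfalso
    omega
  have hD : ∀ A : Fin 2 → Fin n, D541 χ A = ∑ x, ((χ x (A 0) (A 1)).toNat : ℤ) := by
    intro A
    unfold D541
    refine Finset.sum_congr rfl (fun x _ => ?_)
    unfold ex541
    have hiff : Ex541 χ x A ↔ χ x (A 0) (A 1) = true := by
      constructor
      · intro hE; exact hE 0 1 (by decide)
      · intro hE i j hij
        fin_cases i <;> fin_cases j
        · exact absurd rfl hij
        · exact hE
        · show χ x (A 1) (A 0) = true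
          rw [s2]; exact hE
        · exact absurd rfl hij
    by_cases hx : χ x (A 0) (A 1) = true
    · rw [if_pos (hiff.2 hx), hx]; rfl
    · rw [if_neg (fun h => hx (hiff.1 h))]
      have : χ x (A 0) (A 1) = false := by simpa using hx
      rw [this]; rfl
  rw [T_succ541 s1 s2 2]
  simp only [h, one_mul, hD]
  rw [← (finTwoArrowEquiv (Fin n)).symm.sum_comp, Fintype.sum_prod_type]
  refine Finset.sum_congr rfl (fun a _ => Finset.sum_congr rfl (fun b _ =>
    Finset.sum_congr rfl (fun c _ => ?_)))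
  show ((χ c a b).toNat : ℤ) = ((χ a b c).toNat : ℤ)
  rw [s1 c a b, s2 a c b]

theorem T_nonneg541 (m : ℕ) : 0 ≤ T541 χ m := Finset.sum_nonneg (fun A _ => g_nonneg541 A)

end

theorem decaen6 {n : ℕ} (χ : Fin n → Fin n → Fin n → Bool) (s1 : ∀ a b c, χ a b c = χ b a c)
    (s2 : ∀ a b c, χ a b c = χ a c b) (hd : ∀ a b, χ a a b = false)
    (hk : ∀ p : Fin 6 → Fin n, ∃ i j k : Fin 6, i < j ∧ j < k ∧ χ (p i) (p j) (p k) = false) :
    10 * ∑ a, ∑ b, ∑ c, ((χ a b c).toNat : ℤ) ≤ 9 * (n : ℤ) ^ 3 := by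
  rw [← T3_541 s1 s2]
  have hT6 : T541 χ 6 = 0 := by
    unfold T541
    apply Finset.sum_eq_zero
    intro A _
    unfold g541
    rw [if_neg]
    intro h
    obtain ⟨i, j, k, hij, hjk, hf⟩ := hk A
    have := h i j k hij.ne hjk.ne (hij.trans hjk).ne
    rw [hf] at this
    exact Bool.noConfusion this
  have c2 := CS541 s1 s2 2
  have c3 := CS541 s1 s2 3
  have c4 := CS541 s1 s2 4
  have m2 := main541 s1 s2 2
  have m3 := main541 s1 s2 3
  have m4 := main541 s1 s2 4
  have n3 := T_nonneg541 (χ := χ) 3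
  have n4 := T_nonneg541 (χ := χ) 4
  have n5 := T_nonneg541 (χ := χ) 5
  norm_num at c2 c3 c4 m2 m3 m4
  rw [T2_541] at c2
  rw [hT6] at m4
  set T3 := T541 χ 3
  set T4 := T541 χ 4
  set T5 := T541 χ 5
  set S2 := S541 χ 2
  set S3 := S541 χ 3
  set S4 := S541 χ 4
  set N : ℤ := (n : ℤ) with hN
  have hn0 : 0 ≤ N := by positivity
  -- 5 T5 ≤ 2 n T4
  have h5 : 5 * T5 ≤ 2 * N * T4 := by
    rcases n5.eq_or_lt with h0 | h0
    · rw [← h0]; simp; positivity
    · have h1 : 5 * S4 ≤ 2 * N * T5 := by linarith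
      have h2 : 5 * T5 ^ 2 ≤ T4 * (2 * N * T5) := by nlinarith
      by_contra hcon
      push Not at hcon
      nlinarith
  have h4 : 10 * T4 ≤ 7 * N * T3 := by
    rcases n4.eq_or_lt with h0 | h0
    · rw [← h0]; simp; positivity
    · have h1 : 4 * S3 ≤ 2 * N * T4 + 2 * T5 := by linarith
      have h2 : 20 * S3 ≤ 14 * N * T4 := by linarith
      have h3 : 20 * T4 ^ 2 ≤ T3 * (14 * N * T4) := by nlinarith
      by_contra hcon
      push Not at hcon
      nlinarith
  rcases n3.eq_or_lt with h0 | h0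
  · rw [← h0]; simp; positivity
  · have h1 : 3 * S2 ≤ 2 * N * T3 + T4 := by linarith
    have h2 : 30 * S2 ≤ 27 * N * T3 := by linarith
    have h3 : 30 * T3 ^ 2 ≤ N ^ 2 * (27 * N * T3) := by nlinarith [sq_nonneg N]
    by_contra hcon
    push Not at hcon
    nlinarith

end Pool.Agent.Helper585.Acute.J
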