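import Mathlib

/-!
Definitions for the problem of Guy on the minimum proportion of non-acute angles.
-/

set_option autoImplicit false

namespace Pool.Agent.Helper585.Acute

open scoped Classical

/-- the number of non-acute angles of a configuration: vertices `j` and unordered pairs `{i, k}` -/
noncomputable def nonAcute {n : ℕ} (P : Fin n → EuclideanSpace ℝ (Fin 2)) : ℕ :=
  (Finset.univ.filter fun t : Fin n × Fin n × Fin n =>
    t.1 < t.2.2 ∧ t.2.1 ≠ t.1 ∧ t.2.1 ≠ t.2.2 ∧
      Real.pi / 2 ≤ EuclideanGeometry.angle (P t.1) (P t.2.1) (P t.2.2)).card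

/-- `m n` is the least proportion of non-acute angles among `n` distinct points of the plane -/
noncomputable def m (n : ℕ) : ℝ :=
  sInf {r : ℝ | ∃ P : Fin n → EuclideanSpace ℝ (Fin 2), Function.Injective P ∧
    r = (nonAcute P : ℝ) / (1 / 2 * n * (n - 1) * (n - 2))}

end Pool.Agent.Helper585.Acute
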