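import Mathlib
import Pool.Agent.Helper585.Acute.FA1

set_option autoImplicit false
set_option linter.unusedVariables false
set_option linter.unusedSimpArgs false

namespace Pool.Agent.Helper585.Acute

theorem ev_sum_nonneg {α ι : Type} [Fintype ι] (l : List (ℤ × (α → ℤ))) (hl : ∀ p ∈ l, 0 ≤ p.1)
    (f : ι → α) : 0 ≤ ∑ i, ∑ j, ev l (f i) (f j) := by
  induction l with
  | nil => simp [ev]
  | cons p l ih =>
    obtain ⟨w, c⟩ := p
    have h1 : ∑ i, ∑ j, ev ((w, c) :: l) (f i) (f j) =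
        w * (∑ i, c (f i)) ^ 2 + ∑ i, ∑ j, ev l (f i) (f j) := by
      simp only [ev, Finset.sum_add_distrib]
      congr 1
      rw [sq, Finset.sum_mul_sum, Finset.mul_sum]
      refine Finset.sum_congr rfl fun i _ => ?_
      rw [Finset.mul_sum]
    rw [h1]
    have h2 : 0 ≤ w := hl (w, c) (by simp)
    have h3 := ih (fun p hp => hl p (by simp [hp]))
    positivity

theorem ev3_sum_nonneg {ι : Type} [Fintype ι] (l : List (ℤ × (Bool → Bool → Bool → ℤ)))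
    (hl : ∀ p ∈ l, 0 ≤ p.1) (x y z : ι → Bool) :
    0 ≤ ∑ i, ∑ j, ev3 l (x i) (y i) (z i) (x j) (y j) (z j) := by
  induction l with
  | nil => simp [ev3]
  | cons p l ih =>
    obtain ⟨w, c⟩ := p
    have h1 : ∑ i, ∑ j, ev3 ((w, c) :: l) (x i) (y i) (z i) (x j) (y j) (z j) =
        w * (∑ i, c (x i) (y i) (z i)) ^ 2 +
          ∑ i, ∑ j, ev3 l (x i) (y i) (z i) (x j) (y j) (z j) := by
      simp only [ev3, Finset.sum_add_distrib]
      congr 1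
      rw [sq, Finset.sum_mul_sum, Finset.mul_sum]
      refine Finset.sum_congr rfl fun i _ => ?_
      rw [Finset.mul_sum]
    rw [h1]
    have h2 : 0 ≤ w := hl (w, c) (by simp)
    have h3 := ih (fun p hp => hl p (by simp [hp]))
    positivity

theorem QT_sum_nonneg {ι : Type} [Fintype ι] (t : Bool) (x y z : ι → Bool) :
    0 ≤ ∑ i, ∑ j, QT t (x i) (y i) (z i) (x j) (y j) (z j) := by
  cases t
  · exact ev3_sum_nonneg sq0 (by simp [sq0]) x y z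
  · exact ev3_sum_nonneg sq1 (by simp [sq1]) x y z

theorem QZ_sum_nonneg {ι : Type} [Fintype ι] (x : ι → Bool) :
    0 ≤ ∑ i, ∑ j, QZ (x i) (x j) := ev_sum_nonneg sqZ (by simp [sqZ]) x

section
variable {V : Type} [Fintype V]

/-- five points as a function -/
def five : (Fin 5 → V) ≃ V × V × V × V × V where
  toFun p := (p 0, p 1, p 2, p 3, p 4)
  invFun q := ![q.1, q.2.1, q.2.2.1, q.2.2.2.1, q.2.2.2.2]
  left_inv p := by funext i; fin_cases i <;> rfl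
  right_inv q := rfl

/-- the sum over five points -/
def S5 (F : V → V → V → V → V → ℤ) : ℤ := ∑ a, ∑ b, ∑ c, ∑ d, ∑ e, F a b c d e

theorem S5_eq (F : V → V → V → V → V → ℤ) :
    S5 F = ∑ p : Fin 5 → V, F (p 0) (p 1) (p 2) (p 3) (p 4) := by
  have h : ∑ p : Fin 5 → V, F (p 0) (p 1) (p 2) (p 3) (p 4) =
      ∑ q : V × V × V × V × V, F q.1 q.2.1 q.2.2.1 q.2.2.2.1 q.2.2.2.2 :=
    Fintype.sum_equiv (five (V := V)) _ _ (fun p => rfl)
  rw [h]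
  simp only [Fintype.sum_prod_type, S5]

theorem S5_perm (F : V → V → V → V → V → ℤ) (f g : Fin 5 → Fin 5) (h1 : ∀ i, g (f i) = i)
    (h2 : ∀ i, f (g i) = i) :
    ∑ p : Fin 5 → V, F (p (f 0)) (p (f 1)) (p (f 2)) (p (f 3)) (p (f 4)) = S5 F := by
  rw [S5_eq]
  let σ : Fin 5 ≃ Fin 5 := ⟨g, f, h2, h1⟩
  exact Equiv.sum_comp (Equiv.arrowCongr σ (Equiv.refl V))
    (fun p : Fin 5 → V => F (p 0) (p 1) (p 2) (p 3) (p 4))

/-- the flag form at five points -/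
def hT (χ : V → V → V → Bool) (a b c d e : V) : ℤ :=
  QT (χ a b c) (χ a b d) (χ a c d) (χ b c d) (χ a b e) (χ a c e) (χ b c e)

/-- the second flag form at five points -/
def hZ (χ : V → V → V → Bool) (a b c d e : V) : ℤ := QZ (χ a b c) (χ a d e)

/-- the edge indicator as a function of five points -/
def hE (χ : V → V → V → Bool) (a b c _d _e : V) : ℤ := ((χ a b c).toNat : ℤ)

theorem hT_nonneg (χ : V → V → V → Bool) : 0 ≤ S5 (hT χ) := by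
  unfold S5
  refine Finset.sum_nonneg fun a _ => Finset.sum_nonneg fun b _ => Finset.sum_nonneg fun c _ => ?_
  exact QT_sum_nonneg (χ a b c) (fun d => χ a b d) (fun d => χ a c d) (fun d => χ b c d)

theorem hZ_nonneg (χ : V → V → V → Bool) : 0 ≤ S5 (hZ χ) := by
  unfold S5
  refine Finset.sum_nonneg fun a _ => ?_
  have h := QZ_sum_nonneg (fun q : V × V => χ a q.1 q.2)
  simp only [Fintype.sum_prod_type] at h
  exact h

theorem hE_sum (χ : V → V → V → Bool) :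
    S5 (hE χ) = (Fintype.card V : ℤ) ^ 2 * ∑ a, ∑ b, ∑ c, ((χ a b c).toNat : ℤ) := by
  unfold S5 hE
  simp only [Finset.sum_const, Finset.card_univ, nsmul_eq_mul, Finset.mul_sum]
  refine Finset.sum_congr rfl fun a _ => Finset.sum_congr rfl fun b _ =>
    Finset.sum_congr rfl fun c _ => by ring

theorem five_ineq (χ : V → V → V → Bool) (s1 : ∀ a b c, χ a b c = χ b a c)
    (s2 : ∀ a b c, χ a b c = χ a c b)
    (hk : ∀ a b c d, ¬ (χ a b c = true ∧ χ a b d = true ∧ χ a c d = true ∧ χ b c d = true))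
    (a b c d e : V) :
    0 ≤ 1547370000000 - 270000000000 * (hE χ a b c d e + hE χ a b d c e + hE χ a b e c d + hE χ a c d b e + hE χ a c e b d + hE χ a d e b c + hE χ b c d a e + hE χ b c e a d + hE χ b d e a c + hE χ c d e a b)
      - 3 * (hT χ a b c d e +
        hT χ a b d c e +
        hT χ a b e c d +
        hT χ a c d b e +
        hT χ a c e b d +
        hT χ a d e b c +
        hT χ b c d a e +
        hT χ b c e a d +
        hT χ b d e a c +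
        hT χ c d e a b)
      - 2 * (hZ χ a b c d e +
        hZ χ a b d c e +
        hZ χ a b e c d +
        hZ χ b a c d e +
        hZ χ b a d c e +
        hZ χ b a e c d +
        hZ χ c a b d e +
        hZ χ c a d b e +
        hZ χ c a e b d +
        hZ χ d a b c e +
        hZ χ d a c b e +
        hZ χ d a e b c +
        hZ χ e a b c d +
        hZ χ e a c b d +
        hZ χ e a d b c) := by
  have hk2 : ∀ a b c d, (χ a b c && χ a b d && χ a c d && χ b c d) = false := by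
    intro a b c d
    have h := hk a b c d
    revert h
    cases χ a b c <;> cases χ a b d <;> cases χ a c d <;> cases χ b c d <;> simp
  have e021 : χ a c b = χ a b c := s2 a c b
  have e031 : χ a d b = χ a b d := s2 a d b
  have e032 : χ a d c = χ a c d := s2 a d c
  have e041 : χ a e b = χ a b e := s2 a e b
  have e042 : χ a e c = χ a c e := s2 a e c
  have e043 : χ a e d = χ a d e := s2 a e d
  have e102 : χ b a c = χ a b c := s1 b a c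
  have e103 : χ b a d = χ a b d := s1 b a d
  have e104 : χ b a e = χ a b e := s1 b a e
  have e120 : χ b c a = χ a b c := (s2 b c a).trans (s1 b a c)
  have e130 : χ b d a = χ a b d := (s2 b d a).trans (s1 b a d)
  have e132 : χ b d c = χ b c d := s2 b d c
  have e140 : χ b e a = χ a b e := (s2 b e a).trans (s1 b a e)
  have e142 : χ b e c = χ b c e := s2 b e c
  have e143 : χ b e d = χ b d e := s2 b e d
  have e201 : χ c a b = χ a b c := (s1 c a b).trans (s2 a c b)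
  have e203 : χ c a d = χ a c d := s1 c a d
  have e204 : χ c a e = χ a c e := s1 c a e
  have e213 : χ c b d = χ b c d := s1 c b d
  have e214 : χ c b e = χ b c e := s1 c b e
  have e230 : χ c d a = χ a c d := (s2 c d a).trans (s1 c a d)
  have e231 : χ c d b = χ b c d := (s2 c d b).trans (s1 c b d)
  have e240 : χ c e a = χ a c e := (s2 c e a).trans (s1 c a e)
  have e241 : χ c e b = χ b c e := (s2 c e b).trans (s1 c b e)
  have e243 : χ c e d = χ c d e := s2 c e d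
  have e301 : χ d a b = χ a b d := (s1 d a b).trans (s2 a d b)
  have e302 : χ d a c = χ a c d := (s1 d a c).trans (s2 a d c)
  have e304 : χ d a e = χ a d e := s1 d a e
  have e312 : χ d b c = χ b c d := (s1 d b c).trans (s2 b d c)
  have e314 : χ d b e = χ b d e := s1 d b e
  have e324 : χ d c e = χ c d e := s1 d c e
  have e340 : χ d e a = χ a d e := (s2 d e a).trans (s1 d a e)
  have e341 : χ d e b = χ b d e := (s2 d e b).trans (s1 d b e)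
  have e342 : χ d e c = χ c d e := (s2 d e c).trans (s1 d c e)
  have e401 : χ e a b = χ a b e := (s1 e a b).trans (s2 a e b)
  have e402 : χ e a c = χ a c e := (s1 e a c).trans (s2 a e c)
  have e403 : χ e a d = χ a d e := (s1 e a d).trans (s2 a e d)
  have e412 : χ e b c = χ b c e := (s1 e b c).trans (s2 b e c)
  have e413 : χ e b d = χ b d e := (s1 e b d).trans (s2 b e d)
  have e423 : χ e c d = χ c d e := (s1 e c d).trans (s2 c e d)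
  have h := pointwise (χ a b c) (χ a b d) (χ a b e) (χ a c d) (χ a c e) (χ a d e) (χ b c d) (χ b c e) (χ b d e) (χ c d e)
    (hk2 a b c d) (hk2 a b c e) (hk2 a b d e) (hk2 a c d e) (hk2 b c d e)
  simp only [hE, hT, hZ, e021, e031, e032, e041, e042, e043, e102, e103, e104, e120, e130, e132, e140, e142, e143, e201, e203, e204, e213, e214, e230, e231, e240, e241, e243, e301, e302, e304, e312, e314, e324, e340, e341, e342, e401, e402, e403, e412, e413, e423]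
  exact h

/-- the density bound -/
theorem density (χ : V → V → V → Bool) (s1 : ∀ a b c, χ a b c = χ b a c)
    (s2 : ∀ a b c, χ a b c = χ a c b)
    (hk : ∀ a b c d, ¬ (χ a b c = true ∧ χ a b d = true ∧ χ a c d = true ∧ χ b c d = true)) :
    10000 * ∑ a, ∑ b, ∑ c, ((χ a b c).toNat : ℤ) ≤ 5731 * (Fintype.card V : ℤ) ^ 3 := by
  have h0 : 0 ≤ ∑ p : Fin 5 → V, (1547370000000 - 270000000000 * (hE χ (p 0) (p 1) (p 2) (p 3) (p 4) + hE χ (p 0) (p 1) (p 3) (p 2) (p 4) + hE χ (p 0) (p 1) (p 4) (p 2) (p 3) + hE χ (p 0) (p 2) (p 3) (p 1) (p 4) + hE χ (p 0) (p 2) (p 4) (p 1) (p 3) + hE χ (p 0) (p 3) (p 4) (p 1) (p 2) + hE χ (p 1) (p 2) (p 3) (p 0) (p 4) + hE χ (p 1) (p 2) (p 4) (p 0) (p 3) + hE χ (p 1) (p 3) (p 4) (p 0) (p 2) + hE χ (p 2) (p 3) (p 4) (p 0) (p 1))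
      - 3 * (hT χ (p 0) (p 1) (p 2) (p 3) (p 4) + hT χ (p 0) (p 1) (p 3) (p 2) (p 4) + hT χ (p 0) (p 1) (p 4) (p 2) (p 3) + hT χ (p 0) (p 2) (p 3) (p 1) (p 4) + hT χ (p 0) (p 2) (p 4) (p 1) (p 3) + hT χ (p 0) (p 3) (p 4) (p 1) (p 2) + hT χ (p 1) (p 2) (p 3) (p 0) (p 4) + hT χ (p 1) (p 2) (p 4) (p 0) (p 3) + hT χ (p 1) (p 3) (p 4) (p 0) (p 2) + hT χ (p 2) (p 3) (p 4) (p 0) (p 1))
      - 2 * (hZ χ (p 0) (p 1) (p 2) (p 3) (p 4) + hZ χ (p 0) (p 1) (p 3) (p 2) (p 4) + hZ χ (p 0) (p 1) (p 4) (p 2) (p 3) + hZ χ (p 1) (p 0) (p 2) (p 3) (p 4) + hZ χ (p 1) (p 0) (p 3) (p 2) (p 4) + hZ χ (p 1) (p 0) (p 4) (p 2) (p 3) + hZ χ (p 2) (p 0) (p 1) (p 3) (p 4) + hZ χ (p 2) (p 0) (p 3) (p 1) (p 4) + hZ χ (p 2) (p 0) (p 4) (p 1) (p 3) + hZ χ (p 3) (p 0) (p 1) (p 2) (p 4) + hZ χ (p 3) (p 0) (p 2) (p 1) (p 4) + hZ χ (p 3) (p 0) (p 4) (p 1) (p 2) + hZ χ (p 4) (p 0) (p 1) (p 2) (p 3) + hZ χ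 (p 4) (p 0) (p 2) (p 1) (p 3) + hZ χ (p 4) (p 0) (p 3) (p 1) (p 2))) :=
    Finset.sum_nonneg fun p _ => five_ineq χ s1 s2 hk (p 0) (p 1) (p 2) (p 3) (p 4)
  have hE0 : ∑ p : Fin 5 → V, hE χ (p 0) (p 1) (p 2) (p 3) (p 4) = S5 (hE χ) :=
    S5_perm (hE χ) ![0, 1, 2, 3, 4] ![0, 1, 2, 3, 4] (by decide) (by decide)
  have hT0 : ∑ p : Fin 5 → V, hT χ (p 0) (p 1) (p 2) (p 3) (p 4) = S5 (hT χ) :=
    S5_perm (hT χ) ![0, 1, 2, 3, 4] ![0, 1, 2, 3, 4] (by decide) (by decide)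
  have hE1 : ∑ p : Fin 5 → V, hE χ (p 0) (p 1) (p 3) (p 2) (p 4) = S5 (hE χ) :=
    S5_perm (hE χ) ![0, 1, 3, 2, 4] ![0, 1, 3, 2, 4] (by decide) (by decide)
  have hT1 : ∑ p : Fin 5 → V, hT χ (p 0) (p 1) (p 3) (p 2) (p 4) = S5 (hT χ) :=
    S5_perm (hT χ) ![0, 1, 3, 2, 4] ![0, 1, 3, 2, 4] (by decide) (by decide)
  have hE2 : ∑ p : Fin 5 → V, hE χ (p 0) (p 1) (p 4) (p 2) (p 3) = S5 (hE χ) :=
    S5_perm (hE χ) ![0, 1, 4, 2, 3] ![0, 1, 3, 4, 2] (by decide) (by decide)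
  have hT2 : ∑ p : Fin 5 → V, hT χ (p 0) (p 1) (p 4) (p 2) (p 3) = S5 (hT χ) :=
    S5_perm (hT χ) ![0, 1, 4, 2, 3] ![0, 1, 3, 4, 2] (by decide) (by decide)
  have hE3 : ∑ p : Fin 5 → V, hE χ (p 0) (p 2) (p 3) (p 1) (p 4) = S5 (hE χ) :=
    S5_perm (hE χ) ![0, 2, 3, 1, 4] ![0, 3, 1, 2, 4] (by decide) (by decide)
  have hT3 : ∑ p : Fin 5 → V, hT χ (p 0) (p 2) (p 3) (p 1) (p 4) = S5 (hT χ) :=
    S5_perm (hT χ) ![0, 2, 3, 1, 4] ![0, 3, 1, 2, 4] (by decide) (by decide)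
  have hE4 : ∑ p : Fin 5 → V, hE χ (p 0) (p 2) (p 4) (p 1) (p 3) = S5 (hE χ) :=
    S5_perm (hE χ) ![0, 2, 4, 1, 3] ![0, 3, 1, 4, 2] (by decide) (by decide)
  have hT4 : ∑ p : Fin 5 → V, hT χ (p 0) (p 2) (p 4) (p 1) (p 3) = S5 (hT χ) :=
    S5_perm (hT χ) ![0, 2, 4, 1, 3] ![0, 3, 1, 4, 2] (by decide) (by decide)
  have hE5 : ∑ p : Fin 5 → V, hE χ (p 0) (p 3) (p 4) (p 1) (p 2) = S5 (hE χ) :=
    S5_perm (hE χ) ![0, 3, 4, 1, 2] ![0, 3, 4, 1, 2] (by decide) (by decide)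
  have hT5 : ∑ p : Fin 5 → V, hT χ (p 0) (p 3) (p 4) (p 1) (p 2) = S5 (hT χ) :=
    S5_perm (hT χ) ![0, 3, 4, 1, 2] ![0, 3, 4, 1, 2] (by decide) (by decide)
  have hE6 : ∑ p : Fin 5 → V, hE χ (p 1) (p 2) (p 3) (p 0) (p 4) = S5 (hE χ) :=
    S5_perm (hE χ) ![1, 2, 3, 0, 4] ![3, 0, 1, 2, 4] (by decide) (by decide)
  have hT6 : ∑ p : Fin 5 → V, hT χ (p 1) (p 2) (p 3) (p 0) (p 4) = S5 (hT χ) :=
    S5_perm (hT χ) ![1, 2, 3, 0, 4] ![3, 0, 1, 2, 4] (by decide) (by decide)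
  have hE7 : ∑ p : Fin 5 → V, hE χ (p 1) (p 2) (p 4) (p 0) (p 3) = S5 (hE χ) :=
    S5_perm (hE χ) ![1, 2, 4, 0, 3] ![3, 0, 1, 4, 2] (by decide) (by decide)
  have hT7 : ∑ p : Fin 5 → V, hT χ (p 1) (p 2) (p 4) (p 0) (p 3) = S5 (hT χ) :=
    S5_perm (hT χ) ![1, 2, 4, 0, 3] ![3, 0, 1, 4, 2] (by decide) (by decide)
  have hE8 : ∑ p : Fin 5 → V, hE χ (p 1) (p 3) (p 4) (p 0) (p 2) = S5 (hE χ) :=
    S5_perm (hE χ) ![1, 3, 4, 0, 2] ![3, 0, 4, 1, 2] (by decide) (by decide)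
  have hT8 : ∑ p : Fin 5 → V, hT χ (p 1) (p 3) (p 4) (p 0) (p 2) = S5 (hT χ) :=
    S5_perm (hT χ) ![1, 3, 4, 0, 2] ![3, 0, 4, 1, 2] (by decide) (by decide)
  have hE9 : ∑ p : Fin 5 → V, hE χ (p 2) (p 3) (p 4) (p 0) (p 1) = S5 (hE χ) :=
    S5_perm (hE χ) ![2, 3, 4, 0, 1] ![3, 4, 0, 1, 2] (by decide) (by decide)
  have hT9 : ∑ p : Fin 5 → V, hT χ (p 2) (p 3) (p 4) (p 0) (p 1) = S5 (hT χ) :=
    S5_perm (hT χ) ![2, 3, 4, 0, 1] ![3, 4, 0, 1, 2] (by decide) (by decide)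
  have hZ0 : ∑ p : Fin 5 → V, hZ χ (p 0) (p 1) (p 2) (p 3) (p 4) = S5 (hZ χ) :=
    S5_perm (hZ χ) ![0, 1, 2, 3, 4] ![0, 1, 2, 3, 4] (by decide) (by decide)
  have hZ1 : ∑ p : Fin 5 → V, hZ χ (p 0) (p 1) (p 3) (p 2) (p 4) = S5 (hZ χ) :=
    S5_perm (hZ χ) ![0, 1, 3, 2, 4] ![0, 1, 3, 2, 4] (by decide) (by decide)
  have hZ2 : ∑ p : Fin 5 → V, hZ χ (p 0) (p 1) (p 4) (p 2) (p 3) = S5 (hZ χ) :=
    S5_perm (hZ χ) ![0, 1, 4, 2, 3] ![0, 1, 3, 4, 2] (by decide) (by decide)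
  have hZ3 : ∑ p : Fin 5 → V, hZ χ (p 1) (p 0) (p 2) (p 3) (p 4) = S5 (hZ χ) :=
    S5_perm (hZ χ) ![1, 0, 2, 3, 4] ![1, 0, 2, 3, 4] (by decide) (by decide)
  have hZ4 : ∑ p : Fin 5 → V, hZ χ (p 1) (p 0) (p 3) (p 2) (p 4) = S5 (hZ χ) :=
    S5_perm (hZ χ) ![1, 0, 3, 2, 4] ![1, 0, 3, 2, 4] (by decide) (by decide)
  have hZ5 : ∑ p : Fin 5 → V, hZ χ (p 1) (p 0) (p 4) (p 2) (p 3) = S5 (hZ χ) :=
    S5_perm (hZ χ) ![1, 0, 4, 2, 3] ![1, 0, 3, 4, 2] (by decide) (by decide)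
  have hZ6 : ∑ p : Fin 5 → V, hZ χ (p 2) (p 0) (p 1) (p 3) (p 4) = S5 (hZ χ) :=
    S5_perm (hZ χ) ![2, 0, 1, 3, 4] ![1, 2, 0, 3, 4] (by decide) (by decide)
  have hZ7 : ∑ p : Fin 5 → V, hZ χ (p 2) (p 0) (p 3) (p 1) (p 4) = S5 (hZ χ) :=
    S5_perm (hZ χ) ![2, 0, 3, 1, 4] ![1, 3, 0, 2, 4] (by decide) (by decide)
  have hZ8 : ∑ p : Fin 5 → V, hZ χ (p 2) (p 0) (p 4) (p 1) (p 3) = S5 (hZ χ) :=
    S5_perm (hZ χ) ![2, 0, 4, 1, 3] ![1, 3, 0, 4, 2] (by decide) (by decide)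
  have hZ9 : ∑ p : Fin 5 → V, hZ χ (p 3) (p 0) (p 1) (p 2) (p 4) = S5 (hZ χ) :=
    S5_perm (hZ χ) ![3, 0, 1, 2, 4] ![1, 2, 3, 0, 4] (by decide) (by decide)
  have hZ10 : ∑ p : Fin 5 → V, hZ χ (p 3) (p 0) (p 2) (p 1) (p 4) = S5 (hZ χ) :=
    S5_perm (hZ χ) ![3, 0, 2, 1, 4] ![1, 3, 2, 0, 4] (by decide) (by decide)
  have hZ11 : ∑ p : Fin 5 → V, hZ χ (p 3) (p 0) (p 4) (p 1) (p 2) = S5 (hZ χ) :=
    S5_perm (hZ χ) ![3, 0, 4, 1, 2] ![1, 3, 4, 0, 2] (by decide) (by decide)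
  have hZ12 : ∑ p : Fin 5 → V, hZ χ (p 4) (p 0) (p 1) (p 2) (p 3) = S5 (hZ χ) :=
    S5_perm (hZ χ) ![4, 0, 1, 2, 3] ![1, 2, 3, 4, 0] (by decide) (by decide)
  have hZ13 : ∑ p : Fin 5 → V, hZ χ (p 4) (p 0) (p 2) (p 1) (p 3) = S5 (hZ χ) :=
    S5_perm (hZ χ) ![4, 0, 2, 1, 3] ![1, 3, 2, 4, 0] (by decide) (by decide)
  have hZ14 : ∑ p : Fin 5 → V, hZ χ (p 4) (p 0) (p 3) (p 1) (p 2) = S5 (hZ χ) :=
    S5_perm (hZ χ) ![4, 0, 3, 1, 2] ![1, 3, 4, 2, 0] (by decide) (by decide)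
  simp only [Finset.sum_sub_distrib, Finset.sum_add_distrib, ← Finset.mul_sum, hE0, hT0, hE1, hT1, hE2, hT2, hE3, hT3, hE4, hT4, hE5, hT5, hE6, hT6, hE7, hT7, hE8, hT8, hE9, hT9, hZ0, hZ1, hZ2, hZ3, hZ4, hZ5, hZ6, hZ7, hZ8, hZ9, hZ10, hZ11, hZ12, hZ13, hZ14] at h0
  have hT' := hT_nonneg χ
  have hZ' := hZ_nonneg χ
  rw [hE_sum] at h0
  have hc : (∑ _p : Fin 5 → V, (1547370000000 : ℤ)) = 1547370000000 * (Fintype.card V : ℤ) ^ 5 := by
    simp [Finset.sum_const, Finset.card_univ]; ring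
  rw [hc] at h0
  rcases Nat.eq_zero_or_pos (Fintype.card V) with h1 | h1
  · have : IsEmpty V := Fintype.card_eq_zero_iff.mp h1
    simp [h1]
  · have h2 : 0 < (Fintype.card V : ℤ) ^ 2 := by positivity
    refine le_of_mul_le_mul_left ?_ h2
    set A := ∑ a, ∑ b, ∑ c, ((χ a b c).toNat : ℤ) with hA
    nlinarith

end

end Pool.Agent.Helper585.Acute
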