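import Mathlib

set_option autoImplicit false

namespace Pool.Agent.Helper585.Acute

/-- the triangle `x y z` is acute (all three angles are smaller than a right angle) -/
def Ac (x y z : EuclideanSpace ℝ (Fin 2)) : Prop :=
  0 < inner ℝ (y - x) (z - x) ∧ 0 < inner ℝ (x - y) (z - y) ∧ 0 < inner ℝ (x - z) (y - z)


theorem crossR_30003 (a0 a1 b0 b1 c0 c1 d0 d1 la lc mb md : ℝ) (h1 : 0 < la) (h2 : 0 < lc)
    (h3 : 0 < mb) (h4 : 0 < md) (h5 : la + lc = mb + md)
    (h60 : la * a0 + lc * c0 = mb * b0 + md * d0) (h61 : la * a1 + lc * c1 = mb * b1 + md * d1)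
    (ha : 0 < (b0 - a0) * (d0 - a0) + (b1 - a1) * (d1 - a1))
    (hb : 0 < (a0 - b0) * (c0 - b0) + (a1 - b1) * (c1 - b1))
    (hc : 0 < (b0 - c0) * (d0 - c0) + (b1 - c1) * (d1 - c1))
    (hd : 0 < (a0 - d0) * (c0 - d0) + (a1 - d1) * (c1 - d1)) : False := by
  have T : la * ((b0 - a0) * (d0 - a0) + (b1 - a1) * (d1 - a1)) +
      lc * ((b0 - c0) * (d0 - c0) + (b1 - c1) * (d1 - c1)) +
      mb * ((a0 - b0) * (c0 - b0) + (a1 - b1) * (c1 - b1)) +
      md * ((a0 - d0) * (c0 - d0) + (a1 - d1) * (c1 - d1)) = 0 := by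
    linear_combination (b0 * d0 + b1 * d1 - a0 * c0 - a1 * c1) * h5 - (b0 + d0 - a0 - c0) * h60 -
      (b1 + d1 - a1 - c1) * h61
  have e1 := mul_pos h1 ha
  have e2 := mul_pos h2 hc
  have e3 := mul_pos h3 hb
  have e4 := mul_pos h4 hd
  linarith

theorem oneR_30003 (a0 a1 b0 b1 c0 c1 d0 d1 x y z w : ℝ) (h1 : 0 < x) (h2 : 0 < y) (h3 : 0 < z)
    (h5 : x + y + z + w = 0)
    (h60 : x * a0 + y * b0 + z * c0 + w * d0 = 0) (h61 : x * a1 + y * b1 + z * c1 + w * d1 = 0)
    (hb : 0 < (b0 - d0) * (a0 - d0) + (b1 - d1) * (a1 - d1))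
    (hc : 0 < (c0 - d0) * (a0 - d0) + (c1 - d1) * (a1 - d1)) : False := by
  have T : x * ((a0 - d0) ^ 2 + (a1 - d1) ^ 2) + y * ((b0 - d0) * (a0 - d0) + (b1 - d1) * (a1 - d1)) +
      z * ((c0 - d0) * (a0 - d0) + (c1 - d1) * (a1 - d1)) = 0 := by
    linear_combination (a0 - d0) * h60 + (a1 - d1) * h61 - (d0 * (a0 - d0) + d1 * (a1 - d1)) * h5
  have e1 := mul_pos h2 hb
  have e2 := mul_pos h3 hc
  have e3 : 0 ≤ x * ((a0 - d0) ^ 2 + (a1 - d1) ^ 2) := by positivity
  linarith

theorem areaR_30003 (a0 a1 b0 b1 c0 c1 : ℝ)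
    (ha : 0 < (b0 - a0) * (c0 - a0) + (b1 - a1) * (c1 - a1))
    (hb : 0 < (a0 - b0) * (c0 - b0) + (a1 - b1) * (c1 - b1))
    (hc : 0 < (a0 - c0) * (b0 - c0) + (a1 - c1) * (b1 - c1)) :
    (b0 - a0) * (c1 - a1) - (b1 - a1) * (c0 - a0) ≠ 0 := by
  intro h
  have h1 : ((b0 - a0) ^ 2 + (b1 - a1) ^ 2) * ((c0 - a0) ^ 2 + (c1 - a1) ^ 2) =
      ((b0 - a0) * (c0 - a0) + (b1 - a1) * (c1 - a1)) ^ 2 := by
    linear_combination ((b0 - a0) * (c1 - a1) - (b1 - a1) * (c0 - a0)) * h
  have h2 : (b0 - a0) * (c0 - a0) + (b1 - a1) * (c1 - a1) < (b0 - a0) ^ 2 + (b1 - a1) ^ 2 := by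
    nlinarith [hb]
  have h3 : (b0 - a0) * (c0 - a0) + (b1 - a1) * (c1 - a1) < (c0 - a0) ^ 2 + (c1 - a1) ^ 2 := by
    nlinarith [hc]
  have h4 := mul_pos (sub_pos.mpr h2) ha
  have h5 := mul_pos (sub_pos.mpr h3) (lt_trans ha h2)
  nlinarith [h4, h5, h1]

theorem inner_30003 (u v w : EuclideanSpace ℝ (Fin 2)) :
    inner ℝ (u - w) (v - w) = (u 0 - w 0) * (v 0 - w 0) + (u 1 - w 1) * (v 1 - w 1) := by
  simp [PiLp.inner_apply, Fin.sum_univ_two]
  ring

/-- crossing case: diagonals `a c` and `b d` cross -/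
theorem cross (a b c d : EuclideanSpace ℝ (Fin 2)) (la lc mb md : ℝ) (h1 : 0 < la) (h2 : 0 < lc)
    (h3 : 0 < mb) (h4 : 0 < md) (h5 : la + lc = mb + md)
    (h6 : la • a + lc • c = mb • b + md • d)
    (ha : 0 < inner ℝ (b - a) (d - a)) (hb : 0 < inner ℝ (a - b) (c - b))
    (hc : 0 < inner ℝ (b - c) (d - c)) (hd : 0 < inner ℝ (a - d) (c - d)) : False := by
  rw [inner_30003] at ha hb hc hd
  have h60 := congrArg (fun v : EuclideanSpace ℝ (Fin 2) => v 0) h6
  have h61 := congrArg (fun v : EuclideanSpace ℝ (Fin 2) => v 1) h6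
  simp only [PiLp.add_apply, PiLp.smul_apply, smul_eq_mul] at h60 h61
  exact crossR_30003 _ _ _ _ _ _ _ _ la lc mb md h1 h2 h3 h4 h5 h60 h61 ha hb hc hd

/-- four points of the plane do not span four acute triangles -/
theorem four_points (a b c d : EuclideanSpace ℝ (Fin 2)) :
    ¬ (Ac a b c ∧ Ac a b d ∧ Ac a c d ∧ Ac b c d) := by
  unfold Ac
  simp only [inner_30003]
  generalize a 0 = a0
  generalize a 1 = a1
  generalize b 0 = b0
  generalize b 1 = b1
  generalize c 0 = c0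
  generalize c 1 = c1
  generalize d 0 = d0
  generalize d 1 = d1
  rintro ⟨⟨abc, bac, cab⟩, ⟨abd, bad, dab⟩, ⟨acd, cad, dac⟩, ⟨bcd, cbd, dbc⟩⟩
  have na := areaR_30003 b0 b1 c0 c1 d0 d1 bcd cbd dbc
  have nb := areaR_30003 a0 a1 c0 c1 d0 d1 acd cad dac
  have nc := areaR_30003 a0 a1 b0 b1 d0 d1 abd bad dab
  have nd := areaR_30003 a0 a1 b0 b1 c0 c1 abc bac cab
  obtain ⟨la, hla⟩ : ∃ x : ℝ, x = (c0 - b0) * (d1 - b1) - (c1 - b1) * (d0 - b0) := ⟨_, rfl⟩
  obtain ⟨lb, hlb⟩ : ∃ x : ℝ, x = -((c0 - a0) * (d1 - a1) - (c1 - a1) * (d0 - a0)) := ⟨_, rfl⟩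
  obtain ⟨lc, hlc⟩ : ∃ x : ℝ, x = (b0 - a0) * (d1 - a1) - (b1 - a1) * (d0 - a0) := ⟨_, rfl⟩
  obtain ⟨ld, hld⟩ : ∃ x : ℝ, x = -((b0 - a0) * (c1 - a1) - (b1 - a1) * (c0 - a0)) := ⟨_, rfl⟩
  have hs : la + lb + lc + ld = 0 := by rw [hla, hlb, hlc, hld]; ring
  have h0 : la * a0 + lb * b0 + lc * c0 + ld * d0 = 0 := by rw [hla, hlb, hlc, hld]; ring
  have h1 : la * a1 + lb * b1 + lc * c1 + ld * d1 = 0 := by rw [hla, hlb, hlc, hld]; ring
  have na' : la ≠ 0 := by rw [hla]; exact na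
  have nb' : lb ≠ 0 := by rw [hlb]; exact neg_ne_zero.mpr nb
  have nc' : lc ≠ 0 := by rw [hlc]; exact nc
  have nd' : ld ≠ 0 := by rw [hld]; exact neg_ne_zero.mpr nd
  clear na nb nc nd hla hlb hlc hld
  rcases lt_or_gt_of_ne na' with sa | sa
  · rcases lt_or_gt_of_ne nb' with sb | sb
    · rcases lt_or_gt_of_ne nc' with sc | sc
      · rcases lt_or_gt_of_ne nd' with sd | sd
        · linarith
        · exact oneR_30003 a0 a1 b0 b1 c0 c1 d0 d1 (-la) (-lb) (-lc) (-ld) (by linarith) (by linarith) (by linarith) (by linarith) (by linarith) (by linarith) (by linarith) (by linarith)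
      · rcases lt_or_gt_of_ne nd' with sd | sd
        · exact oneR_30003 a0 a1 b0 b1 d0 d1 c0 c1 (-la) (-lb) (-ld) (-lc) (by linarith) (by linarith) (by linarith) (by linarith) (by linarith) (by linarith) (by linarith) (by linarith)
        · exact crossR_30003 c0 c1 a0 a1 d0 d1 b0 b1 lc ld (-la) (-lb) (by linarith) (by linarith) (by linarith) (by linarith) (by linarith) (by linarith) (by linarith) (by linarith) (by linarith) (by linarith) (by linarith)
    · rcases lt_or_gt_of_ne nc' with sc | sc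
      · rcases lt_or_gt_of_ne nd' with sd | sd
        · exact oneR_30003 a0 a1 c0 c1 d0 d1 b0 b1 (-la) (-lc) (-ld) (-lb) (by linarith) (by linarith) (by linarith) (by linarith) (by linarith) (by linarith) (by linarith) (by linarith)
        · exact crossR_30003 b0 b1 a0 a1 d0 d1 c0 c1 lb ld (-la) (-lc) (by linarith) (by linarith) (by linarith) (by linarith) (by linarith) (by linarith) (by linarith) (by linarith) (by linarith) (by linarith) (by linarith)
      · rcases lt_or_gt_of_ne nd' with sd | sd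
        · exact crossR_30003 b0 b1 a0 a1 c0 c1 d0 d1 lb lc (-la) (-ld) (by linarith) (by linarith) (by linarith) (by linarith) (by linarith) (by linarith) (by linarith) (by linarith) (by linarith) (by linarith) (by linarith)
        · exact oneR_30003 b0 b1 c0 c1 d0 d1 a0 a1 lb lc ld la (by linarith) (by linarith) (by linarith) (by linarith) (by linarith) (by linarith) (by linarith) (by linarith)
  · rcases lt_or_gt_of_ne nb' with sb | sb
    · rcases lt_or_gt_of_ne nc' with sc | sc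
      · rcases lt_or_gt_of_ne nd' with sd | sd
        · exact oneR_30003 b0 b1 c0 c1 d0 d1 a0 a1 (-lb) (-lc) (-ld) (-la) (by linarith) (by linarith) (by linarith) (by linarith) (by linarith) (by linarith) (by linarith) (by linarith)
        · exact crossR_30003 a0 a1 b0 b1 d0 d1 c0 c1 la ld (-lb) (-lc) (by linarith) (by linarith) (by linarith) (by linarith) (by linarith) (by linarith) (by linarith) (by linarith) (by linarith) (by linarith) (by linarith)
      · rcases lt_or_gt_of_ne nd' with sd | sd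
        · exact crossR_30003 a0 a1 b0 b1 c0 c1 d0 d1 la lc (-lb) (-ld) (by linarith) (by linarith) (by linarith) (by linarith) (by linarith) (by linarith) (by linarith) (by linarith) (by linarith) (by linarith) (by linarith)
        · exact oneR_30003 a0 a1 c0 c1 d0 d1 b0 b1 la lc ld lb (by linarith) (by linarith) (by linarith) (by linarith) (by linarith) (by linarith) (by linarith) (by linarith)
    · rcases lt_or_gt_of_ne nc' with sc | sc
      · rcases lt_or_gt_of_ne nd' with sd | sd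
        · exact crossR_30003 a0 a1 c0 c1 b0 b1 d0 d1 la lb (-lc) (-ld) (by linarith) (by linarith) (by linarith) (by linarith) (by linarith) (by linarith) (by linarith) (by linarith) (by linarith) (by linarith) (by linarith)
        · exact oneR_30003 a0 a1 b0 b1 d0 d1 c0 c1 la lb ld lc (by linarith) (by linarith) (by linarith) (by linarith) (by linarith) (by linarith) (by linarith) (by linarith)
      · rcases lt_or_gt_of_ne nd' with sd | sd
        · exact oneR_30003 a0 a1 b0 b1 c0 c1 d0 d1 la lb lc ld (by linarith) (by linarith) (by linarith) (by linarith) (by linarith) (by linarith) (by linarith) (by linarith)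
        · linarith

end Pool.Agent.Helper585.Acute

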