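import Mathlib
import Pool.Agent.Helper585.Acute.Defs

set_option autoImplicit false

namespace Pool.Agent.Helper585.Acute

open scoped Classical
open Filter Topology

theorem exists_inj (n : ℕ) : ∃ P : Fin n → EuclideanSpace ℝ (Fin 2), Function.Injective P := by
  refine ⟨fun i => EuclideanSpace.single 0 (i : ℝ), fun i j h => ?_⟩
  have h1 := congrArg (fun v : EuclideanSpace ℝ (Fin 2) => v 0) h
  simp at h1
  exact Fin.ext h1

theorem nonAcute_del {n : ℕ} (P : Fin (n + 1) → EuclideanSpace ℝ (Fin 2)) (v : Fin (n + 1)) :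
    nonAcute (fun i => P (v.succAbove i)) =
      ((Finset.univ.filter fun t : Fin (n + 1) × Fin (n + 1) × Fin (n + 1) =>
        t.1 < t.2.2 ∧ t.2.1 ≠ t.1 ∧ t.2.1 ≠ t.2.2 ∧
          Real.pi / 2 ≤ EuclideanGeometry.angle (P t.1) (P t.2.1) (P t.2.2)).filter
        (fun t => v ≠ t.1 ∧ v ≠ t.2.1 ∧ v ≠ t.2.2)).card := by
  have hinj : Function.Injective (fun t : Fin n × Fin n × Fin n =>
      (v.succAbove t.1, v.succAbove t.2.1, v.succAbove t.2.2)) := by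
    rintro ⟨a, b, c⟩ ⟨a', b', c'⟩ h
    simp only [Prod.mk.injEq] at h
    obtain ⟨h1, h2, h3⟩ := h
    rw [Fin.succAbove_right_injective h1, Fin.succAbove_right_injective h2,
      Fin.succAbove_right_injective h3]
  unfold nonAcute
  rw [← Finset.card_image_of_injective _ hinj]
  congr 1
  ext t
  obtain ⟨i, j, k⟩ := t
  simp only [Finset.mem_image, Finset.mem_filter, Finset.mem_univ, true_and, Prod.mk.injEq,
    Prod.exists]
  constructor
  · rintro ⟨a, b, c, ⟨h1, h2, h3, h4⟩, rfl, rfl, rfl⟩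
    refine ⟨⟨?_, ?_, ?_, h4⟩, ?_, ?_, ?_⟩
    · exact Fin.succAbove_lt_succAbove_iff.2 h1
    · exact fun h => h2 (Fin.succAbove_right_injective h)
    · exact fun h => h3 (Fin.succAbove_right_injective h)
    · exact (Fin.succAbove_ne v a).symm
    · exact (Fin.succAbove_ne v b).symm
    · exact (Fin.succAbove_ne v c).symm
  · rintro ⟨⟨h1, h2, h3, h4⟩, h5, h6, h7⟩
    obtain ⟨a, rfl⟩ := Fin.exists_succAbove_eq h5.symm
    obtain ⟨b, rfl⟩ := Fin.exists_succAbove_eq h6.symm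
    obtain ⟨c, rfl⟩ := Fin.exists_succAbove_eq h7.symm
    refine ⟨a, b, c, ⟨?_, ?_, ?_, h4⟩, rfl, rfl, rfl⟩
    · exact Fin.succAbove_lt_succAbove_iff.1 h1
    · rintro rfl; exact h2 rfl
    · rintro rfl; exact h3 rfl

/-- double counting: deleting each point in turn -/
theorem nonAcute_sum {n : ℕ} (P : Fin (n + 1) → EuclideanSpace ℝ (Fin 2)) :
    ∑ v : Fin (n + 1), nonAcute (fun i => P (v.succAbove i)) = (n - 2) * nonAcute P := by
  have h1 : ∀ v : Fin (n + 1), nonAcute (fun i => P (v.succAbove i)) =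
      ∑ t ∈ (Finset.univ.filter fun t : Fin (n + 1) × Fin (n + 1) × Fin (n + 1) =>
        t.1 < t.2.2 ∧ t.2.1 ≠ t.1 ∧ t.2.1 ≠ t.2.2 ∧
          Real.pi / 2 ≤ EuclideanGeometry.angle (P t.1) (P t.2.1) (P t.2.2)),
        if (v ≠ t.1 ∧ v ≠ t.2.1 ∧ v ≠ t.2.2) then 1 else 0 := by
    intro v
    rw [nonAcute_del, Finset.card_filter]
  rw [Finset.sum_congr rfl (fun v _ => h1 v), Finset.sum_comm]
  have h2 : ∀ t ∈ (Finset.univ.filter fun t : Fin (n + 1) × Fin (n + 1) × Fin (n + 1) =>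
        t.1 < t.2.2 ∧ t.2.1 ≠ t.1 ∧ t.2.1 ≠ t.2.2 ∧
          Real.pi / 2 ≤ EuclideanGeometry.angle (P t.1) (P t.2.1) (P t.2.2)),
      (∑ v : Fin (n + 1), if (v ≠ t.1 ∧ v ≠ t.2.1 ∧ v ≠ t.2.2) then 1 else 0) = n - 2 := by
    intro t ht
    rw [Finset.mem_filter] at ht
    obtain ⟨-, h3, h4, h5, -⟩ := ht
    rw [← Finset.card_filter]
    have h6 : (Finset.univ.filter fun v : Fin (n + 1) => v ≠ t.1 ∧ v ≠ t.2.1 ∧ v ≠ t.2.2) =
        Finset.univ \ {t.1, t.2.1, t.2.2} := by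
      ext v
      simp only [Finset.mem_filter, Finset.mem_univ, true_and, Finset.mem_sdiff,
        Finset.mem_insert, Finset.mem_singleton, not_or]
    rw [h6, Finset.card_sdiff_of_subset (Finset.subset_univ _), Finset.card_univ,
      Fintype.card_fin, Finset.card_eq_three.2 ⟨t.1, t.2.1, t.2.2, h4.symm, h3.ne, h5, rfl⟩]
    omega
  rw [Finset.sum_congr rfl h2, Finset.sum_const, smul_eq_mul, mul_comm]
  rfl

theorem m_le_of {n : ℕ} (hn : 3 ≤ n) (P : Fin n → EuclideanSpace ℝ (Fin 2))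
    (hP : Function.Injective P) :
    m n ≤ (nonAcute P : ℝ) / (1 / 2 * n * (n - 1) * (n - 2)) := by
  have hn' : (3 : ℝ) ≤ n := by exact_mod_cast hn
  apply csInf_le
  · refine ⟨0, ?_⟩
    rintro r ⟨Q, _, rfl⟩
    apply div_nonneg (Nat.cast_nonneg _)
    apply mul_nonneg (mul_nonneg (by linarith) (by linarith)) (by linarith)
  · exact ⟨P, hP, rfl⟩

theorem m_mono (n : ℕ) (hn : 3 ≤ n) : m n ≤ m (n + 1) := by
  have hn' : (3 : ℝ) ≤ n := by exact_mod_cast hn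
  obtain ⟨P0, hP0⟩ := exists_inj (n + 1)
  refine le_csInf (s := {r : ℝ | ∃ P : Fin (n + 1) → EuclideanSpace ℝ (Fin 2),
    Function.Injective P ∧ r = (nonAcute P : ℝ) / (1 / 2 * ((n + 1 : ℕ) : ℝ) * (((n + 1 : ℕ) : ℝ) - 1) *
      (((n + 1 : ℕ) : ℝ) - 2))}) ⟨_, P0, hP0, rfl⟩ ?_
  rintro r ⟨P, hP, rfl⟩
  have h1 : ∀ v : Fin (n + 1), m n ≤ (nonAcute (fun i => P (v.succAbove i)) : ℝ) /
      (1 / 2 * n * (n - 1) * (n - 2)) := fun v =>
    m_le_of hn _ (hP.comp Fin.succAbove_right_injective)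
  have h2 := Finset.sum_le_sum (fun v (_ : v ∈ (Finset.univ : Finset (Fin (n + 1)))) => h1 v)
  rw [Finset.sum_const, Finset.card_univ, Fintype.card_fin, nsmul_eq_mul, ← Finset.sum_div,
    ← Nat.cast_sum, nonAcute_sum] at h2
  push_cast [show 2 ≤ n by omega] at h2
  push_cast
  have hd : 0 < 1 / 2 * (n : ℝ) * (n - 1) * (n - 2) := by
    have e1 : (0 : ℝ) < n := by linarith
    have e2 : (0 : ℝ) < (n : ℝ) - 1 := by linarith
    have e3 : (0 : ℝ) < (n : ℝ) - 2 := by linarith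
    positivity
  have hd1 : 0 < 1 / 2 * ((n : ℝ) + 1) * (n + 1 - 1) * (n + 1 - 2) := by
    have e1 : (0 : ℝ) < (n : ℝ) + 1 := by linarith
    have e2 : (0 : ℝ) < (n : ℝ) + 1 - 1 := by linarith
    have e3 : (0 : ℝ) < (n : ℝ) + 1 - 2 := by linarith
    positivity
  rw [le_div_iff₀ hd1]
  rw [le_div_iff₀ hd] at h2
  have e3 : (0 : ℝ) < (n : ℝ) - 2 := by linarith
  have h3 : (m n * (1 / 2 * ((n : ℝ) + 1) * (n + 1 - 1) * (n + 1 - 2))) * ((n : ℝ) - 2) ≤
      (nonAcute P : ℝ) * ((n : ℝ) - 2) := by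
    have e4 : (m n * (1 / 2 * ((n : ℝ) + 1) * (n + 1 - 1) * (n + 1 - 2))) * ((n : ℝ) - 2) =
      ((n : ℝ) + 1) * m n * (1 / 2 * (n : ℝ) * (n - 1) * (n - 2)) := by ring
    rw [e4, mul_comm (nonAcute P : ℝ)]
    exact h2
  exact le_of_mul_le_mul_right h3 e3

theorem nonAcute_le (n : ℕ) : ∀ P : Fin (n + 3) → EuclideanSpace ℝ (Fin 2),
    2 * nonAcute P ≤ (n + 3) * (n + 2) * (n + 1) := by
  induction n with
  | zero =>
    intro P
    have h1 : nonAcute P ≤ (Finset.univ.filter fun t : Fin 3 × Fin 3 × Fin 3 =>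
        t.1 < t.2.2 ∧ t.2.1 ≠ t.1 ∧ t.2.1 ≠ t.2.2).card := by
      apply Finset.card_le_card
      intro t ht
      rw [Finset.mem_filter] at ht ⊢
      exact ⟨ht.1, ht.2.1, ht.2.2.1, ht.2.2.2.1⟩
    have h2 : (Finset.univ.filter fun t : Fin 3 × Fin 3 × Fin 3 =>
        t.1 < t.2.2 ∧ t.2.1 ≠ t.1 ∧ t.2.1 ≠ t.2.2).card = 3 := by
      decide
    omega
  | succ n ih =>
    intro P
    have h1 := nonAcute_sum P
    have h2 : ∑ v : Fin (n + 3 + 1), 2 * nonAcute (fun i => P (v.succAbove i)) ≤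
        ∑ _v : Fin (n + 3 + 1), (n + 3) * (n + 2) * (n + 1) :=
      Finset.sum_le_sum fun v _ => ih _
    rw [← Finset.mul_sum, h1, Finset.sum_const, Finset.card_univ, Fintype.card_fin,
      smul_eq_mul] at h2
    have h3 : n + 3 - 2 = n + 1 := by omega
    rw [h3] at h2
    have h4 : (n + 1) * (2 * nonAcute P) ≤ (n + 1) * ((n + 1 + 3) * (n + 1 + 2) * (n + 1 + 1)) := by
      calc (n + 1) * (2 * nonAcute P) = 2 * ((n + 1) * nonAcute P) := by ring
        _ ≤ (n + 3 + 1) * ((n + 3) * (n + 2) * (n + 1)) := h2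
        _ = (n + 1) * ((n + 1 + 3) * (n + 1 + 2) * (n + 1 + 1)) := by ring
    exact Nat.le_of_mul_le_mul_left h4 (Nat.succ_pos n)

theorem m_le_one (n : ℕ) (hn : 3 ≤ n) : m n ≤ 1 := by
  obtain ⟨P, hP⟩ := exists_inj n
  refine (m_le_of hn P hP).trans ?_
  obtain ⟨k, rfl⟩ : ∃ k, n = k + 3 := ⟨n - 3, by omega⟩
  have h1 := nonAcute_le k P
  have h2 : 2 * (nonAcute P : ℝ) ≤ ((k : ℝ) + 3) * (k + 2) * (k + 1) := by exact_mod_cast h1
  have hk : (0 : ℝ) ≤ k := Nat.cast_nonneg k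
  push_cast
  have hd : 0 < 1 / 2 * ((k : ℝ) + 3) * (k + 3 - 1) * (k + 3 - 2) := by
    have e2 : (0 : ℝ) < (k : ℝ) + 3 - 1 := by linarith
    have e3 : (0 : ℝ) < (k : ℝ) + 3 - 2 := by linarith
    positivity
  rw [div_le_one hd]
  nlinarith

theorem m_lim : ∃ L : ℝ, Tendsto m atTop (𝓝 L) := by
  have h1 : Monotone (fun k : ℕ => m (k + 3)) := by
    apply monotone_nat_of_le_succ
    intro k
    have h2 := m_mono (k + 3) (by omega)
    exact h2
  have h2 : BddAbove (Set.range (fun k : ℕ => m (k + 3))) := by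
    refine ⟨1, ?_⟩
    rintro _ ⟨k, rfl⟩
    exact m_le_one (k + 3) (by omega)
  exact ⟨_, (tendsto_add_atTop_iff_nat 3).mp (tendsto_atTop_ciSup h1 h2)⟩

end Pool.Agent.Helper585.Acute
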