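import Mathlib
import Pool.Agent.Helper585.Acute.FA2
import Pool.Agent.Helper585.Acute.Four
import Pool.Agent.Helper585.Acute.Lim

set_option autoImplicit false
set_option linter.unusedVariables false

namespace Pool.Agent.Helper585.Acute

open scoped Classical
open Filter Topology

/-- the angle at `y` is at least a right angle iff the inner product is nonpositive -/
theorem angle_iff (x y z : EuclideanSpace ℝ (Fin 2)) :
    Real.pi / 2 ≤ EuclideanGeometry.angle x y z ↔ inner ℝ (x - y) (z - y) ≤ 0 := by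
  unfold EuclideanGeometry.angle InnerProductGeometry.angle
  rw [← not_lt, Real.arccos_lt_pi_div_two, not_lt]
  simp only [vsub_eq_sub]
  constructor
  · intro h
    by_contra hc
    push Not at hc
    have h1 : 0 < ‖x - y‖ := by
      rcases (norm_nonneg (x - y)).eq_or_lt with h0 | h0
      · rw [eq_comm, norm_eq_zero] at h0; rw [h0] at hc; simp at hc
      · exact h0
    have h2 : 0 < ‖z - y‖ := by
      rcases (norm_nonneg (z - y)).eq_or_lt with h0 | h0
      · rw [eq_comm, norm_eq_zero] at h0; rw [h0] at hc; simp at hc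
      · exact h0
    exact absurd h (not_le.mpr (by positivity))
  · intro h
    exact div_nonpos_of_nonpos_of_nonneg h (by positivity)

section
variable {n : ℕ} (P : Fin n → EuclideanSpace ℝ (Fin 2))

/-- indicator of acute triangles -/
noncomputable def chi (a b c : Fin n) : Bool := decide (Ac (P a) (P b) (P c))

theorem Ac_s1 (x y z : EuclideanSpace ℝ (Fin 2)) : Ac x y z ↔ Ac y x z := by
  unfold Ac
  rw [real_inner_comm (x - z) (y - z)]
  tauto

theorem Ac_s2 (x y z : EuclideanSpace ℝ (Fin 2)) : Ac x y z ↔ Ac x z y := by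
  unfold Ac
  rw [real_inner_comm (y - x) (z - x)]
  tauto

theorem acute_le :
    10000 * ∑ a, ∑ b, ∑ c, ((chi P a b c).toNat : ℤ) ≤ 5731 * (n : ℤ) ^ 3 := by
  have h := density (chi P) (fun a b c => by unfold chi; exact decide_eq_decide.mpr (Ac_s1 _ _ _))
    (fun a b c => by unfold chi; exact decide_eq_decide.mpr (Ac_s2 _ _ _))
    (fun a b c d h => by
      simp only [chi, decide_eq_true_eq] at h
      exact four_points _ _ _ _ h)
  simpa using h

/-- ordered triples with a non-acute angle at the middle vertex -/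
noncomputable def S2 : Finset (Fin n × Fin n × Fin n) :=
  Finset.univ.filter fun t =>
    t.1 ≠ t.2.2 ∧ t.2.1 ≠ t.1 ∧ t.2.1 ≠ t.2.2 ∧ inner ℝ (P t.1 - P t.2.1) (P t.2.2 - P t.2.1) ≤ 0

theorem S2_le : (S2 P).card ≤ 2 * nonAcute P := by
  set A1 := Finset.univ.filter fun t : Fin n × Fin n × Fin n =>
    t.1 < t.2.2 ∧ t.2.1 ≠ t.1 ∧ t.2.1 ≠ t.2.2 ∧
      Real.pi / 2 ≤ EuclideanGeometry.angle (P t.1) (P t.2.1) (P t.2.2) with hA1
  have h : S2 P ⊆ A1 ∪ A1.image (fun t : Fin n × Fin n × Fin n => (t.2.2, t.2.1, t.1)) := by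
    rintro ⟨i, j, k⟩ ht
    simp only [S2, Finset.mem_filter, Finset.mem_univ, true_and] at ht
    obtain ⟨h1, h2, h3, h4⟩ := ht
    rw [Finset.mem_union]
    rcases lt_or_gt_of_ne h1 with h5 | h5
    · left
      simp only [hA1, Finset.mem_filter, Finset.mem_univ, true_and]
      exact ⟨h5, h2, h3, (angle_iff _ _ _).mpr h4⟩
    · right
      rw [Finset.mem_image]
      refine ⟨(k, j, i), ?_, rfl⟩
      simp only [hA1, Finset.mem_filter, Finset.mem_univ, true_and]
      refine ⟨h5, h3, h2, (angle_iff _ _ _).mpr ?_⟩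
      rw [real_inner_comm]; exact h4
  calc (S2 P).card ≤ (A1 ∪ A1.image (fun t : Fin n × Fin n × Fin n => (t.2.2, t.2.1, t.1))).card := Finset.card_le_card h
    _ ≤ A1.card + (A1.image (fun t : Fin n × Fin n × Fin n => (t.2.2, t.2.1, t.1))).card := Finset.card_union_le _ _
    _ ≤ A1.card + A1.card := Nat.add_le_add_left Finset.card_image_le _
    _ = 2 * nonAcute P := by simp only [nonAcute, hA1]; ring

theorem card_bad : (Finset.univ.filter fun t : Fin n × Fin n × Fin n =>
    t.1 = t.2.2 ∨ t.2.1 = t.1 ∨ t.2.1 = t.2.2).card ≤ 3 * n ^ 2 := by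
  have h : (Finset.univ.filter fun t : Fin n × Fin n × Fin n =>
      t.1 = t.2.2 ∨ t.2.1 = t.1 ∨ t.2.1 = t.2.2) ⊆
      ((Finset.univ : Finset (Fin n × Fin n)).image (fun q => (q.1, q.2, q.1))) ∪
      (((Finset.univ : Finset (Fin n × Fin n)).image (fun q => (q.1, q.1, q.2))) ∪
      ((Finset.univ : Finset (Fin n × Fin n)).image (fun q => (q.1, q.2, q.2)))) := by
    rintro ⟨i, j, k⟩ ht
    simp only [Finset.mem_filter, Finset.mem_univ, true_and] at ht
    simp only [Finset.mem_union, Finset.mem_image, Finset.mem_univ, true_and, Prod.exists,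
      Prod.mk.injEq]
    rcases ht with h | h | h
    · left; exact ⟨i, j, rfl, rfl, h⟩
    · right; left; exact ⟨i, k, rfl, h.symm, rfl⟩
    · right; right; exact ⟨i, j, rfl, rfl, h⟩
  have hc : (Finset.univ : Finset (Fin n × Fin n)).card = n ^ 2 := by
    simp [sq]
  refine (Finset.card_le_card h).trans ((Finset.card_union_le _ _).trans ?_)
  have h1 := Finset.card_union_le ((Finset.univ : Finset (Fin n × Fin n)).image (fun q => (q.1, q.1, q.2)))
    ((Finset.univ : Finset (Fin n × Fin n)).image (fun q => (q.1, q.2, q.2)))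
  have h2 := Finset.card_image_le (s := (Finset.univ : Finset (Fin n × Fin n)))
    (f := fun q => (q.1, q.2, q.1))
  have h3 := Finset.card_image_le (s := (Finset.univ : Finset (Fin n × Fin n)))
    (f := fun q => (q.1, q.1, q.2))
  have h4 := Finset.card_image_le (s := (Finset.univ : Finset (Fin n × Fin n)))
    (f := fun q => (q.1, q.2, q.2))
  rw [hc] at h2 h3 h4
  omega

/-- the number of non-acute angles -/
theorem count (hP : Function.Injective P) :
    4269 / 10000 * (n : ℝ) ^ 3 - 3 * (n : ℝ) ^ 2 ≤ 6 * (nonAcute P : ℝ) := by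
  set T := (Finset.univ : Finset (Fin n × Fin n × Fin n)) with hT
  set B := Finset.univ.filter fun t : Fin n × Fin n × Fin n =>
    t.1 = t.2.2 ∨ t.2.1 = t.1 ∨ t.2.1 = t.2.2 with hB
  set C := Finset.univ.filter fun t : Fin n × Fin n × Fin n => chi P t.1 t.2.1 t.2.2 = true with hC
  have hsub : T ⊆ B ∪ (C ∪ (S2 P ∪ ((S2 P).image (fun t => (t.2.1, t.1, t.2.2)) ∪
      (S2 P).image (fun t => (t.1, t.2.2, t.2.1))))) := by
    rintro ⟨i, j, k⟩ -
    simp only [Finset.mem_union]
    by_cases h1 : i = k ∨ j = i ∨ j = k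
    · left; simp only [hB, Finset.mem_filter, Finset.mem_univ, true_and]; exact h1
    right
    push Not at h1
    by_cases h2 : chi P i j k = true
    · left; simp only [hC, Finset.mem_filter, Finset.mem_univ, true_and]; exact h2
    right
    simp only [chi, decide_eq_true_eq, Ac, not_and_or, not_lt] at h2
    rcases h2 with h2 | h2 | h2
    · right; left
      rw [Finset.mem_image]
      refine ⟨(j, i, k), ?_, rfl⟩
      simp only [S2, Finset.mem_filter, Finset.mem_univ, true_and]
      exact ⟨h1.2.2, Ne.symm h1.2.1, h1.1, h2⟩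
    · left
      simp only [S2, Finset.mem_filter, Finset.mem_univ, true_and]
      exact ⟨h1.1, h1.2.1, h1.2.2, h2⟩
    · right; right
      rw [Finset.mem_image]
      refine ⟨(i, k, j), ?_, rfl⟩
      simp only [S2, Finset.mem_filter, Finset.mem_univ, true_and]
      exact ⟨Ne.symm h1.2.1, Ne.symm h1.1, Ne.symm h1.2.2, h2⟩
  have hc1 : T.card = n ^ 3 := by simp [hT]; ring
  have hc2 : T.card ≤ B.card + (C.card + ((S2 P).card + ((S2 P).card + (S2 P).card))) := by
    have i1 := Finset.card_le_card hsub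
    have i2 := Finset.card_union_le B (C ∪ (S2 P ∪ ((S2 P).image (fun t => (t.2.1, t.1, t.2.2)) ∪
      (S2 P).image (fun t => (t.1, t.2.2, t.2.1)))))
    have i3 := Finset.card_union_le C (S2 P ∪ ((S2 P).image (fun t => (t.2.1, t.1, t.2.2)) ∪
      (S2 P).image (fun t => (t.1, t.2.2, t.2.1))))
    have i4 := Finset.card_union_le (S2 P) ((S2 P).image (fun t => (t.2.1, t.1, t.2.2)) ∪
      (S2 P).image (fun t => (t.1, t.2.2, t.2.1)))
    have i5 := Finset.card_union_le ((S2 P).image (fun t => (t.2.1, t.1, t.2.2)))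
      ((S2 P).image (fun t => (t.1, t.2.2, t.2.1)))
    have i6 := Finset.card_image_le (s := S2 P) (f := fun t => (t.2.1, t.1, t.2.2))
    have i7 := Finset.card_image_le (s := S2 P) (f := fun t => (t.1, t.2.2, t.2.1))
    omega
  have hC2 : (C.card : ℤ) = ∑ a, ∑ b, ∑ c, ((chi P a b c).toNat : ℤ) := by
    rw [hC, Finset.card_filter]
    push_cast
    rw [Fintype.sum_prod_type]
    refine Finset.sum_congr rfl fun a _ => ?_
    rw [Fintype.sum_prod_type]
    refine Finset.sum_congr rfl fun b _ => Finset.sum_congr rfl fun c _ => ?_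
    cases chi P a b c <;> simp
  have h3 := acute_le P
  rw [← hC2] at h3
  have h4 : B.card ≤ 3 * n ^ 2 := card_bad (n := n)
  have h5 := S2_le P
  have h6 : (10000 : ℤ) * n ^ 3 ≤ 10000 * (3 * n ^ 2) + 5731 * (n : ℤ) ^ 3 + 60000 * nonAcute P := by
    have h7 : n ^ 3 ≤ 3 * n ^ 2 + (C.card + 3 * (2 * nonAcute P)) := by
      rw [← hc1]
      calc T.card ≤ _ := hc2
        _ ≤ _ := by omega
    have h8 : (n : ℤ) ^ 3 ≤ 3 * n ^ 2 + (C.card + 3 * (2 * nonAcute P)) := by exact_mod_cast h7
    linarith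
  have h9 : (10000 : ℝ) * n ^ 3 ≤ 10000 * (3 * n ^ 2) + 5731 * (n : ℝ) ^ 3 + 60000 * nonAcute P := by
    exact_mod_cast h6
  linarith

end

theorem m_ge (n : ℕ) (hn : 3 ≤ n) : 1423 / 10000 - 1 / (n : ℝ) ≤ m n := by
  obtain ⟨P0, hP0⟩ := exists_inj n
  refine le_csInf ⟨_, P0, hP0, rfl⟩ ?_
  rintro r ⟨P, hP, rfl⟩
  have hn' : (3 : ℝ) ≤ n := by exact_mod_cast hn
  have hd : 0 < 1 / 2 * (n : ℝ) * (n - 1) * (n - 2) := by
    have h1 : 0 < (n : ℝ) - 1 := by linarith
    have h2 : 0 < (n : ℝ) - 2 := by linarith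
    positivity
  rw [le_div_iff₀ hd]
  have h := count P hP
  have h0 : (0 : ℝ) ≤ nonAcute P := Nat.cast_nonneg _
  by_cases hneg : 1423 / 10000 - 1 / (n : ℝ) ≤ 0
  · have := mul_nonpos_of_nonpos_of_nonneg hneg hd.le
    linarith
  · push Not at hneg
    have h1 : 1 / 2 * (n : ℝ) * (n - 1) * (n - 2) ≤ 1 / 2 * (n : ℝ) ^ 3 := by nlinarith
    have h2 := mul_le_mul_of_nonneg_left h1 hneg.le
    have h3 : (1423 / 10000 - 1 / (n : ℝ)) * (1 / 2 * (n : ℝ) ^ 3) =
        1423 / 20000 * (n : ℝ) ^ 3 - 1 / 2 * (n : ℝ) ^ 2 := by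
      have : (n : ℝ) ≠ 0 := by positivity
      field_simp
      ring
    linarith

end Pool.Agent.Helper585.Acute
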