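import Mathlib
import Pool.Agent.Helper585.Acute.Defs2

/-!
Lower bounds for the number of small angles.
-/

set_option autoImplicit false

namespace Pool.Agent.Helper585.Acute

open scoped Classical
open Filter

theorem tl_dsq (x y : EuclideanSpace ℝ (Fin 2)) :
    dist x y ^ 2 = (x 0 - y 0) ^ 2 + (x 1 - y 1) ^ 2 := by
  rw [EuclideanSpace.dist_eq, Real.sq_sqrt (by positivity), Fin.sum_univ_two, Real.dist_eq,
    Real.dist_eq, sq_abs, sq_abs]

/-- orientation -/
noncomputable def tdet (A B C : EuclideanSpace ℝ (Fin 2)) : ℝ :=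
  (B 0 - A 0) * (C 1 - A 1) - (B 1 - A 1) * (C 0 - A 0)

/-- equilateral -/
def Eqt (A B C : EuclideanSpace ℝ (Fin 2)) : Prop := dist A C = dist A B ∧ dist B C = dist A B

theorem Eqt.eqs {A B C : EuclideanSpace ℝ (Fin 2)} (h : Eqt A B C) :
    (C 0 - A 0) ^ 2 + (C 1 - A 1) ^ 2 = (B 0 - A 0) ^ 2 + (B 1 - A 1) ^ 2 ∧
    (B 0 - A 0) * (C 0 - A 0) + (B 1 - A 1) * (C 1 - A 1) =
      ((B 0 - A 0) ^ 2 + (B 1 - A 1) ^ 2) / 2 := by
  obtain ⟨h1, h2⟩ := h
  have e1 : dist A C ^ 2 = dist A B ^ 2 := by rw [h1]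
  have e2 : dist B C ^ 2 = dist A B ^ 2 := by rw [h2]
  rw [tl_dsq, tl_dsq] at e1 e2
  constructor
  · linarith
  · linarith

theorem Eqt.det_sq {A B C : EuclideanSpace ℝ (Fin 2)} (h : Eqt A B C) :
    tdet A B C ^ 2 = 3 / 4 * ((B 0 - A 0) ^ 2 + (B 1 - A 1) ^ 2) ^ 2 := by
  obtain ⟨h1, h2⟩ := h.eqs
  have e : tdet A B C ^ 2 = ((B 0 - A 0) ^ 2 + (B 1 - A 1) ^ 2) *
      ((C 0 - A 0) ^ 2 + (C 1 - A 1) ^ 2) -
      ((B 0 - A 0) * (C 0 - A 0) + (B 1 - A 1) * (C 1 - A 1)) ^ 2 := by
    unfold tdet; ring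
  rw [e, h1, h2]
  ring

theorem tl_npos {A B : EuclideanSpace ℝ (Fin 2)} (hAB : A ≠ B) :
    0 < (B 0 - A 0) ^ 2 + (B 1 - A 1) ^ 2 := by
  have h1 : 0 < dist B A := dist_pos.2 hAB.symm
  rw [← tl_dsq]
  positivity

theorem tl_uniq {A B C C' : EuclideanSpace ℝ (Fin 2)} (hAB : A ≠ B) (h : Eqt A B C)
    (h' : Eqt A B C') (hd : 0 < tdet A B C) (hd' : 0 < tdet A B C') : C = C' := by
  have hN := tl_npos hAB
  have e0 : tdet A B C = tdet A B C' := by
    have : tdet A B C ^ 2 = tdet A B C' ^ 2 := by rw [h.det_sq, h'.det_sq]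
    exact (sq_eq_sq₀ hd.le hd'.le).1 this
  obtain ⟨-, h2⟩ := h.eqs
  obtain ⟨-, h2'⟩ := h'.eqs
  rw [← h2'] at h2
  unfold tdet at e0
  have w0 : ((B 0 - A 0) ^ 2 + (B 1 - A 1) ^ 2) * (C 0 - C' 0) = 0 := by
    linear_combination (B 0 - A 0) * h2 - (B 1 - A 1) * e0
  have w1 : ((B 0 - A 0) ^ 2 + (B 1 - A 1) ^ 2) * (C 1 - C' 1) = 0 := by
    linear_combination (B 1 - A 1) * h2 + (B 0 - A 0) * e0
  have w0' : C 0 = C' 0 := by
    rcases mul_eq_zero.1 w0 with h | h
    · exact absurd h hN.ne'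
    · linarith
  have w1' : C 1 = C' 1 := by
    rcases mul_eq_zero.1 w1 with h | h
    · exact absurd h hN.ne'
    · linarith
  ext i
  fin_cases i
  · exact w0'
  · exact w1'

theorem tl_choose (n : ℕ) : ((n.choose 3 : ℕ) : ℝ) = (n : ℝ) * (n - 1) * (n - 2) / 6 := by
  induction n with
  | zero => simp
  | succ n ih =>
    rw [Nat.choose_succ_succ' n 2]
    push_cast
    rw [ih, Nat.cast_choose_two]
    ring

/-- relation between triples and certificates -/
def tlr {n : ℕ} (P : Fin n → EuclideanSpace ℝ (Fin 2)) (s : Finset (Fin n))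
    (y : (Fin n × Fin n × Fin n) ⊕ (Fin n × Fin n)) : Prop :=
  Sum.elim (fun t : Fin n × Fin n × Fin n => s = {t.1, t.2.1, t.2.2})
    (fun p : Fin n × Fin n => ∃ k, p.1 ≠ p.2 ∧ s = {p.1, p.2, k} ∧ Eqt (P p.1) (P p.2) (P k) ∧
      0 < tdet (P p.1) (P p.2) (P k)) y



theorem third_lower {n : ℕ} (P : Fin n → EuclideanSpace ℝ (Fin 2)) (hP : GenPos P) :
    (n : ℝ) * (n - 1) * (n - 2) / 6 ≤ cnt (fun a => a < Real.pi / 3) P + n ^ 2 := by

  set X := Finset.univ.filter fun t : Fin n × Fin n × Fin n =>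
    t.1 < t.2.2 ∧ t.2.1 ≠ t.1 ∧ t.2.1 ≠ t.2.2 ∧
      EuclideanGeometry.angle (P t.1) (P t.2.1) (P t.2.2) < Real.pi / 3 with hX
  have hXc : X.card = cnt (fun a => a < Real.pi / 3) P := rfl
  set Y : Finset ((Fin n × Fin n × Fin n) ⊕ (Fin n × Fin n)) := X.disjSum Finset.univ with hY
  have hYc : Y.card = cnt (fun a => a < Real.pi / 3) P + n ^ 2 := by
    rw [hY, Finset.card_disjSum, hXc, Finset.card_univ, Fintype.card_prod, Fintype.card_fin, sq]
  have mk : ∀ a b c : Fin n, a ≠ b → b ≠ c → a ≠ c →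
      EuclideanGeometry.angle (P a) (P b) (P c) < Real.pi / 3 → ∀ s : Finset (Fin n),
      s = {a, b, c} → ∃ y, y ∈ Y ∧ tlr P s y := by
    intro a b c hab hbc hac hang s hs
    rcases lt_or_gt_of_ne hac with h | h
    · refine ⟨Sum.inl (a, b, c), ?_, hs⟩
      rw [hY, Finset.inl_mem_disjSum, hX, Finset.mem_filter]
      exact ⟨Finset.mem_univ _, h, hab.symm, hbc, hang⟩
    · refine ⟨Sum.inl (c, b, a), ?_, ?_⟩
      · rw [hY, Finset.inl_mem_disjSum, hX, Finset.mem_filter]
        refine ⟨Finset.mem_univ _, h, hbc, hab.symm, ?_⟩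
        show EuclideanGeometry.angle (P c) (P b) (P a) < Real.pi / 3
        rw [EuclideanGeometry.angle_comm]
        exact hang
      · show s = {c, b, a}
        rw [hs]
        ext z
        simp only [Finset.mem_insert, Finset.mem_singleton]
        tauto
  have hle : (Finset.powersetCard 3 (Finset.univ : Finset (Fin n))).card ≤ Y.card := by
    refine Finset.card_le_card_of_forall_subsingleton (tlr P) ?_ ?_
    · intro s hs
      obtain ⟨a, b, c, hab, hac, hbc, hsabc⟩ := Finset.card_eq_three.1 (Finset.mem_powersetCard.1 hs).2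
      have hAB : P a ≠ P b := fun h => hab (hP.1 h)
      have hsum := EuclideanGeometry.angle_add_angle_add_angle_eq_pi (P c) hAB.symm
      by_cases h1 : EuclideanGeometry.angle (P a) (P b) (P c) < Real.pi / 3
      · exact mk a b c hab hbc hac h1 s hsabc
      by_cases h2 : EuclideanGeometry.angle (P b) (P c) (P a) < Real.pi / 3
      · refine mk b c a hbc hac.symm hab.symm h2 s ?_
        rw [hsabc]; ext z; simp only [Finset.mem_insert, Finset.mem_singleton]; tauto
      by_cases h3 : EuclideanGeometry.angle (P c) (P a) (P b) < Real.pi / 3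
      · refine mk c a b hac.symm hab hbc.symm h3 s ?_
        rw [hsabc]; ext z; simp only [Finset.mem_insert, Finset.mem_singleton]; tauto
      push Not at h1 h2 h3
      have hpi := Real.pi_pos
      have e1 : EuclideanGeometry.angle (P a) (P b) (P c) = Real.pi / 3 := by linarith
      have e2 : EuclideanGeometry.angle (P b) (P c) (P a) = Real.pi / 3 := by linarith
      have e3 : EuclideanGeometry.angle (P c) (P a) (P b) = Real.pi / 3 := by linarith
      have d1 : dist (P a) (P b) = dist (P a) (P c) := by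
        apply EuclideanGeometry.dist_eq_of_angle_eq_angle_of_angle_ne_pi
        · rw [e1, EuclideanGeometry.angle_comm, e2]
        · rw [EuclideanGeometry.angle_comm, e3]; intro h; linarith
      have d2 : dist (P b) (P a) = dist (P b) (P c) := by
        apply EuclideanGeometry.dist_eq_of_angle_eq_angle_of_angle_ne_pi
        · rw [EuclideanGeometry.angle_comm, e3, e2]
        · rw [e1]; intro h; linarith
      have hE : Eqt (P a) (P b) (P c) := ⟨d1.symm, by rw [← d2, dist_comm]⟩
      have hE' : Eqt (P b) (P a) (P c) := ⟨d2.symm, by rw [← d1, dist_comm]⟩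
      have hdne : tdet (P a) (P b) (P c) ≠ 0 := by
        intro h0
        have := hE.det_sq
        rw [h0] at this
        have hN := tl_npos hAB
        have : 0 < 3 / 4 * ((P b 0 - P a 0) ^ 2 + (P b 1 - P a 1) ^ 2) ^ 2 := by positivity
        linarith
      rcases lt_or_gt_of_ne hdne with h | h
      · refine ⟨Sum.inr (b, a), ?_, c, hab.symm, ?_, hE', ?_⟩
        · rw [hY, Finset.inr_mem_disjSum]; exact Finset.mem_univ _
        · rw [hsabc]; ext z; simp only [Finset.mem_insert, Finset.mem_singleton]; tauto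
        · have : tdet (P b) (P a) (P c) = - tdet (P a) (P b) (P c) := by unfold tdet; ring
          show 0 < tdet (P b) (P a) (P c)
          linarith
      · refine ⟨Sum.inr (a, b), ?_, c, hab, hsabc, hE, h⟩
        rw [hY, Finset.inr_mem_disjSum]; exact Finset.mem_univ _
    · rintro (t | p) _ s1 h1 s2 h2
      · have e1 : s1 = {t.1, t.2.1, t.2.2} := h1.2
        have e2 : s2 = {t.1, t.2.1, t.2.2} := h2.2
        rw [e1, e2]
      · obtain ⟨k1, hne, e1, hq1, hd1⟩ := h1.2
        obtain ⟨k2, -, e2, hq2, hd2⟩ := h2.2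
        have hk : k1 = k2 := hP.1 (tl_uniq (fun h => hne (hP.1 h)) hq1 hq2 hd1 hd2)
        rw [e1, e2, hk]
  rw [Finset.card_powersetCard, Finset.card_univ, Fintype.card_fin, hYc] at hle
  rw [← tl_choose]
  exact_mod_cast hle

theorem ac_num (x y z α : ℝ) (hs : x + y + z = Real.pi) (hx : 0 < x) (hy : 0 < y) (hz : 0 < z)
    (h1 : Real.pi / 3 < α) (h2 : α ≤ Real.pi / 2) :
    (1 : ℝ) + ((if Real.pi - α < x then (1:ℝ) else 0) + (if Real.pi - α < y then (1:ℝ) else 0) +
      (if Real.pi - α < z then (1:ℝ) else 0)) ≤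
      (if x < α then (1:ℝ) else 0) + (if y < α then (1:ℝ) else 0) +
      (if z < α then (1:ℝ) else 0) := by
  split_ifs <;> first | norm_num; done | (exfalso; linarith)

theorem ac_cnt (R : ℝ → Prop) {n : ℕ} (P : Fin n → EuclideanSpace ℝ (Fin 2)) :
    (cnt R P : ℝ) = ∑ a : Fin n, ∑ b : Fin n, ∑ c : Fin n, if a < b ∧ b < c then
      ((if R (EuclideanGeometry.angle (P b) (P a) (P c)) then (1:ℝ) else 0) +
       (if R (EuclideanGeometry.angle (P a) (P b) (P c)) then (1:ℝ) else 0) +
       (if R (EuclideanGeometry.angle (P a) (P c) (P b)) then (1:ℝ) else 0)) else 0 := by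
  have e0 : (cnt R P : ℝ) = ∑ i : Fin n, ∑ j : Fin n, ∑ k : Fin n,
      if i < k ∧ j ≠ i ∧ j ≠ k ∧ R (EuclideanGeometry.angle (P i) (P j) (P k)) then (1:ℝ) else 0 := by
    unfold cnt
    rw [Finset.card_filter, Fintype.sum_prod_type]
    push_cast
    refine Finset.sum_congr rfl fun i _ => ?_
    rw [Fintype.sum_prod_type]
  have e1 : ∀ i j k : Fin n,
      (if i < k ∧ j ≠ i ∧ j ≠ k ∧ R (EuclideanGeometry.angle (P i) (P j) (P k)) then (1:ℝ) else 0) =
      (if j < i ∧ i < k then
        (if R (EuclideanGeometry.angle (P i) (P j) (P k)) then (1:ℝ) else 0) else 0) +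
      (if i < j ∧ j < k then
        (if R (EuclideanGeometry.angle (P i) (P j) (P k)) then (1:ℝ) else 0) else 0) +
      (if i < k ∧ k < j then
        (if R (EuclideanGeometry.angle (P i) (P j) (P k)) then (1:ℝ) else 0) else 0) := by
    intro i j k
    by_cases hR : R (EuclideanGeometry.angle (P i) (P j) (P k))
    · simp only [hR, and_true, if_true]
      by_cases h1 : i < k
      · rcases lt_trichotomy j i with h2 | h2 | h2
        · rw [if_pos ⟨h1, h2.ne, (h2.trans h1).ne⟩, if_pos ⟨h2, h1⟩,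
            if_neg (fun h => lt_asymm h.1 h2), if_neg (fun h => lt_asymm h.2 (h2.trans h1))]
          norm_num
        · rw [if_neg (fun h => h.2.1 h2), if_neg (fun h => h.1.ne h2),
            if_neg (fun h => h.1.ne h2.symm), if_neg (fun h => by
              rw [h2] at h; exact lt_asymm h.1 h.2)]
          norm_num
        · rcases lt_trichotomy j k with h3 | h3 | h3
          · rw [if_pos ⟨h1, h2.ne', h3.ne⟩, if_neg (fun h => lt_asymm h.1 h2), if_pos ⟨h2, h3⟩,
              if_neg (fun h => lt_asymm h.2 h3)]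
            norm_num
          · rw [if_neg (fun h => h.2.2 h3), if_neg (fun h => lt_asymm h.1 h2),
              if_neg (fun h => h.2.ne h3), if_neg (fun h => h.2.ne h3.symm)]
            norm_num
          · rw [if_pos ⟨h1, h2.ne', h3.ne'⟩, if_neg (fun h => lt_asymm h.1 h2),
              if_neg (fun h => lt_asymm h.2 h3), if_pos ⟨h1, h3⟩]
            norm_num
      · rw [if_neg (fun h => h1 h.1), if_neg (fun h => h1 h.2),
          if_neg (fun h => h1 (h.1.trans h.2)), if_neg (fun h => h1 h.1)]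
        norm_num
    · simp only [hR, and_false, if_false, ite_self]
      norm_num
  rw [e0]
  simp only [e1, Finset.sum_add_distrib]
  have e2 : ∀ a b c : Fin n, (if a < b ∧ b < c then
      ((if R (EuclideanGeometry.angle (P b) (P a) (P c)) then (1:ℝ) else 0) +
       (if R (EuclideanGeometry.angle (P a) (P b) (P c)) then (1:ℝ) else 0) +
       (if R (EuclideanGeometry.angle (P a) (P c) (P b)) then (1:ℝ) else 0)) else 0) =
      (if a < b ∧ b < c then
        (if R (EuclideanGeometry.angle (P b) (P a) (P c)) then (1:ℝ) else 0) else 0) +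
      (if a < b ∧ b < c then
        (if R (EuclideanGeometry.angle (P a) (P b) (P c)) then (1:ℝ) else 0) else 0) +
      (if a < b ∧ b < c then
        (if R (EuclideanGeometry.angle (P a) (P c) (P b)) then (1:ℝ) else 0) else 0) := by
    intro a b c
    by_cases h : a < b ∧ b < c
    · simp only [if_pos h]
    · simp only [if_neg h]; norm_num
  simp only [e2, Finset.sum_add_distrib]
  congr 1
  · congr 1
    exact Finset.sum_comm
  · refine Finset.sum_congr rfl fun a _ => ?_
    exact Finset.sum_comm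

theorem ac_tri (n : ℕ) : (∑ a : Fin n, ∑ b : Fin n, ∑ c : Fin n,
    if a < b ∧ b < c then (1:ℝ) else 0) = (n : ℝ) * (n - 1) * (n - 2) / 6 := by
  have h1 : ∀ b c : Fin n, (∑ a : Fin n, if a < b ∧ b < c then (1:ℝ) else 0) =
      if b < c then ((b : ℕ) : ℝ) else 0 := by
    intro b c
    by_cases h : b < c
    · simp only [h, and_true, if_true]
      rw [Finset.sum_boole]
      have : (Finset.univ.filter fun x : Fin n => x < b) = Finset.Iio b := by
        ext x; simp
      rw [this, Fin.card_Iio]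
    · simp only [h, and_false, if_false]
      simp
  have hg : ∀ m : ℕ, ∑ b ∈ Finset.range m, (b : ℝ) = m * (m - 1) / 2 := by
    intro m
    induction m with
    | zero => simp
    | succ m ih => rw [Finset.sum_range_succ, ih]; push_cast; ring
  have h2 : ∀ c : Fin n, (∑ b : Fin n, if b < c then ((b : ℕ) : ℝ) else 0) =
      ((c : ℕ) : ℝ) * ((c : ℕ) - 1) / 2 := by
    intro c
    have e1 : (∑ b : Fin n, if b < c then ((b : ℕ) : ℝ) else 0) =
        ∑ b ∈ Finset.range n, if b < (c : ℕ) then (b : ℝ) else 0 := by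
      rw [← Fin.sum_univ_eq_sum_range (fun b => if b < (c : ℕ) then (b : ℝ) else 0) n]
      rfl
    rw [e1, ← Finset.sum_filter]
    have e2 : (Finset.range n).filter (fun b => b < (c : ℕ)) = Finset.range (c : ℕ) := by
      ext b
      simp only [Finset.mem_filter, Finset.mem_range]
      have := c.2
      omega
    rw [e2, hg]
  have h3 : (∑ a : Fin n, ∑ b : Fin n, ∑ c : Fin n, if a < b ∧ b < c then (1:ℝ) else 0) =
      ∑ c : Fin n, ∑ b : Fin n, ∑ a : Fin n, if a < b ∧ b < c then (1:ℝ) else 0 := by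
    rw [Finset.sum_comm]
    rw [Finset.sum_congr rfl (fun b _ => Finset.sum_comm)]
    rw [Finset.sum_comm]
  rw [h3]
  simp only [h1, h2]
  rw [Fin.sum_univ_eq_sum_range (fun c => (c : ℝ) * ((c : ℝ) - 1) / 2) n]
  induction n with
  | zero => simp
  | succ m ih =>
    rw [Finset.sum_range_succ]
    have ih' : ∑ c ∈ Finset.range m, (c : ℝ) * ((c : ℝ) - 1) / 2 =
        (m : ℝ) * (m - 1) * (m - 2) / 6 := by
      clear h1 h2 h3 ih hg
      induction m with
      | zero => simp
      | succ m ih => rw [Finset.sum_range_succ, ih]; push_cast; ring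
    rw [ih']; push_cast; ring

theorem add_lower {n : ℕ} (P : Fin n → EuclideanSpace ℝ (Fin 2)) (hP : GenPos P) (α : ℝ)
    (h1 : Real.pi / 3 < α) (h2 : α ≤ Real.pi / 2) :
    (n : ℝ) * (n - 1) * (n - 2) / 6 + cnt (fun a => Real.pi - α < a) P ≤
      cnt (fun a => a < α) P := by
  rw [ac_cnt, ac_cnt, ← ac_tri n, ← Finset.sum_add_distrib]
  refine Finset.sum_le_sum fun a _ => ?_
  rw [← Finset.sum_add_distrib]
  refine Finset.sum_le_sum fun b _ => ?_
  rw [← Finset.sum_add_distrib]
  refine Finset.sum_le_sum fun c _ => ?_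
  by_cases h : a < b ∧ b < c
  · rw [if_pos h, if_pos h, if_pos h]
    obtain ⟨hab, hbc⟩ := h
    have hac := hab.trans hbc
    have n1 := hP.2 b a c hab.ne' hac.ne hbc.ne
    have n2 := hP.2 a b c hab.ne hbc.ne hac.ne
    have n3 := hP.2 a c b hac.ne hbc.ne' hab.ne
    have p1 := EuclideanGeometry.angle_pos_of_not_collinear n1
    have p2 := EuclideanGeometry.angle_pos_of_not_collinear n2
    have p3 := EuclideanGeometry.angle_pos_of_not_collinear n3
    have hs := EuclideanGeometry.angle_add_angle_add_angle_eq_pi (P c)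
      (hP.1.ne hab.ne')
    refine ac_num _ _ _ α ?_ p1 p2 p3 h1 h2
    rw [EuclideanGeometry.angle_comm (P b) (P c) (P a),
      EuclideanGeometry.angle_comm (P c) (P a) (P b)] at hs
    linarith
  · rw [if_neg h, if_neg h, if_neg h]
    norm_num

end Pool.Agent.Helper585.Acute
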