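import Mathlib
import Pool.Agent.Helper585.Acute.Defs
import Pool.Agent.Helper585.Acute.Defs2

/-!
Right angles are few; two acute angles in each triangle.
-/

set_option autoImplicit false

namespace Pool.Agent.Helper585.Acute

open scoped Classical
open Filter

theorem aux_inner_nonpos (A B C : EuclideanSpace ℝ (Fin 2))
    (h : Real.pi / 2 ≤ EuclideanGeometry.angle A B C) : inner ℝ (A - B) (C - B) ≤ 0 := by
  have h1 := InnerProductGeometry.cos_angle_mul_norm_mul_norm (A - B) (C - B)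
  have h2 : Real.cos (InnerProductGeometry.angle (A - B) (C - B)) ≤ 0 :=
    Real.cos_nonpos_of_pi_div_two_le_of_le h
      ((InnerProductGeometry.angle_le_pi _ _).trans (by linarith [Real.pi_pos]))
  rw [← h1]
  exact mul_nonpos_of_nonpos_of_nonneg h2 (by positivity)

theorem aux_two (A B C : EuclideanSpace ℝ (Fin 2)) (hAB : A ≠ B)
    (h1 : Real.pi / 2 ≤ EuclideanGeometry.angle A B C)
    (h2 : Real.pi / 2 ≤ EuclideanGeometry.angle B A C) : False := by
  have e1 := aux_inner_nonpos A B C h1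
  have e2 := aux_inner_nonpos B A C h2
  have e3 : inner ℝ (A - B) (C - B) + inner ℝ (B - A) (C - A) = ‖A - B‖ ^ 2 := by
    rw [← real_inner_self_eq_norm_sq]
    have : B - A = -(A - B) := by abel
    rw [this, inner_neg_left, ← sub_eq_add_neg, ← inner_sub_right]
    congr 1
    abel
  have e4 : 0 < ‖A - B‖ := norm_pos_iff.2 (sub_ne_zero.2 hAB)
  have e5 : 0 < ‖A - B‖ ^ 2 := by positivity
  linarith

theorem aux_col (A B C D : EuclideanSpace ℝ (Fin 2)) (hAB : A ≠ B) (hCB : C ≠ B)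
    (h1 : inner ℝ (A - B) (C - B) = 0) (h2 : inner ℝ (A - B) (D - B) = 0) :
    Collinear ℝ {B, C, D} := by
  rw [EuclideanSpace.inner_eq_star_dotProduct] at h1 h2
  simp only [dotProduct, Fin.sum_univ_two, Pi.star_apply, star_trivial, PiLp.sub_apply] at h1 h2
  have hu : (A 0 - B 0) ≠ 0 ∨ (A 1 - B 1) ≠ 0 := by
    by_contra hcon
    push Not at hcon
    apply hAB
    ext i
    fin_cases i
    · exact sub_eq_zero.1 hcon.1
    · exact sub_eq_zero.1 hcon.2
  have hv : 0 < (C 0 - B 0) ^ 2 + (C 1 - B 1) ^ 2 := by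
    by_contra hcon
    push Not at hcon
    have a1 : C 0 - B 0 = 0 := by nlinarith [sq_nonneg (C 0 - B 0), sq_nonneg (C 1 - B 1)]
    have a2 : C 1 - B 1 = 0 := by nlinarith [sq_nonneg (C 0 - B 0), sq_nonneg (C 1 - B 1)]
    apply hCB
    ext i
    fin_cases i
    · exact sub_eq_zero.1 a1
    · exact sub_eq_zero.1 a2
  have hdet : (C 0 - B 0) * (D 1 - B 1) = (C 1 - B 1) * (D 0 - B 0) := by
    rcases hu with hu | hu
    · apply mul_left_cancel₀ hu
      linear_combination (D 1 - B 1) * h1 - (C 1 - B 1) * h2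
    · apply mul_left_cancel₀ hu
      linear_combination (C 0 - B 0) * h2 - (D 0 - B 0) * h1
  rw [collinear_iff_of_mem (p₀ := B) (by simp)]
  refine ⟨C - B, ?_⟩
  intro p hp
  simp only [Set.mem_insert_iff, Set.mem_singleton_iff] at hp
  rcases hp with rfl | rfl | rfl
  · exact ⟨0, by simp⟩
  · exact ⟨1, by simp⟩
  · refine ⟨((C 0 - B 0) * (p 0 - B 0) + (C 1 - B 1) * (p 1 - B 1)) /
      ((C 0 - B 0) ^ 2 + (C 1 - B 1) ^ 2), ?_⟩
    ext i
    fin_cases i
    · simp only [vadd_eq_add, PiLp.add_apply, PiLp.smul_apply, PiLp.sub_apply, smul_eq_mul]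
      show p 0 = _ * (C 0 - B 0) + B 0
      have : (((C 0 - B 0) * (p 0 - B 0) + (C 1 - B 1) * (p 1 - B 1)) /
        ((C 0 - B 0) ^ 2 + (C 1 - B 1) ^ 2)) * (C 0 - B 0) = p 0 - B 0 := by
        rw [div_mul_eq_mul_div, div_eq_iff hv.ne']
        linear_combination (C 1 - B 1) * hdet
      rw [this]; ring
    · simp only [vadd_eq_add, PiLp.add_apply, PiLp.smul_apply, PiLp.sub_apply, smul_eq_mul]
      show p 1 = _ * (C 1 - B 1) + B 1
      have : (((C 0 - B 0) * (p 0 - B 0) + (C 1 - B 1) * (p 1 - B 1)) /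
        ((C 0 - B 0) ^ 2 + (C 1 - B 1) ^ 2)) * (C 1 - B 1) = p 1 - B 1 := by
        rw [div_mul_eq_mul_div, div_eq_iff hv.ne']
        linear_combination -(C 0 - B 0) * hdet
      rw [this]; ring

/-- there are at most `n ^ 2` right angles in general position -/
theorem right_le {n : ℕ} (P : Fin n → EuclideanSpace ℝ (Fin 2)) (hP : GenPos P) :
    nonAcute P ≤ cnt (fun a => Real.pi / 2 < a) P + n ^ 2 := by
  have h1 : (Finset.univ.filter fun t : Fin n × Fin n × Fin n =>
    t.1 < t.2.2 ∧ t.2.1 ≠ t.1 ∧ t.2.1 ≠ t.2.2 ∧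
      Real.pi / 2 ≤ EuclideanGeometry.angle (P t.1) (P t.2.1) (P t.2.2)) ⊆
    (Finset.univ.filter fun t : Fin n × Fin n × Fin n =>
    t.1 < t.2.2 ∧ t.2.1 ≠ t.1 ∧ t.2.1 ≠ t.2.2 ∧
      Real.pi / 2 < EuclideanGeometry.angle (P t.1) (P t.2.1) (P t.2.2)) ∪
    (Finset.univ.filter fun t : Fin n × Fin n × Fin n =>
    t.1 < t.2.2 ∧ t.2.1 ≠ t.1 ∧ t.2.1 ≠ t.2.2 ∧
      EuclideanGeometry.angle (P t.1) (P t.2.1) (P t.2.2) = Real.pi / 2) := by
    intro t ht
    rw [Finset.mem_filter] at ht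
    rw [Finset.mem_union, Finset.mem_filter, Finset.mem_filter]
    rcases lt_or_eq_of_le ht.2.2.2.2 with h | h
    · exact Or.inl ⟨ht.1, ht.2.1, ht.2.2.1, ht.2.2.2.1, h⟩
    · exact Or.inr ⟨ht.1, ht.2.1, ht.2.2.1, ht.2.2.2.1, h.symm⟩
  have h2 : (Finset.univ.filter fun t : Fin n × Fin n × Fin n =>
    t.1 < t.2.2 ∧ t.2.1 ≠ t.1 ∧ t.2.1 ≠ t.2.2 ∧
      EuclideanGeometry.angle (P t.1) (P t.2.1) (P t.2.2) = Real.pi / 2).card ≤ n ^ 2 := by
    have h3 : (Finset.univ : Finset (Fin n × Fin n)).card = n ^ 2 := by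
      rw [Finset.card_univ, Fintype.card_prod, Fintype.card_fin]; ring
    rw [← h3]
    refine Finset.card_le_card_of_injOn (fun t => (t.1, t.2.1)) (fun _ _ => Finset.mem_univ _) ?_
    rintro ⟨i, j, k⟩ h ⟨i', j', k'⟩ h' heq
    simp only [Finset.coe_filter, Set.mem_setOf_eq, Finset.mem_univ, true_and] at h h'
    simp only [Prod.mk.injEq] at heq
    obtain ⟨rfl, rfl⟩ := heq
    by_cases hk : k = k'
    · rw [hk]
    · exfalso
      have g1 := (InnerProductGeometry.inner_eq_zero_iff_angle_eq_pi_div_two (P i - P j)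
        (P k - P j)).2 h.2.2.2
      have g2 := (InnerProductGeometry.inner_eq_zero_iff_angle_eq_pi_div_two (P i - P j)
        (P k' - P j)).2 h'.2.2.2
      exact hP.2 j k k' h.2.2.1 hk h'.2.2.1
        (aux_col (P i) (P j) (P k) (P k') (fun e => h.2.1 (hP.1 e).symm)
          (fun e => h.2.2.1 (hP.1 e).symm) g1 g2)
  calc nonAcute P ≤ _ := Finset.card_le_card h1
    _ ≤ _ := Finset.card_union_le _ _
    _ ≤ _ := Nat.add_le_add_left h2 _

/-- every triangle has at least two angles less than a right angle -/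
theorem acute_two {n : ℕ} (P : Fin n → EuclideanSpace ℝ (Fin 2)) (hP : GenPos P) :
    (n : ℝ) * (n - 1) * (n - 2) ≤ 3 * cnt (fun a => a < Real.pi / 2) P := by
  let c : Fin n × Fin n × Fin n → ℝ := fun t => if t.1 < t.2.2 ∧ t.2.1 ≠ t.1 ∧ t.2.1 ≠ t.2.2 ∧
      EuclideanGeometry.angle (P t.1) (P t.2.1) (P t.2.2) < Real.pi / 2 then 1 else 0
  let g : Fin n × Fin n × Fin n → ℝ := fun t => if t.1 ≠ t.2.2 ∧ t.2.1 ≠ t.1 ∧ t.2.1 ≠ t.2.2 ∧
      EuclideanGeometry.angle (P t.1) (P t.2.1) (P t.2.2) < Real.pi / 2 then 1 else 0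
  let d : Fin n × Fin n × Fin n → ℝ := fun t => if t.1 ≠ t.2.2 ∧ t.2.1 ≠ t.1 ∧ t.2.1 ≠ t.2.2
    then 1 else 0
  let e1 : Fin n × Fin n × Fin n ≃ Fin n × Fin n × Fin n :=
    ⟨fun t => (t.2.2, t.2.1, t.1), fun t => (t.2.2, t.2.1, t.1), fun _ => rfl, fun _ => rfl⟩
  let e2 : Fin n × Fin n × Fin n ≃ Fin n × Fin n × Fin n :=
    ⟨fun t => (t.2.1, t.1, t.2.2), fun t => (t.2.1, t.1, t.2.2), fun _ => rfl, fun _ => rfl⟩
  let e3 : Fin n × Fin n × Fin n ≃ Fin n × Fin n × Fin n :=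
    ⟨fun t => (t.1, t.2.2, t.2.1), fun t => (t.1, t.2.2, t.2.1), fun _ => rfl, fun _ => rfl⟩
  have hcnt : (cnt (fun a => a < Real.pi / 2) P : ℝ) = ∑ t, c t := by
    unfold cnt
    rw [Finset.card_filter]
    push_cast
    rfl
  have hg : ∑ t, g t = 2 * ∑ t, c t := by
    have h1 : ∀ t, g t = c t + c (e1 t) := by
      rintro ⟨i, j, k⟩
      show (if i ≠ k ∧ j ≠ i ∧ j ≠ k ∧ EuclideanGeometry.angle (P i) (P j) (P k) < Real.pi / 2
          then (1:ℝ) else 0) =
        (if i < k ∧ j ≠ i ∧ j ≠ k ∧ EuclideanGeometry.angle (P i) (P j) (P k) < Real.pi / 2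
          then (1:ℝ) else 0) +
        (if k < i ∧ j ≠ k ∧ j ≠ i ∧ EuclideanGeometry.angle (P k) (P j) (P i) < Real.pi / 2
          then (1:ℝ) else 0)
      rw [EuclideanGeometry.angle_comm (P k) (P j) (P i)]
      by_cases h : j ≠ i ∧ j ≠ k ∧ EuclideanGeometry.angle (P i) (P j) (P k) < Real.pi / 2
      · obtain ⟨ha, hb, hc⟩ := h
        rcases lt_trichotomy i k with hik | hik | hik
        · rw [if_pos ⟨hik.ne, ha, hb, hc⟩, if_pos ⟨hik, ha, hb, hc⟩, if_neg (fun h => absurd h.1 hik.not_gt)]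
          norm_num
        · rw [if_neg (fun h => h.1 hik), if_neg (fun h => h.1.ne hik), if_neg (fun h => h.1.ne hik.symm)]
          norm_num
        · rw [if_pos ⟨hik.ne', ha, hb, hc⟩, if_neg (fun h => absurd h.1 hik.not_gt), if_pos ⟨hik, hb, ha, hc⟩]
          norm_num
      · rw [if_neg (fun h' => h h'.2), if_neg (fun h' => h h'.2),
          if_neg (fun h' => h ⟨h'.2.2.1, h'.2.1, h'.2.2.2⟩)]
        norm_num
    have h2 : ∑ t, c (e1 t) = ∑ t, c t := Equiv.sum_comp e1 c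
    rw [Finset.sum_congr rfl fun t _ => h1 t, Finset.sum_add_distrib, h2]
    ring
  have hd : ∑ t, d t = (n : ℝ) * (n - 1) * (n - 2) := by
    rw [Fintype.sum_prod_type]
    have h1 : ∀ i : Fin n, ∑ y : Fin n × Fin n, d (i, y) = ((n:ℝ) - 1) * (n - 2) := by
      intro i
      rw [Fintype.sum_prod_type]
      have h2 : ∀ j : Fin n, ∑ k : Fin n, d (i, j, k) =
          ((n:ℝ) - 2) * (1 - if j = i then 1 else 0) := by
        intro j
        have h3 : ∀ k : Fin n, d (i, j, k) =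
            (1 - if j = i then 1 else 0) * (1 - (if k = i then 1 else 0) - (if k = j then 1 else 0)) := by
          intro k
          show (if i ≠ k ∧ j ≠ i ∧ j ≠ k then (1:ℝ) else 0) = _
          by_cases hji : j = i
          · rw [if_neg (fun h => h.2.1 hji), if_pos hji]; ring
          · by_cases hki : k = i
            · have hkj : k ≠ j := fun h => hji (h ▸ hki)
              rw [if_neg (fun h => h.1 hki.symm), if_neg hji, if_pos hki, if_neg hkj]; ring
            · by_cases hkj : k = j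
              · rw [if_neg (fun h => h.2.2 hkj.symm), if_neg hji, if_neg hki, if_pos hkj]; ring
              · rw [if_pos ⟨fun h => hki h.symm, hji, fun h => hkj h.symm⟩, if_neg hji, if_neg hki,
                  if_neg hkj]; ring
        rw [Finset.sum_congr rfl fun k _ => h3 k, ← Finset.mul_sum, Finset.sum_sub_distrib,
          Finset.sum_sub_distrib]
        simp only [Finset.sum_const, Finset.card_univ, Fintype.card_fin, Finset.sum_ite_eq',
          Finset.mem_univ, if_true, nsmul_eq_mul, mul_one]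
        ring
      rw [Finset.sum_congr rfl fun j _ => h2 j, ← Finset.mul_sum, Finset.sum_sub_distrib]
      simp only [Finset.sum_const, Finset.card_univ, Fintype.card_fin, Finset.sum_ite_eq',
        Finset.mem_univ, if_true, nsmul_eq_mul, mul_one]
      ring
    rw [Finset.sum_congr rfl fun i _ => h1 i]
    simp only [Finset.sum_const, Finset.card_univ, Fintype.card_fin, nsmul_eq_mul]
    ring
  have hkey : ∀ t, 2 * d t ≤ g t + g (e2 t) + g (e3 t) := by
    rintro ⟨i, j, k⟩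
    show 2 * (if i ≠ k ∧ j ≠ i ∧ j ≠ k then (1:ℝ) else 0) ≤
      (if i ≠ k ∧ j ≠ i ∧ j ≠ k ∧ EuclideanGeometry.angle (P i) (P j) (P k) < Real.pi / 2
          then (1:ℝ) else 0) +
      (if j ≠ k ∧ i ≠ j ∧ i ≠ k ∧ EuclideanGeometry.angle (P j) (P i) (P k) < Real.pi / 2
          then (1:ℝ) else 0) +
      (if i ≠ j ∧ k ≠ i ∧ k ≠ j ∧ EuclideanGeometry.angle (P i) (P k) (P j) < Real.pi / 2
          then (1:ℝ) else 0)
    by_cases h : i ≠ k ∧ j ≠ i ∧ j ≠ k
    · obtain ⟨hik, hji, hjk⟩ := h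
      rw [if_pos ⟨hik, hji, hjk⟩]
      have p1 : P i ≠ P j := fun e => hji (hP.1 e).symm
      have p2 : P k ≠ P j := fun e => hjk (hP.1 e).symm
      have p3 : P k ≠ P i := fun e => hik (hP.1 e).symm
      have q1 := aux_two (P i) (P j) (P k) p1
      have q2 := aux_two (P k) (P j) (P i) p2
      have q3 := aux_two (P k) (P i) (P j) p3
      rw [EuclideanGeometry.angle_comm (P k) (P j) (P i),
        EuclideanGeometry.angle_comm (P j) (P k) (P i)] at q2
      rw [EuclideanGeometry.angle_comm (P k) (P i) (P j)] at q3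
      by_cases a1 : EuclideanGeometry.angle (P i) (P j) (P k) < Real.pi / 2
      · rw [if_pos ⟨hik, hji, hjk, a1⟩]
        by_cases a2 : EuclideanGeometry.angle (P j) (P i) (P k) < Real.pi / 2
        · rw [if_pos ⟨hjk, hji.symm, hik, a2⟩]
          split_ifs <;> norm_num
        · have a3 : EuclideanGeometry.angle (P i) (P k) (P j) < Real.pi / 2 := by
            by_contra a3
            exact q3 (not_lt.1 a2) (not_lt.1 a3)
          rw [if_pos (⟨hji.symm, hik.symm, hjk.symm, a3⟩ : i ≠ j ∧ k ≠ i ∧ k ≠ j ∧ _)]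
          split_ifs <;> norm_num
      · have a2 : EuclideanGeometry.angle (P j) (P i) (P k) < Real.pi / 2 := by
          by_contra a2
          exact q1 (not_lt.1 a1) (not_lt.1 a2)
        have a3 : EuclideanGeometry.angle (P i) (P k) (P j) < Real.pi / 2 := by
          by_contra a3
          exact q2 (not_lt.1 a1) (not_lt.1 a3)
        rw [if_pos (⟨hjk, hji.symm, hik, a2⟩ : j ≠ k ∧ i ≠ j ∧ i ≠ k ∧ _),
          if_pos (⟨hji.symm, hik.symm, hjk.symm, a3⟩ : i ≠ j ∧ k ≠ i ∧ k ≠ j ∧ _)]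
        split_ifs <;> norm_num
    · rw [if_neg h]
      have := fun (p : Prop) [Decidable p] => (show (0:ℝ) ≤ if p then 1 else 0 by split_ifs <;> norm_num)
      have b1 := this (i ≠ k ∧ j ≠ i ∧ j ≠ k ∧ EuclideanGeometry.angle (P i) (P j) (P k) < Real.pi / 2)
      have b2 := this (j ≠ k ∧ i ≠ j ∧ i ≠ k ∧ EuclideanGeometry.angle (P j) (P i) (P k) < Real.pi / 2)
      have b3 := this (i ≠ j ∧ k ≠ i ∧ k ≠ j ∧ EuclideanGeometry.angle (P i) (P k) (P j) < Real.pi / 2)
      linarith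
  have hsum : ∑ t, 2 * d t ≤ ∑ t, (g t + g (e2 t) + g (e3 t)) :=
    Finset.sum_le_sum fun t _ => hkey t
  rw [← Finset.mul_sum, Finset.sum_add_distrib, Finset.sum_add_distrib, Equiv.sum_comp e2 g,
    Equiv.sum_comp e3 g, hd, hg] at hsum
  rw [hcnt]
  linarith

end Pool.Agent.Helper585.Acute
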