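import Mathlib
import Pool.Agent.Helper585.Acute.Defs2

/-!
Goodman bound and rotated frames.
-/

set_option autoImplicit false

namespace Pool.Agent.Helper585.Acute

open scoped Classical
open Filter

/-- ordered monochromatic triangles -/
noncomputable def mono {V : Type} [Fintype V] (c : V → V → Bool) : ℕ :=
  (Finset.univ.filter fun t : V × V × V =>
    t.1 ≠ t.2.1 ∧ t.1 ≠ t.2.2 ∧ t.2.1 ≠ t.2.2 ∧ c t.1 t.2.1 = c t.1 t.2.2 ∧
      c t.1 t.2.1 = c t.2.1 t.2.2).card

/-- colour of a pair with respect to the orthogonal frame rotated by `φ`: is the direction in the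
first or third quadrant of the rotated frame -/
noncomputable def rc (φ : ℝ) (p q : EuclideanSpace ℝ (Fin 2)) : Bool :=
  decide (0 ≤ ((q 0 - p 0) * Real.cos φ + (q 1 - p 1) * Real.sin φ) *
    ((q 1 - p 1) * Real.cos φ - (q 0 - p 0) * Real.sin φ))

/-- auxiliary: the colour as a sign. -/
noncomputable def goodman_s {n : ℕ} (c : Fin n → Fin n → Bool) (x y : Fin n) : ℝ :=
  if x = y then 0 else if c x y = true then 1 else -1

/-- auxiliary: the indicator of `x ≠ y`. -/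
noncomputable def goodman_u {n : ℕ} (x y : Fin n) : ℝ := if x = y then 0 else 1

theorem goodman_pt {n : ℕ} (c : Fin n → Fin n → Bool) (x y z : Fin n) :
    4 * (if (x ≠ y ∧ x ≠ z ∧ y ≠ z ∧ c x y = c x z ∧ c x y = c y z) then (1 : ℝ) else 0) =
      goodman_u x y * goodman_u x z * goodman_u y z +
        goodman_s c x y * goodman_s c x z * goodman_u y z +
        goodman_s c x y * goodman_s c y z * goodman_u x z +
        goodman_s c x z * goodman_s c y z * goodman_u x y := by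
  unfold goodman_u goodman_s
  by_cases h1 : x = y
  · simp [h1]
  by_cases h2 : x = z
  · simp [h2]
  by_cases h3 : y = z
  · simp [h3]
  cases hxy : c x y <;> cases hxz : c x z <;> cases hyz : c y z <;> simp [h1, h2, h3] <;> norm_num

theorem goodman_sum1 {n : ℕ} (x : Fin n) : ∑ y, goodman_u x y = (n : ℝ) - 1 := by
  have h : ∀ y, goodman_u x y = 1 - (if x = y then (1 : ℝ) else 0) := by
    intro y
    unfold goodman_u
    split_ifs <;> norm_num
  simp only [h]
  rw [Finset.sum_sub_distrib, Finset.sum_ite_eq Finset.univ x (fun _ => (1 : ℝ))]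
  simp

theorem goodman_sum2 {n : ℕ} (x y : Fin n) :
    ∑ z, goodman_u x y * goodman_u x z * goodman_u y z = goodman_u x y * ((n : ℝ) - 2) := by
  have h : ∀ z, goodman_u x y * goodman_u x z * goodman_u y z =
      goodman_u x y * (1 - (if x = z then (1 : ℝ) else 0) - (if y = z then (1 : ℝ) else 0)) := by
    intro z
    unfold goodman_u
    by_cases h1 : x = y
    · simp [h1]
    by_cases h2 : x = z
    · have h3 : ¬ y = z := fun h => h1 (h2.trans h.symm)
      simp [h2, h3]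
    by_cases h3 : y = z
    · simp [h3]
    simp [h1, h2, h3]
  simp only [h]
  rw [← Finset.mul_sum, Finset.sum_sub_distrib, Finset.sum_sub_distrib,
    Finset.sum_ite_eq Finset.univ x (fun _ => (1 : ℝ)),
    Finset.sum_ite_eq Finset.univ y (fun _ => (1 : ℝ))]
  simp
  left
  ring

theorem goodman_sum3 {n : ℕ} (c : Fin n → Fin n → Bool) (x : Fin n) :
    ∑ y, ∑ z, goodman_s c x y * goodman_s c x z * goodman_u y z =
      (∑ y, goodman_s c x y) ^ 2 - ((n : ℝ) - 1) := by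
  have h : ∀ y z, goodman_s c x y * goodman_s c x z * goodman_u y z =
      goodman_s c x y * goodman_s c x z -
        (if y = z then goodman_s c x y * goodman_s c x z else 0) := by
    intro y z
    unfold goodman_u
    split_ifs <;> ring
  simp only [h]
  have h2 : ∀ y, ∑ z, (goodman_s c x y * goodman_s c x z -
      (if y = z then goodman_s c x y * goodman_s c x z else 0)) =
      ∑ z, goodman_s c x y * goodman_s c x z - goodman_u x y := by
    intro y
    rw [Finset.sum_sub_distrib,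
      Finset.sum_ite_eq Finset.univ y (fun z => goodman_s c x y * goodman_s c x z)]
    congr 1
    rw [if_pos (Finset.mem_univ y)]
    unfold goodman_s goodman_u
    split_ifs <;> norm_num
  simp only [h2]
  rw [Finset.sum_sub_distrib, goodman_sum1, ← Finset.sum_mul_sum, sq]





theorem goodman {n : ℕ} (c : Fin n → Fin n → Bool) (hc : ∀ x y, c x y = c y x) :
    (n : ℝ) * (n - 1) * (n - 5) ≤ 4 * mono c := by
  have hs : ∀ x y, goodman_s c x y = goodman_s c y x := by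
    intro x y
    unfold goodman_s
    rw [hc x y]
    by_cases h : x = y
    · rw [if_pos h, if_pos h.symm]
    · have h2 : ¬ y = x := fun h' => h h'.symm
      rw [if_neg h, if_neg h2]
  have hm : (mono c : ℝ) = ∑ x, ∑ y, ∑ z,
      (if (x ≠ y ∧ x ≠ z ∧ y ≠ z ∧ c x y = c x z ∧ c x y = c y z) then (1 : ℝ) else 0) := by
    unfold mono
    rw [Finset.card_filter, Nat.cast_sum, Fintype.sum_prod_type]
    refine Finset.sum_congr rfl fun x _ => ?_
    rw [Fintype.sum_prod_type]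
    refine Finset.sum_congr rfl fun y _ => Finset.sum_congr rfl fun z _ => ?_
    rw [Nat.cast_ite, Nat.cast_one, Nat.cast_zero]
    by_cases hcond : (x ≠ y ∧ x ≠ z ∧ y ≠ z ∧ c x y = c x z ∧ c x y = c y z)
    · exact (if_pos hcond).trans (if_pos hcond).symm
    · exact (if_neg hcond).trans (if_neg hcond).symm
  obtain ⟨A, hA⟩ : ∃ A, A = ∑ x, ∑ y, ∑ z,
    goodman_s c x y * goodman_s c x z * goodman_u y z := ⟨_, rfl⟩
  have hA2 : ∑ x, ∑ y, ∑ z, goodman_s c x y * goodman_s c y z * goodman_u x z = A := by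
    rw [Finset.sum_comm, hA]
    refine Finset.sum_congr rfl fun x _ => Finset.sum_congr rfl fun y _ =>
      Finset.sum_congr rfl fun z _ => ?_
    rw [hs y x]
  have hA3 : ∑ x, ∑ y, ∑ z, goodman_s c x z * goodman_s c y z * goodman_u x y = A := by
    have e1 : ∀ x : Fin n, ∑ y, ∑ z, goodman_s c x z * goodman_s c y z * goodman_u x y =
        ∑ z, ∑ y, goodman_s c x z * goodman_s c y z * goodman_u x y := fun x => Finset.sum_comm
    simp only [e1]
    rw [Finset.sum_comm, hA]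
    refine Finset.sum_congr rfl fun x _ => Finset.sum_congr rfl fun y _ =>
      Finset.sum_congr rfl fun z _ => ?_
    rw [hs y x, hs z x]
  have hA1 : -((n : ℝ) * (n - 1)) ≤ A := by
    rw [hA]
    have e1 : -((n : ℝ) * (n - 1)) = ∑ _x : Fin n, -((n : ℝ) - 1) := by
      rw [Finset.sum_const, Finset.card_univ, Fintype.card_fin, nsmul_eq_mul]
      ring
    rw [e1]
    refine Finset.sum_le_sum fun x _ => ?_
    rw [goodman_sum3]
    have := sq_nonneg (∑ y, goodman_s c x y)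
    linarith
  have h0 : ∑ x : Fin n, ∑ y : Fin n, ∑ z : Fin n,
      goodman_u x y * goodman_u x z * goodman_u y z = (n : ℝ) * (n - 1) * (n - 2) := by
    simp only [goodman_sum2]
    have e1 : ∀ x : Fin n, ∑ y, goodman_u x y * ((n : ℝ) - 2) = ((n : ℝ) - 1) * (n - 2) := by
      intro x
      rw [← Finset.sum_mul, goodman_sum1]
    simp only [e1]
    rw [Finset.sum_const, Finset.card_univ, Fintype.card_fin, nsmul_eq_mul]
    ring
  have h4 : 4 * (mono c : ℝ) = (n : ℝ) * (n - 1) * (n - 2) + A + A + A := by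
    rw [hm, ← h0]
    nth_rw 3 [← hA3]
    nth_rw 2 [← hA2]
    rw [hA]
    simp only [Finset.mul_sum, goodman_pt, Finset.sum_add_distrib]
  rw [h4]
  nlinarith

theorem rco_alg (s1 t1 s2 t2 : ℝ) (h1 : 0 ≤ s1 * t1) (h2 : 0 ≤ s2 * t2)
    (h3 : 0 ≤ (s1 + s2) * (t1 + t2)) :
    0 ≤ s1 * s2 + t1 * t2 ∨ s1 * (s1 + s2) + t1 * (t1 + t2) ≤ 0 ∨
      s2 * (s1 + s2) + t2 * (t1 + t2) ≤ 0 := by
  rcases mul_nonneg_iff.1 h1 with ⟨a, b⟩ | ⟨a, b⟩ <;>
  rcases mul_nonneg_iff.1 h2 with ⟨c, d⟩ | ⟨c, d⟩ <;>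
  rcases mul_nonneg_iff.1 h3 with ⟨e, f⟩ | ⟨e, f⟩
  · left; exact add_nonneg (mul_nonneg a c) (mul_nonneg b d)
  · left; exact add_nonneg (mul_nonneg a c) (mul_nonneg b d)
  · right; right; exact add_nonpos (mul_nonpos_of_nonpos_of_nonneg c e) (mul_nonpos_of_nonpos_of_nonneg d f)
  · right; left; exact add_nonpos (mul_nonpos_of_nonneg_of_nonpos a e) (mul_nonpos_of_nonneg_of_nonpos b f)
  · right; left; exact add_nonpos (mul_nonpos_of_nonpos_of_nonneg a e) (mul_nonpos_of_nonpos_of_nonneg b f)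
  · right; right; exact add_nonpos (mul_nonpos_of_nonneg_of_nonpos c e) (mul_nonpos_of_nonneg_of_nonpos d f)
  · left; exact add_nonneg (mul_nonneg_of_nonpos_of_nonpos a c) (mul_nonneg_of_nonpos_of_nonpos b d)
  · left; exact add_nonneg (mul_nonneg_of_nonpos_of_nonpos a c) (mul_nonneg_of_nonpos_of_nonpos b d)

theorem rco_angle (x y z : EuclideanSpace ℝ (Fin 2))
    (h : (x 0 - y 0) * (z 0 - y 0) + (x 1 - y 1) * (z 1 - y 1) ≤ 0) :
    Real.pi / 2 ≤ EuclideanGeometry.angle x y z := by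
  unfold EuclideanGeometry.angle InnerProductGeometry.angle
  have e : inner ℝ (x -ᵥ y) (z -ᵥ y) = (x 0 - y 0) * (z 0 - y 0) + (x 1 - y 1) * (z 1 - y 1) := by
    rw [PiLp.inner_apply, Fin.sum_univ_two]
    simp [mul_comm]
  have h2 : inner ℝ (x -ᵥ y) (z -ᵥ y) / (‖x -ᵥ y‖ * ‖z -ᵥ y‖) ≤ 0 := by
    apply div_nonpos_of_nonpos_of_nonneg _ (by positivity)
    rw [e]
    exact h
  unfold Real.arccos
  have h3 := Real.arcsin_nonpos.2 h2
  linarith

theorem rco_final (c s : ℝ) (hcs : c ^ 2 + s ^ 2 = 1) (x1 y1 x2 y2 : ℝ)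
    (hmain : 0 ≤ (x1 * c + y1 * s) * (x2 * c + y2 * s) + (y1 * c - x1 * s) * (y2 * c - x2 * s) ∨
      (x1 * c + y1 * s) * ((x1 * c + y1 * s) + (x2 * c + y2 * s)) + (y1 * c - x1 * s) * ((y1 * c - x1 * s) + (y2 * c - x2 * s)) ≤ 0 ∨
      (x2 * c + y2 * s) * ((x1 * c + y1 * s) + (x2 * c + y2 * s)) + (y2 * c - x2 * s) * ((y1 * c - x1 * s) + (y2 * c - x2 * s)) ≤ 0) :
    0 ≤ x1 * x2 + y1 * y2 ∨ x1 * (x1 + x2) + y1 * (y1 + y2) ≤ 0 ∨ x2 * (x1 + x2) + y2 * (y1 + y2) ≤ 0 := by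
  have e1 : (x1 * c + y1 * s) * (x2 * c + y2 * s) + (y1 * c - x1 * s) * (y2 * c - x2 * s) = x1 * x2 + y1 * y2 := by
    linear_combination (x1 * x2 + y1 * y2) * hcs
  have e2 : (x1 * c + y1 * s) * ((x1 * c + y1 * s) + (x2 * c + y2 * s)) + (y1 * c - x1 * s) * ((y1 * c - x1 * s) + (y2 * c - x2 * s)) = x1 * (x1 + x2) + y1 * (y1 + y2) := by
    linear_combination (x1 * (x1 + x2) + y1 * (y1 + y2)) * hcs
  have e3 : (x2 * c + y2 * s) * ((x1 * c + y1 * s) + (x2 * c + y2 * s)) + (y2 * c - x2 * s) * ((y1 * c - x1 * s) + (y2 * c - x2 * s)) = x2 * (x1 + x2) + y2 * (y1 + y2) := by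
    linear_combination (x2 * (x1 + x2) + y2 * (y1 + y2)) * hcs
  rw [e1, e2, e3] at hmain
  exact hmain

theorem rc_symm (φ : ℝ) (p q : EuclideanSpace ℝ (Fin 2)) : rc φ p q = rc φ q p := by
  unfold rc
  congr 1
  rw [show ((q 0 - p 0) * Real.cos φ + (q 1 - p 1) * Real.sin φ) *
    ((q 1 - p 1) * Real.cos φ - (q 0 - p 0) * Real.sin φ) = ((p 0 - q 0) * Real.cos φ + (p 1 - q 1) * Real.sin φ) *
    ((p 1 - q 1) * Real.cos φ - (p 0 - q 0) * Real.sin φ) by ring]

/-- a monochromatic triangle has a non-acute angle -/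
theorem rc_obtuse (φ : ℝ) (p q r : EuclideanSpace ℝ (Fin 2)) (hpq : p ≠ q) (hqr : q ≠ r)
    (hpr : p ≠ r) (h1 : rc φ p q = rc φ p r) (h2 : rc φ p q = rc φ q r) :
    Real.pi / 2 ≤ EuclideanGeometry.angle p q r ∨ Real.pi / 2 ≤ EuclideanGeometry.angle q p r ∨
      Real.pi / 2 ≤ EuclideanGeometry.angle p r q := by
  have hcs : Real.cos φ ^ 2 + Real.sin φ ^ 2 = 1 := Real.cos_sq_add_sin_sq φ
  obtain ⟨c, hc⟩ : ∃ c, c = Real.cos φ := ⟨_, rfl⟩
  obtain ⟨s, hs⟩ : ∃ s, s = Real.sin φ := ⟨_, rfl⟩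
  unfold rc at h1 h2
  rw [← hc, ← hs] at h1 h2 hcs
  rw [decide_eq_decide] at h1 h2
  have hmain := rco_final c s hcs (q 0 - p 0) (q 1 - p 1) (r 0 - q 0) (r 1 - q 1) (by
    by_cases hcol : 0 ≤ ((q 0 - p 0) * c + (q 1 - p 1) * s) * ((q 1 - p 1) * c - (q 0 - p 0) * s)
    · have k1 := h1.1 hcol
      have k2 := h2.1 hcol
      apply rco_alg _ _ _ _ hcol k2
      have e : ((q 0 - p 0) * c + (q 1 - p 1) * s + ((r 0 - q 0) * c + (r 1 - q 1) * s)) *
          ((q 1 - p 1) * c - (q 0 - p 0) * s + ((r 1 - q 1) * c - (r 0 - q 0) * s)) =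
          ((r 0 - p 0) * c + (r 1 - p 1) * s) * ((r 1 - p 1) * c - (r 0 - p 0) * s) := by ring
      rw [e]
      exact k1
    · have k1 : ¬ _ := fun hh => hcol (h1.2 hh)
      have k2 : ¬ _ := fun hh => hcol (h2.2 hh)
      rw [not_le] at hcol k1 k2
      have := rco_alg ((q 0 - p 0) * c + (q 1 - p 1) * s) (-((q 1 - p 1) * c - (q 0 - p 0) * s))
        ((r 0 - q 0) * c + (r 1 - q 1) * s) (-((r 1 - q 1) * c - (r 0 - q 0) * s))
        (by linarith) (by linarith) (by
          have e : ((q 0 - p 0) * c + (q 1 - p 1) * s + ((r 0 - q 0) * c + (r 1 - q 1) * s)) *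
            (-((q 1 - p 1) * c - (q 0 - p 0) * s) + -((r 1 - q 1) * c - (r 0 - q 0) * s)) =
            -(((r 0 - p 0) * c + (r 1 - p 1) * s) * ((r 1 - p 1) * c - (r 0 - p 0) * s)) := by ring
          rw [e]
          linarith)
      rcases this with h | h | h
      · left; linarith
      · right; left; linarith
      · right; right; linarith)
  rcases hmain with h | h | h
  · left
    apply rco_angle
    have e : (p 0 - q 0) * (r 0 - q 0) + (p 1 - q 1) * (r 1 - q 1) =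
      -((q 0 - p 0) * (r 0 - q 0) + (q 1 - p 1) * (r 1 - q 1)) := by ring
    rw [e]; linarith
  · right; left
    apply rco_angle
    have e : (q 0 - p 0) * (r 0 - p 0) + (q 1 - p 1) * (r 1 - p 1) =
      (q 0 - p 0) * (q 0 - p 0 + (r 0 - q 0)) + (q 1 - p 1) * (q 1 - p 1 + (r 1 - q 1)) := by ring
    rw [e]; exact h
  · right; right
    apply rco_angle
    have e : (p 0 - r 0) * (q 0 - r 0) + (p 1 - r 1) * (q 1 - r 1) =
      (r 0 - q 0) * (q 0 - p 0 + (r 0 - q 0)) + (r 1 - q 1) * (q 1 - p 1 + (r 1 - q 1)) := by ring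
    rw [e]; exact h

theorem rc_unique_mult (X δ : ℝ) (h0 : 0 ≤ δ) (h : Real.sin X * Real.sin (X + δ) ≤ 0) :
    ∃ k : ℤ, X ≤ k * Real.pi ∧ k * Real.pi ≤ X + δ := by
  have hpi := Real.pi_pos
  refine ⟨⌈X / Real.pi⌉, ?_, ?_⟩
  · have := Int.le_ceil (X / Real.pi)
    rwa [div_le_iff₀ hpi] at this
  · by_contra hcon
    rw [not_le] at hcon
    have h1 := Int.ceil_lt_add_one (X / Real.pi)
    set k := ⌈X / Real.pi⌉ with hk
    have h2 : ((k - 1 : ℤ) : ℝ) * Real.pi < X := by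
      push_cast
      have : (k : ℝ) - 1 < X / Real.pi := by linarith
      rwa [lt_div_iff₀ hpi] at this
    have hpos : ∀ Y : ℝ, X ≤ Y → Y ≤ X + δ → 0 < (-1 : ℝ) ^ (k - 1) * Real.sin Y := by
      intro Y hY1 hY2
      rw [← Real.sin_sub_int_mul_pi]
      apply Real.sin_pos_of_pos_of_lt_pi
      · linarith
      · push_cast
        linarith
    have h3 := mul_pos (hpos X le_rfl (by linarith)) (hpos (X + δ) (by linarith) le_rfl)
    have h4 : (-1 : ℝ) ^ (k - 1) * Real.sin X * ((-1 : ℝ) ^ (k - 1) * Real.sin (X + δ))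
        = ((-1 : ℝ) ^ (k - 1) * (-1 : ℝ) ^ (k - 1)) * (Real.sin X * Real.sin (X + δ)) := by ring
    have h5 : (-1 : ℝ) ^ (k - 1) * (-1 : ℝ) ^ (k - 1) = 1 := by
      rw [← mul_zpow]
      simp
    rw [h4, h5, one_mul] at h3
    linarith

theorem rc_unique_fin (M : ℕ) (hM : 1 ≤ M) (C δ : ℝ) (h0 : 0 ≤ δ) (hδ : δ < Real.pi / M)
    (s s' : ℕ) (hs : s < M) (hs' : s' < M)
    (h : Real.sin (C - s * (Real.pi / M)) * Real.sin (C - s * (Real.pi / M) + δ) ≤ 0)
    (h' : Real.sin (C - s' * (Real.pi / M)) * Real.sin (C - s' * (Real.pi / M) + δ) ≤ 0) :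
    s = s' := by
  have hpi := Real.pi_pos
  have hM0 : (0 : ℝ) < M := by exact_mod_cast hM
  obtain ⟨k, k1, k2⟩ := rc_unique_mult _ _ h0 h
  obtain ⟨k', k1', k2'⟩ := rc_unique_mult _ _ h0 h'
  have hD : ((((k - k') * M - ((s' : ℤ) - s) : ℤ)) : ℝ) * (Real.pi / M)
      = (k * Real.pi - (C - s * (Real.pi / M))) - (k' * Real.pi - (C - s' * (Real.pi / M))) := by
    push_cast
    field_simp
    ring
  have hq : 0 < Real.pi / M := by positivity
  have hD1 : ((((k - k') * M - ((s' : ℤ) - s) : ℤ)) : ℝ) < 1 := by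
    by_contra hc
    rw [not_lt] at hc
    have := mul_le_mul_of_nonneg_right hc hq.le
    linarith
  have hD2 : -1 < ((((k - k') * M - ((s' : ℤ) - s) : ℤ)) : ℝ) := by
    by_contra hc
    rw [not_lt] at hc
    have := mul_le_mul_of_nonneg_right hc hq.le
    linarith
  have hD1' : (k - k') * M - ((s' : ℤ) - s) < 1 := by exact_mod_cast hD1
  have hD2' : -1 < (k - k') * M - ((s' : ℤ) - s) := by exact_mod_cast hD2
  have hD0 : (k - k') * M = (s' : ℤ) - s := by omega
  have hMz : (1 : ℤ) ≤ M := by exact_mod_cast hM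
  have hsz : (s : ℤ) < M := by exact_mod_cast hs
  have hsz' : (s' : ℤ) < M := by exact_mod_cast hs'
  rcases lt_trichotomy (k - k') 0 with hk | hk | hk
  · exfalso
    have : (k - k') * (M : ℤ) ≤ -1 * M := mul_le_mul_of_nonneg_right (by omega) (by omega)
    omega
  · rw [hk, zero_mul] at hD0
    omega
  · exfalso
    have : 1 * (M : ℤ) ≤ (k - k') * M := mul_le_mul_of_nonneg_right (by omega) (by omega)
    omega

theorem rc_unique_rc (φ : ℝ) (x y : EuclideanSpace ℝ (Fin 2)) (hxy : x ≠ y) :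
    rc φ x y = true ↔
      0 ≤ Real.sin (2 * (Complex.arg ⟨y 0 - x 0, y 1 - x 1⟩ - φ)) := by
  have hw : (⟨y 0 - x 0, y 1 - x 1⟩ : ℂ) ≠ 0 := by
    intro h
    apply hxy
    have h1 : y 0 - x 0 = 0 := congrArg Complex.re h
    have h2 : y 1 - x 1 = 0 := congrArg Complex.im h
    ext i
    fin_cases i
    · show x 0 = y 0
      linarith
    · show x 1 = y 1
      linarith
  obtain ⟨w, hwe⟩ : ∃ w : ℂ, w = ⟨y 0 - x 0, y 1 - x 1⟩ := ⟨_, rfl⟩
  rw [← hwe] at hw ⊢
  have e0 : y 0 - x 0 = ‖w‖ * Real.cos w.arg := by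
    rw [Complex.norm_mul_cos_arg, hwe]
  have e1 : y 1 - x 1 = ‖w‖ * Real.sin w.arg := by
    rw [Complex.norm_mul_sin_arg, hwe]
  unfold rc
  rw [decide_eq_true_iff, e0, e1]
  have e2 : (‖w‖ * Real.cos w.arg * Real.cos φ + ‖w‖ * Real.sin w.arg * Real.sin φ) *
      (‖w‖ * Real.sin w.arg * Real.cos φ - ‖w‖ * Real.cos w.arg * Real.sin φ)
      = ‖w‖ ^ 2 / 2 * Real.sin (2 * (w.arg - φ)) := by
    rw [Real.sin_two_mul, Real.sin_sub, Real.cos_sub]
    ring
  rw [e2]
  have hpos : 0 < ‖w‖ ^ 2 / 2 := by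
    have := norm_pos_iff.2 hw
    positivity
  constructor
  · intro h
    by_contra hc
    rw [not_le] at hc
    have := mul_neg_of_pos_of_neg hpos hc
    linarith
  · intro h
    exact mul_nonneg hpos.le h

/-- a nearly right angle has its two sides of the same colour for at most one of the frames -/
theorem rc_unique (M : ℕ) (hM : 1 ≤ M) (p q r : EuclideanSpace ℝ (Fin 2)) (hpq : p ≠ q)
    (hqr : q ≠ r) (h1 : Real.pi / 2 ≤ EuclideanGeometry.angle p q r)
    (h2 : EuclideanGeometry.angle p q r < Real.pi / 2 + Real.pi / (2 * M)) (s s' : ℕ) (hs : s < M)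
    (hs' : s' < M) (h3 : rc (s * (Real.pi / (2 * M))) q p = rc (s * (Real.pi / (2 * M))) q r)
    (h4 : rc (s' * (Real.pi / (2 * M))) q p = rc (s' * (Real.pi / (2 * M))) q r) : s = s' := by
  have hpi := Real.pi_pos
  have hM0 : (0 : ℝ) < M := by exact_mod_cast hM
  obtain ⟨θ, hθ⟩ : ∃ θ, θ = EuclideanGeometry.angle p q r := ⟨_, rfl⟩
  obtain ⟨u, hu⟩ : ∃ u : ℂ, u = ⟨p 0 - q 0, p 1 - q 1⟩ := ⟨_, rfl⟩
  obtain ⟨v, hv⟩ : ∃ v : ℂ, v = ⟨r 0 - q 0, r 1 - q 1⟩ := ⟨_, rfl⟩
  have hr1 := fun φ => rc_unique_rc φ q p hpq.symm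
  have hr2 := fun φ => rc_unique_rc φ q r hqr
  rw [← hu] at hr1
  rw [← hv] at hr2
  rw [← hθ] at h1 h2
  -- the angle
  have hu0 : u.re = p 0 - q 0 := by rw [hu]
  have hu1 : u.im = p 1 - q 1 := by rw [hu]
  have hv0 : v.re = r 0 - q 0 := by rw [hv]
  have hv1 : v.im = r 1 - q 1 := by rw [hv]
  have hnu : ‖p -ᵥ q‖ = ‖u‖ := by
    rw [EuclideanSpace.norm_eq, Complex.norm_eq_sqrt_sq_add_sq, Fin.sum_univ_two, hu0, hu1]
    simp [Real.norm_eq_abs, sq_abs]
  have hnv : ‖r -ᵥ q‖ = ‖v‖ := by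
    rw [EuclideanSpace.norm_eq, Complex.norm_eq_sqrt_sq_add_sq, Fin.sum_univ_two, hv0, hv1]
    simp [Real.norm_eq_abs, sq_abs]
  have hin : inner ℝ (p -ᵥ q) (r -ᵥ q) = u.re * v.re + u.im * v.im := by
    rw [PiLp.inner_apply, Fin.sum_univ_two, hu0, hu1, hv0, hv1]
    simp
    ring
  have hup : 0 < ‖u‖ := by
    rw [← hnu, norm_pos_iff]
    intro h
    exact hpq (vsub_eq_zero_iff_eq.1 h)
  have hvp : 0 < ‖v‖ := by
    rw [← hnv, norm_pos_iff]
    intro h
    exact hqr (vsub_eq_zero_iff_eq.1 h).symm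
  have hcos : Real.cos θ = Real.cos (u.arg - v.arg) := by
    have h5 : Real.cos θ * (‖u‖ * ‖v‖) = u.re * v.re + u.im * v.im := by
      rw [← hin, ← hnu, ← hnv, hθ]
      exact InnerProductGeometry.cos_angle_mul_norm_mul_norm _ _
    have h6 : u.re * v.re + u.im * v.im = Real.cos (u.arg - v.arg) * (‖u‖ * ‖v‖) := by
      rw [Real.cos_sub, ← Complex.norm_mul_cos_arg u, ← Complex.norm_mul_cos_arg v,
        ← Complex.norm_mul_sin_arg u, ← Complex.norm_mul_sin_arg v]
      ring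
    rw [h6] at h5
    exact mul_right_cancel₀ (mul_pos hup hvp).ne' h5
  obtain ⟨η, hη⟩ : ∃ η, η = θ - Real.pi / 2 := ⟨_, rfl⟩
  have hη0 : 0 ≤ 2 * η := by linarith
  have hη1 : 2 * η < Real.pi / M := by
    have e : Real.pi / M = 2 * (Real.pi / (2 * M)) := by
      field_simp
    rw [e]
    linarith
  have hθη : θ = Real.pi / 2 + η := by linarith
  have hsame : ∀ t : ℕ, rc (t * (Real.pi / (2 * M))) q p = rc (t * (Real.pi / (2 * M))) q r →
      ((0 ≤ Real.sin (2 * u.arg - t * (Real.pi / M))) ↔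
        (0 ≤ Real.sin (2 * v.arg - t * (Real.pi / M)))) := by
    intro t ht
    have e1 := hr1 (t * (Real.pi / (2 * M)))
    have e2 := hr2 (t * (Real.pi / (2 * M)))
    rw [ht] at e1
    have f1 : 2 * (u.arg - t * (Real.pi / (2 * M))) = 2 * u.arg - t * (Real.pi / M) := by
      field_simp
    have f2 : 2 * (v.arg - t * (Real.pi / (2 * M))) = 2 * v.arg - t * (Real.pi / M) := by
      field_simp
    rw [f1] at e1
    rw [f2] at e2
    exact e1.symm.trans e2
  obtain ⟨k, hk | hk⟩ := Real.cos_eq_cos_iff.1 hcos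
  · -- `u.arg - v.arg = 2 k π + θ`
    have key : ∀ t : ℕ, rc (t * (Real.pi / (2 * M))) q p = rc (t * (Real.pi / (2 * M))) q r →
        Real.sin ((2 * u.arg - 2 * η) - t * (Real.pi / M)) *
          Real.sin ((2 * u.arg - 2 * η) - t * (Real.pi / M) + 2 * η) ≤ 0 := by
      intro t ht
      have h7 := hsame t ht
      have e3 : (2 * u.arg - 2 * η) - t * (Real.pi / M) + 2 * η
          = 2 * u.arg - t * (Real.pi / M) := by ring
      have e4 : 2 * v.arg - t * (Real.pi / M)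
          = ((2 * u.arg - 2 * η) - t * (Real.pi / M)) - Real.pi - ((2 * k : ℤ) : ℝ) * (2 * Real.pi) := by
        have : v.arg = u.arg - (2 * k * Real.pi + θ) := by linarith
        rw [this, hθη]
        push_cast
        ring
      rw [e4, Real.sin_sub_int_mul_two_pi, Real.sin_sub_pi] at h7
      rw [e3]
      generalize Real.sin (2 * u.arg - t * (Real.pi / M)) = A at *
      generalize Real.sin ((2 * u.arg - 2 * η) - t * (Real.pi / M)) = B at *
      by_cases hA : 0 ≤ A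
      · have := h7.1 hA
        nlinarith
      · have hB : ¬ (0 ≤ -B) := fun h => hA (h7.2 h)
        rw [not_le] at hA hB
        nlinarith
    exact rc_unique_fin M hM _ _ hη0 hη1 s s' hs hs' (key s h3) (key s' h4)
  · have key : ∀ t : ℕ, rc (t * (Real.pi / (2 * M))) q p = rc (t * (Real.pi / (2 * M))) q r →
        Real.sin (2 * u.arg - t * (Real.pi / M)) *
          Real.sin (2 * u.arg - t * (Real.pi / M) + 2 * η) ≤ 0 := by
      intro t ht
      have h7 := hsame t ht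
      have e4 : 2 * v.arg - t * (Real.pi / M)
          = (2 * u.arg - t * (Real.pi / M) + 2 * η) + Real.pi - ((2 * k : ℤ) : ℝ) * (2 * Real.pi) := by
        have : v.arg = u.arg - (2 * k * Real.pi - θ) := by linarith
        rw [this, hθη]
        push_cast
        ring
      rw [e4, Real.sin_sub_int_mul_two_pi, Real.sin_add_pi] at h7
      generalize Real.sin (2 * u.arg - t * (Real.pi / M)) = A at *
      generalize Real.sin (2 * u.arg - t * (Real.pi / M) + 2 * η) = B at *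
      by_cases hA : 0 ≤ A
      · have := h7.1 hA
        nlinarith
      · have hB : ¬ (0 ≤ -B) := fun h => hA (h7.2 h)
        rw [not_le] at hA hB
        nlinarith
    exact rc_unique_fin M hM _ _ hη0 hη1 s s' hs hs' (key s h3) (key s' h4)

/-- three distinct indices -/
def DD {n : ℕ} (x y z : Fin n) : Prop := x ≠ y ∧ x ≠ z ∧ y ≠ z

/-- monochromatic -/
def MM {V : Type} (c : V → V → Bool) (x y z : V) : Prop := c x y = c x z ∧ c x y = c y z

/-- the angle at the middle point is not acute -/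
def OO {n : ℕ} (P : Fin n → EuclideanSpace ℝ (Fin 2)) (x y z : Fin n) : Prop :=
  Real.pi / 2 ≤ EuclideanGeometry.angle (P x) (P y) (P z)

/-- the angle at the middle point is greater than `α` -/
def BB {n : ℕ} (P : Fin n → EuclideanSpace ℝ (Fin 2)) (α : ℝ) (x y z : Fin n) : Prop :=
  α < EuclideanGeometry.angle (P x) (P y) (P z)

theorem sum_swap12 {n : ℕ} (g : Fin n → Fin n → Fin n → ℕ) :
    ∑ x, ∑ y, ∑ z, g y x z = ∑ x, ∑ y, ∑ z, g x y z := Finset.sum_comm

theorem sum_swap23 {n : ℕ} (g : Fin n → Fin n → Fin n → ℕ) :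
    ∑ x, ∑ y, ∑ z, g x z y = ∑ x, ∑ y, ∑ z, g x y z :=
  Finset.sum_congr rfl fun _ _ => Finset.sum_comm

theorem sum_swap13 {n : ℕ} (g : Fin n → Fin n → Fin n → ℕ) :
    ∑ x, ∑ y, ∑ z, g z y x = ∑ x, ∑ y, ∑ z, g x y z := by
  rw [← sum_swap12, ← sum_swap23, ← sum_swap12]

theorem three_le {n : ℕ} (g h : Fin n → Fin n → Fin n → ℕ)
    (hgh : ∀ x y z, h x y z ≤ g x y z + g y x z + g x z y) :
    ∑ x, ∑ y, ∑ z, h x y z ≤ 3 * ∑ x, ∑ y, ∑ z, g x y z := by
  calc ∑ x, ∑ y, ∑ z, h x y z ≤ ∑ x, ∑ y, ∑ z, (g x y z + g y x z + g x z y) :=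
        Finset.sum_le_sum fun x _ => Finset.sum_le_sum fun y _ => Finset.sum_le_sum fun z _ =>
          hgh x y z
    _ = ∑ x, ∑ y, ∑ z, g x y z + ∑ x, ∑ y, ∑ z, g y x z + ∑ x, ∑ y, ∑ z, g x z y := by
        simp only [Finset.sum_add_distrib]
    _ = 3 * ∑ x, ∑ y, ∑ z, g x y z := by
        rw [sum_swap12 g, sum_swap23 g]
        ring

theorem three_ge {n : ℕ} (g : Fin n → Fin n → Fin n → ℕ)
    (hg : ∀ x y z, g x y z + g y x z + g x z y ≤ 1) :
    3 * ∑ x, ∑ y, ∑ z, g x y z ≤ n ^ 3 := by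
  calc 3 * ∑ x, ∑ y, ∑ z, g x y z
      = ∑ x, ∑ y, ∑ z, g x y z + ∑ x, ∑ y, ∑ z, g y x z + ∑ x, ∑ y, ∑ z, g x z y := by
        rw [sum_swap12 g, sum_swap23 g]
        ring
    _ = ∑ x, ∑ y, ∑ z, (g x y z + g y x z + g x z y) := by
        simp only [Finset.sum_add_distrib]
    _ ≤ ∑ _x : Fin n, ∑ _y : Fin n, ∑ _z : Fin n, 1 :=
        Finset.sum_le_sum fun x _ => Finset.sum_le_sum fun y _ => Finset.sum_le_sum fun z _ =>
          hg x y z
    _ = n ^ 3 := by
        simp only [Finset.sum_const, Finset.card_univ, Fintype.card_fin, smul_eq_mul, mul_one]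
        ring

theorem mono_eq {n : ℕ} (c : Fin n → Fin n → Bool) :
    mono c = ∑ x, ∑ y, ∑ z, if DD x y z ∧ MM c x y z then 1 else 0 := by
  unfold mono
  rw [Finset.card_filter, Fintype.sum_prod_type]
  refine Finset.sum_congr rfl fun x _ => ?_
  rw [Fintype.sum_prod_type]
  refine Finset.sum_congr rfl fun y _ => ?_
  refine Finset.sum_congr rfl fun z _ => ?_
  by_cases hq : DD x y z ∧ MM c x y z
  · rw [if_pos hq, if_pos ⟨hq.1.1, hq.1.2.1, hq.1.2.2, hq.2.1, hq.2.2⟩]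
  · rw [if_neg hq, if_neg (fun h => hq ⟨⟨h.1, h.2.1, h.2.2.1⟩, h.2.2.2.1, h.2.2.2.2⟩)]

theorem cnt_eq {n : ℕ} (P : Fin n → EuclideanSpace ℝ (Fin 2)) (α : ℝ) :
    ∑ x, ∑ y, ∑ z, (if DD x y z ∧ BB P α x y z then 1 else 0) = 2 * cnt (fun a => α < a) P := by
  have h1 : cnt (fun a => α < a) P =
      ∑ x, ∑ y, ∑ z, if x < z ∧ y ≠ x ∧ y ≠ z ∧ BB P α x y z then 1 else 0 := by
    unfold cnt
    rw [Finset.card_filter, Fintype.sum_prod_type]
    refine Finset.sum_congr rfl fun x _ => ?_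
    rw [Fintype.sum_prod_type]
    rfl
  have h2 : ∀ x y z : Fin n, (if DD x y z ∧ BB P α x y z then 1 else 0) =
      (if x < z ∧ y ≠ x ∧ y ≠ z ∧ BB P α x y z then 1 else 0) +
        (if z < x ∧ y ≠ z ∧ y ≠ x ∧ BB P α z y x then 1 else 0) := by
    intro x y z
    have hb : BB P α z y x ↔ BB P α x y z := by
      unfold BB
      rw [EuclideanGeometry.angle_comm]
    rw [hb]
    unfold DD
    rcases lt_trichotomy x z with h | h | h
    · have h' : ¬ z < x := not_lt.2 h.le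
      have h'' : x ≠ z := ne_of_lt h
      by_cases hB : BB P α x y z <;> by_cases h3 : y = x <;> by_cases h4 : y = z <;>
        simp [h, h', h'', hB, h3, h4, eq_comm] <;> simp_all <;>
        exact fun hh => h3 hh.symm
    · subst h
      simp
    · have h' : ¬ x < z := not_lt.2 h.le
      have h'' : x ≠ z := (ne_of_lt h).symm
      by_cases hB : BB P α x y z <;> by_cases h3 : y = x <;> by_cases h4 : y = z <;>
        simp [h, h', h'', hB, h3, h4, eq_comm] <;> simp_all <;>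
        exact fun hh => h3 hh.symm
  simp only [h2, Finset.sum_add_distrib]
  rw [sum_swap13 (fun x y z => if x < z ∧ y ≠ x ∧ y ≠ z ∧ BB P α x y z then 1 else 0), ← h1]
  ring

theorem obt_unique {n : ℕ} (P : Fin n → EuclideanSpace ℝ (Fin 2)) (hP : GenPos P)
    {x y z : Fin n} (hD : DD x y z) (h1 : OO P x y z) (h2 : OO P y x z) : False := by
  obtain ⟨hxy, hxz, hyz⟩ := hD
  have hne : P y ≠ P x := fun h => hxy (hP.1 h).symm
  have hs := EuclideanGeometry.angle_add_angle_add_angle_eq_pi (P z) hne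
  unfold OO at h1 h2
  rw [EuclideanGeometry.angle_comm] at h2
  have h0 := EuclideanGeometry.angle_nonneg (P y) (P z) (P x)
  have hz : EuclideanGeometry.angle (P y) (P z) (P x) = 0 := by linarith
  exact hP.2 y z x hyz (Ne.symm hxz) (Ne.symm hxy)
    (EuclideanGeometry.collinear_of_angle_eq_zero hz)

theorem DD.p12 {n : ℕ} {x y z : Fin n} (h : DD x y z) : DD y x z := ⟨h.1.symm, h.2.2, h.2.1⟩
theorem DD.p23 {n : ℕ} {x y z : Fin n} (h : DD x y z) : DD x z y := ⟨h.2.1, h.1, h.2.2.symm⟩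

theorem OO.rev {n : ℕ} {P : Fin n → EuclideanSpace ℝ (Fin 2)} {x y z : Fin n} (h : OO P x y z) :
    OO P z y x := by
  unfold OO at *
  rwa [EuclideanGeometry.angle_comm]

theorem at_most_one {n : ℕ} (P : Fin n → EuclideanSpace ℝ (Fin 2)) (hP : GenPos P) (α : ℝ)
    (x y z : Fin n) :
    (if DD x y z ∧ OO P x y z ∧ ¬ BB P α x y z then 1 else 0) +
      (if DD y x z ∧ OO P y x z ∧ ¬ BB P α y x z then 1 else 0) +
      (if DD x z y ∧ OO P x z y ∧ ¬ BB P α x z y then 1 else 0) ≤ 1 := by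
  by_cases h1 : DD x y z ∧ OO P x y z ∧ ¬ BB P α x y z
  · have h2 : ¬ (DD y x z ∧ OO P y x z ∧ ¬ BB P α y x z) :=
      fun h => obt_unique P hP h1.1 h1.2.1 h.2.1
    have h3 : ¬ (DD x z y ∧ OO P x z y ∧ ¬ BB P α x z y) := fun h =>
      obt_unique P hP (h1.1.p12.p23) (h.2.1.rev) (h1.2.1.rev)
    rw [if_pos h1, if_neg h2, if_neg h3]
  · rw [if_neg h1]
    by_cases h2 : DD y x z ∧ OO P y x z ∧ ¬ BB P α y x z
    · have h3 : ¬ (DD x z y ∧ OO P x z y ∧ ¬ BB P α x z y) := fun h =>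
        obt_unique P hP (h.1) (h.2.1) (h2.2.1.rev)
      rw [if_pos h2, if_neg h3]
    · rw [if_neg h2]
      split_ifs <;> omega

theorem per_triple (M : ℕ) (hM : 1 ≤ M) {n : ℕ} (P : Fin n → EuclideanSpace ℝ (Fin 2))
    (hP : GenPos P) (α : ℝ) (h2 : α < Real.pi / 2 + Real.pi / (2 * M)) (x y z : Fin n) :
    (∑ s ∈ Finset.range M, if DD x y z ∧
      MM (fun a b : Fin n => rc ((s : ℝ) * (Real.pi / (2 * M))) (P a) (P b)) x y z ∧ OO P x y z
      then 1 else 0) ≤
      M * (if DD x y z ∧ BB P α x y z then 1 else 0) +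
        (if DD x y z ∧ OO P x y z ∧ ¬ BB P α x y z then 1 else 0) := by
  by_cases hD : DD x y z
  · by_cases hB : BB P α x y z
    · rw [if_pos ⟨hD, hB⟩]
      refine le_trans (Finset.sum_le_card_nsmul _ _ 1 (fun s _ => by split_ifs <;> omega)) ?_
      rw [Finset.card_range]
      simp
    · by_cases hO : OO P x y z
      · rw [if_pos (show DD x y z ∧ OO P x y z ∧ ¬ BB P α x y z from ⟨hD, hO, hB⟩),
          ← Finset.card_filter]
        refine le_trans ?_ (Nat.le_add_left _ _)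
        refine Finset.card_le_one.2 fun s hs s' hs' => ?_
        have g1 := Finset.mem_filter.1 hs
        have g2 := Finset.mem_filter.1 hs'
        have hxy : P x ≠ P y := fun h => hD.1 (hP.1 h)
        have hyz : P y ≠ P z := fun h => hD.2.2 (hP.1 h)
        have hlt : EuclideanGeometry.angle (P x) (P y) (P z) <
            Real.pi / 2 + Real.pi / (2 * M) := by
          have : EuclideanGeometry.angle (P x) (P y) (P z) ≤ α := not_lt.1 hB
          linarith
        have k1 := g1.2.2.1.2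
        have k2 := g2.2.2.1.2
        refine rc_unique M hM (P x) (P y) (P z) hxy hyz hO hlt s s' (Finset.mem_range.1 g1.1)
          (Finset.mem_range.1 g2.1) ?_ ?_
        · rw [rc_symm]
          exact k1
        · rw [rc_symm]
          exact k2
      · refine le_trans (le_of_eq (Finset.sum_eq_zero fun s _ => ?_)) (Nat.zero_le _)
        exact if_neg (fun h => hO h.2.2)
  · refine le_trans (le_of_eq (Finset.sum_eq_zero fun s _ => ?_)) (Nat.zero_le _)
    exact if_neg (fun h => hD h.1)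

theorem rot_lower (M : ℕ) (hM : 1 ≤ M) {n : ℕ} (P : Fin n → EuclideanSpace ℝ (Fin 2))
    (hP : GenPos P) (α : ℝ) (h1 : Real.pi / 2 ≤ α) (h2 : α < Real.pi / 2 + Real.pi / (2 * M)) :
    (n : ℝ) * (n - 1) * (n - 5) / 24 ≤ cnt (fun a => α < a) P + (n : ℝ) ^ 3 / (6 * M) := by
  set c : ℕ → Fin n → Fin n → Bool :=
    fun s a b => rc ((s : ℝ) * (Real.pi / (2 * M))) (P a) (P b) with hc
  have hsymm : ∀ s x y, c s x y = c s y x := fun s x y => rc_symm _ _ _
  have hgood : ∀ s, (n : ℝ) * (n - 1) * (n - 5) ≤ 4 * mono (c s) := fun s =>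
    goodman (c s) (hsymm s)
  have hN1 : ∀ s, mono (c s) ≤ 3 * ∑ x, ∑ y, ∑ z,
      (if DD x y z ∧ MM (c s) x y z ∧ OO P x y z then 1 else 0) := by
    intro s
    rw [mono_eq]
    refine three_le _ _ fun x y z => ?_
    by_cases hq : DD x y z ∧ MM (c s) x y z
    · rw [if_pos hq]
      have hxy : P x ≠ P y := fun h => hq.1.1 (hP.1 h)
      have hyz : P y ≠ P z := fun h => hq.1.2.2 (hP.1 h)
      have hxz : P x ≠ P z := fun h => hq.1.2.1 (hP.1 h)
      have hm := hq.2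
      unfold MM at hm
      rcases rc_obtuse _ (P x) (P y) (P z) hxy hyz hxz hm.1 hm.2 with h | h | h
      · rw [if_pos (show DD x y z ∧ MM (c s) x y z ∧ OO P x y z from ⟨hq.1, hq.2, h⟩)]
        omega
      · have hm2 : MM (c s) y x z :=
          ⟨by rw [hsymm s y x]; exact hm.2, by rw [hsymm s y x]; exact hm.1⟩
        rw [if_pos (show DD y x z ∧ MM (c s) y x z ∧ OO P y x z from ⟨hq.1.p12, hm2, h⟩)]
        omega
      · have hm3 : MM (c s) x z y :=
          ⟨hm.1.symm, by rw [hsymm s z y]; exact hm.1.symm.trans hm.2⟩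
        rw [if_pos (show DD x z y ∧ MM (c s) x z y ∧ OO P x z y from ⟨hq.1.p23, hm3, h⟩)]
        omega
    · rw [if_neg hq]
      exact Nat.zero_le _
  have hN2 : ∑ s ∈ Finset.range M, ∑ x, ∑ y, ∑ z,
      (if DD x y z ∧ MM (c s) x y z ∧ OO P x y z then 1 else 0) ≤
      M * (2 * cnt (fun a => α < a) P) +
        ∑ x, ∑ y, ∑ z, (if DD x y z ∧ OO P x y z ∧ ¬ BB P α x y z then 1 else 0) := by
    rw [← cnt_eq, Finset.mul_sum, ← Finset.sum_add_distrib, Finset.sum_comm]
    refine Finset.sum_le_sum fun x _ => ?_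
    rw [Finset.mul_sum, ← Finset.sum_add_distrib, Finset.sum_comm]
    refine Finset.sum_le_sum fun y _ => ?_
    rw [Finset.mul_sum, ← Finset.sum_add_distrib, Finset.sum_comm]
    refine Finset.sum_le_sum fun z _ => ?_
    exact per_triple M hM P hP α h2 x y z
  have hN4 : 3 * ∑ x, ∑ y, ∑ z,
      (if DD x y z ∧ OO P x y z ∧ ¬ BB P α x y z then 1 else 0) ≤ n ^ 3 :=
    three_ge (fun x y z => if DD x y z ∧ OO P x y z ∧ ¬ BB P α x y z then 1 else 0)
      (fun x y z => at_most_one P hP α x y z)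
  have hsum1 : (M : ℝ) * ((n : ℝ) * (n - 1) * (n - 5)) ≤
      4 * ((∑ s ∈ Finset.range M, mono (c s) : ℕ) : ℝ) := by
    have h3 : ∑ s ∈ Finset.range M, ((n : ℝ) * (n - 1) * (n - 5)) ≤
        ∑ s ∈ Finset.range M, 4 * (mono (c s) : ℝ) := Finset.sum_le_sum fun s _ => hgood s
    rw [Finset.sum_const, Finset.card_range, nsmul_eq_mul, ← Finset.mul_sum] at h3
    rw [Nat.cast_sum]
    exact h3
  have hsum2 : ∑ s ∈ Finset.range M, mono (c s) ≤
      6 * M * cnt (fun a => α < a) P + n ^ 3 := by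
    have h4 : ∑ s ∈ Finset.range M, mono (c s) ≤ ∑ s ∈ Finset.range M, 3 * ∑ x, ∑ y, ∑ z,
        (if DD x y z ∧ MM (c s) x y z ∧ OO P x y z then 1 else 0) :=
      Finset.sum_le_sum fun s _ => hN1 s
    rw [← Finset.mul_sum] at h4
    nlinarith [h4, hN2, hN4]
  have hsum3 : ((∑ s ∈ Finset.range M, mono (c s) : ℕ) : ℝ) ≤
      6 * M * cnt (fun a => α < a) P + (n : ℝ) ^ 3 := by exact_mod_cast hsum2
  have hM0 : (0 : ℝ) < M := by exact_mod_cast hM
  have hfin : (M : ℝ) * ((n : ℝ) * (n - 1) * (n - 5)) ≤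
      24 * M * cnt (fun a => α < a) P + 4 * (n : ℝ) ^ 3 := by linarith
  have hdiv : (n : ℝ) * (n - 1) * (n - 5) ≤
      24 * cnt (fun a => α < a) P + 4 * (n : ℝ) ^ 3 / M := by
    have h6 : (n : ℝ) * (n - 1) * (n - 5) ≤
        (24 * M * cnt (fun a => α < a) P + 4 * (n : ℝ) ^ 3) / M := by
      rw [le_div_iff₀ hM0]
      linarith
    have h7 : (24 * M * cnt (fun a => α < a) P + 4 * (n : ℝ) ^ 3) / M =
        24 * cnt (fun a => α < a) P + 4 * (n : ℝ) ^ 3 / M := by
      field_simp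
    rw [h7] at h6
    exact h6
  have h8 : (n : ℝ) ^ 3 / (6 * M) = (4 * (n : ℝ) ^ 3 / M) / 24 := by
    field_simp
    ring
  rw [h8]
  linarith

end Pool.Agent.Helper585.Acute
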