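import Mathlib
import Pool.Agent.Helper585.Acute.FA3
import Pool.Agent.Helper585.Acute.Circ
import Pool.Agent.Helper585.Acute.Lims
import Pool.Agent.Helper585.Acute.Low
import Pool.Agent.Helper585.Acute.Rot
import Pool.Agent.Helper585.Acute.Right

/-!
Values and jumps of the limiting distribution functions.
-/

set_option autoImplicit false

namespace Pool.Agent.Helper585.Acute

open scoped Classical
open Filter

theorem F_le (m : ℕ) (hm : 1 ≤ m) (α : ℝ) (hα : Real.pi - Real.pi / m < α) :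
    F α ≤ 1 / (3 * (m : ℝ) ^ 2) := by
  have h := lim_le (fun a => α < a) (F α) (F_tendsto α) m hm (m : ℝ) (by
    intro t ht
    obtain ⟨P, hP, hc⟩ := f_circ m t hm ht α hα
    refine ⟨P, hP, ?_⟩
    exact_mod_cast hc)
  have hm0 : (m : ℝ) ≠ 0 := by positivity
  have e : (m : ℝ) / (3 * (m : ℝ) ^ 3) = 1 / (3 * (m : ℝ) ^ 2) := by
    field_simp
  rw [← e]; exact h

theorem G_le (m : ℕ) (hm : 1 ≤ m) (α : ℝ) (hα : α < Real.pi / m) :
    G α ≤ 1 / m - 1 / (3 * (m : ℝ) ^ 2) := by
  have h := lim_le (fun a => a < α) (G α) (G_tendsto α) m hm (3 * (m : ℝ) ^ 2 - m) (by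
    intro t ht
    obtain ⟨P, hP, hc⟩ := g_circ m t hm ht α hα
    refine ⟨P, hP, ?_⟩
    have hc' : (6 : ℝ) * cnt (fun a => a < α) P + m * (t : ℝ) ^ 3 ≤ 3 * (m : ℝ) ^ 2 * t ^ 3 := by
      exact_mod_cast hc
    linarith)
  have hm0 : (m : ℝ) ≠ 0 := by positivity
  have e : (3 * (m : ℝ) ^ 2 - m) / (3 * (m : ℝ) ^ 3) = 1 / m - 1 / (3 * (m : ℝ) ^ 2) := by
    field_simp
  rw [← e]; exact h

theorem F_half : (1423 : ℝ) / 10000 ≤ F (Real.pi / 2) := by
  have h := ge_lim (fun a => Real.pi / 2 < a) (F (Real.pi / 2)) (F_tendsto _) (7115 / 100000)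
    (3 / 2) (by
      intro n P hP
      have h1 := count P hP.1
      have h2 : (nonAcute P : ℝ) ≤ cnt (fun a => Real.pi / 2 < a) P + (n : ℝ) ^ 2 := by
        exact_mod_cast right_le P hP
      linarith)
  linarith

theorem G_half_ge : (2 : ℝ) / 3 ≤ G (Real.pi / 2) := by
  have h := ge_lim (fun a => a < Real.pi / 2) (G (Real.pi / 2)) (G_tendsto _) (1 / 3) 1 (by
      intro n P hP
      have h1 := acute_two P hP
      have hn : (0 : ℝ) ≤ n := Nat.cast_nonneg n
      nlinarith)
  linarith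

theorem G_half : G (Real.pi / 2) = 2 / 3 := by
  apply le_antisymm _ G_half_ge
  have h := G_le 1 le_rfl (Real.pi / 2) (by
    have := Real.pi_pos
    simp only [Nat.cast_one, div_one]
    linarith)
  norm_num at h
  linarith

theorem G_third : (1 : ℝ) / 3 ≤ G (Real.pi / 3) := by
  have h := ge_lim (fun a => a < Real.pi / 3) (G (Real.pi / 3)) (G_tendsto _) (1 / 6) (3 / 2) (by
      intro n P hP
      have h1 := third_lower P hP
      have hn : (0 : ℝ) ≤ n := Nat.cast_nonneg n
      nlinarith)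
  linarith

theorem F_ge (M : ℕ) (hM : 1 ≤ M) (α : ℝ) (h1 : Real.pi / 2 ≤ α)
    (h2 : α < Real.pi / 2 + Real.pi / (2 * M)) : 1 / 12 - 1 / (3 * (M : ℝ)) ≤ F α := by
  have h := ge_lim (fun a => α < a) (F α) (F_tendsto _) (1 / 24 - 1 / (6 * (M : ℝ))) (1 / 4) (by
      intro n P hP
      have h1 := rot_lower M hM P hP α h1 h2
      have hn : (0 : ℝ) ≤ n := Nat.cast_nonneg n
      have e : (n : ℝ) ^ 3 / (6 * M) = 1 / (6 * (M : ℝ)) * (n : ℝ) ^ 3 := by ring
      rw [e] at h1
      nlinarith)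
  have e : 2 * (1 / 24 - 1 / (6 * (M : ℝ))) = 1 / 12 - 1 / (3 * (M : ℝ)) := by ring
  rw [← e]; exact h

theorem G_ge (M : ℕ) (hM : 1 ≤ M) (α : ℝ) (h0 : Real.pi / 3 < α) (h1 : α ≤ Real.pi / 2)
    (h2 : Real.pi / 2 - Real.pi / (2 * M) < α) : 5 / 12 - 1 / (3 * (M : ℝ)) ≤ G α := by
  have h := ge_lim (fun a => a < α) (G α) (G_tendsto _) (5 / 24 - 1 / (6 * (M : ℝ))) (3 / 4) (by
      intro n P hP
      have h1' := rot_lower M hM P hP (Real.pi - α) (by linarith) (by linarith)
      have h2' := add_lower P hP α h0 h1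
      have hn : (0 : ℝ) ≤ n := Nat.cast_nonneg n
      have e : (n : ℝ) ^ 3 / (6 * M) = 1 / (6 * (M : ℝ)) * (n : ℝ) ^ 3 := by ring
      rw [e] at h1'
      nlinarith)
  have e : 2 * (5 / 24 - 1 / (6 * (M : ℝ))) = 5 / 12 - 1 / (3 * (M : ℝ)) := by ring
  rw [← e]; exact h

/-- a relation between the two functions -/
theorem G_ge_F (α : ℝ) (h0 : Real.pi / 3 < α) (h1 : α ≤ Real.pi / 2) :
    1 / 3 + F (Real.pi - α) ≤ G α := by
  have hF := F_tendsto (Real.pi - α)
  have hG := G_tendsto α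
  refine le_of_tendsto_of_tendsto (tendsto_const_nhds.add hF) hG ?_
  filter_upwards [eventually_ge_atTop 3] with n hn
  have hn3 : (3 : ℝ) ≤ n := by exact_mod_cast hn
  have hd : (0 : ℝ) < 1 / 2 * n * (n - 1) * (n - 2) := by
    have a : (0 : ℝ) < n := by linarith
    have b : (0 : ℝ) < (n : ℝ) - 1 := by linarith
    have c : (0 : ℝ) < (n : ℝ) - 2 := by linarith
    positivity
  obtain ⟨P0, hP0⟩ := exists_genPos n
  unfold ratio
  refine le_csInf ⟨_, P0, hP0, rfl⟩ ?_
  rintro r ⟨P, hP, rfl⟩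
  have h2 := add_lower P hP α h0 h1
  have h3 : sInf {r : ℝ | ∃ P : Fin n → EuclideanSpace ℝ (Fin 2), GenPos P ∧
      r = (cnt (fun a => Real.pi - α < a) P : ℝ) / (1 / 2 * n * (n - 1) * (n - 2))} ≤
      (cnt (fun a => Real.pi - α < a) P : ℝ) / (1 / 2 * n * (n - 1) * (n - 2)) := by
    refine csInf_le ⟨0, ?_⟩ ⟨P, hP, rfl⟩
    rintro s ⟨Q, hQ, rfl⟩
    positivity
  calc 1 / 3 + sInf {r : ℝ | ∃ P : Fin n → EuclideanSpace ℝ (Fin 2), GenPos P ∧
      r = (cnt (fun a => Real.pi - α < a) P : ℝ) / (1 / 2 * n * (n - 1) * (n - 2))}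
      ≤ 1 / 3 + (cnt (fun a => Real.pi - α < a) P : ℝ) / (1 / 2 * n * (n - 1) * (n - 2)) := by
        linarith
    _ = (n * (n - 1) * (n - 2) / 6 + (cnt (fun a => Real.pi - α < a) P : ℝ)) /
        (1 / 2 * n * (n - 1) * (n - 2)) := by
        rw [add_div]
        congr 1
        rw [eq_div_iff hd.ne']
        ring
    _ ≤ _ := by
        apply div_le_div_of_nonneg_right h2 hd.le

theorem inv_small (ε : ℝ) (hε : 0 < ε) : ∃ M : ℕ, 3 ≤ M ∧ 1 / (3 * (M : ℝ)) < ε := by
  obtain ⟨k, hk⟩ := exists_nat_gt (1 / ε)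
  refine ⟨k + 3, by omega, ?_⟩
  have h0 : (0 : ℝ) < k := lt_trans (by positivity) hk
  have h1 : 1 < ε * k := by
    rw [div_lt_iff₀ hε] at hk
    linarith
  rw [div_lt_iff₀ (by positivity)]
  push_cast
  nlinarith

theorem F_right : Tendsto F (nhdsWithin (Real.pi / 2) (Set.Ioi (Real.pi / 2))) (nhds (1 / 12)) := by
  rw [tendsto_order]
  constructor
  · intro a ha
    obtain ⟨M, hM, hs⟩ := inv_small (1 / 12 - a) (by linarith)
    have hpi := Real.pi_pos
    have hM0 : (0 : ℝ) < M := by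
      have : (3 : ℝ) ≤ M := by exact_mod_cast hM
      linarith
    have hpos : (0 : ℝ) < Real.pi / (2 * M) := by positivity
    have hmem : Set.Ioo (Real.pi / 2) (Real.pi / 2 + Real.pi / (2 * M)) ∈
        nhdsWithin (Real.pi / 2) (Set.Ioi (Real.pi / 2)) :=
      Ioo_mem_nhdsGT (by linarith)
    filter_upwards [hmem] with x hx
    have := F_ge M (by omega) x hx.1.le hx.2
    linarith
  · intro a ha
    filter_upwards [self_mem_nhdsWithin] with x hx
    have h := F_le 2 (by norm_num) x (by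
      have : Real.pi / 2 < x := hx
      push_cast
      linarith)
    norm_num at h
    linarith

theorem G_left : Tendsto G (nhdsWithin (Real.pi / 2) (Set.Iio (Real.pi / 2))) (nhds (5 / 12)) := by
  rw [tendsto_order]
  constructor
  · intro a ha
    obtain ⟨M, hM, hs⟩ := inv_small (5 / 12 - a) (by linarith)
    have hpi := Real.pi_pos
    have hM3 : (3 : ℝ) ≤ M := by exact_mod_cast hM
    have hM0 : (0 : ℝ) < M := by linarith
    have hpos : (0 : ℝ) < Real.pi / (2 * M) := by positivity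
    have hle : Real.pi / (2 * M) ≤ Real.pi / 6 := by
      apply div_le_div_of_nonneg_left hpi.le (by norm_num) (by linarith)
    have hmem : Set.Ioo (Real.pi / 2 - Real.pi / (2 * M)) (Real.pi / 2) ∈
        nhdsWithin (Real.pi / 2) (Set.Iio (Real.pi / 2)) :=
      Ioo_mem_nhdsLT (by linarith)
    filter_upwards [hmem] with x hx
    have := G_ge M (by omega) x (by linarith [hx.1]) hx.2.le hx.1
    linarith
  · intro a ha
    filter_upwards [self_mem_nhdsWithin] with x hx
    have h := G_le 2 (by norm_num) x (by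
      have : x < Real.pi / 2 := hx
      push_cast
      linarith)
    norm_num at h
    linarith

theorem F_not : ¬ ContinuousAt F (Real.pi / 2) := by
  intro h
  have h1 : Tendsto F (nhdsWithin (Real.pi / 2) (Set.Ioi (Real.pi / 2)))
      (nhds (F (Real.pi / 2))) := h.tendsto.mono_left nhdsWithin_le_nhds
  have := tendsto_nhds_unique h1 F_right
  have h2 := F_half
  rw [this] at h2
  norm_num at h2

theorem G_not : ¬ ContinuousAt G (Real.pi / 2) := by
  intro h
  have h1 : Tendsto G (nhdsWithin (Real.pi / 2) (Set.Iio (Real.pi / 2)))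
      (nhds (G (Real.pi / 2))) := h.tendsto.mono_left nhdsWithin_le_nhds
  have := tendsto_nhds_unique h1 G_left
  rw [G_half] at this
  norm_num at this

theorem G_not_third : ¬ ContinuousAt G (Real.pi / 3) := by
  intro h
  have h1 : Tendsto G (nhdsWithin (Real.pi / 3) (Set.Iio (Real.pi / 3)))
      (nhds (G (Real.pi / 3))) := h.tendsto.mono_left nhdsWithin_le_nhds
  have h2 : G (Real.pi / 3) ≤ 8 / 27 := by
    refine le_of_tendsto h1 ?_
    filter_upwards [self_mem_nhdsWithin] with x hx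
    have h := G_le 3 (by norm_num) x (by
      have : x < Real.pi / 3 := hx
      push_cast
      linarith)
    norm_num at h
    linarith
  have h3 := G_third
  linarith

end Pool.Agent.Helper585.Acute
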