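import Mathlib
import Pool.Agent.Helper585.Acute.Defs2

/-!
Triangles with all angles at most a bound.
-/

set_option autoImplicit false

namespace Pool.Agent.Helper585.Acute.J

open scoped Classical
open Filter

/-- the three points span a triangle with all angles at most `α` -/
noncomputable def good {n : ℕ} (α : ℝ) (P : Fin n → EuclideanSpace ℝ (Fin 2)) (a b c : Fin n) :
    Bool :=
  decide (a ≠ b ∧ b ≠ c ∧ a ≠ c ∧ EuclideanGeometry.angle (P a) (P b) (P c) ≤ α ∧
    EuclideanGeometry.angle (P b) (P a) (P c) ≤ α ∧ EuclideanGeometry.angle (P a) (P c) (P b) ≤ α)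

theorem good_s1 {n : ℕ} (α : ℝ) (P : Fin n → EuclideanSpace ℝ (Fin 2)) (a b c : Fin n) :
    good α P a b c = good α P b a c := by
  unfold good
  rw [decide_eq_decide]
  constructor
  · rintro ⟨h1, h2, h3, h4, h5, h6⟩
    refine ⟨h1.symm, h3, h2, h5, h4, ?_⟩
    rw [EuclideanGeometry.angle_comm]; exact h6
  · rintro ⟨h1, h2, h3, h4, h5, h6⟩
    refine ⟨h1.symm, h3, h2, h5, h4, ?_⟩
    rw [EuclideanGeometry.angle_comm]; exact h6

theorem good_s2 {n : ℕ} (α : ℝ) (P : Fin n → EuclideanSpace ℝ (Fin 2)) (a b c : Fin n) :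
    good α P a b c = good α P a c b := by
  unfold good
  rw [decide_eq_decide]
  constructor
  · rintro ⟨h1, h2, h3, h4, h5, h6⟩
    refine ⟨h3, h2.symm, h1, h6, ?_, h4⟩
    rw [EuclideanGeometry.angle_comm]; exact h5
  · rintro ⟨h1, h2, h3, h4, h5, h6⟩
    refine ⟨h3, h2.symm, h1, h6, ?_, h4⟩
    rw [EuclideanGeometry.angle_comm]; exact h5

/-- number of triples of pairwise distinct indices -/
theorem card_distinct (n : ℕ) :
    (((Finset.univ.filter fun t : Fin n × Fin n × Fin n =>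
      t.1 ≠ t.2.1 ∧ t.2.1 ≠ t.2.2 ∧ t.1 ≠ t.2.2).card : ℕ) : ℝ) = (n : ℝ) * (n - 1) * (n - 2) := by
  have h1 : ∀ a b : Fin n, a ≠ b →
      (∑ c : Fin n, if (b ≠ c ∧ a ≠ c) then (1:ℝ) else 0) = (n : ℝ) - 2 := by
    intro a b hab
    have : ∀ c : Fin n, (if (b ≠ c ∧ a ≠ c) then (1:ℝ) else 0)
        = 1 - (if c = a then 1 else 0) - (if c = b then 1 else 0) := by
      intro c
      by_cases h1 : c = a
      · subst h1
        have : ¬ (c = b) := hab
        simp [this]
      · by_cases h2 : c = b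
        · subst h2; simp [h1]
        · have h1' : a ≠ c := fun h => h1 h.symm
          have h2' : b ≠ c := fun h => h2 h.symm
          simp [h1, h2, h1', h2']
    rw [Finset.sum_congr rfl fun c _ => this c]
    simp only [Finset.sum_sub_distrib, Finset.sum_const, Finset.card_univ, Fintype.card_fin,
      Finset.sum_ite_eq', Finset.mem_univ, if_true, nsmul_eq_mul, mul_one]
    ring
  have h2 : ∀ a : Fin n,
      (∑ b : Fin n, ∑ c : Fin n, if (a ≠ b ∧ b ≠ c ∧ a ≠ c) then (1:ℝ) else 0)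
        = ((n : ℝ) - 1) * (n - 2) := by
    intro a
    have : ∀ b : Fin n, (∑ c : Fin n, if (a ≠ b ∧ b ≠ c ∧ a ≠ c) then (1:ℝ) else 0)
        = ((n : ℝ) - 2) - (if b = a then ((n : ℝ) - 2) else 0) := by
      intro b
      by_cases hab : b = a
      · subst hab; simp
      · have hab' : a ≠ b := fun h => hab h.symm
        rw [if_neg hab, sub_zero, ← h1 a b hab']
        refine Finset.sum_congr rfl fun c _ => ?_
        simp [hab']
    rw [Finset.sum_congr rfl fun b _ => this b]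
    simp only [Finset.sum_sub_distrib, Finset.sum_const, Finset.card_univ, Fintype.card_fin,
      Finset.sum_ite_eq', Finset.mem_univ, if_true, nsmul_eq_mul]
    ring
  rw [Finset.card_filter]
  push_cast
  rw [Fintype.sum_prod_type]
  have h3 : ∀ a : Fin n, (∑ y : Fin n × Fin n,
      (if ((a, y).1 ≠ (a, y).2.1 ∧ (a, y).2.1 ≠ (a, y).2.2 ∧ (a, y).1 ≠ (a, y).2.2) then (1:ℝ) else 0))
        = ((n : ℝ) - 1) * (n - 2) := by
    intro a
    rw [Fintype.sum_prod_type]
    exact h2 a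
  rw [Finset.sum_congr rfl fun a _ => h3 a]
  simp only [Finset.sum_const, Finset.card_univ, Fintype.card_fin, nsmul_eq_mul]
  ring

/-- every triangle which is not good has an angle greater than `α` -/
theorem bad_lower {n : ℕ} (α : ℝ) (P : Fin n → EuclideanSpace ℝ (Fin 2)) (T : ℝ)
    (hT : ((∑ a, ∑ b, ∑ c, ((good α P a b c).toNat : ℤ) : ℤ) : ℝ) ≤ T) :
    ((n : ℝ) * (n - 1) * (n - 2) - T) / 6 ≤ cnt (fun a => α < a) P := by
  set D : Finset (Fin n × Fin n × Fin n) := Finset.univ.filter fun t =>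
      t.1 ≠ t.2.1 ∧ t.2.1 ≠ t.2.2 ∧ t.1 ≠ t.2.2 with hD
  set Gd : Finset (Fin n × Fin n × Fin n) := Finset.univ.filter fun t =>
      good α P t.1 t.2.1 t.2.2 = true with hGd
  set W : Finset (Fin n × Fin n × Fin n) := Finset.univ.filter fun t =>
      (t.1 ≠ t.2.1 ∧ t.2.1 ≠ t.2.2 ∧ t.1 ≠ t.2.2) ∧
        α < EuclideanGeometry.angle (P t.1) (P t.2.1) (P t.2.2) with hW
  set C : Finset (Fin n × Fin n × Fin n) := Finset.univ.filter fun t =>
      t.1 < t.2.2 ∧ t.2.1 ≠ t.1 ∧ t.2.1 ≠ t.2.2 ∧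
      α < EuclideanGeometry.angle (P t.1) (P t.2.1) (P t.2.2) with hC
  have hcnt : cnt (fun a => α < a) P = C.card := rfl
  have hDc : ((D.card : ℕ) : ℝ) = (n : ℝ) * (n - 1) * (n - 2) := card_distinct n
  have hG : ((Gd.card : ℕ) : ℝ) ≤ T := by
    refine le_trans (le_of_eq ?_) hT
    rw [hGd, Finset.card_filter]
    push_cast
    rw [Fintype.sum_prod_type]
    refine Finset.sum_congr rfl fun a _ => ?_
    rw [Fintype.sum_prod_type]
    refine Finset.sum_congr rfl fun b _ => ?_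
    refine Finset.sum_congr rfl fun c _ => ?_
    cases good α P a b c <;> simp
  have hWC : W.card ≤ 2 * C.card := by
    have hsub : W ⊆ C ∪ C.image (fun t => (t.2.2, t.2.1, t.1)) := by
      intro t ht
      rw [hW, Finset.mem_filter] at ht
      obtain ⟨_, ⟨h1, h2, h3⟩, h4⟩ := ht
      rw [Finset.mem_union]
      rcases lt_or_gt_of_ne h3 with h | h
      · left
        rw [hC, Finset.mem_filter]
        exact ⟨Finset.mem_univ _, h, h1.symm, h2, h4⟩
      · right
        rw [Finset.mem_image]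
        refine ⟨(t.2.2, t.2.1, t.1), ?_, rfl⟩
        rw [hC, Finset.mem_filter]
        refine ⟨Finset.mem_univ _, h, h2, h1.symm, ?_⟩
        rw [EuclideanGeometry.angle_comm]; exact h4
    have e1 := Finset.card_le_card hsub
    have e2 := Finset.card_union_le C (C.image (fun t => (t.2.2, t.2.1, t.1)))
    have e3 : (C.image (fun t => (t.2.2, t.2.1, t.1))).card ≤ C.card := Finset.card_image_le
    omega
  have hsub : D ⊆ Gd ∪ (W ∪ (W.image (fun t => (t.2.1, t.1, t.2.2)) ∪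
      W.image (fun t => (t.1, t.2.2, t.2.1)))) := by
    intro t ht
    rw [hD, Finset.mem_filter] at ht
    obtain ⟨_, h1, h2, h3⟩ := ht
    simp only [Finset.mem_union]
    by_cases hg : good α P t.1 t.2.1 t.2.2 = true
    · left; rw [hGd, Finset.mem_filter]; exact ⟨Finset.mem_univ _, hg⟩
    · right
      have hg' : ¬ (EuclideanGeometry.angle (P t.1) (P t.2.1) (P t.2.2) ≤ α ∧
          EuclideanGeometry.angle (P t.2.1) (P t.1) (P t.2.2) ≤ α ∧
          EuclideanGeometry.angle (P t.1) (P t.2.2) (P t.2.1) ≤ α) := by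
        intro h
        apply hg
        unfold good
        rw [decide_eq_true_eq]
        exact ⟨h1, h2, h3, h.1, h.2.1, h.2.2⟩
      by_cases k1 : α < EuclideanGeometry.angle (P t.1) (P t.2.1) (P t.2.2)
      · left; rw [hW, Finset.mem_filter]; exact ⟨Finset.mem_univ _, ⟨h1, h2, h3⟩, k1⟩
      · right
        by_cases k2 : α < EuclideanGeometry.angle (P t.2.1) (P t.1) (P t.2.2)
        · left
          rw [Finset.mem_image]
          refine ⟨(t.2.1, t.1, t.2.2), ?_, rfl⟩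
          rw [hW, Finset.mem_filter]
          exact ⟨Finset.mem_univ _, ⟨h1.symm, h3, h2⟩, k2⟩
        · right
          have k3 : α < EuclideanGeometry.angle (P t.1) (P t.2.2) (P t.2.1) := by
            by_contra k3
            exact hg' ⟨not_lt.mp k1, not_lt.mp k2, not_lt.mp k3⟩
          rw [Finset.mem_image]
          refine ⟨(t.1, t.2.2, t.2.1), ?_, rfl⟩
          rw [hW, Finset.mem_filter]
          exact ⟨Finset.mem_univ _, ⟨h3, h2.symm, h1⟩, k3⟩
  have hcard : D.card ≤ Gd.card + 3 * W.card := by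
    have e1 := Finset.card_le_card hsub
    have e2 := Finset.card_union_le Gd (W ∪ (W.image (fun t => (t.2.1, t.1, t.2.2)) ∪
      W.image (fun t => (t.1, t.2.2, t.2.1))))
    have e3 := Finset.card_union_le W (W.image (fun t => (t.2.1, t.1, t.2.2)) ∪
      W.image (fun t => (t.1, t.2.2, t.2.1)))
    have e4 := Finset.card_union_le (W.image (fun t => (t.2.1, t.1, t.2.2)))
      (W.image (fun t => (t.1, t.2.2, t.2.1)))
    have e5 : (W.image (fun t => (t.2.1, t.1, t.2.2))).card ≤ W.card := Finset.card_image_le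
    have e6 : (W.image (fun t => (t.1, t.2.2, t.2.1))).card ≤ W.card := Finset.card_image_le
    omega
  have h1 : (D.card : ℝ) ≤ Gd.card + 3 * W.card := by exact_mod_cast hcard
  have h2 : (W.card : ℝ) ≤ 2 * C.card := by exact_mod_cast hWC
  rw [hcnt]
  rw [← hDc]
  linarith

/-- a complete subsystem of good triples is a configuration with all angles at most `α` -/
theorem no_good {n m : ℕ} (α : ℝ) (P : Fin n → EuclideanSpace ℝ (Fin 2)) (hP : GenPos P)
    (p : Fin m → Fin n) (hm : 3 ≤ m)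
    (h : ∀ i j k : Fin m, i < j → j < k → good α P (p i) (p j) (p k) = true) :
    GenPos (fun i => P (p i)) ∧ ∀ i j k : Fin m, i ≠ j → j ≠ k → i ≠ k →
      EuclideanGeometry.angle (P (p i)) (P (p j)) (P (p k)) ≤ α := by
  have hT : ∀ i j k : Fin m, i < j → j < k → (p i ≠ p j ∧ p j ≠ p k ∧ p i ≠ p k ∧
      EuclideanGeometry.angle (P (p i)) (P (p j)) (P (p k)) ≤ α ∧
      EuclideanGeometry.angle (P (p j)) (P (p i)) (P (p k)) ≤ α ∧
      EuclideanGeometry.angle (P (p i)) (P (p k)) (P (p j)) ≤ α) := by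
    intro i j k hij hjk
    have := h i j k hij hjk
    unfold good at this
    exact of_decide_eq_true this
  have hA : ∀ i j k : Fin m, i ≠ j → j ≠ k → i ≠ k → (p i ≠ p j ∧
      EuclideanGeometry.angle (P (p i)) (P (p j)) (P (p k)) ≤ α) := by
    intro i j k hij hjk hik
    rcases lt_or_gt_of_ne hij with h1 | h1 <;> rcases lt_or_gt_of_ne hjk with h2 | h2 <;>
      rcases lt_or_gt_of_ne hik with h3 | h3
    · obtain ⟨a1, a2, a3, a4, a5, a6⟩ := hT i j k h1 h2
      exact ⟨a1, a4⟩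
    · exact absurd (h1.trans h2) (not_lt.2 h3.le)
    · -- i < k < j
      obtain ⟨a1, a2, a3, a4, a5, a6⟩ := hT i k j h3 h2
      exact ⟨a3, a6⟩
    · -- k < i < j
      obtain ⟨a1, a2, a3, a4, a5, a6⟩ := hT k i j h3 h1
      refine ⟨a2, ?_⟩
      rw [EuclideanGeometry.angle_comm]; exact a6
    · -- j < i < k
      obtain ⟨a1, a2, a3, a4, a5, a6⟩ := hT j i k h1 h3
      exact ⟨a1.symm, a5⟩
    · -- j < k < i
      obtain ⟨a1, a2, a3, a4, a5, a6⟩ := hT j k i h2 h3
      refine ⟨a3.symm, ?_⟩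
      rw [EuclideanGeometry.angle_comm]; exact a5
    · exact absurd (h2.trans h1) (not_lt.2 h3.le)
    · -- k < j < i
      obtain ⟨a1, a2, a3, a4, a5, a6⟩ := hT k j i h2 h1
      refine ⟨a2.symm, ?_⟩
      rw [EuclideanGeometry.angle_comm]; exact a4
  have hinj : Function.Injective p := by
    intro i j hij
    by_contra hne
    have hc : ({i, j} : Finset (Fin m)).card < (Finset.univ : Finset (Fin m)).card := by
      rw [Finset.card_univ, Fintype.card_fin]
      exact lt_of_le_of_lt (Finset.card_le_two) (by omega)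
    obtain ⟨k, -, hk⟩ := Finset.exists_mem_notMem_of_card_lt_card hc
    simp only [Finset.mem_insert, Finset.mem_singleton, not_or] at hk
    exact (hA i j k hne (Ne.symm hk.2) (Ne.symm hk.1)).1 hij
  refine ⟨⟨fun i j hij => hinj (hP.1 hij), ?_⟩, fun i j k hij hjk hik => (hA i j k hij hjk hik).2⟩
  intro i j k hij hjk hik
  exact hP.2 (p i) (p j) (p k) (fun e => hij (hinj e)) (fun e => hjk (hinj e))
    (fun e => hik (hinj e))

/-- five indices -/
theorem no_good5 {n : ℕ} (α : ℝ) (P : Fin n → EuclideanSpace ℝ (Fin 2)) (hP : GenPos P)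
    (h5 : ∀ Q : Fin 5 → EuclideanSpace ℝ (Fin 2), GenPos Q → ∃ i j k : Fin 5, i ≠ j ∧ j ≠ k ∧
      i ≠ k ∧ α < EuclideanGeometry.angle (Q i) (Q j) (Q k)) (a b c d e : Fin n) :
    (good α P a b c && good α P a b d && good α P a b e && good α P a c d && good α P a c e &&
      good α P a d e && good α P b c d && good α P b c e && good α P b d e &&
      good α P c d e) = false := by
  by_contra hcon
  rw [Bool.not_eq_false] at hcon
  simp only [Bool.and_eq_true] at hcon
  obtain ⟨⟨⟨⟨⟨⟨⟨⟨⟨g1, g2⟩, g3⟩, g4⟩, g5⟩, g6⟩, g7⟩, g8⟩, g9⟩, g10⟩ := hcon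
  have hh : ∀ i j k : Fin 5, i < j → j < k →
      good α P ((![a, b, c, d, e] : Fin 5 → Fin n) i) ((![a, b, c, d, e] : Fin 5 → Fin n) j)
        ((![a, b, c, d, e] : Fin 5 → Fin n) k) = true := by
    intro i j k hij hjk
    have hcases : (i = 0 ∧ j = 1 ∧ k = 2) ∨ (i = 0 ∧ j = 1 ∧ k = 3) ∨ (i = 0 ∧ j = 1 ∧ k = 4) ∨
        (i = 0 ∧ j = 2 ∧ k = 3) ∨ (i = 0 ∧ j = 2 ∧ k = 4) ∨ (i = 0 ∧ j = 3 ∧ k = 4) ∨
        (i = 1 ∧ j = 2 ∧ k = 3) ∨ (i = 1 ∧ j = 2 ∧ k = 4) ∨ (i = 1 ∧ j = 3 ∧ k = 4) ∨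
        (i = 2 ∧ j = 3 ∧ k = 4) := by
      revert i j k
      decide
    rcases hcases with ⟨rfl, rfl, rfl⟩ | ⟨rfl, rfl, rfl⟩ | ⟨rfl, rfl, rfl⟩ | ⟨rfl, rfl, rfl⟩ |
      ⟨rfl, rfl, rfl⟩ | ⟨rfl, rfl, rfl⟩ | ⟨rfl, rfl, rfl⟩ | ⟨rfl, rfl, rfl⟩ | ⟨rfl, rfl, rfl⟩ |
      ⟨rfl, rfl, rfl⟩
    · exact g1
    · exact g2
    · exact g3
    · exact g4
    · exact g5
    · exact g6
    · exact g7
    · exact g8
    · exact g9
    · exact g10
  obtain ⟨hG, hang⟩ := no_good α P hP (![a, b, c, d, e] : Fin 5 → Fin n) (by norm_num) hh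
  obtain ⟨i, j, k, hij, hjk, hik, hlt⟩ := h5 _ hG
  exact absurd (hang i j k hij hjk hik) (not_le.2 hlt)

/-- six indices -/
theorem no_good6 {n : ℕ} (α : ℝ) (P : Fin n → EuclideanSpace ℝ (Fin 2)) (hP : GenPos P)
    (h6 : ∀ Q : Fin 6 → EuclideanSpace ℝ (Fin 2), GenPos Q → ∃ i j k : Fin 6, i ≠ j ∧ j ≠ k ∧
      i ≠ k ∧ α < EuclideanGeometry.angle (Q i) (Q j) (Q k)) (p : Fin 6 → Fin n) :
    ∃ i j k : Fin 6, i < j ∧ j < k ∧ good α P (p i) (p j) (p k) = false := by
  by_contra hcon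
  have hh : ∀ i j k : Fin 6, i < j → j < k → good α P (p i) (p j) (p k) = true := by
    intro i j k hij hjk
    by_contra hne
    exact hcon ⟨i, j, k, hij, hjk, by simpa using hne⟩
  obtain ⟨hG, hang⟩ := no_good α P hP p (by norm_num) hh
  obtain ⟨i, j, k, hij, hjk, hik, hlt⟩ := h6 _ hG
  exact absurd (hang i j k hij hjk hik) (not_le.2 hlt)

end Pool.Agent.Helper585.Acute.J
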