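import Mathlib
import Pool.Agent.Helper585.Acute.Defs2

/-!
Five points have an angle of at least 108 degrees, six points one of at least 120 degrees.
-/

set_option autoImplicit false

namespace Pool.Agent.Helper585.Acute.J

open scoped Classical
open Filter

theorem dirs_inner (u v : EuclideanSpace ℝ (Fin 2)) :
    inner ℝ u v = u 0 * v 0 + u 1 * v 1 := by
  simp [PiLp.inner_apply, Fin.sum_univ_two]
  ring

theorem dirs_cos (u v : EuclideanSpace ℝ (Fin 2)) :
    Real.cos (InnerProductGeometry.angle u v) * (‖u‖ * ‖v‖) = u 0 * v 0 + u 1 * v 1 := by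
  rw [InnerProductGeometry.cos_angle_mul_norm_mul_norm, dirs_inner]

theorem dirs_sin (u v : EuclideanSpace ℝ (Fin 2)) (h : 0 ≤ u 0 * v 1 - u 1 * v 0) :
    Real.sin (InnerProductGeometry.angle u v) * (‖u‖ * ‖v‖) = u 0 * v 1 - u 1 * v 0 := by
  rw [InnerProductGeometry.sin_angle_mul_norm_mul_norm, dirs_inner, dirs_inner, dirs_inner]
  rw [show (u 0 * u 0 + u 1 * u 1) * (v 0 * v 0 + v 1 * v 1) -
    (u 0 * v 0 + u 1 * v 1) * (u 0 * v 0 + u 1 * v 1) = (u 0 * v 1 - u 1 * v 0) ^ 2 by ring]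
  exact Real.sqrt_sq h

/-- three directions in anticlockwise order, consecutive ones less than a straight angle apart -/
theorem three_dirs (u v w : EuclideanSpace ℝ (Fin 2)) (h1 : 0 < u 0 * v 1 - u 1 * v 0)
    (h2 : 0 < v 0 * w 1 - v 1 * w 0) :
    (0 ≤ u 0 * w 1 - u 1 * w 0 ∧ InnerProductGeometry.angle u w =
      InnerProductGeometry.angle u v + InnerProductGeometry.angle v w) ∨
    (u 0 * w 1 - u 1 * w 0 < 0 ∧ InnerProductGeometry.angle u w +
      InnerProductGeometry.angle u v + InnerProductGeometry.angle v w = 2 * Real.pi) := by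
  have hu : 0 < ‖u‖ := by
    rw [norm_pos_iff]
    rintro rfl
    simp at h1
  have hv : 0 < ‖v‖ := by
    rw [norm_pos_iff]
    rintro rfl
    simp at h1
  have hw : 0 < ‖w‖ := by
    rw [norm_pos_iff]
    rintro rfl
    simp at h2
  have ca := dirs_cos u v
  have sa := dirs_sin u v h1.le
  have cb := dirs_cos v w
  have sb := dirs_sin v w h2.le
  have cg := dirs_cos u w
  have hvv : ‖v‖ * ‖v‖ = v 0 * v 0 + v 1 * v 1 := by
    rw [← dirs_inner, real_inner_self_eq_norm_mul_norm]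
  have a0 := InnerProductGeometry.angle_nonneg u v
  have a1 := InnerProductGeometry.angle_le_pi u v
  have b0 := InnerProductGeometry.angle_nonneg v w
  have b1 := InnerProductGeometry.angle_le_pi v w
  have g0 := InnerProductGeometry.angle_nonneg u w
  have g1 := InnerProductGeometry.angle_le_pi u w
  generalize InnerProductGeometry.angle u v = α at *
  generalize InnerProductGeometry.angle v w = β at *
  generalize InnerProductGeometry.angle u w = γ at *
  have hpos : 0 < (‖u‖ * ‖v‖) * (‖v‖ * ‖w‖) := by positivity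
  have hcos : Real.cos (α + β) = Real.cos γ := by
    have e : Real.cos (α + β) * ((‖u‖ * ‖v‖) * (‖v‖ * ‖w‖))
        = Real.cos γ * ((‖u‖ * ‖v‖) * (‖v‖ * ‖w‖)) := by
      rw [Real.cos_add]
      calc (Real.cos α * Real.cos β - Real.sin α * Real.sin β) * ((‖u‖ * ‖v‖) * (‖v‖ * ‖w‖))
          = (Real.cos α * (‖u‖ * ‖v‖)) * (Real.cos β * (‖v‖ * ‖w‖))
            - (Real.sin α * (‖u‖ * ‖v‖)) * (Real.sin β * (‖v‖ * ‖w‖)) := by ring
        _ = (u 0 * v 0 + u 1 * v 1) * (v 0 * w 0 + v 1 * w 1)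
            - (u 0 * v 1 - u 1 * v 0) * (v 0 * w 1 - v 1 * w 0) := by rw [ca, cb, sa, sb]
        _ = (u 0 * w 0 + u 1 * w 1) * (v 0 * v 0 + v 1 * v 1) := by ring
        _ = (Real.cos γ * (‖u‖ * ‖w‖)) * (‖v‖ * ‖v‖) := by rw [cg, hvv]
        _ = Real.cos γ * ((‖u‖ * ‖v‖) * (‖v‖ * ‖w‖)) := by ring
    exact mul_right_cancel₀ hpos.ne' e
  have hsin : Real.sin (α + β) * ((‖u‖ * ‖v‖) * (‖v‖ * ‖w‖))
      = (u 0 * w 1 - u 1 * w 0) * (‖v‖ * ‖v‖) := by
    rw [Real.sin_add]
    calc (Real.sin α * Real.cos β + Real.cos α * Real.sin β) * ((‖u‖ * ‖v‖) * (‖v‖ * ‖w‖))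
        = (Real.sin α * (‖u‖ * ‖v‖)) * (Real.cos β * (‖v‖ * ‖w‖))
          + (Real.cos α * (‖u‖ * ‖v‖)) * (Real.sin β * (‖v‖ * ‖w‖)) := by ring
      _ = (u 0 * v 1 - u 1 * v 0) * (v 0 * w 0 + v 1 * w 1)
          + (u 0 * v 0 + u 1 * v 1) * (v 0 * w 1 - v 1 * w 0) := by rw [ca, cb, sa, sb]
      _ = (u 0 * w 1 - u 1 * w 0) * (v 0 * v 0 + v 1 * v 1) := by ring
      _ = (u 0 * w 1 - u 1 * w 0) * (‖v‖ * ‖v‖) := by rw [hvv]
  have hvvpos : 0 < ‖v‖ * ‖v‖ := by positivity
  -- the sines are positive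
  have hsa : 0 < Real.sin α := by
    rw [← sa] at h1
    exact (mul_pos_iff_of_pos_right (by positivity)).1 h1
  have hsb : 0 < Real.sin β := by
    rw [← sb] at h2
    exact (mul_pos_iff_of_pos_right (by positivity)).1 h2
  have hα : 0 < α := by
    rcases a0.eq_or_lt with h | h
    · rw [← h] at hsa; simp at hsa
    · exact h
  have hβ : 0 < β := by
    rcases b0.eq_or_lt with h | h
    · rw [← h] at hsb; simp at hsb
    · exact h
  have hα' : α < Real.pi := by
    rcases a1.eq_or_lt with h | h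
    · rw [h] at hsa; simp at hsa
    · exact h
  have hβ' : β < Real.pi := by
    rcases b1.eq_or_lt with h | h
    · rw [h] at hsb; simp at hsb
    · exact h
  rcases le_or_gt (α + β) Real.pi with hle | hgt
  · -- sine nonnegative
    left
    have hs : 0 ≤ Real.sin (α + β) := Real.sin_nonneg_of_nonneg_of_le_pi (by linarith) hle
    refine ⟨?_, ?_⟩
    · by_contra hneg
      push Not at hneg
      have h3 : (u 0 * w 1 - u 1 * w 0) * (‖v‖ * ‖v‖) < 0 := mul_neg_of_neg_of_pos hneg hvvpos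
      have h4 : 0 ≤ Real.sin (α + β) * ((‖u‖ * ‖v‖) * (‖v‖ * ‖w‖)) := mul_nonneg hs hpos.le
      linarith
    · exact Real.injOn_cos ⟨g0, g1⟩ ⟨by linarith, hle⟩ hcos.symm
  · right
    have hs : Real.sin (α + β) < 0 := by
      have h5 : Real.sin (α + β - Real.pi) = - Real.sin (α + β) := Real.sin_sub_pi _
      have h6 : 0 < Real.sin (α + β - Real.pi) :=
        Real.sin_pos_of_pos_of_lt_pi (by linarith) (by linarith)
      linarith
    refine ⟨?_, ?_⟩
    · by_contra hneg
      push Not at hneg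
      have h3 : 0 ≤ (u 0 * w 1 - u 1 * w 0) * (‖v‖ * ‖v‖) := mul_nonneg hneg hvvpos.le
      have h4 : Real.sin (α + β) * ((‖u‖ * ‖v‖) * (‖v‖ * ‖w‖)) < 0 := mul_neg_of_neg_of_pos hs hpos
      linarith
    · have h7 : Real.cos (2 * Real.pi - (α + β)) = Real.cos γ := by
        rw [Real.cos_two_pi_sub, hcos]
      have h8 := Real.injOn_cos (x₁ := γ) (x₂ := 2 * Real.pi - (α + β)) ⟨g0, g1⟩
        ⟨by linarith, by linarith⟩ h7.symm
      linarith

theorem sort_around_aux (x1 y1 x2 y2 : ℝ) (h1 : 0 < x1 ∨ (x1 = 0 ∧ 0 < y1))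
    (h2 : 0 < x2 ∨ (x2 = 0 ∧ 0 < y2)) (hne : x1 * y2 - y1 * x2 ≠ 0) :
    y1 / (x1 + |y1|) ≠ y2 / (x2 + |y2|) ∧
      (y1 / (x1 + |y1|) < y2 / (x2 + |y2|) → 0 < x1 * y2 - y1 * x2) := by
  have d1 : 0 < x1 + |y1| := by
    rcases h1 with h | ⟨h, h'⟩
    · positivity
    · rw [h, zero_add]
      exact abs_pos.mpr h'.ne'
  have d2 : 0 < x2 + |y2| := by
    rcases h2 with h | ⟨h, h'⟩
    · positivity
    · rw [h, zero_add]
      exact abs_pos.mpr h'.ne'
  have x1nn : 0 ≤ x1 := by
    rcases h1 with h | ⟨h, h'⟩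
    · exact h.le
    · exact h.ge
  have x2nn : 0 ≤ x2 := by
    rcases h2 with h | ⟨h, h'⟩
    · exact h.le
    · exact h.ge
  constructor
  · intro h
    rw [div_eq_div_iff d1.ne' d2.ne'] at h
    apply hne
    rcases le_total 0 y1 with s1 | s1 <;> rcases le_total 0 y2 with s2 | s2
    · rw [abs_of_nonneg s1, abs_of_nonneg s2] at h
      linarith
    · have e1 : 0 ≤ y1 * (x2 + |y2|) := mul_nonneg s1 d2.le
      have e2 : y2 * (x1 + |y1|) ≤ 0 := mul_nonpos_of_nonpos_of_nonneg s2 d1.le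
      have e3 : y1 * (x2 + |y2|) = 0 := by linarith
      have e4 : y2 * (x1 + |y1|) = 0 := by linarith
      rw [(mul_eq_zero.mp e3).resolve_right d2.ne', (mul_eq_zero.mp e4).resolve_right d1.ne']
      ring
    · have e1 : y1 * (x2 + |y2|) ≤ 0 := mul_nonpos_of_nonpos_of_nonneg s1 d2.le
      have e2 : 0 ≤ y2 * (x1 + |y1|) := mul_nonneg s2 d1.le
      have e3 : y1 * (x2 + |y2|) = 0 := by linarith
      have e4 : y2 * (x1 + |y1|) = 0 := by linarith
      rw [(mul_eq_zero.mp e3).resolve_right d2.ne', (mul_eq_zero.mp e4).resolve_right d1.ne']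
      ring
    · rw [abs_of_nonpos s1, abs_of_nonpos s2] at h
      linarith
  · intro h
    rw [div_lt_div_iff₀ d1 d2] at h
    rcases le_total 0 y1 with s1 | s1 <;> rcases le_total 0 y2 with s2 | s2
    · rw [abs_of_nonneg s1, abs_of_nonneg s2] at h
      linarith
    · have e1 : 0 ≤ y1 * (x2 + |y2|) := mul_nonneg s1 d2.le
      have e2 : y2 * (x1 + |y1|) ≤ 0 := mul_nonpos_of_nonpos_of_nonneg s2 d1.le
      linarith
    · refine lt_of_le_of_ne ?_ hne.symm
      have e1 : 0 ≤ x1 * y2 := mul_nonneg x1nn s2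
      have e2 : y1 * x2 ≤ 0 := mul_nonpos_of_nonpos_of_nonneg s1 x2nn
      linarith
    · rw [abs_of_nonpos s1, abs_of_nonpos s2] at h
      linarith

/-- the points can be numbered such that the others are seen from the first one in anticlockwise
order, within a half plane -/
theorem sort_around {m : ℕ} (P : Fin (m + 1) → EuclideanSpace ℝ (Fin 2)) (hP : GenPos P) :
    ∃ e : Equiv.Perm (Fin (m + 1)), ∀ i j : Fin m, i < j →
      0 < (P (e i.succ) 0 - P (e 0) 0) * (P (e j.succ) 1 - P (e 0) 1) -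
        (P (e i.succ) 1 - P (e 0) 1) * (P (e j.succ) 0 - P (e 0) 0) := by
  obtain ⟨hinj, hcol⟩ := hP
  obtain ⟨i0, hi0⟩ := Finite.exists_min (fun i => toLex (P i 0, P i 1))
  have hhalf : ∀ a, a ≠ i0 → 0 < P a 0 - P i0 0 ∨ (P a 0 - P i0 0 = 0 ∧ 0 < P a 1 - P i0 1) := by
    intro a ha
    have h := hi0 a
    rw [Prod.Lex.toLex_le_toLex] at h
    rcases h with h | ⟨h, h'⟩
    · left
      exact sub_pos.mpr h
    · right
      refine ⟨sub_eq_zero.mpr h.symm, sub_pos.mpr (lt_of_le_of_ne h' fun h2 => ha ?_)⟩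
      apply hinj
      ext k
      fin_cases k
      · exact h.symm
      · exact h2.symm
  have hcross : ∀ a b, a ≠ i0 → b ≠ i0 → a ≠ b →
      (P a 0 - P i0 0) * (P b 1 - P i0 1) - (P a 1 - P i0 1) * (P b 0 - P i0 0) ≠ 0 := by
    intro a b ha hb hab h
    apply hcol i0 a b ha.symm hab hb.symm
    rw [collinear_iff_of_mem (p₀ := P i0) (by simp)]
    refine ⟨P a - P i0, ?_⟩
    obtain ⟨r, hr0, hr1⟩ : ∃ r : ℝ, r * (P a 0 - P i0 0) = P b 0 - P i0 0 ∧
        r * (P a 1 - P i0 1) = P b 1 - P i0 1 := by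
      rcases hhalf a ha with h1 | ⟨h1, h2⟩
      · refine ⟨(P b 0 - P i0 0) / (P a 0 - P i0 0), div_mul_cancel₀ _ h1.ne', ?_⟩
        rw [div_mul_eq_mul_div, div_eq_iff h1.ne']
        linarith
      · refine ⟨(P b 1 - P i0 1) / (P a 1 - P i0 1), ?_, div_mul_cancel₀ _ h2.ne'⟩
        rw [h1] at h ⊢
        rw [zero_mul, zero_sub, neg_eq_zero] at h
        rw [(mul_eq_zero.mp h).resolve_left h2.ne', mul_zero]
    intro p hp
    rcases hp with rfl | rfl | rfl
    · exact ⟨0, by simp⟩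
    · exact ⟨1, by simp⟩
    · refine ⟨r, ?_⟩
      ext k
      fin_cases k
      · show P b 0 = r * (P a 0 - P i0 0) + P i0 0
        rw [hr0]
        ring
      · show P b 1 = r * (P a 1 - P i0 1) + P i0 1
        rw [hr1]
        ring
  let s : Fin m → Fin (m + 1) := fun i => Equiv.swap 0 i0 i.succ
  have hs0 : ∀ i, s i ≠ i0 := by
    intro i h
    have h1 : Equiv.swap 0 i0 i.succ = Equiv.swap 0 i0 0 := by
      rw [Equiv.swap_apply_left]
      exact h
    exact Fin.succ_ne_zero i ((Equiv.swap 0 i0).injective h1)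
  have hsinj : Function.Injective s := fun i j h => Fin.succ_injective _ ((Equiv.swap 0 i0).injective h)
  let K : Fin m → ℝ := fun i =>
    (P (s i) 1 - P i0 1) / ((P (s i) 0 - P i0 0) + |P (s i) 1 - P i0 1|)
  have hK : ∀ i j, i ≠ j → K i ≠ K j ∧ (K i < K j →
      0 < (P (s i) 0 - P i0 0) * (P (s j) 1 - P i0 1) - (P (s i) 1 - P i0 1) * (P (s j) 0 - P i0 0)) :=
    fun i j hij => sort_around_aux _ _ _ _ (hhalf _ (hs0 i)) (hhalf _ (hs0 j))
      (hcross _ _ (hs0 i) (hs0 j) (fun h => hij (hsinj h)))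
  have hKinj : Function.Injective K := by
    intro i j h
    by_contra hne
    exact (hK i j hne).1 h
  have hmono : StrictMono (K ∘ Tuple.sort K) :=
    (Tuple.monotone_sort K).strictMono_of_injective (hKinj.comp (Tuple.sort K).injective)
  refine ⟨Equiv.Perm.decomposeFin.symm (i0, Tuple.sort K), fun i j hij => ?_⟩
  rw [Equiv.Perm.decomposeFin_symm_apply_zero, Equiv.Perm.decomposeFin_symm_apply_succ,
    Equiv.Perm.decomposeFin_symm_apply_succ]
  exact (hK _ _ (fun h => hij.ne ((Tuple.sort K).injective h))).2 (hmono hij)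

theorem auxF_apex (o x y z : EuclideanSpace ℝ (Fin 2))
    (h1 : 0 < (x 0 - o 0) * (y 1 - o 1) - (x 1 - o 1) * (y 0 - o 0))
    (h2 : 0 < (y 0 - o 0) * (z 1 - o 1) - (y 1 - o 1) * (z 0 - o 0))
    (h3 : 0 < (x 0 - o 0) * (z 1 - o 1) - (x 1 - o 1) * (z 0 - o 0)) :
    EuclideanGeometry.angle x o z = EuclideanGeometry.angle x o y + EuclideanGeometry.angle y o z := by
  rcases three_dirs (x - o) (y - o) (z - o) (by simpa using h1) (by simpa using h2) with h | h
  · exact h.2
  · have h4 := h.1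
    simp only [PiLp.sub_apply] at h4
    linarith

theorem auxF_vertex (o x y z : EuclideanSpace ℝ (Fin 2))
    (h1 : 0 < (x 0 - o 0) * (y 1 - o 1) - (x 1 - o 1) * (y 0 - o 0))
    (h2 : 0 < (y 0 - o 0) * (z 1 - o 1) - (y 1 - o 1) * (z 0 - o 0)) :
    EuclideanGeometry.angle z y x = EuclideanGeometry.angle z y o + EuclideanGeometry.angle o y x ∨
    EuclideanGeometry.angle z y x + EuclideanGeometry.angle z y o +
      EuclideanGeometry.angle o y x = 2 * Real.pi := by
  rcases three_dirs (z - y) (o - y) (x - y)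
    (by simp only [PiLp.sub_apply]; nlinarith) (by simp only [PiLp.sub_apply]; nlinarith) with h | h
  · exact Or.inl h.2
  · exact Or.inr h.2

theorem auxF_tri (o x y : EuclideanSpace ℝ (Fin 2)) (h : x ≠ o) :
    EuclideanGeometry.angle x o y + EuclideanGeometry.angle o y x +
      EuclideanGeometry.angle y x o = Real.pi :=
  EuclideanGeometry.angle_add_angle_add_angle_eq_pi y h.symm

/-- five points have an angle of at least 108 degrees -/
theorem five_points (P : Fin 5 → EuclideanSpace ℝ (Fin 2)) (hP : GenPos P) :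
    ∃ i j k : Fin 5, i ≠ j ∧ j ≠ k ∧ i ≠ k ∧
      3 * Real.pi / 5 ≤ EuclideanGeometry.angle (P i) (P j) (P k) := by
  by_contra hcon
  push Not at hcon
  obtain ⟨e, he⟩ := sort_around (m := 4) P hP
  have hpi := Real.pi_pos
  have hang : ∀ i j k : Fin 5, i ≠ j → j ≠ k → i ≠ k →
      EuclideanGeometry.angle (P (e i)) (P (e j)) (P (e k)) < 3 * Real.pi / 5 := by
    intro i j k h1 h2 h3
    exact hcon _ _ _ (e.injective.ne h1) (e.injective.ne h2) (e.injective.ne h3)
  have hne : ∀ i j : Fin 5, i ≠ j → P (e i) ≠ P (e j) := fun i j h =>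
    hP.1.ne (e.injective.ne h)
  have c12 := he 0 1 (by decide)
  have c13 := he 0 2 (by decide)
  have c14 := he 0 3 (by decide)
  have c23 := he 1 2 (by decide)
  have c34 := he 2 3 (by decide)
  have s0 : (0 : Fin 4).succ = (1 : Fin 5) := rfl
  have s1 : (1 : Fin 4).succ = (2 : Fin 5) := rfl
  have s2 : (2 : Fin 4).succ = (3 : Fin 5) := rfl
  have s3 : (3 : Fin 4).succ = (4 : Fin 5) := rfl
  rw [s0, s1] at c12
  rw [s0, s2] at c13
  rw [s0, s3] at c14
  rw [s1, s2] at c23
  rw [s2, s3] at c34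
  have a1 := auxF_apex _ _ _ _ c12 c23 c13
  have a2 := auxF_apex _ _ _ _ c13 c34 c14
  have v2 := auxF_vertex _ _ _ _ c12 c23
  have v3 := auxF_vertex _ _ _ _ c23 c34
  have t1 := auxF_tri (P (e 0)) (P (e 1)) (P (e 2)) (hne _ _ (by decide))
  have t2 := auxF_tri (P (e 0)) (P (e 2)) (P (e 3)) (hne _ _ (by decide))
  have t3 := auxF_tri (P (e 0)) (P (e 3)) (P (e 4)) (hne _ _ (by decide))
  have g0 := hang 1 0 4 (by decide) (by decide) (by decide)
  have g2 := hang 3 2 1 (by decide) (by decide) (by decide)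
  have g2a := hang 3 2 0 (by decide) (by decide) (by decide)
  have g2b := hang 0 2 1 (by decide) (by decide) (by decide)
  have g3 := hang 4 3 2 (by decide) (by decide) (by decide)
  have g3a := hang 4 3 0 (by decide) (by decide) (by decide)
  have g3b := hang 0 3 2 (by decide) (by decide) (by decide)
  have g1 := hang 2 1 0 (by decide) (by decide) (by decide)
  have g4 := hang 0 4 3 (by decide) (by decide) (by decide)
  rcases v2 with v2 | v2
  · rcases v3 with v3 | v3
    · linarith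
    · linarith
  · linarith

/-- six points have an angle of at least 120 degrees -/
theorem six_points (P : Fin 6 → EuclideanSpace ℝ (Fin 2)) (hP : GenPos P) :
    ∃ i j k : Fin 6, i ≠ j ∧ j ≠ k ∧ i ≠ k ∧
      2 * Real.pi / 3 ≤ EuclideanGeometry.angle (P i) (P j) (P k) := by
  by_contra hcon
  push Not at hcon
  obtain ⟨e, he⟩ := sort_around (m := 5) P hP
  have hpi := Real.pi_pos
  have hang : ∀ i j k : Fin 6, i ≠ j → j ≠ k → i ≠ k →
      EuclideanGeometry.angle (P (e i)) (P (e j)) (P (e k)) < 2 * Real.pi / 3 := by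
    intro i j k h1 h2 h3
    exact hcon _ _ _ (e.injective.ne h1) (e.injective.ne h2) (e.injective.ne h3)
  have hne : ∀ i j : Fin 6, i ≠ j → P (e i) ≠ P (e j) := fun i j h =>
    hP.1.ne (e.injective.ne h)
  have c12 := he 0 1 (by decide)
  have c13 := he 0 2 (by decide)
  have c14 := he 0 3 (by decide)
  have c15 := he 0 4 (by decide)
  have c23 := he 1 2 (by decide)
  have c34 := he 2 3 (by decide)
  have c45 := he 3 4 (by decide)
  have s0 : (0 : Fin 5).succ = (1 : Fin 6) := rfl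
  have s1 : (1 : Fin 5).succ = (2 : Fin 6) := rfl
  have s2 : (2 : Fin 5).succ = (3 : Fin 6) := rfl
  have s3 : (3 : Fin 5).succ = (4 : Fin 6) := rfl
  have s4 : (4 : Fin 5).succ = (5 : Fin 6) := rfl
  rw [s0, s1] at c12
  rw [s0, s2] at c13
  rw [s0, s3] at c14
  rw [s0, s4] at c15
  rw [s1, s2] at c23
  rw [s2, s3] at c34
  rw [s3, s4] at c45
  have a1 := auxF_apex _ _ _ _ c12 c23 c13
  have a2 := auxF_apex _ _ _ _ c13 c34 c14
  have a3 := auxF_apex _ _ _ _ c14 c45 c15
  have v2 := auxF_vertex _ _ _ _ c12 c23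
  have v3 := auxF_vertex _ _ _ _ c23 c34
  have v4 := auxF_vertex _ _ _ _ c34 c45
  have t1 := auxF_tri (P (e 0)) (P (e 1)) (P (e 2)) (hne _ _ (by decide))
  have t2 := auxF_tri (P (e 0)) (P (e 2)) (P (e 3)) (hne _ _ (by decide))
  have t3 := auxF_tri (P (e 0)) (P (e 3)) (P (e 4)) (hne _ _ (by decide))
  have t4 := auxF_tri (P (e 0)) (P (e 4)) (P (e 5)) (hne _ _ (by decide))
  have g0 := hang 1 0 5 (by decide) (by decide) (by decide)
  have g2 := hang 3 2 1 (by decide) (by decide) (by decide)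
  have g2a := hang 3 2 0 (by decide) (by decide) (by decide)
  have g2b := hang 0 2 1 (by decide) (by decide) (by decide)
  have g3 := hang 4 3 2 (by decide) (by decide) (by decide)
  have g3a := hang 4 3 0 (by decide) (by decide) (by decide)
  have g3b := hang 0 3 2 (by decide) (by decide) (by decide)
  have g4 := hang 5 4 3 (by decide) (by decide) (by decide)
  have g4a := hang 5 4 0 (by decide) (by decide) (by decide)
  have g4b := hang 0 4 3 (by decide) (by decide) (by decide)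
  have g1 := hang 2 1 0 (by decide) (by decide) (by decide)
  have g5 := hang 0 5 4 (by decide) (by decide) (by decide)
  rcases v2 with v2 | v2
  · rcases v3 with v3 | v3
    · rcases v4 with v4 | v4
      · linarith
      · linarith
    · linarith
  · linarith

end Pool.Agent.Helper585.Acute.J
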