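import Mathlib
import Pool.Agent.Helper585.Acute.Final
import Pool.Agent.Helper585.Acute.Poly
import Pool.Agent.Helper585.Acute.Clus
import Pool.Agent.Helper585.Acute.Good
import Pool.Agent.Helper585.Acute.KA2

/-!
The jump of F at 3 pi / 5.
-/

set_option autoImplicit false

namespace Pool.Agent.Helper585.Acute.J

open scoped Classical
open Filter

theorem F_ge5 (α : ℝ) (hα : α < 3 * Real.pi / 5) : (203 : ℝ) / 3000 ≤ F α := by
  have h := ge_lim (fun a => α < a) (F α) (F_tendsto α) (203 / 6000) (1 / 2) (by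
    intro n P hP
    have h5 : ∀ Q : Fin 5 → EuclideanSpace ℝ (Fin 2), GenPos Q → ∃ i j k : Fin 5, i ≠ j ∧ j ≠ k ∧
        i ≠ k ∧ α < EuclideanGeometry.angle (Q i) (Q j) (Q k) := by
      intro Q hQ
      obtain ⟨i, j, k, h1, h2, h3, h4⟩ := five_points Q hQ
      exact ⟨i, j, k, h1, h2, h3, lt_of_lt_of_le hα h4⟩
    have hd := K5.density (good α P) (good_s1 α P) (good_s2 α P) (no_good5 α P hP h5)
    rw [Fintype.card_fin] at hd
    have hd' : ((∑ a, ∑ b, ∑ c, ((good α P a b c).toNat : ℤ) : ℤ) : ℝ) ≤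
        7970 / 10000 * (n : ℝ) ^ 3 := by
      have h2 : ((10000 * ∑ a, ∑ b, ∑ c, ((good α P a b c).toNat : ℤ) : ℤ) : ℝ) ≤
          ((7970 * (n : ℤ) ^ 3 : ℤ) : ℝ) := by exact_mod_cast hd
      push_cast at h2 ⊢
      linarith
    have hb := bad_lower α P _ hd'
    have hn : (0 : ℝ) ≤ n := Nat.cast_nonneg n
    nlinarith)
  linarith

theorem F_le5 (α : ℝ) (hα : 3 * Real.pi / 5 < α) : F α ≤ 23 / 375 := by
  have h := lim_le (fun a => α < a) (F α) (F_tendsto α) 5 (by norm_num) 23 (by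
    intro t ht
    obtain ⟨P, hP, hc⟩ := f_three t ht α hα
    refine ⟨P, hP, ?_⟩
    exact_mod_cast hc)
  norm_num at h
  exact h

theorem F_le6 (α : ℝ) (hα : 2 * Real.pi / 3 < α) : F α ≤ 1 / 48 := by
  have h := lim_le (fun a => α < a) (F α) (F_tendsto α) 4 (by norm_num) 4 (by
    intro t ht
    obtain ⟨P, hP, hc⟩ := f_four t ht α hα
    refine ⟨P, hP, ?_⟩
    exact_mod_cast hc)
  norm_num at h
  exact h

/-- a lower bound for `F` to the left of a point holds at the point -/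
theorem F_ge_left (α c : ℝ) (h : ∀ x < α, c ≤ F x) : c ≤ F α := by
  have h1 : Tendsto F (nhdsWithin α (Set.Iio α)) (nhds (F α)) :=
    (F_left α).tendsto.mono_left (nhdsWithin_mono α Set.Iio_subset_Iic_self)
  refine ge_of_tendsto h1 ?_
  filter_upwards [self_mem_nhdsWithin] with x hx
  exact h x hx

theorem F_jump (α c d : ℝ) (hdc : d < c) (h : ∀ x < α, c ≤ F x) (h' : ∀ x, α < x → F x ≤ d) :
    ¬ ContinuousAt F α := by
  intro hc
  have h1 : Tendsto F (nhdsWithin α (Set.Ioi α)) (nhds (F α)) :=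
    hc.tendsto.mono_left nhdsWithin_le_nhds
  have h2 : F α ≤ d := by
    refine le_of_tendsto h1 ?_
    filter_upwards [self_mem_nhdsWithin] with x hx
    exact h' x hx
  have h3 := F_ge_left α c h
  linarith

theorem F_half5 : (203 : ℝ) / 3000 ≤ F (3 * Real.pi / 5) := F_ge_left _ _ F_ge5

theorem F_not5 : ¬ ContinuousAt F (3 * Real.pi / 5) :=
  F_jump _ (203 / 3000) (23 / 375) (by norm_num) F_ge5 F_le5

end Pool.Agent.Helper585.Acute.J
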