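import Mathlib
import Pool.Agent.Helper585.Acute.Final5
import Pool.Agent.Helper585.Acute.DeCaen

/-!
The jump of F at 2 pi / 3.
-/

set_option autoImplicit false

namespace Pool.Agent.Helper585.Acute.J

open scoped Classical
open Filter

theorem good_diag {n : ℕ} (α : ℝ) (P : Fin n → EuclideanSpace ℝ (Fin 2)) (a b : Fin n) :
    good α P a a b = false := by
  unfold good
  simp

theorem F_ge6 (α : ℝ) (hα : α < 2 * Real.pi / 3) : (1 : ℝ) / 30 ≤ F α := by
  have h := ge_lim (fun a => α < a) (F α) (F_tendsto α) (1 / 60) (1 / 2) (by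
    intro n P hP
    have h6 : ∀ Q : Fin 6 → EuclideanSpace ℝ (Fin 2), GenPos Q → ∃ i j k : Fin 6, i ≠ j ∧ j ≠ k ∧
        i ≠ k ∧ α < EuclideanGeometry.angle (Q i) (Q j) (Q k) := by
      intro Q hQ
      obtain ⟨i, j, k, h1, h2, h3, h4⟩ := six_points Q hQ
      exact ⟨i, j, k, h1, h2, h3, lt_of_lt_of_le hα h4⟩
    have hd := decaen6 (good α P) (good_s1 α P) (good_s2 α P) (good_diag α P)
      (no_good6 α P hP h6)
    have hd' : ((∑ a, ∑ b, ∑ c, ((good α P a b c).toNat : ℤ) : ℤ) : ℝ) ≤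
        9 / 10 * (n : ℝ) ^ 3 := by
      have h2 : ((10 * ∑ a, ∑ b, ∑ c, ((good α P a b c).toNat : ℤ) : ℤ) : ℝ) ≤
          ((9 * (n : ℤ) ^ 3 : ℤ) : ℝ) := by exact_mod_cast hd
      push_cast at h2 ⊢
      linarith
    have hb := bad_lower α P _ hd'
    have hn : (0 : ℝ) ≤ n := Nat.cast_nonneg n
    nlinarith)
  linarith

theorem F_half6 : (1 : ℝ) / 30 ≤ F (2 * Real.pi / 3) := F_ge_left _ _ F_ge6

theorem F_not6 : ¬ ContinuousAt F (2 * Real.pi / 3) :=
  F_jump _ (1 / 30) (1 / 48) (by norm_num) F_ge6 F_le6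

end Pool.Agent.Helper585.Acute.J
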