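import Mathlib

set_option autoImplicit false
set_option linter.unusedVariables false
set_option linter.unusedSimpArgs false

namespace Pool.Agent.Helper585.Acute.KM

/-- coefficients of the squares over an edgeless type -/
def sq0 : List (ℤ × (Bool → Bool → Bool → ℤ)) :=
  [(9, (fun x y z => match x, y, z with | false, false, false => 422 | false, false, true => 333 | false, true, false => 333 | false, true, true => -938 | true, false, false => 333 | true, false, true => -938 | true, true, false => -938 | true, true, true => 0)),
   (9, (fun x y z => match x, y, z with | false, false, false => 0 | false, false, true => 264 | false, true, false => 264 | false, true, true => -138 | true, false, false => 264 | true, false, true => -138 | true, true, false => -138 | true, true, true => 0)),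
   (9, (fun x y z => match x, y, z with | false, false, false => 0 | false, false, true => 0 | false, true, false => 0 | false, true, true => 87 | true, false, false => 0 | true, false, true => 87 | true, true, false => 87 | true, true, true => 0)),
   (1, (fun x y z => match x, y, z with | false, false, false => 0 | false, false, true => -1240 | false, true, false => -1240 | false, true, true => -1244 | true, false, false => 2480 | true, false, true => 622 | true, true, false => 622 | true, true, true => 0)),
   (1, (fun x y z => match x, y, z with | false, false, false => 0 | false, false, true => -1240 | false, true, false => 2480 | false, true, true => 622 | true, false, false => -1240 | true, false, true => -1244 | true, true, false => 622 | true, true, true => 0)),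
   (1, (fun x y z => match x, y, z with | false, false, false => 0 | false, false, true => 2480 | false, true, false => -1240 | false, true, true => 622 | true, false, false => -1240 | true, false, true => 622 | true, true, false => -1244 | true, true, true => 0)),
   (1, (fun x y z => match x, y, z with | false, false, false => 0 | false, false, true => 0 | false, true, false => 0 | false, true, true => 216 | true, false, false => 0 | true, false, true => -108 | true, true, false => -108 | true, true, true => 0)),
   (1, (fun x y z => match x, y, z with | false, false, false => 0 | false, false, true => 0 | false, true, false => 0 | false, true, true => -108 | true, false, false => 0 | true, false, true => 216 | true, true, false => -108 | true, true, true => 0)),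
   (1, (fun x y z => match x, y, z with | false, false, false => 0 | false, false, true => 0 | false, true, false => 0 | false, true, true => -108 | true, false, false => 0 | true, false, true => -108 | true, true, false => 216 | true, true, true => 0))]

/-- coefficients of the squares over an edge type -/
def sq1 : List (ℤ × (Bool → Bool → Bool → ℤ)) :=
  [(9, (fun x y z => match x, y, z with | false, false, false => 178 | false, false, true => -19 | false, true, false => -19 | false, true, true => 0 | true, false, false => -19 | true, false, true => 0 | true, true, false => 0 | true, true, true => 0)),
   (9, (fun x y z => match x, y, z with | false, false, false => 0 | false, false, true => 50 | false, true, false => 50 | false, true, true => 0 | true, false, false => 50 | true, false, true => 0 | true, true, false => 0 | true, true, true => 0)),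
   (1, (fun x y z => match x, y, z with | false, false, false => 0 | false, false, true => -1225 | false, true, false => -1225 | false, true, true => 0 | true, false, false => 2450 | true, false, true => 0 | true, true, false => 0 | true, true, true => 0)),
   (1, (fun x y z => match x, y, z with | false, false, false => 0 | false, false, true => -1225 | false, true, false => 2450 | false, true, true => 0 | true, false, false => -1225 | true, false, true => 0 | true, true, false => 0 | true, true, true => 0)),
   (1, (fun x y z => match x, y, z with | false, false, false => 0 | false, false, true => 2450 | false, true, false => -1225 | false, true, true => 0 | true, false, false => -1225 | true, false, true => 0 | true, true, false => 0 | true, true, true => 0))]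

/-- coefficients of the squares over a point -/
def sqZ : List (ℤ × (Bool → ℤ)) :=
  [(9, (fun x => match x with | false => 299 | true => -844)), (9, (fun x => match x with | false => 0 | true => 86))]

/-- sum of the products of coefficients -/
def ev {α : Type} (l : List (ℤ × (α → ℤ))) (x y : α) : ℤ :=
  match l with
  | [] => 0
  | (w, c) :: l => w * (c x * c y) + ev l x y

/-- sum of the products of coefficients (three arguments) -/
def ev3 (l : List (ℤ × (Bool → Bool → Bool → ℤ))) (x y z x' y' z' : Bool) : ℤ :=
  match l with
  | [] => 0
  | (w, c) :: l => w * (c x y z * c x' y' z') + ev3 l x y z x' y' z'

/-- the quadratic form over a type with three labelled points -/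
def QT (t x y z x' y' z' : Bool) : ℤ :=
  match t with
  | false => ev3 sq0 x y z x' y' z'
  | true => ev3 sq1 x y z x' y' z'

/-- the quadratic form over a labelled point -/
def QZ (x y : Bool) : ℤ := ev sqZ x y

/-- number of edges -/
def ne (b012 b013 b014 b023 b024 b034 b123 b124 b134 b234 : Bool) : ℤ :=
  (b012.toNat : ℤ) + (b013.toNat : ℤ) + (b014.toNat : ℤ) + (b023.toNat : ℤ) + (b024.toNat : ℤ) + (b034.toNat : ℤ) + (b123.toNat : ℤ) + (b124.toNat : ℤ) + (b134.toNat : ℤ) + (b234.toNat : ℤ)

set_option maxRecDepth 100000 in
theorem pointwise : ∀ b012 b013 b014 b023 b024 b034 b123 b124 b134 b234 : Bool,
    ((b012 && b013 && b023) ||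
      (b012 && b013 && b123) ||
      (b012 && b023 && b123) ||
      (b013 && b023 && b123) ||
      (b012 && b014 && b024) ||
      (b012 && b014 && b124) ||
      (b012 && b024 && b124) ||
      (b014 && b024 && b124) ||
      (b013 && b014 && b034) ||
      (b013 && b014 && b134) ||
      (b013 && b034 && b134) ||
      (b014 && b034 && b134) ||
      (b023 && b024 && b034) ||
      (b023 && b024 && b234) ||
      (b023 && b034 && b234) ||
      (b024 && b034 && b234) ||
      (b123 && b124 && b134) ||
      (b123 && b124 && b234) ||
      (b123 && b134 && b234) ||
      (b124 && b134 && b234) ||
      (b012 && b123 && b234 && b034 && b014) ||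
      (b012 && b124 && b234 && b034 && b013) ||
      (b013 && b123 && b234 && b024 && b014) ||
      (b013 && b134 && b234 && b024 && b012) ||
      (b014 && b124 && b234 && b023 && b013) ||
      (b014 && b134 && b234 && b023 && b012) ||
      (b012 && b123 && b134 && b034 && b024) ||
      (b012 && b124 && b134 && b034 && b023) ||
      (b023 && b123 && b134 && b014 && b024) ||
      (b024 && b124 && b134 && b013 && b023) ||
      (b013 && b123 && b124 && b024 && b034) ||
      (b023 && b123 && b124 && b014 && b034)) = false →
    0 ≤ 72900000 - 27000000 * ne b012 b013 b014 b023 b024 b034 b123 b124 b134 b234
      - 3 * (QT b012 b013 b023 b123 b014 b024 b124 +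
        QT b013 b012 b023 b123 b014 b034 b134 +
        QT b014 b012 b024 b124 b013 b034 b134 +
        QT b023 b012 b013 b123 b024 b034 b234 +
        QT b024 b012 b014 b124 b023 b034 b234 +
        QT b034 b013 b014 b134 b023 b024 b234 +
        QT b123 b012 b013 b023 b124 b134 b234 +
        QT b124 b012 b014 b024 b123 b134 b234 +
        QT b134 b013 b014 b034 b123 b124 b234 +
        QT b234 b023 b024 b034 b123 b124 b134)
      - 2 * (QZ b012 b034 + QZ b013 b024 + QZ b014 b023 + QZ b012 b134 + QZ b013 b124 + QZ b014 b123 + QZ b012 b234 + QZ b023 b124 + QZ b024 b123 + QZ b013 b234 + QZ b023 b134 + QZ b034 b123 + QZ b014 b234 + QZ b024 b134 + QZ b034 b124) := by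
  decide +kernel

end Pool.Agent.Helper585.Acute.KM
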