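import Mathlib
import Pool.Agent.Helper585.Acute.Defs2
import Pool.Agent.Helper585.Acute.Poly

/-!
Triangles with all angles greater than 45 degrees.
-/

set_option autoImplicit false

namespace Pool.Agent.Helper585.Acute.J

open scoped Classical
open Filter

/-- the three points span a triangle with all angles at least `α` -/
noncomputable def low {n : ℕ} (α : ℝ) (P : Fin n → EuclideanSpace ℝ (Fin 2)) (a b c : Fin n) :
    Bool :=
  decide (a ≠ b ∧ b ≠ c ∧ a ≠ c ∧ α ≤ EuclideanGeometry.angle (P a) (P b) (P c) ∧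
    α ≤ EuclideanGeometry.angle (P b) (P a) (P c) ∧ α ≤ EuclideanGeometry.angle (P a) (P c) (P b))

theorem low_s1 {n : ℕ} (α : ℝ) (P : Fin n → EuclideanSpace ℝ (Fin 2)) (a b c : Fin n) :
    low α P a b c = low α P b a c := by
  unfold low
  rw [EuclideanGeometry.angle_comm (P b) (P c) (P a)]
  congr 1
  apply propext
  constructor
  · rintro ⟨h1, h2, h3, h4, h5, h6⟩
    exact ⟨h1.symm, h3, h2, h5, h4, h6⟩
  · rintro ⟨h1, h2, h3, h4, h5, h6⟩
    exact ⟨h1.symm, h3, h2, h5, h4, h6⟩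

theorem low_s2 {n : ℕ} (α : ℝ) (P : Fin n → EuclideanSpace ℝ (Fin 2)) (a b c : Fin n) :
    low α P a b c = low α P a c b := by
  unfold low
  rw [EuclideanGeometry.angle_comm (P c) (P a) (P b)]
  congr 1
  apply propext
  constructor
  · rintro ⟨h1, h2, h3, h4, h5, h6⟩
    exact ⟨h3, h2.symm, h1, h6, h5, h4⟩
  · rintro ⟨h1, h2, h3, h4, h5, h6⟩
    exact ⟨h3, h2.symm, h1, h6, h5, h4⟩

/-- every other triangle has an angle less than `α` -/
theorem low_lower {n : ℕ} (α : ℝ) (P : Fin n → EuclideanSpace ℝ (Fin 2)) (T : ℝ)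
    (hT : ((∑ a, ∑ b, ∑ c, ((low α P a b c).toNat : ℤ) : ℤ) : ℝ) ≤ T) :
    ((n : ℝ) * (n - 1) * (n - 2) - T) / 6 ≤ cnt (fun a => a < α) P := by
  set u : Fin n → Fin n → Fin n → ℝ := fun a b c =>
    if a < c ∧ b ≠ a ∧ b ≠ c ∧ EuclideanGeometry.angle (P a) (P b) (P c) < α then 1 else 0 with hu
  set w : Fin n → Fin n → Fin n → ℝ := fun a b c =>
    if a ≠ b ∧ b ≠ c ∧ a ≠ c ∧ EuclideanGeometry.angle (P a) (P b) (P c) < α then 1 else 0 with hw
  have hcnt : (cnt (fun a => a < α) P : ℝ) = ∑ a, ∑ b, ∑ c, u a b c := by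
    unfold cnt
    rw [Finset.card_filter]
    push_cast
    rw [Fintype.sum_prod_type]
    refine Finset.sum_congr rfl fun a _ => ?_
    rw [Fintype.sum_prod_type]
  have hu0 : ∀ a b c, 0 ≤ u a b c := by
    intro a b c
    simp only [hu]
    split_ifs <;> norm_num
  have hw0 : ∀ a b c, 0 ≤ w a b c := by
    intro a b c
    simp only [hw]
    split_ifs <;> norm_num
  have hwu : ∀ a b c, w a b c ≤ u a b c + u c b a := by
    intro a b c
    by_cases h : a ≠ b ∧ b ≠ c ∧ a ≠ c ∧ EuclideanGeometry.angle (P a) (P b) (P c) < α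
    · have hw1 : w a b c = 1 := if_pos h
      obtain ⟨h1, h2, h3, h4⟩ := h
      rcases lt_or_gt_of_ne h3 with h5 | h5
      · have : u a b c = 1 := if_pos ⟨h5, h1.symm, h2, h4⟩
        linarith [hu0 c b a]
      · have : u c b a = 1 := if_pos ⟨h5, h2, h1.symm, by
          rw [EuclideanGeometry.angle_comm]; exact h4⟩
        linarith [hu0 a b c]
    · have hw1 : w a b c = 0 := if_neg h
      linarith [hu0 a b c, hu0 c b a]
  have hWsum : ∑ a, ∑ b, ∑ c, w a b c ≤ 2 * (cnt (fun a => a < α) P : ℝ) := by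
    have h1 : ∑ a, ∑ b, ∑ c, u c b a = ∑ a, ∑ b, ∑ c, u a b c := by
      rw [Finset.sum_comm]
      calc ∑ b, ∑ a, ∑ c, u c b a = ∑ b, ∑ c, ∑ a, u c b a := by
            refine Finset.sum_congr rfl fun b _ => ?_
            rw [Finset.sum_comm]
        _ = ∑ c, ∑ b, ∑ a, u c b a := by rw [Finset.sum_comm]
    calc ∑ a, ∑ b, ∑ c, w a b c ≤ ∑ a, ∑ b, ∑ c, (u a b c + u c b a) := by
          refine Finset.sum_le_sum fun a _ => Finset.sum_le_sum fun b _ =>
            Finset.sum_le_sum fun c _ => hwu a b c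
      _ = ∑ a, ∑ b, ∑ c, u a b c + ∑ a, ∑ b, ∑ c, u c b a := by
          simp only [Finset.sum_add_distrib]
      _ = 2 * (cnt (fun a => a < α) P : ℝ) := by rw [h1, hcnt]; ring
  have hpt : ∀ a b c : Fin n, (1 : ℝ) - (if a = b then 1 else 0) - (if b = c then 1 else 0) -
      (if a = c then 1 else 0) + 2 * ((if a = b then 1 else 0) * (if b = c then 1 else 0)) ≤
      ((low α P a b c).toNat : ℝ) + (w a b c + w b a c + w a c b) := by
    intro a b c
    have hl0 : (0 : ℝ) ≤ ((low α P a b c).toNat : ℝ) := by positivity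
    by_cases h1 : a = b
    · subst h1
      by_cases h2 : a = c
      · subst h2
        simp only [if_true]
        linarith [hw0 a a a]
      · simp only [if_true, if_neg h2]
        linarith [hw0 a a c, hw0 a c a]
    · by_cases h2 : b = c
      · subst h2
        simp only [if_true, if_neg h1]
        linarith [hw0 a b b, hw0 b a b]
      · by_cases h3 : a = c
        · subst h3
          simp only [if_true, if_neg h1, if_neg h2]
          linarith [hw0 a b a, hw0 b a a, hw0 a a b]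
        · simp only [if_neg h1, if_neg h2, if_neg h3]
          by_cases h4 : EuclideanGeometry.angle (P a) (P b) (P c) < α
          · have : w a b c = 1 := if_pos ⟨h1, h2, h3, h4⟩
            linarith [hw0 b a c, hw0 a c b]
          · by_cases h5 : EuclideanGeometry.angle (P b) (P a) (P c) < α
            · have : w b a c = 1 := if_pos ⟨Ne.symm h1, h3, h2, h5⟩
              linarith [hw0 a b c, hw0 a c b]
            · by_cases h6 : EuclideanGeometry.angle (P a) (P c) (P b) < α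
              · have : w a c b = 1 := if_pos ⟨h3, Ne.symm h2, h1, h6⟩
                linarith [hw0 a b c, hw0 b a c]
              · have : low α P a b c = true := by
                  unfold low
                  exact decide_eq_true ⟨h1, h2, h3, not_lt.1 h4, not_lt.1 h5, not_lt.1 h6⟩
                rw [this]
                simp only [Bool.toNat_true, Nat.cast_one]
                linarith [hw0 a b c, hw0 b a c, hw0 a c b]
  have hsum : ∑ a : Fin n, ∑ b : Fin n, ∑ c : Fin n, ((1 : ℝ) - (if a = b then 1 else 0) -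
      (if b = c then 1 else 0) - (if a = c then 1 else 0) +
      2 * ((if a = b then 1 else 0) * (if b = c then 1 else 0))) = (n : ℝ) * (n - 1) * (n - 2) := by
    simp only [Finset.sum_add_distrib, Finset.sum_sub_distrib, ← Finset.mul_sum,
      Finset.sum_ite_eq, Finset.mem_univ, if_true, Finset.sum_const, Finset.card_univ,
      Fintype.card_fin, nsmul_eq_mul, mul_one]
    ring
  have hle : ∑ a : Fin n, ∑ b : Fin n, ∑ c : Fin n, ((1 : ℝ) - (if a = b then 1 else 0) -
      (if b = c then 1 else 0) - (if a = c then 1 else 0) +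
      2 * ((if a = b then 1 else 0) * (if b = c then 1 else 0))) ≤
      ∑ a, ∑ b, ∑ c, (((low α P a b c).toNat : ℝ) + (w a b c + w b a c + w a c b)) :=
    Finset.sum_le_sum fun a _ => Finset.sum_le_sum fun b _ => Finset.sum_le_sum fun c _ =>
      hpt a b c
  rw [hsum] at hle
  simp only [Finset.sum_add_distrib] at hle
  have e1 : ∑ a, ∑ b, ∑ c, w b a c = ∑ a, ∑ b, ∑ c, w a b c := by
    rw [Finset.sum_comm]
  have e2 : ∑ a, ∑ b, ∑ c, w a c b = ∑ a, ∑ b, ∑ c, w a b c := by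
    refine Finset.sum_congr rfl fun a _ => ?_
    rw [Finset.sum_comm]
  rw [e1, e2] at hle
  push_cast at hT
  linarith

theorem k4_cross (u v : EuclideanSpace ℝ (Fin 2)) (hu : u ≠ 0) (hv : v ≠ 0)
    (h0 : 0 < InnerProductGeometry.angle u v) (h1 : InnerProductGeometry.angle u v < Real.pi) :
    u 0 * v 1 - u 1 * v 0 ≠ 0 := by
  intro hc
  have h := InnerProductGeometry.sin_angle_mul_norm_mul_norm u v
  have hs := Real.sin_pos_of_pos_of_lt_pi h0 h1
  have e : inner ℝ u u * inner ℝ v v - inner ℝ u v * inner ℝ u v =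
      (u 0 * v 1 - u 1 * v 0) ^ 2 := by
    simp only [PiLp.inner_apply, Fin.sum_univ_two, RCLike.inner_apply, conj_trivial]
    ring
  rw [e, hc] at h
  have h2 : (0 : ℝ) ^ 2 = 0 := by norm_num
  rw [h2, Real.sqrt_zero] at h
  have h3 : 0 < Real.sin (InnerProductGeometry.angle u v) * (‖u‖ * ‖v‖) :=
    mul_pos hs (mul_pos (norm_pos_iff.2 hu) (norm_pos_iff.2 hv))
  linarith

theorem k4_key (u v w : EuclideanSpace ℝ (Fin 2)) (h1 : 0 < u 0 * v 1 - u 1 * v 0)
    (h2 : 0 < v 0 * w 1 - v 1 * w 0)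
    (huv : Real.pi / 4 < InnerProductGeometry.angle u v ∧
      InnerProductGeometry.angle u v < Real.pi / 2)
    (hvw : Real.pi / 4 < InnerProductGeometry.angle v w ∧
      InnerProductGeometry.angle v w < Real.pi / 2)
    (huw : Real.pi / 4 < InnerProductGeometry.angle u w ∧
      InnerProductGeometry.angle u w < Real.pi / 2) : False := by
  have hpi := Real.pi_pos
  rcases three_dirs u v w h1 h2 with ⟨-, h⟩ | ⟨-, h⟩
  · linarith [huv.1, hvw.1, huw.2]
  · linarith [huv.2, hvw.2, huw.2]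

theorem k4_ang {n : ℕ} (α : ℝ) (hα : Real.pi / 4 < α) (P : Fin n → EuclideanSpace ℝ (Fin 2))
    (hP : GenPos P) (a b c : Fin n) (h : low α P a b c = true) :
    P b - P a ≠ 0 ∧ P c - P a ≠ 0 ∧
    (Real.pi / 4 < InnerProductGeometry.angle (P b - P a) (P c - P a) ∧
      InnerProductGeometry.angle (P b - P a) (P c - P a) < Real.pi / 2) := by
  unfold low at h
  rw [decide_eq_true_iff] at h
  obtain ⟨hab, hbc, hac, h1, h2, h3⟩ := h
  have hsum := EuclideanGeometry.angle_add_angle_add_angle_eq_pi (P c)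
    (show P b ≠ P a from fun h => hab (hP.1 h).symm)
  rw [EuclideanGeometry.angle_comm (P b) (P c) (P a),
    EuclideanGeometry.angle_comm (P c) (P a) (P b)] at hsum
  have e : EuclideanGeometry.angle (P b) (P a) (P c) =
      InnerProductGeometry.angle (P b - P a) (P c - P a) := rfl
  rw [e] at h2 hsum
  refine ⟨sub_ne_zero.2 fun h => hab (hP.1 h).symm, sub_ne_zero.2 fun h => hac (hP.1 h).symm, ?_, ?_⟩
  · linarith
  · linarith

/-- three triangles with a common vertex on four points -/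
theorem no_k4m {n : ℕ} (α : ℝ) (hα : Real.pi / 4 < α) (P : Fin n → EuclideanSpace ℝ (Fin 2))
    (hP : GenPos P) (a b c d : Fin n) :
    ¬ (low α P a b c = true ∧ low α P a b d = true ∧ low α P a c d = true) := by

  rintro ⟨h1, h2, h3⟩
  obtain ⟨hu, hv, huv⟩ := k4_ang α hα P hP a b c h1
  obtain ⟨-, hw, huw⟩ := k4_ang α hα P hP a b d h2
  obtain ⟨-, -, hvw⟩ := k4_ang α hα P hP a c d h3
  set u := P b - P a
  set v := P c - P a
  set w := P d - P a
  have hpi := Real.pi_pos
  have c1 := k4_cross u v hu hv (by linarith [huv.1]) (by linarith [huv.2])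
  have c2 := k4_cross v w hv hw (by linarith [hvw.1]) (by linarith [hvw.2])
  have c3 := k4_cross u w hu hw (by linarith [huw.1]) (by linarith [huw.2])
  have hvu := huv
  have hwv := hvw
  have hwu := huw
  rw [InnerProductGeometry.angle_comm] at hvu hwv hwu
  rcases lt_or_gt_of_ne c1 with s1 | s1 <;> rcases lt_or_gt_of_ne c2 with s2 | s2 <;>
    rcases lt_or_gt_of_ne c3 with s3 | s3
  · -- uv<0, vw<0, uw<0 : (w, v, u)
    exact k4_key w v u (by linarith) (by linarith) hwv hvu hwu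
  · exact k4_key w v u (by linarith) (by linarith) hwv hvu hwu
  · -- uv<0, vw>0, uw<0: vw>0, wu>0: (v, w, u)
    exact k4_key v w u (by linarith) (by linarith) hvw hwu hvu
  · -- uv<0, vw>0, uw>0: vu>0, uw>0: (v,u,w)
    exact k4_key v u w (by linarith) (by linarith) hvu huw hvw
  · -- uv>0, vw<0, uw<0: wu>0, uv>0: (w,u,v)
    exact k4_key w u v (by linarith) (by linarith) hwu huv hwv
  · -- uv>0, vw<0, uw>0: uw>0, wv>0: (u,w,v)
    exact k4_key u w v (by linarith) (by linarith) huw hwv huv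
  · exact k4_key u v w (by linarith) (by linarith) huv hvw huw
  · exact k4_key u v w (by linarith) (by linarith) huv hvw huw

theorem fs_zero (a b : ℝ) (h : 0 = a ^ 2 + b ^ 2) : a = 0 ∧ b = 0 := by
  constructor
  · have : a ^ 2 = 0 := by linarith [sq_nonneg a, sq_nonneg b]
    exact pow_eq_zero_iff (two_ne_zero) |>.1 this
  · have : b ^ 2 = 0 := by linarith [sq_nonneg a, sq_nonneg b]
    exact pow_eq_zero_iff (two_ne_zero) |>.1 this

theorem fs_pos (V Vc : ℝ) (h : 0 < V + Vc) (h' : 0 < Vc - V) : 0 < V ^ 2 + Vc ^ 2 := by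
  have : 0 < Vc := by linarith
  positivity

/-- four consecutive triangles of the same orientation (in coordinates: an angle greater than 45
degrees at a vertex of a positively oriented triangle means that the cross product is larger than
the inner product) -/
theorem four_same (x0 y0 x1 y1 x2 y2 x3 y3 x4 y4 : ℝ)
    (o1 : 0 < (x2 - x1) * (y3 - y1) - (y2 - y1) * (x3 - x1))
    (o2 : 0 < (x3 - x2) * (y4 - y2) - (y3 - y2) * (x4 - x2))
    -- triangle 0 1 2: angles at 1 and 2
    (a1 : (x0 - x1) * (x2 - x1) + (y0 - y1) * (y2 - y1) <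
      (x1 - x0) * (y2 - y0) - (y1 - y0) * (x2 - x0))
    (a2 : (x0 - x2) * (x1 - x2) + (y0 - y2) * (y1 - y2) <
      (x1 - x0) * (y2 - y0) - (y1 - y0) * (x2 - x0))
    -- triangle 1 2 3: angles at 2 and 3
    (b2 : (x1 - x2) * (x3 - x2) + (y1 - y2) * (y3 - y2) <
      (x2 - x1) * (y3 - y1) - (y2 - y1) * (x3 - x1))
    (b3 : (x1 - x3) * (x2 - x3) + (y1 - y3) * (y2 - y3) <
      (x2 - x1) * (y3 - y1) - (y2 - y1) * (x3 - x1))
    -- triangle 2 3 4: angles at 2 and 3
    (c2 : (x3 - x2) * (x4 - x2) + (y3 - y2) * (y4 - y2) <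
      (x3 - x2) * (y4 - y2) - (y3 - y2) * (x4 - x2))
    (c3 : (x2 - x3) * (x4 - x3) + (y2 - y3) * (y4 - y3) <
      (x3 - x2) * (y4 - y2) - (y3 - y2) * (x4 - x2))
    -- triangle 3 4 0: angles at 3 and 4
    (d3 : (x4 - x3) * (x0 - x3) + (y4 - y3) * (y0 - y3) <
      (x4 - x3) * (y0 - y3) - (y4 - y3) * (x0 - x3))
    (d4 : (x3 - x4) * (x0 - x4) + (y3 - y4) * (y0 - y4) <
      (x4 - x3) * (y0 - y3) - (y4 - y3) * (x0 - x3)) : False := by
  obtain ⟨n, hn⟩ : ∃ n, n = (x3 - x2) ^ 2 + (y3 - y2) ^ 2 := ⟨_, rfl⟩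
  obtain ⟨V, hV⟩ : ∃ V, V = (x1 - x2) * (x3 - x2) + (y1 - y2) * (y3 - y2) := ⟨_, rfl⟩
  obtain ⟨Vc, hVc⟩ : ∃ V, V = (x3 - x2) * (y1 - y2) - (y3 - y2) * (x1 - x2) := ⟨_, rfl⟩
  obtain ⟨p, hp⟩ : ∃ V, V = (x4 - x3) * (x3 - x2) + (y4 - y3) * (y3 - y2) := ⟨_, rfl⟩
  obtain ⟨q, hq⟩ : ∃ V, V = (x3 - x2) * (y4 - y3) - (y3 - y2) * (x4 - x3) := ⟨_, rfl⟩
  obtain ⟨Z, hZ⟩ : ∃ V, V = (x0 - x2) * (x3 - x2) + (y0 - y2) * (y3 - y2) := ⟨_, rfl⟩
  obtain ⟨Zc, hZc⟩ : ∃ V, V = (x3 - x2) * (y0 - y2) - (y3 - y2) * (x0 - x2) := ⟨_, rfl⟩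
  have hn0 : 0 < n := by
    rcases (show 0 ≤ n by rw [hn]; positivity).lt_or_eq with h | h
    · exact h
    · exfalso
      rw [hn] at h
      obtain ⟨e1, e2⟩ := fs_zero _ _ h
      have e3 : (x2 - x1) * (y3 - y1) - (y2 - y1) * (x3 - x1) = 0 := by
        have e4 : x3 = x2 := by linarith only [e1]
        have e5 : y3 = y2 := by linarith only [e2]
        rw [e4, e5]; ring
      linarith only [e3, o1]
  have h1 : V < Vc := by rw [hV, hVc]; linarith only [b2]
  have h2 : n - V < Vc := by rw [hn, hV, hVc]; linarith only [b3]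
  have h3 : p + n < q := by rw [hn, hp, hq]; linarith only [c2]
  have h4 : 0 < p + q := by rw [hp, hq]; linarith only [c3]
  have A1 : V ^ 2 + Vc ^ 2 < Z * (V + Vc) + Zc * (Vc - V) := by
    have := mul_lt_mul_of_pos_right a1 hn0
    rw [hn] at this
    rw [hV, hVc, hZ, hZc]
    linarith only [this]
  have A2 : 0 < Z * (Vc - V) - Zc * (V + Vc) := by
    have := mul_lt_mul_of_pos_right a2 hn0
    rw [hn] at this
    rw [hV, hVc, hZ, hZc]
    linarith only [this]
  have D3 : (Z - n) * (p + q) + Zc * (q - p) < 0 := by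
    have := mul_lt_mul_of_pos_right d3 hn0
    rw [hn] at this
    rw [hn, hp, hq, hZ, hZc]
    linarith only [this]
  have D4 : p ^ 2 + q ^ 2 < (Z - n) * (p - q) + Zc * (p + q) := by
    have := mul_lt_mul_of_pos_right d4 hn0
    rw [hn] at this
    rw [hn, hp, hq, hZ, hZc]
    linarith only [this]
  have hVV : 0 < V + Vc := by linarith only [h2, hn0]
  have hVm : 0 < Vc - V := by linarith only [h1]
  have hs1 : 0 < V ^ 2 + Vc ^ 2 := fs_pos V Vc hVV hVm
  have hZ1 : V + Vc < 2 * Z := by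
    have t1 := mul_lt_mul_of_pos_right A1 hVV
    have t2 := mul_pos A2 hVm
    have t3 : (V ^ 2 + Vc ^ 2) * (V + Vc) < (V ^ 2 + Vc ^ 2) * (2 * Z) := by linarith only [t1, t2]
    exact lt_of_mul_lt_mul_left t3 hs1.le
  have hqp : 0 < q - p := by linarith only [h3, hn0]
  have hs2 : 0 < p ^ 2 + q ^ 2 := fs_pos p q h4 hqp
  have hZ2 : q - p < -2 * (Z - n) := by
    have t1 := mul_lt_mul_of_pos_right D4 hqp
    have t2 := mul_lt_mul_of_pos_right D3 h4
    have t3 : (p ^ 2 + q ^ 2) * (q - p) < (p ^ 2 + q ^ 2) * (-2 * (Z - n)) := by linarith only [t1, t2]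
    exact lt_of_mul_lt_mul_left t3 hs2.le
  linarith only [hZ1, hZ2, h2, h3]

set_option maxHeartbeats 2000000 in
/-- closing condition: no closed pentagon with three turns to one side and two to the other, all
turning angles between a right angle and three quarters of a straight angle -/
theorem no_close (z : Fin 5 → ℂ) (hz : z 0 * z 1 * z 2 * z 3 * z 4 = 1)
    (h : ∀ i, Real.pi / 2 < |(z i).arg| ∧ |(z i).arg| < 3 * Real.pi / 4) :
    (∀ i : Fin 5, 0 < (z i).arg → 0 < (z (i + 1)).arg → 0 < (z (i + 2)).arg →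
      (z (i + 3)).arg < 0) →
    (∀ i : Fin 5, (z i).arg < 0 → (z (i + 1)).arg < 0 → (z (i + 2)).arg < 0 →
      0 < (z (i + 3)).arg) → False := by
  intro H1 H2
  have hpi := Real.pi_pos
  have hne : ∀ i, z i ≠ 0 := by
    intro i hi
    have := (h i).1
    rw [hi, Complex.arg_zero, abs_zero] at this
    linarith
  have hs : (((z 0).arg + (z 1).arg + (z 2).arg + (z 3).arg + (z 4).arg : ℝ) : Real.Angle) = 0 := by
    have h0 := congrArg (fun w : ℂ => (w.arg : Real.Angle)) hz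
    simp only [Complex.arg_one] at h0
    rw [Complex.arg_mul_coe_angle (mul_ne_zero (mul_ne_zero (mul_ne_zero (hne 0) (hne 1)) (hne 2)) (hne 3)) (hne 4),
      Complex.arg_mul_coe_angle (mul_ne_zero (mul_ne_zero (hne 0) (hne 1)) (hne 2)) (hne 3),
      Complex.arg_mul_coe_angle (mul_ne_zero (hne 0) (hne 1)) (hne 2),
      Complex.arg_mul_coe_angle (hne 0) (hne 1)] at h0
    simpa using h0
  obtain ⟨n, hn⟩ := Real.Angle.coe_eq_zero_iff.1 hs
  have hsgn : ∀ i, (Real.pi / 2 < (z i).arg ∧ (z i).arg < 3 * Real.pi / 4) ∨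
      (-(3 * Real.pi / 4) < (z i).arg ∧ (z i).arg < -(Real.pi / 2)) := by
    intro i
    obtain ⟨h1, h2⟩ := h i
    rcases lt_or_ge 0 (z i).arg with hp | hp
    · left
      rw [abs_of_pos hp] at h1 h2
      exact ⟨h1, h2⟩
    · right
      rw [abs_of_nonpos hp] at h1 h2
      constructor <;> linarith
  rw [zsmul_eq_mul] at hn
  set s := (z 0).arg + (z 1).arg + (z 2).arg + (z 3).arg + (z 4).arg with hsdef
  have k1 : ¬ (0 < s ∧ s < 2 * Real.pi) := by
    rintro ⟨h1, h2⟩
    rw [← hn] at h1 h2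
    have h3 : (0:ℝ) < n := by
      by_contra hc
      push Not at hc
      nlinarith
    have h4 : (1:ℤ) ≤ n := by
      have : (0:ℤ) < n := by exact_mod_cast h3
      omega
    have h5 : (1:ℝ) ≤ n := by exact_mod_cast h4
    nlinarith
  have k2 : ¬ (-(2 * Real.pi) < s ∧ s < 0) := by
    rintro ⟨h1, h2⟩
    rw [← hn] at h1 h2
    have h3 : (n:ℝ) < 0 := by
      by_contra hc
      push Not at hc
      nlinarith
    have h4 : n ≤ (-1:ℤ) := by
      have : n < (0:ℤ) := by exact_mod_cast h3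
      omega
    have h5 : (n:ℝ) ≤ -1 := by exact_mod_cast h4
    nlinarith
  have a0 : 0 < (z 0).arg → 0 < (z 1).arg → 0 < (z 2).arg → (z 3).arg < 0 := H1 0
  have a1 : 0 < (z 1).arg → 0 < (z 2).arg → 0 < (z 3).arg → (z 4).arg < 0 := H1 1
  have a2 : 0 < (z 2).arg → 0 < (z 3).arg → 0 < (z 4).arg → (z 0).arg < 0 := H1 2
  have a3 : 0 < (z 3).arg → 0 < (z 4).arg → 0 < (z 0).arg → (z 1).arg < 0 := H1 3
  have a4 : 0 < (z 4).arg → 0 < (z 0).arg → 0 < (z 1).arg → (z 2).arg < 0 := H1 4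
  have b0 : (z 0).arg < 0 → (z 1).arg < 0 → (z 2).arg < 0 → 0 < (z 3).arg := H2 0
  have b1 : (z 1).arg < 0 → (z 2).arg < 0 → (z 3).arg < 0 → 0 < (z 4).arg := H2 1
  have b2 : (z 2).arg < 0 → (z 3).arg < 0 → (z 4).arg < 0 → 0 < (z 0).arg := H2 2
  have b3 : (z 3).arg < 0 → (z 4).arg < 0 → (z 0).arg < 0 → 0 < (z 1).arg := H2 3
  have b4 : (z 4).arg < 0 → (z 0).arg < 0 → (z 1).arg < 0 → 0 < (z 2).arg := H2 4
  rcases hsgn 0 with ⟨p0, q0⟩ | ⟨p0, q0⟩ <;> rcases hsgn 1 with ⟨p1, q1⟩ | ⟨p1, q1⟩ <;>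
  rcases hsgn 2 with ⟨p2, q2⟩ | ⟨p2, q2⟩ <;> rcases hsgn 3 with ⟨p3, q3⟩ | ⟨p3, q3⟩ <;>
  rcases hsgn 4 with ⟨p4, q4⟩ | ⟨p4, q4⟩ <;>
  first
  | (exfalso; apply k1; constructor <;> linarith)
  | (exfalso; apply k2; constructor <;> linarith)
  | (exfalso; have := a0 (by linarith) (by linarith) (by linarith); linarith)
  | (exfalso; have := a1 (by linarith) (by linarith) (by linarith); linarith)
  | (exfalso; have := a2 (by linarith) (by linarith) (by linarith); linarith)
  | (exfalso; have := a3 (by linarith) (by linarith) (by linarith); linarith)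
  | (exfalso; have := a4 (by linarith) (by linarith) (by linarith); linarith)
  | (exfalso; have := b0 (by linarith) (by linarith) (by linarith); linarith)
  | (exfalso; have := b1 (by linarith) (by linarith) (by linarith); linarith)
  | (exfalso; have := b2 (by linarith) (by linarith) (by linarith); linarith)
  | (exfalso; have := b3 (by linarith) (by linarith) (by linarith); linarith)
  | (exfalso; have := b4 (by linarith) (by linarith) (by linarith); linarith)

theorem ang_facts (p q r : EuclideanSpace ℝ (Fin 2))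
    (h1 : Real.pi / 4 < EuclideanGeometry.angle p q r)
    (h2 : EuclideanGeometry.angle p q r < Real.pi / 2) :
    0 < (p 0 - q 0) * (r 0 - q 0) + (p 1 - q 1) * (r 1 - q 1) ∧
    (p 0 - q 0) * (r 0 - q 0) + (p 1 - q 1) * (r 1 - q 1) <
      |(p 0 - q 0) * (r 1 - q 1) - (p 1 - q 1) * (r 0 - q 0)| := by
  have hpi := Real.pi_pos
  have hu : p -ᵥ q ≠ 0 := by
    intro h0
    unfold EuclideanGeometry.angle at h2
    rw [h0, InnerProductGeometry.angle_zero_left] at h2
    exact lt_irrefl _ h2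
  have hv : r -ᵥ q ≠ 0 := by
    intro h0
    unfold EuclideanGeometry.angle at h2
    rw [h0, InnerProductGeometry.angle_zero_right] at h2
    exact lt_irrefl _ h2
  have hN : 0 < ‖p -ᵥ q‖ * ‖r -ᵥ q‖ := mul_pos (norm_pos_iff.2 hu) (norm_pos_iff.2 hv)
  have hc : 0 < Real.cos (EuclideanGeometry.angle p q r) :=
    Real.cos_pos_of_mem_Ioo ⟨by linarith, h2⟩
  have hsc : Real.cos (EuclideanGeometry.angle p q r) <
      Real.sin (EuclideanGeometry.angle p q r) := by
    have e1 : Real.cos (EuclideanGeometry.angle p q r) < Real.cos (Real.pi / 4) :=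
      Real.cos_lt_cos_of_nonneg_of_le_pi (by linarith) (by linarith) h1
    have e2 : Real.sin (Real.pi / 4) < Real.sin (EuclideanGeometry.angle p q r) :=
      Real.sin_lt_sin_of_lt_of_le_pi_div_two (by linarith) (by linarith) h1
    rw [Real.cos_pi_div_four] at e1
    rw [Real.sin_pi_div_four] at e2
    exact e1.trans e2
  have k1 := InnerProductGeometry.cos_angle_mul_norm_mul_norm (p -ᵥ q) (r -ᵥ q)
  have k2 := InnerProductGeometry.sin_angle_mul_norm_mul_norm (p -ᵥ q) (r -ᵥ q)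
  have i1 : inner ℝ (p -ᵥ q) (r -ᵥ q) =
      (p 0 - q 0) * (r 0 - q 0) + (p 1 - q 1) * (r 1 - q 1) := by
    simp [PiLp.inner_apply, Fin.sum_univ_two]; ring
  have i2 : inner ℝ (p -ᵥ q) (p -ᵥ q) =
      (p 0 - q 0) * (p 0 - q 0) + (p 1 - q 1) * (p 1 - q 1) := by
    simp only [PiLp.inner_apply, Fin.sum_univ_two]; simp; ring
  have i3 : inner ℝ (r -ᵥ q) (r -ᵥ q) =
      (r 0 - q 0) * (r 0 - q 0) + (r 1 - q 1) * (r 1 - q 1) := by
    simp only [PiLp.inner_apply, Fin.sum_univ_two]; simp; ring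
  rw [i1, i2, i3] at k2
  rw [i1] at k1
  have k3 : ((p 0 - q 0) * (p 0 - q 0) + (p 1 - q 1) * (p 1 - q 1)) *
      ((r 0 - q 0) * (r 0 - q 0) + (r 1 - q 1) * (r 1 - q 1)) -
      ((p 0 - q 0) * (r 0 - q 0) + (p 1 - q 1) * (r 1 - q 1)) *
      ((p 0 - q 0) * (r 0 - q 0) + (p 1 - q 1) * (r 1 - q 1)) =
      ((p 0 - q 0) * (r 1 - q 1) - (p 1 - q 1) * (r 0 - q 0)) ^ 2 := by ring
  rw [k3, Real.sqrt_sq_eq_abs] at k2
  rw [← k2, ← k1]
  constructor
  · exact mul_pos hc hN
  · exact mul_lt_mul_of_pos_right hsc hN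

theorem tri_facts {n : ℕ} (α : ℝ) (hα : Real.pi / 4 < α) (P : Fin n → EuclideanSpace ℝ (Fin 2))
    (hP : GenPos P) (a b c : Fin n) (h : low α P a b c = true) :
    0 < (P a 0 - P b 0) * (P c 0 - P b 0) + (P a 1 - P b 1) * (P c 1 - P b 1) ∧
    (P b 0 - P a 0) * (P c 0 - P a 0) + (P b 1 - P a 1) * (P c 1 - P a 1) <
      |(P b 0 - P a 0) * (P c 1 - P a 1) - (P b 1 - P a 1) * (P c 0 - P a 0)| ∧
    (P a 0 - P b 0) * (P c 0 - P b 0) + (P a 1 - P b 1) * (P c 1 - P b 1) <
      |(P b 0 - P a 0) * (P c 1 - P a 1) - (P b 1 - P a 1) * (P c 0 - P a 0)| ∧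
    (P a 0 - P c 0) * (P b 0 - P c 0) + (P a 1 - P c 1) * (P b 1 - P c 1) <
      |(P b 0 - P a 0) * (P c 1 - P a 1) - (P b 1 - P a 1) * (P c 0 - P a 0)| := by
  have h' := of_decide_eq_true h
  obtain ⟨hab, hbc, hac, g1, g2, g3⟩ := h'
  have hinj := hP.1
  have hs := EuclideanGeometry.angle_add_angle_add_angle_eq_pi (P c) (hinj.ne hab.symm)
  rw [EuclideanGeometry.angle_comm (P b) (P c) (P a),
    EuclideanGeometry.angle_comm (P c) (P a) (P b)] at hs
  have f1 := ang_facts (P a) (P b) (P c) (by linarith) (by linarith)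
  have f2 := ang_facts (P b) (P a) (P c) (by linarith) (by linarith)
  have f3 := ang_facts (P a) (P c) (P b) (by linarith) (by linarith)
  have e1 : |(P a 0 - P b 0) * (P c 1 - P b 1) - (P a 1 - P b 1) * (P c 0 - P b 0)| =
      |(P b 0 - P a 0) * (P c 1 - P a 1) - (P b 1 - P a 1) * (P c 0 - P a 0)| := by
    rw [← abs_neg]; congr 1; ring
  have e3 : |(P a 0 - P c 0) * (P b 1 - P c 1) - (P a 1 - P c 1) * (P b 0 - P c 0)| =
      |(P b 0 - P a 0) * (P c 1 - P a 1) - (P b 1 - P a 1) * (P c 0 - P a 0)| := by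
    congr 1; ring
  rw [e1] at f1
  rw [e3] at f3
  exact ⟨f1.1, f2.2, f1.2, f3.2⟩

theorem arg_facts (z : ℂ) (h1 : z.re < 0) (h2 : z.re ^ 2 < z.im ^ 2) :
    Real.pi / 2 < |z.arg| ∧ |z.arg| < 3 * Real.pi / 4 := by
  have hpi := Real.pi_pos
  have hz : z ≠ 0 := by
    intro h; rw [h] at h1; simp at h1
  constructor
  · by_contra hcon
    rw [not_lt, Complex.abs_arg_le_pi_div_two_iff] at hcon
    linarith
  · by_contra hcon
    push Not at hcon
    have h3 : Real.cos |z.arg| ≤ Real.cos (3 * Real.pi / 4) :=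
      Real.cos_le_cos_of_nonneg_of_le_pi (by positivity) (Complex.abs_arg_le_pi z) hcon
    rw [Real.cos_abs, Complex.cos_arg hz] at h3
    have h4 : Real.cos (3 * Real.pi / 4) = -(Real.sqrt 2 / 2) := by
      rw [show 3 * Real.pi / 4 = Real.pi - Real.pi / 4 by ring, Real.cos_pi_sub,
        Real.cos_pi_div_four]
    rw [h4] at h3
    have hn : 0 < ‖z‖ := norm_pos_iff.2 hz
    rw [div_le_iff₀ hn] at h3
    have h5 : ‖z‖ ^ 2 = z.re ^ 2 + z.im ^ 2 := by
      rw [← Complex.normSq_eq_norm_sq, Complex.normSq_apply]; ring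
    have h6 : Real.sqrt 2 ^ 2 = 2 := Real.sq_sqrt (by norm_num)
    have h7 : 0 ≤ Real.sqrt 2 := Real.sqrt_nonneg 2
    have h8 : (Real.sqrt 2 / 2 * ‖z‖) ^ 2 ≤ (-z.re) ^ 2 := by
      apply pow_le_pow_left₀ (by positivity)
      linarith
    have h9 : (Real.sqrt 2 / 2 * ‖z‖) ^ 2 = (Real.sqrt 2 ^ 2) * ‖z‖ ^ 2 / 4 := by ring
    rw [h9, h6, h5] at h8
    nlinarith

theorem core5 (x y : Fin 5 → ℝ) (H : ∀ i : Fin 5,
    0 < (x i - x (i + 1)) * (x (i + 2) - x (i + 1)) +
      (y i - y (i + 1)) * (y (i + 2) - y (i + 1)) ∧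
    (x (i + 1) - x i) * (x (i + 2) - x i) + (y (i + 1) - y i) * (y (i + 2) - y i) <
      |(x (i + 1) - x i) * (y (i + 2) - y i) - (y (i + 1) - y i) * (x (i + 2) - x i)| ∧
    (x i - x (i + 1)) * (x (i + 2) - x (i + 1)) + (y i - y (i + 1)) * (y (i + 2) - y (i + 1)) <
      |(x (i + 1) - x i) * (y (i + 2) - y i) - (y (i + 1) - y i) * (x (i + 2) - x i)| ∧
    (x i - x (i + 2)) * (x (i + 1) - x (i + 2)) + (y i - y (i + 2)) * (y (i + 1) - y (i + 2)) <
      |(x (i + 1) - x i) * (y (i + 2) - y i) - (y (i + 1) - y i) * (x (i + 2) - x i)|) :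
    False := by
  obtain ⟨D, hD⟩ : ∃ D : Fin 5 → ℝ, ∀ i, D i =
    (x (i + 1) - x i) * (y (i + 2) - y i) - (y (i + 1) - y i) * (x (i + 2) - x i) :=
    ⟨_, fun _ => rfl⟩
  simp only [← hD] at H
  have hD0 : ∀ i, D i ≠ 0 := by
    intro i h0
    have := H i
    rw [h0, abs_zero] at this
    linarith [this.1, this.2.2.1]
  have n1 : ∀ j : Fin 5, j + 1 + 1 = j + 2 := by decide
  have n2 : ∀ j : Fin 5, j + 1 + 2 = j + 3 := by decide
  have n3 : ∀ j : Fin 5, j + 2 + 1 = j + 3 := by decide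
  have n4 : ∀ j : Fin 5, j + 2 + 2 = j + 4 := by decide
  have n5 : ∀ j : Fin 5, j + 3 + 1 = j + 4 := by decide
  have n6 : ∀ j : Fin 5, j + 3 + 2 = j := by decide
  have pos4 : ∀ j, 0 < D j → 0 < D (j + 1) → 0 < D (j + 2) → 0 < D (j + 3) → False := by
    intro j h0 h1 h2 h3
    have a := H j
    have b := H (j + 1)
    have c := H (j + 2)
    have d := H (j + 3)
    rw [abs_of_pos h0] at a
    rw [abs_of_pos h1] at b
    rw [abs_of_pos h2] at c
    rw [abs_of_pos h3] at d
    simp only [hD, n1, n2, n3, n4, n5, n6] at a b c d h0 h1 h2 h3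
    exact four_same (x j) (y j) (x (j + 1)) (y (j + 1)) (x (j + 2)) (y (j + 2)) (x (j + 3))
      (y (j + 3)) (x (j + 4)) (y (j + 4)) h1 h2 a.2.2.1 a.2.2.2 b.2.2.1 b.2.2.2
      c.2.1 c.2.2.1 d.2.1 d.2.2.1
  have neg4 : ∀ j, D j < 0 → D (j + 1) < 0 → D (j + 2) < 0 → D (j + 3) < 0 → False := by
    intro j h0 h1 h2 h3
    have a := H j
    have b := H (j + 1)
    have c := H (j + 2)
    have d := H (j + 3)
    rw [abs_of_neg h0] at a
    rw [abs_of_neg h1] at b
    rw [abs_of_neg h2] at c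
    rw [abs_of_neg h3] at d
    simp only [hD, n1, n2, n3, n4, n5, n6] at a b c d h0 h1 h2 h3
    exact four_same (x j) (-y j) (x (j + 1)) (-y (j + 1)) (x (j + 2)) (-y (j + 2)) (x (j + 3))
      (-y (j + 3)) (x (j + 4)) (-y (j + 4)) (by linarith) (by linarith)
      (by linarith [a.2.2.1]) (by linarith [a.2.2.2]) (by linarith [b.2.2.1])
      (by linarith [b.2.2.2]) (by linarith [c.2.1]) (by linarith [c.2.2.1])
      (by linarith [d.2.1]) (by linarith [d.2.2.1])
  obtain ⟨w, hw⟩ : ∃ w : Fin 5 → ℂ, ∀ i, w i = ⟨x (i + 1) - x i, y (i + 1) - y i⟩ :=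
    ⟨_, fun _ => rfl⟩
  have hwre : ∀ i, (w i).re = x (i + 1) - x i := fun i => by rw [hw]
  have hwim : ∀ i, (w i).im = y (i + 1) - y i := fun i => by rw [hw]
  have hw0 : ∀ i, w i ≠ 0 := by
    intro i h0
    have e1 : x (i + 1) - x i = 0 := by rw [← hwre, h0]; rfl
    have e2 : y (i + 1) - y i = 0 := by rw [← hwim, h0]; rfl
    have := (H i).1
    rw [show x i - x (i + 1) = 0 by linarith, show y i - y (i + 1) = 0 by linarith] at this
    simp at this
  obtain ⟨z, hz⟩ : ∃ z : Fin 5 → ℂ, ∀ i, z i = w (i + 1) / w i := ⟨_, fun _ => rfl⟩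
  have hNS : ∀ i, 0 < Complex.normSq (w i) := fun i => Complex.normSq_pos.2 (hw0 i)
  have hre : ∀ i, (z i).re = -((x i - x (i + 1)) * (x (i + 2) - x (i + 1)) +
      (y i - y (i + 1)) * (y (i + 2) - y (i + 1))) / Complex.normSq (w i) := by
    intro i
    rw [hz, Complex.div_re, hwre, hwre, hwim, hwim, n1]
    ring
  have him : ∀ i, (z i).im = D i / Complex.normSq (w i) := by
    intro i
    rw [hz, Complex.div_im, hwre, hwre, hwim, hwim, n1, hD]
    ring
  have hpos : ∀ i, 0 < (z i).arg → 0 < D i := by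
    intro i hi
    have h1 : 0 ≤ (z i).im := Complex.arg_nonneg_iff.1 hi.le
    rw [him] at h1
    have h2 : 0 ≤ D i := by
      by_contra hc
      push Not at hc
      have := div_neg_of_neg_of_pos hc (hNS i)
      linarith
    exact lt_of_le_of_ne h2 (hD0 i).symm
  have hneg : ∀ i, (z i).arg < 0 → D i < 0 := by
    intro i hi
    have h1 : (z i).im < 0 := Complex.arg_neg_iff.1 hi
    rw [him] at h1
    by_contra hc
    push Not at hc
    have := div_nonneg hc (hNS i).le
    linarith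
  have harg : ∀ i, Real.pi / 2 < |(z i).arg| ∧ |(z i).arg| < 3 * Real.pi / 4 := by
    intro i
    apply arg_facts
    · rw [hre]
      exact div_neg_of_neg_of_pos (neg_neg_of_pos (H i).1) (hNS i)
    · rw [hre, him, div_pow, div_pow]
      apply div_lt_div_of_pos_right _ (pow_pos (hNS i) 2)
      rw [neg_sq, ← sq_abs (D i)]
      exact pow_lt_pow_left₀ (H i).2.2.1 (H i).1.le (by norm_num)
  refine no_close z ?_ harg ?_ ?_
  · simp only [hz]
    have m0 : (0 + 1 : Fin 5) = 1 := rfl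
    have m1 : (1 + 1 : Fin 5) = 2 := rfl
    have m2 : (2 + 1 : Fin 5) = 3 := rfl
    have m3 : (3 + 1 : Fin 5) = 4 := rfl
    have m4 : (4 + 1 : Fin 5) = 0 := rfl
    rw [m0, m1, m2, m3, m4]
    have := hw0 0
    have := hw0 1
    have := hw0 2
    have := hw0 3
    have := hw0 4
    field_simp
  · intro i h0 h1 h2
    by_contra hcon
    apply pos4 i (hpos i h0) (hpos _ h1) (hpos _ h2)
    rcases lt_trichotomy (D (i + 3)) 0 with h | h | h
    · exfalso
      apply hcon
      rw [Complex.arg_neg_iff, him]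
      exact div_neg_of_neg_of_pos h (hNS _)
    · exact absurd h (hD0 _)
    · exact h
  · intro i h0 h1 h2
    by_contra hcon
    apply neg4 i (hneg i h0) (hneg _ h1) (hneg _ h2)
    rcases lt_trichotomy (D (i + 3)) 0 with h | h | h
    · exact h
    · exact absurd h (hD0 _)
    · exfalso
      have h3 := (harg (i + 3)).1
      have h4 : 0 ≤ (z (i + 3)).arg := by
        rw [Complex.arg_nonneg_iff, him]
        exact (div_pos h (hNS _)).le
      have h5 : (z (i + 3)).arg = 0 := le_antisymm (not_lt.1 hcon) h4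
      rw [h5, abs_zero] at h3
      linarith [Real.pi_pos]

/-- five triangles in cyclic order on five points -/
theorem no_c5 {n : ℕ} (α : ℝ) (hα : Real.pi / 4 < α) (P : Fin n → EuclideanSpace ℝ (Fin 2))
    (hP : GenPos P) (a b c d e : Fin n) :
    ¬ (low α P a b c = true ∧ low α P b c d = true ∧ low α P c d e = true ∧
      low α P d e a = true ∧ low α P e a b = true) := by
  rintro ⟨h0, h1, h2, h3, h4⟩
  have t0 := tri_facts α hα P hP a b c h0
  have t1 := tri_facts α hα P hP b c d h1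
  have t2 := tri_facts α hα P hP c d e h2
  have t3 := tri_facts α hα P hP d e a h3
  have t4 := tri_facts α hα P hP e a b h4
  apply core5 ![P a 0, P b 0, P c 0, P d 0, P e 0] ![P a 1, P b 1, P c 1, P d 1, P e 1]
  intro i
  fin_cases i
  · exact t0
  · exact t1
  · exact t2
  · exact t3
  · exact t4

end Pool.Agent.Helper585.Acute.J
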