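import Mathlib
import Pool.Agent.Helper585.Acute.Final6
import Pool.Agent.Helper585.Acute.Low4
import Pool.Agent.Helper585.Acute.KM2

/-!
The jump of G at pi / 4.
-/

set_option autoImplicit false

namespace Pool.Agent.Helper585.Acute.J

open scoped Classical
open Filter

theorem G_gt4 (α : ℝ) (hα : Real.pi / 4 < α) : (73 : ℝ) / 300 ≤ G α := by
  have h := ge_lim (fun a => a < α) (G α) (G_tendsto α) (73 / 600) (1 / 2) (by
    intro n P hP
    have hk : ∀ a b c d, (low α P a b c && low α P a b d && low α P a c d) = false := by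
      intro a b c d
      have h := no_k4m α hα P hP a b c d
      revert h
      cases low α P a b c <;> cases low α P a b d <;> cases low α P a c d <;> simp
    have hc : ∀ a b c d e, (low α P a b c && low α P b c d && low α P c d e && low α P d e a &&
        low α P e a b) = false := by
      intro a b c d e
      have h := no_c5 α hα P hP a b c d e
      revert h
      cases low α P a b c <;> cases low α P b c d <;> cases low α P c d e <;>
        cases low α P d e a <;> cases low α P e a b <;> simp
    have hd := KM.density (low α P) (low_s1 α P) (low_s2 α P) hk hc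
    rw [Fintype.card_fin] at hd
    have hd' : ((∑ a, ∑ b, ∑ c, ((low α P a b c).toNat : ℤ) : ℤ) : ℝ) ≤
        2700 / 10000 * (n : ℝ) ^ 3 := by
      have h2 : ((10000 * ∑ a, ∑ b, ∑ c, ((low α P a b c).toNat : ℤ) : ℤ) : ℝ) ≤
          ((2700 * (n : ℤ) ^ 3 : ℤ) : ℝ) := by exact_mod_cast hd
      push_cast at h2 ⊢
      linarith
    have hb := low_lower α P _ hd'
    have hn : (0 : ℝ) ≤ n := Nat.cast_nonneg n
    nlinarith)
  linarith

/-- a lower bound for `G` to the right of a point holds at the point -/
theorem G_ge_right (α c : ℝ) (h : ∀ x, α < x → c ≤ G x) : c ≤ G α := by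
  have h1 : Tendsto G (nhdsWithin α (Set.Ioi α)) (nhds (G α)) :=
    (G_right α).tendsto.mono_left (nhdsWithin_mono α Set.Ioi_subset_Ici_self)
  refine ge_of_tendsto h1 ?_
  filter_upwards [self_mem_nhdsWithin] with x hx
  exact h x hx

theorem G_quarter : (73 : ℝ) / 300 ≤ G (Real.pi / 4) := G_ge_right _ _ G_gt4

theorem G_lt4 (α : ℝ) (hα : α < Real.pi / 4) : G α ≤ 11 / 48 := by
  have h := G_le 4 (by norm_num) α (by push_cast; exact hα)
  norm_num at h
  linarith

theorem G_not4 : ¬ ContinuousAt G (Real.pi / 4) := by
  intro h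
  have h1 : Tendsto G (nhdsWithin (Real.pi / 4) (Set.Iio (Real.pi / 4)))
      (nhds (G (Real.pi / 4))) := h.tendsto.mono_left nhdsWithin_le_nhds
  have h2 : G (Real.pi / 4) ≤ 11 / 48 := by
    refine le_of_tendsto h1 ?_
    filter_upwards [self_mem_nhdsWithin] with x hx
    exact G_lt4 x hx
  have h3 := G_quarter
  norm_num at h2 h3
  linarith

end Pool.Agent.Helper585.Acute.J
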